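import Pool.Agent.Gen.F5.X12CD3Cm2.S000
import Pool.Agent.Gen.F5.X12CD3Cm2.S001
import Pool.Agent.Gen.F5.X12CD3Cm2.S002
import Pool.Agent.Gen.F5.X12CD3Cm2.S003
import Pool.Agent.Gen.F5.X12CD3Cm2.S004
import Pool.Agent.Gen.F5.X12CD3Cm2.S005
import Pool.Agent.Gen.F5.X12CD3Cm2.S006
import Pool.Agent.Gen.F5.X12CD3Cm2.S007
import Pool.Agent.Gen.F5.X12CD3Cm2.S008
import Pool.Agent.Gen.F5.X12CD3Cm2.S009
import Pool.Agent.Gen.F5.X12CD3Cm2.S010
import Pool.Agent.Gen.F5.X12CD3Cm2.S011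

set_option autoImplicit false
set_option maxRecDepth 100000

namespace Pool.Agent.Gen.F5.X12CD3Cm2

open Pool.Agent.Helper72.F5

def n0 : Cl (O (nat_lit 2)) (R (nat_lit 14353))
    (p (nat_lit 0x10000c) (nat_lit 0) (p (nat_lit 0x89) (nat_lit 0) (p (nat_lit 0x109) (nat_lit 1) (p (nat_lit 0x111) (nat_lit 0) (p (nat_lit 0x41) (nat_lit 0) (p (nat_lit 0xb0014) (nat_lit 0) (p (nat_lit 0xb0004) (nat_lit 0) (p (nat_lit 0x20000c) (nat_lit 0) (p (nat_lit 0xd1) (nat_lit 1) (p (nat_lit 0x109) (nat_lit 1) (p (nat_lit 0x101) (nat_lit 0) (p (nat_lit 0x119) (nat_lit 0) (p (nat_lit 0xc9) (nat_lit 0) (p (nat_lit 0x89) (nat_lit 1) (p (nat_lit 0x41) (nat_lit 0) (p (nat_lit 0x88090887069a) (nat_lit 0) (p (nat_lit 0x87870806861a) (nat_lit 0) (p (nat_lit 0x80000000070786058a) (nat_lit 0) (p (nat_lit 0x8787058502) (nat_lit 0) (p (nat_lit 0x8586850482) (nat_lit 0) (p (nat_lit 0x160014) (nat_lit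 0) (p (nat_lit 0x160004) (nat_lit 0) (p (nat_lit 0x68612) (nat_lit 0) (p (nat_lit 0x50592) (nat_lit 0) (p (nat_lit 0x40512) (nat_lit 0) (p (nat_lit 0x50312) (nat_lit 0) (p (nat_lit 0x38292) (nat_lit 0) (p (nat_lit 0x28212) (nat_lit 0) (p (nat_lit 0x38112) (nat_lit 0) (p (nat_lit 0x20092) (nat_lit 0) (p (nat_lit 0x10012) (nat_lit 0) pn))))))))))))))))))))))))))))))) :=
  Cl.node (nat_lit 0x58004) (nat_lit 2) (by decide +kernel) (ClAll.succ (ClAll.succ ClAll.zero s92) s93)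

def n1 : Cl (O (nat_lit 2)) (R (nat_lit 14353))
    (p (nat_lit 0x10000c) (nat_lit 0) (p (nat_lit 0x109) (nat_lit 0) (p (nat_lit 0x89) (nat_lit 1) (p (nat_lit 0x111) (nat_lit 1) (p (nat_lit 0x41) (nat_lit 0) (p (nat_lit 0xb0014) (nat_lit 0) (p (nat_lit 0xb0004) (nat_lit 0) (p (nat_lit 0x20000c) (nat_lit 0) (p (nat_lit 0xd1) (nat_lit 1) (p (nat_lit 0x109) (nat_lit 1) (p (nat_lit 0x101) (nat_lit 0) (p (nat_lit 0x119) (nat_lit 0) (p (nat_lit 0xc9) (nat_lit 0) (p (nat_lit 0x89) (nat_lit 1) (p (nat_lit 0x41) (nat_lit 0) (p (nat_lit 0x88090887069a) (nat_lit 0) (p (nat_lit 0x87870806861a) (nat_lit 0) (p (nat_lit 0x80000000070786058a) (nat_lit 0) (p (nat_lit 0x8787058502) (nat_lit 0) (p (nat_lit 0x8586850482) (nat_lit 0) (p (nat_lit 0x160014) (nat_lit 0) (p (nat_lit 0x160004) (nat_lit 0) (p (nat_lit 0x68612) (nat_lit 0) (p (nat_lit 0x50592) (nat_lit 0) (p (nat_lit 0x40512) (nat_lit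 0) (p (nat_lit 0x50312) (nat_lit 0) (p (nat_lit 0x38292) (nat_lit 0) (p (nat_lit 0x28212) (nat_lit 0) (p (nat_lit 0x38112) (nat_lit 0) (p (nat_lit 0x20092) (nat_lit 0) (p (nat_lit 0x10012) (nat_lit 0) pn))))))))))))))))))))))))))))))) :=
  Cl.node (nat_lit 0x58004) (nat_lit 2) (by decide +kernel) (ClAll.succ (ClAll.succ ClAll.zero s99) s100)

def n2 : Cl (O (nat_lit 2)) (R (nat_lit 14353))
    (p (nat_lit 0x111) (nat_lit 1) (p (nat_lit 0x41) (nat_lit 0) (p (nat_lit 0x898a8a08881a) (nat_lit 0) (p (nat_lit 0x89088988079a) (nat_lit 0) (p (nat_lit 0x2a82580000088907870a) (nat_lit 0) (p (nat_lit 0xb0014) (nat_lit 1) (p (nat_lit 0xb0004) (nat_lit 0) (p (nat_lit 0x20000c) (nat_lit 0) (p (nat_lit 0xd1) (nat_lit 1) (p (nat_lit 0x109) (nat_lit 1) (p (nat_lit 0x101) (nat_lit 0) (p (nat_lit 0x119) (nat_lit 0) (p (nat_lit 0xc9) (nat_lit 0) (p (nat_lit 0x89) (nat_lit 1) (p (nat_lit 0x41)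 (nat_lit 0) (p (nat_lit 0x88090887069a) (nat_lit 0) (p (nat_lit 0x87870806861a) (nat_lit 0) (p (nat_lit 0x80000000070786058a) (nat_lit 0) (p (nat_lit 0x8787058502) (nat_lit 0) (p (nat_lit 0x8586850482) (nat_lit 0) (p (nat_lit 0x160014) (nat_lit 0) (p (nat_lit 0x160004) (nat_lit 0) (p (nat_lit 0x68612) (nat_lit 0) (p (nat_lit 0x50592) (nat_lit 0) (p (nat_lit 0x40512) (nat_lit 0) (p (nat_lit 0x50312) (nat_lit 0) (p (nat_lit 0x38292) (nat_lit 0) (p (nat_lit 0x28212) (nat_lit 0) (p (nat_lit 0x38112) (nat_lit 0) (p (nat_lit 0x20092) (nat_lit 0) (p (nat_lit 0x10012) (nat_lit 0) pn))))))))))))))))))))))))))))))) :=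
  Cl.node (nat_lit 0x89) (nat_lit 2) (by decide +kernel) (ClAll.succ (ClAll.succ ClAll.zero s105) s106)

def n3 : Cl (O (nat_lit 2)) (R (nat_lit 14353))
    (p (nat_lit 0x10000c) (nat_lit 0) (p (nat_lit 0x41) (nat_lit 1) (p (nat_lit 0x89) (nat_lit 1) (p (nat_lit 0x81) (nat_lit 0) (p (nat_lit 0x109) (nat_lit 1) (p (nat_lit 0xb0014) (nat_lit 0) (p (nat_lit 0xb0004) (nat_lit 0) (p (nat_lit 0x20000c) (nat_lit 0) (p (nat_lit 0xd1) (nat_lit 1) (p (nat_lit 0xc1) (nat_lit 0) (p (nat_lit 0x101) (nat_lit 1) (p (nat_lit 0x119) (nat_lit 0) (p (nat_lit 0xc9) (nat_lit 0) (p (nat_lit 0x89) (nat_lit 1) (p (nat_lit 0x41) (nat_lit 0) (p (nat_lit 0x88090887069a) (nat_lit 0) (p (nat_lit 0x87870806861a) (nat_lit 0) (p (nat_lit 0x80000000070786058a) (nat_lit 0) (p (nat_lit 0x8787058502) (nat_lit 0) (p (nat_lit 0x8586850482) (nat_lit 0) (p (nat_lit 0x160014) (nat_lit 0) (p (nat_lit 0x160004) (nat_lit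 0) (p (nat_lit 0x68612) (nat_lit 0) (p (nat_lit 0x50592) (nat_lit 0) (p (nat_lit 0x40512) (nat_lit 0) (p (nat_lit 0x50312) (nat_lit 0) (p (nat_lit 0x38292) (nat_lit 0) (p (nat_lit 0x28212) (nat_lit 0) (p (nat_lit 0x38112) (nat_lit 0) (p (nat_lit 0x20092) (nat_lit 0) (p (nat_lit 0x10012) (nat_lit 0) pn))))))))))))))))))))))))))))))) :=
  Cl.node (nat_lit 0x58004) (nat_lit 2) (by decide +kernel) (ClAll.succ (ClAll.succ ClAll.zero s123) s124)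

def n4 : Cl (O (nat_lit 2)) (R (nat_lit 14353))
    (p (nat_lit 0x81) (nat_lit 0) (p (nat_lit 0x109) (nat_lit 1) (p (nat_lit 0x898a8a08881a) (nat_lit 0) (p (nat_lit 0x89088988079a) (nat_lit 0) (p (nat_lit 0x2a82580000088907870a) (nat_lit 0) (p (nat_lit 0xb0014) (nat_lit 1) (p (nat_lit 0xb0004) (nat_lit 0) (p (nat_lit 0x20000c) (nat_lit 0) (p (nat_lit 0xd1) (nat_lit 1) (p (nat_lit 0xc1) (nat_lit 0) (p (nat_lit 0x101) (nat_lit 1) (p (nat_lit 0x119) (nat_lit 0) (p (nat_lit 0xc9) (nat_lit 0) (p (nat_lit 0x89) (nat_lit 1) (p (nat_lit 0x41) (nat_lit 0) (p (nat_lit 0x88090887069a) (nat_lit 0) (p (nat_lit 0x87870806861a) (nat_lit 0) (p (nat_lit 0x80000000070786058a) (nat_lit 0) (p (nat_lit 0x8787058502) (nat_lit 0) (p (nat_lit 0x8586850482) (nat_lit 0) (p (nat_lit 0x160014) (nat_lit 0) (p (nat_lit 0x160004) (nat_lit 0) (p (nat_lit 0x68612) (nat_lit 0) (p (nat_lit 0x50592) (nat_lit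 0) (p (nat_lit 0x40512) (nat_lit 0) (p (nat_lit 0x50312) (nat_lit 0) (p (nat_lit 0x38292) (nat_lit 0) (p (nat_lit 0x28212) (nat_lit 0) (p (nat_lit 0x38112) (nat_lit 0) (p (nat_lit 0x20092) (nat_lit 0) (p (nat_lit 0x10012) (nat_lit 0) pn))))))))))))))))))))))))))))))) :=
  Cl.node (nat_lit 0x89) (nat_lit 2) (by decide +kernel) (ClAll.succ (ClAll.succ ClAll.zero s129) s130)

def n5 : Cl (O (nat_lit 2)) (R (nat_lit 14353))
    (p (nat_lit 0x10000c) (nat_lit 0) (p (nat_lit 0x109) (nat_lit 0) (p (nat_lit 0x111) (nat_lit 0) (p (nat_lit 0x41) (nat_lit 0) (p (nat_lit 0xb0014) (nat_lit 0) (p (nat_lit 0xb0004) (nat_lit 0) (p (nat_lit 0x20000c) (nat_lit 0) (p (nat_lit 0xd1) (nat_lit 1) (p (nat_lit 0x109) (nat_lit 1) (p (nat_lit 0x101) (nat_lit 0) (p (nat_lit 0x119) (nat_lit 0) (p (nat_lit 0xc9) (nat_lit 0) (p (nat_lit 0x89) (nat_lit 1) (p (nat_lit 0x41) (nat_lit 0) (p (nat_lit 0x88090887069a)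 (nat_lit 0) (p (nat_lit 0x87870806861a) (nat_lit 0) (p (nat_lit 0x80000000070786058a) (nat_lit 0) (p (nat_lit 0x8787058502) (nat_lit 0) (p (nat_lit 0x8586850482) (nat_lit 0) (p (nat_lit 0x160014) (nat_lit 0) (p (nat_lit 0x160004) (nat_lit 0) (p (nat_lit 0x68612) (nat_lit 0) (p (nat_lit 0x50592) (nat_lit 0) (p (nat_lit 0x40512) (nat_lit 0) (p (nat_lit 0x50312) (nat_lit 0) (p (nat_lit 0x38292) (nat_lit 0) (p (nat_lit 0x28212) (nat_lit 0) (p (nat_lit 0x38112) (nat_lit 0) (p (nat_lit 0x20092) (nat_lit 0) (p (nat_lit 0x10012) (nat_lit 0) pn)))))))))))))))))))))))))))))) :=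
  Cl.node (nat_lit 0x58004) (nat_lit 2) (by decide +kernel) (ClAll.succ (ClAll.succ ClAll.zero s89) s90)

def n6 : Cl (O (nat_lit 2)) (R (nat_lit 14353))
    (p (nat_lit 0x89) (nat_lit 0) (p (nat_lit 0x109) (nat_lit 1) (p (nat_lit 0x111) (nat_lit 0) (p (nat_lit 0x41) (nat_lit 0) (p (nat_lit 0xb0014) (nat_lit 0) (p (nat_lit 0xb0004) (nat_lit 0) (p (nat_lit 0x20000c) (nat_lit 0) (p (nat_lit 0xd1) (nat_lit 1) (p (nat_lit 0x109) (nat_lit 1) (p (nat_lit 0x101) (nat_lit 0) (p (nat_lit 0x119) (nat_lit 0) (p (nat_lit 0xc9) (nat_lit 0) (p (nat_lit 0x89) (nat_lit 1) (p (nat_lit 0x41) (nat_lit 0) (p (nat_lit 0x88090887069a) (nat_lit 0) (p (nat_lit 0x87870806861a) (nat_lit 0) (p (nat_lit 0x80000000070786058a) (nat_lit 0) (p (nat_lit 0x8787058502) (nat_lit 0) (p (nat_lit 0x8586850482) (nat_lit 0) (p (nat_lit 0x160014) (nat_lit 0) (p (nat_lit 0x160004) (nat_lit 0) (p (nat_lit 0x68612)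 (nat_lit 0) (p (nat_lit 0x50592) (nat_lit 0) (p (nat_lit 0x40512) (nat_lit 0) (p (nat_lit 0x50312) (nat_lit 0) (p (nat_lit 0x38292) (nat_lit 0) (p (nat_lit 0x28212) (nat_lit 0) (p (nat_lit 0x38112) (nat_lit 0) (p (nat_lit 0x20092) (nat_lit 0) (p (nat_lit 0x10012) (nat_lit 0) pn)))))))))))))))))))))))))))))) :=
  Cl.node (nat_lit 0x10000c) (nat_lit 2) (by decide +kernel) (ClAll.succ (ClAll.succ ClAll.zero n0) s94)

def n7 : Cl (O (nat_lit 2)) (R (nat_lit 14353))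
    (p (nat_lit 0x81) (nat_lit 1) (p (nat_lit 0x89) (nat_lit 0) (p (nat_lit 0x111) (nat_lit 1) (p (nat_lit 0x41) (nat_lit 0) (p (nat_lit 0xb0014) (nat_lit 0) (p (nat_lit 0xb0004) (nat_lit 0) (p (nat_lit 0x20000c) (nat_lit 0) (p (nat_lit 0xd1) (nat_lit 1) (p (nat_lit 0x109) (nat_lit 1) (p (nat_lit 0x101) (nat_lit 0) (p (nat_lit 0x119) (nat_lit 0) (p (nat_lit 0xc9) (nat_lit 0) (p (nat_lit 0x89) (nat_lit 1) (p (nat_lit 0x41) (nat_lit 0) (p (nat_lit 0x88090887069a) (nat_lit 0) (p (nat_lit 0x87870806861a) (nat_lit 0) (p (nat_lit 0x80000000070786058a) (nat_lit 0) (p (nat_lit 0x8787058502) (nat_lit 0) (p (nat_lit 0x8586850482) (nat_lit 0) (p (nat_lit 0x160014) (nat_lit 0) (p (nat_lit 0x160004) (nat_lit 0) (p (nat_lit 0x68612) (nat_lit 0) (p (nat_lit 0x50592) (nat_lit 0) (p (nat_lit 0x40512) (nat_lit 0) (p (nat_lit 0x50312) (nat_lit 0) (p (nat_lit 0x38292) (nat_lit 0) (p (nat_lit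 0x28212) (nat_lit 0) (p (nat_lit 0x38112) (nat_lit 0) (p (nat_lit 0x20092) (nat_lit 0) (p (nat_lit 0x10012) (nat_lit 0) pn)))))))))))))))))))))))))))))) :=
  Cl.node (nat_lit 0x10000c) (nat_lit 2) (by decide +kernel) (ClAll.succ (ClAll.succ ClAll.zero s97) s98)

def n8 : Cl (O (nat_lit 2)) (R (nat_lit 14353))
    (p (nat_lit 0x109) (nat_lit 0) (p (nat_lit 0x89) (nat_lit 1) (p (nat_lit 0x111) (nat_lit 1) (p (nat_lit 0x41) (nat_lit 0) (p (nat_lit 0xb0014) (nat_lit 0) (p (nat_lit 0xb0004) (nat_lit 0) (p (nat_lit 0x20000c) (nat_lit 0) (p (nat_lit 0xd1) (nat_lit 1) (p (nat_lit 0x109) (nat_lit 1) (p (nat_lit 0x101) (nat_lit 0) (p (nat_lit 0x119) (nat_lit 0) (p (nat_lit 0xc9) (nat_lit 0) (p (nat_lit 0x89) (nat_lit 1) (p (nat_lit 0x41) (nat_lit 0) (p (nat_lit 0x88090887069a) (nat_lit 0) (p (nat_lit 0x87870806861a) (nat_lit 0) (p (nat_lit 0x80000000070786058a) (nat_lit 0) (p (nat_lit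 0x8787058502) (nat_lit 0) (p (nat_lit 0x8586850482) (nat_lit 0) (p (nat_lit 0x160014) (nat_lit 0) (p (nat_lit 0x160004) (nat_lit 0) (p (nat_lit 0x68612) (nat_lit 0) (p (nat_lit 0x50592) (nat_lit 0) (p (nat_lit 0x40512) (nat_lit 0) (p (nat_lit 0x50312) (nat_lit 0) (p (nat_lit 0x38292) (nat_lit 0) (p (nat_lit 0x28212) (nat_lit 0) (p (nat_lit 0x38112) (nat_lit 0) (p (nat_lit 0x20092) (nat_lit 0) (p (nat_lit 0x10012) (nat_lit 0) pn)))))))))))))))))))))))))))))) :=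
  Cl.node (nat_lit 0x10000c) (nat_lit 2) (by decide +kernel) (ClAll.succ (ClAll.succ ClAll.zero n1) s101)

def n9 : Cl (O (nat_lit 2)) (R (nat_lit 14353))
    (p (nat_lit 0x41) (nat_lit 0) (p (nat_lit 0x898a8a08881a) (nat_lit 0) (p (nat_lit 0x89088988079a) (nat_lit 0) (p (nat_lit 0x2a82580000088907870a) (nat_lit 0) (p (nat_lit 0xb0014) (nat_lit 1) (p (nat_lit 0xb0004) (nat_lit 0) (p (nat_lit 0x20000c) (nat_lit 0) (p (nat_lit 0xd1) (nat_lit 1) (p (nat_lit 0x109) (nat_lit 1) (p (nat_lit 0x101) (nat_lit 0) (p (nat_lit 0x119) (nat_lit 0) (p (nat_lit 0xc9) (nat_lit 0) (p (nat_lit 0x89) (nat_lit 1) (p (nat_lit 0x41) (nat_lit 0) (p (nat_lit 0x88090887069a) (nat_lit 0) (p (nat_lit 0x87870806861a) (nat_lit 0) (p (nat_lit 0x80000000070786058a) (nat_lit 0) (p (nat_lit 0x8787058502) (nat_lit 0) (p (nat_lit 0x8586850482) (nat_lit 0) (p (nat_lit 0x160014) (nat_lit 0) (p (nat_lit 0x160004)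 (nat_lit 0) (p (nat_lit 0x68612) (nat_lit 0) (p (nat_lit 0x50592) (nat_lit 0) (p (nat_lit 0x40512) (nat_lit 0) (p (nat_lit 0x50312) (nat_lit 0) (p (nat_lit 0x38292) (nat_lit 0) (p (nat_lit 0x28212) (nat_lit 0) (p (nat_lit 0x38112) (nat_lit 0) (p (nat_lit 0x20092) (nat_lit 0) (p (nat_lit 0x10012) (nat_lit 0) pn)))))))))))))))))))))))))))))) :=
  Cl.node (nat_lit 0x111) (nat_lit 2) (by decide +kernel) (ClAll.succ (ClAll.succ ClAll.zero s104) n2)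

def n10 : Cl (O (nat_lit 2)) (R (nat_lit 14353))
    (p (nat_lit 0x41) (nat_lit 0) (p (nat_lit 0x898a8a08881a) (nat_lit 0) (p (nat_lit 0x89088988079a) (nat_lit 0) (p (nat_lit 0x2a82580000088907870a) (nat_lit 0) (p (nat_lit 0xb0014) (nat_lit 0) (p (nat_lit 0xb0004) (nat_lit 1) (p (nat_lit 0x20000c) (nat_lit 0) (p (nat_lit 0xd1) (nat_lit 1) (p (nat_lit 0x109) (nat_lit 1) (p (nat_lit 0x101) (nat_lit 0) (p (nat_lit 0x119) (nat_lit 0) (p (nat_lit 0xc9) (nat_lit 0) (p (nat_lit 0x89) (nat_lit 1) (p (nat_lit 0x41) (nat_lit 0) (p (nat_lit 0x88090887069a) (nat_lit 0) (p (nat_lit 0x87870806861a) (nat_lit 0) (p (nat_lit 0x80000000070786058a) (nat_lit 0) (p (nat_lit 0x8787058502) (nat_lit 0) (p (nat_lit 0x8586850482) (nat_lit 0) (p (nat_lit 0x160014) (nat_lit 0) (p (nat_lit 0x160004) (nat_lit 0) (p (nat_lit 0x68612) (nat_lit 0) (p (nat_lit 0x50592) (nat_lit 0) (p (nat_lit 0x40512) (nat_lit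 0) (p (nat_lit 0x50312) (nat_lit 0) (p (nat_lit 0x38292) (nat_lit 0) (p (nat_lit 0x28212) (nat_lit 0) (p (nat_lit 0x38112) (nat_lit 0) (p (nat_lit 0x20092) (nat_lit 0) (p (nat_lit 0x10012) (nat_lit 0) pn)))))))))))))))))))))))))))))) :=
  Cl.node (nat_lit 0x111) (nat_lit 2) (by decide +kernel) (ClAll.succ (ClAll.succ ClAll.zero s108) s109)

def n11 : Cl (O (nat_lit 2)) (R (nat_lit 14353))
    (p (nat_lit 0x111) (nat_lit 0) (p (nat_lit 0x89) (nat_lit 0) (p (nat_lit 0x81) (nat_lit 0) (p (nat_lit 0x109) (nat_lit 1) (p (nat_lit 0xb0014) (nat_lit 0) (p (nat_lit 0xb0004) (nat_lit 0) (p (nat_lit 0x20000c) (nat_lit 0) (p (nat_lit 0xd1) (nat_lit 1) (p (nat_lit 0xc1) (nat_lit 0) (p (nat_lit 0x101) (nat_lit 1) (p (nat_lit 0x119) (nat_lit 0) (p (nat_lit 0xc9) (nat_lit 0) (p (nat_lit 0x89) (nat_lit 1) (p (nat_lit 0x41) (nat_lit 0) (p (nat_lit 0x88090887069a) (nat_lit 0) (p (nat_lit 0x87870806861a)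 (nat_lit 0) (p (nat_lit 0x80000000070786058a) (nat_lit 0) (p (nat_lit 0x8787058502) (nat_lit 0) (p (nat_lit 0x8586850482) (nat_lit 0) (p (nat_lit 0x160014) (nat_lit 0) (p (nat_lit 0x160004) (nat_lit 0) (p (nat_lit 0x68612) (nat_lit 0) (p (nat_lit 0x50592) (nat_lit 0) (p (nat_lit 0x40512) (nat_lit 0) (p (nat_lit 0x50312) (nat_lit 0) (p (nat_lit 0x38292) (nat_lit 0) (p (nat_lit 0x28212) (nat_lit 0) (p (nat_lit 0x38112) (nat_lit 0) (p (nat_lit 0x20092) (nat_lit 0) (p (nat_lit 0x10012) (nat_lit 0) pn)))))))))))))))))))))))))))))) :=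
  Cl.node (nat_lit 0x10000c) (nat_lit 2) (by decide +kernel) (ClAll.succ (ClAll.succ ClAll.zero s119) s120)

def n12 : Cl (O (nat_lit 2)) (R (nat_lit 14353))
    (p (nat_lit 0x41) (nat_lit 1) (p (nat_lit 0x89) (nat_lit 1) (p (nat_lit 0x81) (nat_lit 0) (p (nat_lit 0x109) (nat_lit 1) (p (nat_lit 0xb0014) (nat_lit 0) (p (nat_lit 0xb0004) (nat_lit 0) (p (nat_lit 0x20000c) (nat_lit 0) (p (nat_lit 0xd1) (nat_lit 1) (p (nat_lit 0xc1) (nat_lit 0) (p (nat_lit 0x101) (nat_lit 1) (p (nat_lit 0x119) (nat_lit 0) (p (nat_lit 0xc9) (nat_lit 0) (p (nat_lit 0x89) (nat_lit 1) (p (nat_lit 0x41) (nat_lit 0) (p (nat_lit 0x88090887069a) (nat_lit 0) (p (nat_lit 0x87870806861a) (nat_lit 0) (p (nat_lit 0x80000000070786058a) (nat_lit 0) (p (nat_lit 0x8787058502) (nat_lit 0) (p (nat_lit 0x8586850482) (nat_lit 0) (p (nat_lit 0x160014) (nat_lit 0) (p (nat_lit 0x160004) (nat_lit 0) (p (nat_lit 0x68612)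 (nat_lit 0) (p (nat_lit 0x50592) (nat_lit 0) (p (nat_lit 0x40512) (nat_lit 0) (p (nat_lit 0x50312) (nat_lit 0) (p (nat_lit 0x38292) (nat_lit 0) (p (nat_lit 0x28212) (nat_lit 0) (p (nat_lit 0x38112) (nat_lit 0) (p (nat_lit 0x20092) (nat_lit 0) (p (nat_lit 0x10012) (nat_lit 0) pn)))))))))))))))))))))))))))))) :=
  Cl.node (nat_lit 0x10000c) (nat_lit 2) (by decide +kernel) (ClAll.succ (ClAll.succ ClAll.zero n3) s125)

def n13 : Cl (O (nat_lit 2)) (R (nat_lit 14353))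
    (p (nat_lit 0x109) (nat_lit 1) (p (nat_lit 0x898a8a08881a) (nat_lit 0) (p (nat_lit 0x89088988079a) (nat_lit 0) (p (nat_lit 0x2a82580000088907870a) (nat_lit 0) (p (nat_lit 0xb0014) (nat_lit 1) (p (nat_lit 0xb0004) (nat_lit 0) (p (nat_lit 0x20000c) (nat_lit 0) (p (nat_lit 0xd1) (nat_lit 1) (p (nat_lit 0xc1) (nat_lit 0) (p (nat_lit 0x101) (nat_lit 1) (p (nat_lit 0x119) (nat_lit 0) (p (nat_lit 0xc9) (nat_lit 0) (p (nat_lit 0x89) (nat_lit 1) (p (nat_lit 0x41) (nat_lit 0) (p (nat_lit 0x88090887069a) (nat_lit 0) (p (nat_lit 0x87870806861a) (nat_lit 0) (p (nat_lit 0x80000000070786058a) (nat_lit 0) (p (nat_lit 0x8787058502) (nat_lit 0) (p (nat_lit 0x8586850482) (nat_lit 0) (p (nat_lit 0x160014) (nat_lit 0) (p (nat_lit 0x160004) (nat_lit 0) (p (nat_lit 0x68612) (nat_lit 0) (p (nat_lit 0x50592) (nat_lit 0) (p (nat_lit 0x40512) (nat_lit 0) (p (nat_lit 0x50312) (nat_lit 0) (p (nat_lit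 0x38292) (nat_lit 0) (p (nat_lit 0x28212) (nat_lit 0) (p (nat_lit 0x38112) (nat_lit 0) (p (nat_lit 0x20092) (nat_lit 0) (p (nat_lit 0x10012) (nat_lit 0) pn)))))))))))))))))))))))))))))) :=
  Cl.node (nat_lit 0x81) (nat_lit 2) (by decide +kernel) (ClAll.succ (ClAll.succ ClAll.zero n4) s131)

def n14 : Cl (O (nat_lit 2)) (R (nat_lit 14353))
    (p (nat_lit 0xd1) (nat_lit 1) (p (nat_lit 0x898a8a08881a) (nat_lit 0) (p (nat_lit 0x89088988079a) (nat_lit 0) (p (nat_lit 0x2a82580000088907870a) (nat_lit 0) (p (nat_lit 0xb0014) (nat_lit 1) (p (nat_lit 0xb0004) (nat_lit 0) (p (nat_lit 0x20000c) (nat_lit 0) (p (nat_lit 0x111) (nat_lit 1) (p (nat_lit 0x101) (nat_lit 0) (p (nat_lit 0xc1) (nat_lit 1) (p (nat_lit 0x119) (nat_lit 1) (p (nat_lit 0xc9) (nat_lit 0) (p (nat_lit 0x89) (nat_lit 1) (p (nat_lit 0x41) (nat_lit 0) (p (nat_lit 0x88090887069a) (nat_lit 0) (p (nat_lit 0x87870806861a)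 (nat_lit 0) (p (nat_lit 0x80000000070786058a) (nat_lit 0) (p (nat_lit 0x8787058502) (nat_lit 0) (p (nat_lit 0x8586850482) (nat_lit 0) (p (nat_lit 0x160014) (nat_lit 0) (p (nat_lit 0x160004) (nat_lit 0) (p (nat_lit 0x68612) (nat_lit 0) (p (nat_lit 0x50592) (nat_lit 0) (p (nat_lit 0x40512) (nat_lit 0) (p (nat_lit 0x50312) (nat_lit 0) (p (nat_lit 0x38292) (nat_lit 0) (p (nat_lit 0x28212) (nat_lit 0) (p (nat_lit 0x38112) (nat_lit 0) (p (nat_lit 0x20092) (nat_lit 0) (p (nat_lit 0x10012) (nat_lit 0) pn)))))))))))))))))))))))))))))) :=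
  Cl.node (nat_lit 0x81) (nat_lit 2) (by decide +kernel) (ClAll.succ (ClAll.succ ClAll.zero s149) s150)

def n15 : Cl (O (nat_lit 2)) (R (nat_lit 14353))
    (p (nat_lit 0x109) (nat_lit 1) (p (nat_lit 0x41) (nat_lit 0) (p (nat_lit 0xc9) (nat_lit 1) (p (nat_lit 0xb0014) (nat_lit 0) (p (nat_lit 0xb0004) (nat_lit 0) (p (nat_lit 0x111) (nat_lit 0) (p (nat_lit 0x20000c) (nat_lit 0) (p (nat_lit 0x89) (nat_lit 0) (p (nat_lit 0x109) (nat_lit 1) (p (nat_lit 0x101) (nat_lit 0) (p (nat_lit 0x119) (nat_lit 0) (p (nat_lit 0xd1) (nat_lit 0) (p (nat_lit 0x81) (nat_lit 0) (p (nat_lit 0x41) (nat_lit 1) (p (nat_lit 0x88090887069a) (nat_lit 0) (p (nat_lit 0x87870806861a) (nat_lit 0) (p (nat_lit 0x80000000070786058a) (nat_lit 0) (p (nat_lit 0x8787058502) (nat_lit 0) (p (nat_lit 0x8586850482) (nat_lit 0) (p (nat_lit 0x160014) (nat_lit 0) (p (nat_lit 0x160004) (nat_lit 0) (p (nat_lit 0x68612)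 (nat_lit 0) (p (nat_lit 0x50592) (nat_lit 0) (p (nat_lit 0x40512) (nat_lit 0) (p (nat_lit 0x50312) (nat_lit 0) (p (nat_lit 0x38292) (nat_lit 0) (p (nat_lit 0x28212) (nat_lit 0) (p (nat_lit 0x38112) (nat_lit 0) (p (nat_lit 0x20092) (nat_lit 0) (p (nat_lit 0x10012) (nat_lit 0) pn)))))))))))))))))))))))))))))) :=
  Cl.node (nat_lit 0x10000c) (nat_lit 2) (by decide +kernel) (ClAll.succ (ClAll.succ ClAll.zero s161) s162)

def n16 : Cl (O (nat_lit 2)) (R (nat_lit 14353))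
    (p (nat_lit 0x111) (nat_lit 1) (p (nat_lit 0x81) (nat_lit 0) (p (nat_lit 0xd1) (nat_lit 1) (p (nat_lit 0xb0014) (nat_lit 0) (p (nat_lit 0xb0004) (nat_lit 0) (p (nat_lit 0x20000c) (nat_lit 0) (p (nat_lit 0xc9) (nat_lit 0) (p (nat_lit 0x89) (nat_lit 1) (p (nat_lit 0x109) (nat_lit 1) (p (nat_lit 0x101) (nat_lit 0) (p (nat_lit 0x119) (nat_lit 0) (p (nat_lit 0xd1) (nat_lit 0) (p (nat_lit 0x81) (nat_lit 0) (p (nat_lit 0x41) (nat_lit 1) (p (nat_lit 0x88090887069a) (nat_lit 0) (p (nat_lit 0x87870806861a) (nat_lit 0) (p (nat_lit 0x80000000070786058a) (nat_lit 0) (p (nat_lit 0x8787058502) (nat_lit 0) (p (nat_lit 0x8586850482) (nat_lit 0) (p (nat_lit 0x160014) (nat_lit 0) (p (nat_lit 0x160004) (nat_lit 0) (p (nat_lit 0x68612) (nat_lit 0) (p (nat_lit 0x50592) (nat_lit 0) (p (nat_lit 0x40512) (nat_lit 0) (p (nat_lit 0x50312) (nat_lit 0) (p (nat_lit 0x38292) (nat_lit 0) (p (nat_lit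 0x28212) (nat_lit 0) (p (nat_lit 0x38112) (nat_lit 0) (p (nat_lit 0x20092) (nat_lit 0) (p (nat_lit 0x10012) (nat_lit 0) pn)))))))))))))))))))))))))))))) :=
  Cl.node (nat_lit 0x10000c) (nat_lit 2) (by decide +kernel) (ClAll.succ (ClAll.succ ClAll.zero s170) s171)

def n17 : Cl (O (nat_lit 2)) (R (nat_lit 14353))
    (p (nat_lit 0x10000c) (nat_lit 0) (p (nat_lit 0x111) (nat_lit 1) (p (nat_lit 0xd1) (nat_lit 1) (p (nat_lit 0xb0014) (nat_lit 0) (p (nat_lit 0xb0004) (nat_lit 0) (p (nat_lit 0x20000c) (nat_lit 0) (p (nat_lit 0xc9) (nat_lit 0) (p (nat_lit 0x89) (nat_lit 1) (p (nat_lit 0xc1) (nat_lit 0) (p (nat_lit 0x101) (nat_lit 1) (p (nat_lit 0x119) (nat_lit 0) (p (nat_lit 0xd1) (nat_lit 0) (p (nat_lit 0x81) (nat_lit 0) (p (nat_lit 0x41) (nat_lit 1) (p (nat_lit 0x88090887069a) (nat_lit 0) (p (nat_lit 0x87870806861a) (nat_lit 0) (p (nat_lit 0x80000000070786058a) (nat_lit 0) (p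 (nat_lit 0x8787058502) (nat_lit 0) (p (nat_lit 0x8586850482) (nat_lit 0) (p (nat_lit 0x160014) (nat_lit 0) (p (nat_lit 0x160004) (nat_lit 0) (p (nat_lit 0x68612) (nat_lit 0) (p (nat_lit 0x50592) (nat_lit 0) (p (nat_lit 0x40512) (nat_lit 0) (p (nat_lit 0x50312) (nat_lit 0) (p (nat_lit 0x38292) (nat_lit 0) (p (nat_lit 0x28212) (nat_lit 0) (p (nat_lit 0x38112) (nat_lit 0) (p (nat_lit 0x20092) (nat_lit 0) (p (nat_lit 0x10012) (nat_lit 0) pn)))))))))))))))))))))))))))))) :=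
  Cl.node (nat_lit 0x58004) (nat_lit 2) (by decide +kernel) (ClAll.succ (ClAll.succ ClAll.zero s182) s183)

def n18 : Cl (O (nat_lit 2)) (R (nat_lit 14353))
    (p (nat_lit 0x10000c) (nat_lit 0) (p (nat_lit 0x81) (nat_lit 0) (p (nat_lit 0x101) (nat_lit 1) (p (nat_lit 0x111) (nat_lit 0) (p (nat_lit 0xb0014) (nat_lit 0) (p (nat_lit 0xb0004) (nat_lit 0) (p (nat_lit 0x20000c) (nat_lit 0) (p (nat_lit 0xd1) (nat_lit 1) (p (nat_lit 0xc9) (nat_lit 0) (p (nat_lit 0x101) (nat_lit 1) (p (nat_lit 0x119) (nat_lit 0) (p (nat_lit 0xc1) (nat_lit 0) (p (nat_lit 0x81) (nat_lit 1) (p (nat_lit 0x41) (nat_lit 1) (p (nat_lit 0x88090887069a) (nat_lit 0) (p (nat_lit 0x87870806861a) (nat_lit 0) (p (nat_lit 0x80000000070786058a) (nat_lit 0) (p (nat_lit 0x8787058502) (nat_lit 0) (p (nat_lit 0x8586850482) (nat_lit 0) (p (nat_lit 0x160014) (nat_lit 0) (p (nat_lit 0x160004) (nat_lit 0) (p (nat_lit 0x68612)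 (nat_lit 0) (p (nat_lit 0x50592) (nat_lit 0) (p (nat_lit 0x40512) (nat_lit 0) (p (nat_lit 0x50312) (nat_lit 0) (p (nat_lit 0x38292) (nat_lit 0) (p (nat_lit 0x28212) (nat_lit 0) (p (nat_lit 0x38112) (nat_lit 0) (p (nat_lit 0x20092) (nat_lit 0) (p (nat_lit 0x10012) (nat_lit 0) pn)))))))))))))))))))))))))))))) :=
  Cl.node (nat_lit 0x58004) (nat_lit 2) (by decide +kernel) (ClAll.succ (ClAll.succ ClAll.zero s291) s292)

def n19 : Cl (O (nat_lit 2)) (R (nat_lit 14353))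
    (p (nat_lit 0x89) (nat_lit 1) (p (nat_lit 0x101) (nat_lit 0) (p (nat_lit 0x81) (nat_lit 1) (p (nat_lit 0x111) (nat_lit 1) (p (nat_lit 0xb0014) (nat_lit 0) (p (nat_lit 0xb0004) (nat_lit 0) (p (nat_lit 0x20000c) (nat_lit 0) (p (nat_lit 0xd1) (nat_lit 1) (p (nat_lit 0xc9) (nat_lit 0) (p (nat_lit 0x101) (nat_lit 1) (p (nat_lit 0x119) (nat_lit 0) (p (nat_lit 0xc1) (nat_lit 0) (p (nat_lit 0x81) (nat_lit 1) (p (nat_lit 0x41) (nat_lit 1) (p (nat_lit 0x88090887069a) (nat_lit 0) (p (nat_lit 0x87870806861a) (nat_lit 0) (p (nat_lit 0x80000000070786058a) (nat_lit 0) (p (nat_lit 0x8787058502) (nat_lit 0) (p (nat_lit 0x8586850482) (nat_lit 0) (p (nat_lit 0x160014) (nat_lit 0) (p (nat_lit 0x160004) (nat_lit 0) (p (nat_lit 0x68612) (nat_lit 0) (p (nat_lit 0x50592) (nat_lit 0) (p (nat_lit 0x40512) (nat_lit 0) (p (nat_lit 0x50312) (nat_lit 0) (p (nat_lit 0x38292) (nat_lit 0) (p (nat_lit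 0x28212) (nat_lit 0) (p (nat_lit 0x38112) (nat_lit 0) (p (nat_lit 0x20092) (nat_lit 0) (p (nat_lit 0x10012) (nat_lit 0) pn)))))))))))))))))))))))))))))) :=
  Cl.node (nat_lit 0x10000c) (nat_lit 2) (by decide +kernel) (ClAll.succ (ClAll.succ ClAll.zero s297) s298)

def n20 : Cl (O (nat_lit 2)) (R (nat_lit 14353))
    (p (nat_lit 0x101) (nat_lit 1) (p (nat_lit 0xc1) (nat_lit 1) (p (nat_lit 0xb0014) (nat_lit 0) (p (nat_lit 0xb0004) (nat_lit 0) (p (nat_lit 0x111) (nat_lit 0) (p (nat_lit 0x20000c) (nat_lit 0) (p (nat_lit 0xc9) (nat_lit 0) (p (nat_lit 0x81) (nat_lit 0) (p (nat_lit 0x101) (nat_lit 1) (p (nat_lit 0x119) (nat_lit 0) (p (nat_lit 0xd1) (nat_lit 0) (p (nat_lit 0x89) (nat_lit 0) (p (nat_lit 0x41) (nat_lit 0) (p (nat_lit 0x88090887069a) (nat_lit 0) (p (nat_lit 0x87870806861a) (nat_lit 0) (p (nat_lit 0x80000000070786058a) (nat_lit 0) (p (nat_lit 0x8787058502) (nat_lit 0)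 (p (nat_lit 0x8586850482) (nat_lit 0) (p (nat_lit 0x160014) (nat_lit 0) (p (nat_lit 0x160004) (nat_lit 0) (p (nat_lit 0x68612) (nat_lit 0) (p (nat_lit 0x50592) (nat_lit 0) (p (nat_lit 0x40512) (nat_lit 0) (p (nat_lit 0x50312) (nat_lit 0) (p (nat_lit 0x38292) (nat_lit 0) (p (nat_lit 0x28212) (nat_lit 0) (p (nat_lit 0x38112) (nat_lit 0) (p (nat_lit 0x20092) (nat_lit 0) (p (nat_lit 0x10012) (nat_lit 0) pn))))))))))))))))))))))))))))) :=
  Cl.node (nat_lit 0x10000c) (nat_lit 2) (by decide +kernel) (ClAll.succ (ClAll.succ ClAll.zero s8) s9)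

def n21 : Cl (O (nat_lit 2)) (R (nat_lit 14353))
    (p (nat_lit 0x101) (nat_lit 1) (p (nat_lit 0x109) (nat_lit 0) (p (nat_lit 0xb0014) (nat_lit 0) (p (nat_lit 0xb0004) (nat_lit 0) (p (nat_lit 0x111) (nat_lit 0) (p (nat_lit 0x20000c) (nat_lit 0) (p (nat_lit 0xc9) (nat_lit 1) (p (nat_lit 0x81) (nat_lit 0) (p (nat_lit 0x101) (nat_lit 1) (p (nat_lit 0x119) (nat_lit 0) (p (nat_lit 0xd1) (nat_lit 0) (p (nat_lit 0x89) (nat_lit 0) (p (nat_lit 0x41) (nat_lit 0) (p (nat_lit 0x88090887069a) (nat_lit 0) (p (nat_lit 0x87870806861a) (nat_lit 0) (p (nat_lit 0x80000000070786058a) (nat_lit 0) (p (nat_lit 0x8787058502) (nat_lit 0) (p (nat_lit 0x8586850482) (nat_lit 0) (p (nat_lit 0x160014) (nat_lit 0) (p (nat_lit 0x160004) (nat_lit 0) (p (nat_lit 0x68612) (nat_lit 0) (p (nat_lit 0x50592) (nat_lit 0) (p (nat_lit 0x40512) (nat_lit 0) (p (nat_lit 0x50312) (nat_lit 0) (p (nat_lit 0x38292) (nat_lit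 0) (p (nat_lit 0x28212) (nat_lit 0) (p (nat_lit 0x38112) (nat_lit 0) (p (nat_lit 0x20092) (nat_lit 0) (p (nat_lit 0x10012) (nat_lit 0) pn))))))))))))))))))))))))))))) :=
  Cl.node (nat_lit 0x10000c) (nat_lit 2) (by decide +kernel) (ClAll.succ (ClAll.succ ClAll.zero s15) s16)

def n22 : Cl (O (nat_lit 2)) (R (nat_lit 14353))
    (p (nat_lit 0x111) (nat_lit 1) (p (nat_lit 0xd1) (nat_lit 1) (p (nat_lit 0xb0014) (nat_lit 0) (p (nat_lit 0xb0004) (nat_lit 0) (p (nat_lit 0x20000c) (nat_lit 0) (p (nat_lit 0xc9) (nat_lit 0) (p (nat_lit 0xc1) (nat_lit 0) (p (nat_lit 0x81) (nat_lit 1) (p (nat_lit 0x101) (nat_lit 1) (p (nat_lit 0x119) (nat_lit 0) (p (nat_lit 0xd1) (nat_lit 0) (p (nat_lit 0x89) (nat_lit 0) (p (nat_lit 0x41) (nat_lit 0) (p (nat_lit 0x88090887069a) (nat_lit 0) (p (nat_lit 0x87870806861a) (nat_lit 0) (p (nat_lit 0x80000000070786058a) (nat_lit 0) (p (nat_lit 0x8787058502)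 (nat_lit 0) (p (nat_lit 0x8586850482) (nat_lit 0) (p (nat_lit 0x160014) (nat_lit 0) (p (nat_lit 0x160004) (nat_lit 0) (p (nat_lit 0x68612) (nat_lit 0) (p (nat_lit 0x50592) (nat_lit 0) (p (nat_lit 0x40512) (nat_lit 0) (p (nat_lit 0x50312) (nat_lit 0) (p (nat_lit 0x38292) (nat_lit 0) (p (nat_lit 0x28212) (nat_lit 0) (p (nat_lit 0x38112) (nat_lit 0) (p (nat_lit 0x20092) (nat_lit 0) (p (nat_lit 0x10012) (nat_lit 0) pn))))))))))))))))))))))))))))) :=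
  Cl.node (nat_lit 0x10000c) (nat_lit 2) (by decide +kernel) (ClAll.succ (ClAll.succ ClAll.zero s24) s25)

def n23 : Cl (O (nat_lit 2)) (R (nat_lit 14353))
    (p (nat_lit 0x109) (nat_lit 0) (p (nat_lit 0x111) (nat_lit 0) (p (nat_lit 0x41) (nat_lit 0) (p (nat_lit 0xb0014) (nat_lit 0) (p (nat_lit 0xb0004) (nat_lit 0) (p (nat_lit 0x20000c) (nat_lit 0) (p (nat_lit 0xd1) (nat_lit 1) (p (nat_lit 0x109) (nat_lit 1) (p (nat_lit 0x101) (nat_lit 0) (p (nat_lit 0x119) (nat_lit 0) (p (nat_lit 0xc9) (nat_lit 0) (p (nat_lit 0x89) (nat_lit 1) (p (nat_lit 0x41) (nat_lit 0) (p (nat_lit 0x88090887069a) (nat_lit 0) (p (nat_lit 0x87870806861a) (nat_lit 0) (p (nat_lit 0x80000000070786058a) (nat_lit 0) (p (nat_lit 0x8787058502) (nat_lit 0) (p (nat_lit 0x8586850482) (nat_lit 0) (p (nat_lit 0x160014) (nat_lit 0) (p (nat_lit 0x160004) (nat_lit 0) (p (nat_lit 0x68612) (nat_lit 0) (p (nat_lit 0x50592)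 (nat_lit 0) (p (nat_lit 0x40512) (nat_lit 0) (p (nat_lit 0x50312) (nat_lit 0) (p (nat_lit 0x38292) (nat_lit 0) (p (nat_lit 0x28212) (nat_lit 0) (p (nat_lit 0x38112) (nat_lit 0) (p (nat_lit 0x20092) (nat_lit 0) (p (nat_lit 0x10012) (nat_lit 0) pn))))))))))))))))))))))))))))) :=
  Cl.node (nat_lit 0x10000c) (nat_lit 2) (by decide +kernel) (ClAll.succ (ClAll.succ ClAll.zero n5) s91)

def n24 : Cl (O (nat_lit 2)) (R (nat_lit 14353))
    (p (nat_lit 0x109) (nat_lit 1) (p (nat_lit 0x111) (nat_lit 0) (p (nat_lit 0x41) (nat_lit 0) (p (nat_lit 0xb0014) (nat_lit 0) (p (nat_lit 0xb0004) (nat_lit 0) (p (nat_lit 0x20000c) (nat_lit 0) (p (nat_lit 0xd1) (nat_lit 1) (p (nat_lit 0x109) (nat_lit 1) (p (nat_lit 0x101) (nat_lit 0) (p (nat_lit 0x119) (nat_lit 0) (p (nat_lit 0xc9) (nat_lit 0) (p (nat_lit 0x89) (nat_lit 1) (p (nat_lit 0x41) (nat_lit 0) (p (nat_lit 0x88090887069a) (nat_lit 0) (p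 (nat_lit 0x87870806861a) (nat_lit 0) (p (nat_lit 0x80000000070786058a) (nat_lit 0) (p (nat_lit 0x8787058502) (nat_lit 0) (p (nat_lit 0x8586850482) (nat_lit 0) (p (nat_lit 0x160014) (nat_lit 0) (p (nat_lit 0x160004) (nat_lit 0) (p (nat_lit 0x68612) (nat_lit 0) (p (nat_lit 0x50592) (nat_lit 0) (p (nat_lit 0x40512) (nat_lit 0) (p (nat_lit 0x50312) (nat_lit 0) (p (nat_lit 0x38292) (nat_lit 0) (p (nat_lit 0x28212) (nat_lit 0) (p (nat_lit 0x38112) (nat_lit 0) (p (nat_lit 0x20092) (nat_lit 0) (p (nat_lit 0x10012) (nat_lit 0) pn))))))))))))))))))))))))))))) :=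
  Cl.node (nat_lit 0x89) (nat_lit 2) (by decide +kernel) (ClAll.succ (ClAll.succ ClAll.zero n6) s95)

def n25 : Cl (O (nat_lit 2)) (R (nat_lit 14353))
    (p (nat_lit 0x89) (nat_lit 0) (p (nat_lit 0x111) (nat_lit 1) (p (nat_lit 0x41) (nat_lit 0) (p (nat_lit 0xb0014) (nat_lit 0) (p (nat_lit 0xb0004) (nat_lit 0) (p (nat_lit 0x20000c) (nat_lit 0) (p (nat_lit 0xd1) (nat_lit 1) (p (nat_lit 0x109) (nat_lit 1) (p (nat_lit 0x101) (nat_lit 0) (p (nat_lit 0x119) (nat_lit 0) (p (nat_lit 0xc9) (nat_lit 0) (p (nat_lit 0x89) (nat_lit 1) (p (nat_lit 0x41) (nat_lit 0) (p (nat_lit 0x88090887069a) (nat_lit 0) (p (nat_lit 0x87870806861a) (nat_lit 0) (p (nat_lit 0x80000000070786058a) (nat_lit 0) (p (nat_lit 0x8787058502) (nat_lit 0) (p (nat_lit 0x8586850482) (nat_lit 0) (p (nat_lit 0x160014) (nat_lit 0) (p (nat_lit 0x160004) (nat_lit 0) (p (nat_lit 0x68612) (nat_lit 0) (p (nat_lit 0x50592) (nat_lit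 0) (p (nat_lit 0x40512) (nat_lit 0) (p (nat_lit 0x50312) (nat_lit 0) (p (nat_lit 0x38292) (nat_lit 0) (p (nat_lit 0x28212) (nat_lit 0) (p (nat_lit 0x38112) (nat_lit 0) (p (nat_lit 0x20092) (nat_lit 0) (p (nat_lit 0x10012) (nat_lit 0) pn))))))))))))))))))))))))))))) :=
  Cl.node (nat_lit 0x81) (nat_lit 2) (by decide +kernel) (ClAll.succ (ClAll.succ ClAll.zero s96) n7)

def n26 : Cl (O (nat_lit 2)) (R (nat_lit 14353))
    (p (nat_lit 0x89) (nat_lit 1) (p (nat_lit 0x111) (nat_lit 1) (p (nat_lit 0x41) (nat_lit 0) (p (nat_lit 0xb0014) (nat_lit 0) (p (nat_lit 0xb0004) (nat_lit 0) (p (nat_lit 0x20000c) (nat_lit 0) (p (nat_lit 0xd1) (nat_lit 1) (p (nat_lit 0x109) (nat_lit 1) (p (nat_lit 0x101) (nat_lit 0) (p (nat_lit 0x119) (nat_lit 0) (p (nat_lit 0xc9) (nat_lit 0) (p (nat_lit 0x89) (nat_lit 1) (p (nat_lit 0x41) (nat_lit 0) (p (nat_lit 0x88090887069a) (nat_lit 0) (p (nat_lit 0x87870806861a)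 (nat_lit 0) (p (nat_lit 0x80000000070786058a) (nat_lit 0) (p (nat_lit 0x8787058502) (nat_lit 0) (p (nat_lit 0x8586850482) (nat_lit 0) (p (nat_lit 0x160014) (nat_lit 0) (p (nat_lit 0x160004) (nat_lit 0) (p (nat_lit 0x68612) (nat_lit 0) (p (nat_lit 0x50592) (nat_lit 0) (p (nat_lit 0x40512) (nat_lit 0) (p (nat_lit 0x50312) (nat_lit 0) (p (nat_lit 0x38292) (nat_lit 0) (p (nat_lit 0x28212) (nat_lit 0) (p (nat_lit 0x38112) (nat_lit 0) (p (nat_lit 0x20092) (nat_lit 0) (p (nat_lit 0x10012) (nat_lit 0) pn))))))))))))))))))))))))))))) :=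
  Cl.node (nat_lit 0x109) (nat_lit 2) (by decide +kernel) (ClAll.succ (ClAll.succ ClAll.zero n8) s102)

def n27 : Cl (O (nat_lit 2)) (R (nat_lit 14353))
    (p (nat_lit 0x898a8a08881a) (nat_lit 0) (p (nat_lit 0x89088988079a) (nat_lit 0) (p (nat_lit 0x2a82580000088907870a) (nat_lit 0) (p (nat_lit 0xb0014) (nat_lit 1) (p (nat_lit 0xb0004) (nat_lit 0) (p (nat_lit 0x20000c) (nat_lit 0) (p (nat_lit 0xd1) (nat_lit 1) (p (nat_lit 0x109) (nat_lit 1) (p (nat_lit 0x101) (nat_lit 0) (p (nat_lit 0x119) (nat_lit 0) (p (nat_lit 0xc9) (nat_lit 0) (p (nat_lit 0x89) (nat_lit 1) (p (nat_lit 0x41) (nat_lit 0) (p (nat_lit 0x88090887069a) (nat_lit 0) (p (nat_lit 0x87870806861a) (nat_lit 0) (p (nat_lit 0x80000000070786058a) (nat_lit 0) (p (nat_lit 0x8787058502) (nat_lit 0) (p (nat_lit 0x8586850482) (nat_lit 0) (p (nat_lit 0x160014) (nat_lit 0) (p (nat_lit 0x160004) (nat_lit 0) (p (nat_lit 0x68612)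 (nat_lit 0) (p (nat_lit 0x50592) (nat_lit 0) (p (nat_lit 0x40512) (nat_lit 0) (p (nat_lit 0x50312) (nat_lit 0) (p (nat_lit 0x38292) (nat_lit 0) (p (nat_lit 0x28212) (nat_lit 0) (p (nat_lit 0x38112) (nat_lit 0) (p (nat_lit 0x20092) (nat_lit 0) (p (nat_lit 0x10012) (nat_lit 0) pn))))))))))))))))))))))))))))) :=
  Cl.node (nat_lit 0x41) (nat_lit 2) (by decide +kernel) (ClAll.succ (ClAll.succ ClAll.zero n9) s107)

def n28 : Cl (O (nat_lit 2)) (R (nat_lit 14353))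
    (p (nat_lit 0x898a8a08881a) (nat_lit 0) (p (nat_lit 0x89088988079a) (nat_lit 0) (p (nat_lit 0x2a82580000088907870a) (nat_lit 0) (p (nat_lit 0xb0014) (nat_lit 0) (p (nat_lit 0xb0004) (nat_lit 1) (p (nat_lit 0x20000c) (nat_lit 0) (p (nat_lit 0xd1) (nat_lit 1) (p (nat_lit 0x109) (nat_lit 1) (p (nat_lit 0x101) (nat_lit 0) (p (nat_lit 0x119) (nat_lit 0) (p (nat_lit 0xc9) (nat_lit 0) (p (nat_lit 0x89) (nat_lit 1) (p (nat_lit 0x41) (nat_lit 0) (p (nat_lit 0x88090887069a) (nat_lit 0) (p (nat_lit 0x87870806861a) (nat_lit 0) (p (nat_lit 0x80000000070786058a) (nat_lit 0) (p (nat_lit 0x8787058502) (nat_lit 0) (p (nat_lit 0x8586850482) (nat_lit 0) (p (nat_lit 0x160014) (nat_lit 0) (p (nat_lit 0x160004) (nat_lit 0) (p (nat_lit 0x68612) (nat_lit 0) (p (nat_lit 0x50592) (nat_lit 0) (p (nat_lit 0x40512) (nat_lit 0) (p (nat_lit 0x50312) (nat_lit 0) (p (nat_lit 0x38292) (nat_lit 0) (p (nat_lit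 0x28212) (nat_lit 0) (p (nat_lit 0x38112) (nat_lit 0) (p (nat_lit 0x20092) (nat_lit 0) (p (nat_lit 0x10012) (nat_lit 0) pn))))))))))))))))))))))))))))) :=
  Cl.node (nat_lit 0x41) (nat_lit 2) (by decide +kernel) (ClAll.succ (ClAll.succ ClAll.zero n10) s110)

def n29 : Cl (O (nat_lit 2)) (R (nat_lit 14353))
    (p (nat_lit 0x89) (nat_lit 0) (p (nat_lit 0x81) (nat_lit 0) (p (nat_lit 0x109) (nat_lit 1) (p (nat_lit 0xb0014) (nat_lit 0) (p (nat_lit 0xb0004) (nat_lit 0) (p (nat_lit 0x20000c) (nat_lit 0) (p (nat_lit 0xd1) (nat_lit 1) (p (nat_lit 0xc1) (nat_lit 0) (p (nat_lit 0x101) (nat_lit 1) (p (nat_lit 0x119) (nat_lit 0) (p (nat_lit 0xc9) (nat_lit 0) (p (nat_lit 0x89) (nat_lit 1) (p (nat_lit 0x41) (nat_lit 0) (p (nat_lit 0x88090887069a) (nat_lit 0) (p (nat_lit 0x87870806861a) (nat_lit 0) (p (nat_lit 0x80000000070786058a) (nat_lit 0) (p (nat_lit 0x8787058502) (nat_lit 0) (p (nat_lit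 0x8586850482) (nat_lit 0) (p (nat_lit 0x160014) (nat_lit 0) (p (nat_lit 0x160004) (nat_lit 0) (p (nat_lit 0x68612) (nat_lit 0) (p (nat_lit 0x50592) (nat_lit 0) (p (nat_lit 0x40512) (nat_lit 0) (p (nat_lit 0x50312) (nat_lit 0) (p (nat_lit 0x38292) (nat_lit 0) (p (nat_lit 0x28212) (nat_lit 0) (p (nat_lit 0x38112) (nat_lit 0) (p (nat_lit 0x20092) (nat_lit 0) (p (nat_lit 0x10012) (nat_lit 0) pn))))))))))))))))))))))))))))) :=
  Cl.node (nat_lit 0x111) (nat_lit 2) (by decide +kernel) (ClAll.succ (ClAll.succ ClAll.zero n11) s121)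

def n30 : Cl (O (nat_lit 2)) (R (nat_lit 14353))
    (p (nat_lit 0x89) (nat_lit 1) (p (nat_lit 0x81) (nat_lit 0) (p (nat_lit 0x109) (nat_lit 1) (p (nat_lit 0xb0014) (nat_lit 0) (p (nat_lit 0xb0004) (nat_lit 0) (p (nat_lit 0x20000c) (nat_lit 0) (p (nat_lit 0xd1) (nat_lit 1) (p (nat_lit 0xc1) (nat_lit 0) (p (nat_lit 0x101) (nat_lit 1) (p (nat_lit 0x119) (nat_lit 0) (p (nat_lit 0xc9) (nat_lit 0) (p (nat_lit 0x89) (nat_lit 1) (p (nat_lit 0x41) (nat_lit 0) (p (nat_lit 0x88090887069a) (nat_lit 0) (p (nat_lit 0x87870806861a) (nat_lit 0) (p (nat_lit 0x80000000070786058a) (nat_lit 0) (p (nat_lit 0x8787058502) (nat_lit 0) (p (nat_lit 0x8586850482) (nat_lit 0) (p (nat_lit 0x160014) (nat_lit 0) (p (nat_lit 0x160004) (nat_lit 0) (p (nat_lit 0x68612) (nat_lit 0) (p (nat_lit 0x50592) (nat_lit 0) (p (nat_lit 0x40512) (nat_lit 0) (p (nat_lit 0x50312) (nat_lit 0) (p (nat_lit 0x38292) (nat_lit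 0) (p (nat_lit 0x28212) (nat_lit 0) (p (nat_lit 0x38112) (nat_lit 0) (p (nat_lit 0x20092) (nat_lit 0) (p (nat_lit 0x10012) (nat_lit 0) pn))))))))))))))))))))))))))))) :=
  Cl.node (nat_lit 0x41) (nat_lit 2) (by decide +kernel) (ClAll.succ (ClAll.succ ClAll.zero s122) n12)

def n31 : Cl (O (nat_lit 2)) (R (nat_lit 14353))
    (p (nat_lit 0x898a8a08881a) (nat_lit 0) (p (nat_lit 0x89088988079a) (nat_lit 0) (p (nat_lit 0x2a82580000088907870a) (nat_lit 0) (p (nat_lit 0xb0014) (nat_lit 1) (p (nat_lit 0xb0004) (nat_lit 0) (p (nat_lit 0x20000c) (nat_lit 0) (p (nat_lit 0xd1) (nat_lit 1) (p (nat_lit 0xc1) (nat_lit 0) (p (nat_lit 0x101) (nat_lit 1) (p (nat_lit 0x119) (nat_lit 0) (p (nat_lit 0xc9) (nat_lit 0) (p (nat_lit 0x89) (nat_lit 1) (p (nat_lit 0x41) (nat_lit 0) (p (nat_lit 0x88090887069a) (nat_lit 0) (p (nat_lit 0x87870806861a) (nat_lit 0) (p (nat_lit 0x80000000070786058a) (nat_lit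 0) (p (nat_lit 0x8787058502) (nat_lit 0) (p (nat_lit 0x8586850482) (nat_lit 0) (p (nat_lit 0x160014) (nat_lit 0) (p (nat_lit 0x160004) (nat_lit 0) (p (nat_lit 0x68612) (nat_lit 0) (p (nat_lit 0x50592) (nat_lit 0) (p (nat_lit 0x40512) (nat_lit 0) (p (nat_lit 0x50312) (nat_lit 0) (p (nat_lit 0x38292) (nat_lit 0) (p (nat_lit 0x28212) (nat_lit 0) (p (nat_lit 0x38112) (nat_lit 0) (p (nat_lit 0x20092) (nat_lit 0) (p (nat_lit 0x10012) (nat_lit 0) pn))))))))))))))))))))))))))))) :=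
  Cl.node (nat_lit 0x109) (nat_lit 2) (by decide +kernel) (ClAll.succ (ClAll.succ ClAll.zero s128) n13)

def n32 : Cl (O (nat_lit 2)) (R (nat_lit 14353))
    (p (nat_lit 0x898a8a08881a) (nat_lit 0) (p (nat_lit 0x89088988079a) (nat_lit 0) (p (nat_lit 0x2a82580000088907870a) (nat_lit 0) (p (nat_lit 0xb0014) (nat_lit 1) (p (nat_lit 0xb0004) (nat_lit 0) (p (nat_lit 0x20000c) (nat_lit 0) (p (nat_lit 0x111) (nat_lit 1) (p (nat_lit 0x101) (nat_lit 0) (p (nat_lit 0xc1) (nat_lit 1) (p (nat_lit 0x119) (nat_lit 1) (p (nat_lit 0xc9) (nat_lit 0) (p (nat_lit 0x89) (nat_lit 1) (p (nat_lit 0x41) (nat_lit 0) (p (nat_lit 0x88090887069a) (nat_lit 0) (p (nat_lit 0x87870806861a) (nat_lit 0) (p (nat_lit 0x80000000070786058a) (nat_lit 0) (p (nat_lit 0x8787058502) (nat_lit 0) (p (nat_lit 0x8586850482) (nat_lit 0) (p (nat_lit 0x160014) (nat_lit 0) (p (nat_lit 0x160004) (nat_lit 0) (p (nat_lit 0x68612)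 (nat_lit 0) (p (nat_lit 0x50592) (nat_lit 0) (p (nat_lit 0x40512) (nat_lit 0) (p (nat_lit 0x50312) (nat_lit 0) (p (nat_lit 0x38292) (nat_lit 0) (p (nat_lit 0x28212) (nat_lit 0) (p (nat_lit 0x38112) (nat_lit 0) (p (nat_lit 0x20092) (nat_lit 0) (p (nat_lit 0x10012) (nat_lit 0) pn))))))))))))))))))))))))))))) :=
  Cl.node (nat_lit 0xd1) (nat_lit 2) (by decide +kernel) (ClAll.succ (ClAll.succ ClAll.zero s148) n14)

def n33 : Cl (O (nat_lit 2)) (R (nat_lit 14353))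
    (p (nat_lit 0x41) (nat_lit 0) (p (nat_lit 0xc9) (nat_lit 1) (p (nat_lit 0xb0014) (nat_lit 0) (p (nat_lit 0xb0004) (nat_lit 0) (p (nat_lit 0x111) (nat_lit 0) (p (nat_lit 0x20000c) (nat_lit 0) (p (nat_lit 0x89) (nat_lit 0) (p (nat_lit 0x109) (nat_lit 1) (p (nat_lit 0x101) (nat_lit 0) (p (nat_lit 0x119) (nat_lit 0) (p (nat_lit 0xd1) (nat_lit 0) (p (nat_lit 0x81) (nat_lit 0) (p (nat_lit 0x41) (nat_lit 1) (p (nat_lit 0x88090887069a) (nat_lit 0) (p (nat_lit 0x87870806861a) (nat_lit 0) (p (nat_lit 0x80000000070786058a) (nat_lit 0) (p (nat_lit 0x8787058502) (nat_lit 0) (p (nat_lit 0x8586850482) (nat_lit 0) (p (nat_lit 0x160014) (nat_lit 0) (p (nat_lit 0x160004) (nat_lit 0) (p (nat_lit 0x68612) (nat_lit 0) (p (nat_lit 0x50592) (nat_lit 0) (p (nat_lit 0x40512) (nat_lit 0) (p (nat_lit 0x50312) (nat_lit 0) (p (nat_lit 0x38292) (nat_lit 0) (p (nat_lit 0x28212) (nat_lit 0) (p (nat_lit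 0x38112) (nat_lit 0) (p (nat_lit 0x20092) (nat_lit 0) (p (nat_lit 0x10012) (nat_lit 0) pn))))))))))))))))))))))))))))) :=
  Cl.node (nat_lit 0x109) (nat_lit 2) (by decide +kernel) (ClAll.succ (ClAll.succ ClAll.zero s160) n15)

def n34 : Cl (O (nat_lit 2)) (R (nat_lit 14353))
    (p (nat_lit 0x81) (nat_lit 0) (p (nat_lit 0xd1) (nat_lit 1) (p (nat_lit 0xb0014) (nat_lit 0) (p (nat_lit 0xb0004) (nat_lit 0) (p (nat_lit 0x20000c) (nat_lit 0) (p (nat_lit 0xc9) (nat_lit 0) (p (nat_lit 0x89) (nat_lit 1) (p (nat_lit 0x109) (nat_lit 1) (p (nat_lit 0x101) (nat_lit 0) (p (nat_lit 0x119) (nat_lit 0) (p (nat_lit 0xd1) (nat_lit 0) (p (nat_lit 0x81) (nat_lit 0) (p (nat_lit 0x41) (nat_lit 1) (p (nat_lit 0x88090887069a) (nat_lit 0) (p (nat_lit 0x87870806861a) (nat_lit 0) (p (nat_lit 0x80000000070786058a) (nat_lit 0) (p (nat_lit 0x8787058502) (nat_lit 0) (p (nat_lit 0x8586850482) (nat_lit 0)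 (p (nat_lit 0x160014) (nat_lit 0) (p (nat_lit 0x160004) (nat_lit 0) (p (nat_lit 0x68612) (nat_lit 0) (p (nat_lit 0x50592) (nat_lit 0) (p (nat_lit 0x40512) (nat_lit 0) (p (nat_lit 0x50312) (nat_lit 0) (p (nat_lit 0x38292) (nat_lit 0) (p (nat_lit 0x28212) (nat_lit 0) (p (nat_lit 0x38112) (nat_lit 0) (p (nat_lit 0x20092) (nat_lit 0) (p (nat_lit 0x10012) (nat_lit 0) pn))))))))))))))))))))))))))))) :=
  Cl.node (nat_lit 0x111) (nat_lit 2) (by decide +kernel) (ClAll.succ (ClAll.succ ClAll.zero s169) n16)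

def n35 : Cl (O (nat_lit 2)) (R (nat_lit 14353))
    (p (nat_lit 0x111) (nat_lit 1) (p (nat_lit 0xd1) (nat_lit 1) (p (nat_lit 0xb0014) (nat_lit 0) (p (nat_lit 0xb0004) (nat_lit 0) (p (nat_lit 0x20000c) (nat_lit 0) (p (nat_lit 0xc9) (nat_lit 0) (p (nat_lit 0x89) (nat_lit 1) (p (nat_lit 0xc1) (nat_lit 0) (p (nat_lit 0x101) (nat_lit 1) (p (nat_lit 0x119) (nat_lit 0) (p (nat_lit 0xd1) (nat_lit 0) (p (nat_lit 0x81) (nat_lit 0) (p (nat_lit 0x41) (nat_lit 1) (p (nat_lit 0x88090887069a) (nat_lit 0) (p (nat_lit 0x87870806861a) (nat_lit 0) (p (nat_lit 0x80000000070786058a) (nat_lit 0) (p (nat_lit 0x8787058502) (nat_lit 0) (p (nat_lit 0x8586850482) (nat_lit 0) (p (nat_lit 0x160014) (nat_lit 0) (p (nat_lit 0x160004) (nat_lit 0) (p (nat_lit 0x68612) (nat_lit 0) (p (nat_lit 0x50592) (nat_lit 0) (p (nat_lit 0x40512) (nat_lit 0) (p (nat_lit 0x50312) (nat_lit 0) (p (nat_lit 0x38292) (nat_lit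 0) (p (nat_lit 0x28212) (nat_lit 0) (p (nat_lit 0x38112) (nat_lit 0) (p (nat_lit 0x20092) (nat_lit 0) (p (nat_lit 0x10012) (nat_lit 0) pn))))))))))))))))))))))))))))) :=
  Cl.node (nat_lit 0x10000c) (nat_lit 2) (by decide +kernel) (ClAll.succ (ClAll.succ ClAll.zero n17) s184)

def n36 : Cl (O (nat_lit 2)) (R (nat_lit 14353))
    (p (nat_lit 0x898a8a08881a) (nat_lit 0) (p (nat_lit 0x89088988079a) (nat_lit 0) (p (nat_lit 0x2a82580000088907870a) (nat_lit 0) (p (nat_lit 0xb0014) (nat_lit 0) (p (nat_lit 0xb0004) (nat_lit 1) (p (nat_lit 0x20000c) (nat_lit 0) (p (nat_lit 0xc9) (nat_lit 0) (p (nat_lit 0x89) (nat_lit 1) (p (nat_lit 0x101) (nat_lit 1) (p (nat_lit 0x111) (nat_lit 0) (p (nat_lit 0xd1) (nat_lit 1) (p (nat_lit 0x81) (nat_lit 0) (p (nat_lit 0x41) (nat_lit 1) (p (nat_lit 0x88090887069a) (nat_lit 0) (p (nat_lit 0x87870806861a) (nat_lit 0) (p (nat_lit 0x80000000070786058a)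 (nat_lit 0) (p (nat_lit 0x8787058502) (nat_lit 0) (p (nat_lit 0x8586850482) (nat_lit 0) (p (nat_lit 0x160014) (nat_lit 0) (p (nat_lit 0x160004) (nat_lit 0) (p (nat_lit 0x68612) (nat_lit 0) (p (nat_lit 0x50592) (nat_lit 0) (p (nat_lit 0x40512) (nat_lit 0) (p (nat_lit 0x50312) (nat_lit 0) (p (nat_lit 0x38292) (nat_lit 0) (p (nat_lit 0x28212) (nat_lit 0) (p (nat_lit 0x38112) (nat_lit 0) (p (nat_lit 0x20092) (nat_lit 0) (p (nat_lit 0x10012) (nat_lit 0) pn))))))))))))))))))))))))))))) :=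
  Cl.node (nat_lit 0x119) (nat_lit 2) (by decide +kernel) (ClAll.succ (ClAll.succ ClAll.zero s258) s259)

def n37 : Cl (O (nat_lit 2)) (R (nat_lit 14353))
    (p (nat_lit 0x81) (nat_lit 0) (p (nat_lit 0x101) (nat_lit 1) (p (nat_lit 0x111) (nat_lit 0) (p (nat_lit 0xb0014) (nat_lit 0) (p (nat_lit 0xb0004) (nat_lit 0) (p (nat_lit 0x20000c) (nat_lit 0) (p (nat_lit 0xd1) (nat_lit 1) (p (nat_lit 0xc9) (nat_lit 0) (p (nat_lit 0x101) (nat_lit 1) (p (nat_lit 0x119) (nat_lit 0) (p (nat_lit 0xc1) (nat_lit 0) (p (nat_lit 0x81) (nat_lit 1) (p (nat_lit 0x41) (nat_lit 1) (p (nat_lit 0x88090887069a) (nat_lit 0) (p (nat_lit 0x87870806861a) (nat_lit 0) (p (nat_lit 0x80000000070786058a) (nat_lit 0) (p (nat_lit 0x8787058502) (nat_lit 0) (p (nat_lit 0x8586850482) (nat_lit 0) (p (nat_lit 0x160014) (nat_lit 0) (p (nat_lit 0x160004) (nat_lit 0) (p (nat_lit 0x68612) (nat_lit 0) (p (nat_lit 0x50592)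 (nat_lit 0) (p (nat_lit 0x40512) (nat_lit 0) (p (nat_lit 0x50312) (nat_lit 0) (p (nat_lit 0x38292) (nat_lit 0) (p (nat_lit 0x28212) (nat_lit 0) (p (nat_lit 0x38112) (nat_lit 0) (p (nat_lit 0x20092) (nat_lit 0) (p (nat_lit 0x10012) (nat_lit 0) pn))))))))))))))))))))))))))))) :=
  Cl.node (nat_lit 0x10000c) (nat_lit 2) (by decide +kernel) (ClAll.succ (ClAll.succ ClAll.zero n18) s293)

def n38 : Cl (O (nat_lit 2)) (R (nat_lit 14353))
    (p (nat_lit 0x101) (nat_lit 0) (p (nat_lit 0x81) (nat_lit 1) (p (nat_lit 0x111) (nat_lit 1) (p (nat_lit 0xb0014) (nat_lit 0) (p (nat_lit 0xb0004) (nat_lit 0) (p (nat_lit 0x20000c) (nat_lit 0) (p (nat_lit 0xd1) (nat_lit 1) (p (nat_lit 0xc9) (nat_lit 0) (p (nat_lit 0x101) (nat_lit 1) (p (nat_lit 0x119) (nat_lit 0) (p (nat_lit 0xc1) (nat_lit 0) (p (nat_lit 0x81) (nat_lit 1) (p (nat_lit 0x41) (nat_lit 1) (p (nat_lit 0x88090887069a) (nat_lit 0) (p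 (nat_lit 0x87870806861a) (nat_lit 0) (p (nat_lit 0x80000000070786058a) (nat_lit 0) (p (nat_lit 0x8787058502) (nat_lit 0) (p (nat_lit 0x8586850482) (nat_lit 0) (p (nat_lit 0x160014) (nat_lit 0) (p (nat_lit 0x160004) (nat_lit 0) (p (nat_lit 0x68612) (nat_lit 0) (p (nat_lit 0x50592) (nat_lit 0) (p (nat_lit 0x40512) (nat_lit 0) (p (nat_lit 0x50312) (nat_lit 0) (p (nat_lit 0x38292) (nat_lit 0) (p (nat_lit 0x28212) (nat_lit 0) (p (nat_lit 0x38112) (nat_lit 0) (p (nat_lit 0x20092) (nat_lit 0) (p (nat_lit 0x10012) (nat_lit 0) pn))))))))))))))))))))))))))))) :=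
  Cl.node (nat_lit 0x89) (nat_lit 2) (by decide +kernel) (ClAll.succ (ClAll.succ ClAll.zero s296) n19)

def n39 : Cl (O (nat_lit 2)) (R (nat_lit 14353))
    (p (nat_lit 0x101) (nat_lit 1) (p (nat_lit 0x81) (nat_lit 1) (p (nat_lit 0x111) (nat_lit 1) (p (nat_lit 0xb0014) (nat_lit 0) (p (nat_lit 0xb0004) (nat_lit 0) (p (nat_lit 0x20000c) (nat_lit 0) (p (nat_lit 0xd1) (nat_lit 1) (p (nat_lit 0xc9) (nat_lit 0) (p (nat_lit 0x101) (nat_lit 1) (p (nat_lit 0x119) (nat_lit 0) (p (nat_lit 0xc1) (nat_lit 0) (p (nat_lit 0x81) (nat_lit 1) (p (nat_lit 0x41) (nat_lit 1) (p (nat_lit 0x88090887069a) (nat_lit 0) (p (nat_lit 0x87870806861a) (nat_lit 0) (p (nat_lit 0x80000000070786058a) (nat_lit 0) (p (nat_lit 0x8787058502) (nat_lit 0) (p (nat_lit 0x8586850482) (nat_lit 0) (p (nat_lit 0x160014) (nat_lit 0) (p (nat_lit 0x160004) (nat_lit 0) (p (nat_lit 0x68612) (nat_lit 0) (p (nat_lit 0x50592)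 (nat_lit 0) (p (nat_lit 0x40512) (nat_lit 0) (p (nat_lit 0x50312) (nat_lit 0) (p (nat_lit 0x38292) (nat_lit 0) (p (nat_lit 0x28212) (nat_lit 0) (p (nat_lit 0x38112) (nat_lit 0) (p (nat_lit 0x20092) (nat_lit 0) (p (nat_lit 0x10012) (nat_lit 0) pn))))))))))))))))))))))))))))) :=
  Cl.node (nat_lit 0x41) (nat_lit 2) (by decide +kernel) (ClAll.succ (ClAll.succ ClAll.zero s299) s300)

def n40 : Cl (O (nat_lit 2)) (R (nat_lit 14353))
    (p (nat_lit 0x898a8a08881a) (nat_lit 0) (p (nat_lit 0x89088988079a) (nat_lit 0) (p (nat_lit 0x2a82580000088907870a) (nat_lit 0) (p (nat_lit 0xb0014) (nat_lit 1) (p (nat_lit 0xb0004) (nat_lit 0) (p (nat_lit 0x20000c) (nat_lit 0) (p (nat_lit 0x111) (nat_lit 1) (p (nat_lit 0x109) (nat_lit 0) (p (nat_lit 0xc9) (nat_lit 1) (p (nat_lit 0x119) (nat_lit 1) (p (nat_lit 0xc1) (nat_lit 0) (p (nat_lit 0x81) (nat_lit 1) (p (nat_lit 0x41) (nat_lit 1) (p (nat_lit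 0x88090887069a) (nat_lit 0) (p (nat_lit 0x87870806861a) (nat_lit 0) (p (nat_lit 0x80000000070786058a) (nat_lit 0) (p (nat_lit 0x8787058502) (nat_lit 0) (p (nat_lit 0x8586850482) (nat_lit 0) (p (nat_lit 0x160014) (nat_lit 0) (p (nat_lit 0x160004) (nat_lit 0) (p (nat_lit 0x68612) (nat_lit 0) (p (nat_lit 0x50592) (nat_lit 0) (p (nat_lit 0x40512) (nat_lit 0) (p (nat_lit 0x50312) (nat_lit 0) (p (nat_lit 0x38292) (nat_lit 0) (p (nat_lit 0x28212) (nat_lit 0) (p (nat_lit 0x38112) (nat_lit 0) (p (nat_lit 0x20092) (nat_lit 0) (p (nat_lit 0x10012) (nat_lit 0) pn))))))))))))))))))))))))))))) :=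
  Cl.node (nat_lit 0xd1) (nat_lit 2) (by decide +kernel) (ClAll.succ (ClAll.succ ClAll.zero s326) s327)

def n41 : Cl (O (nat_lit 2)) (R (nat_lit 14353))
    (p (nat_lit 0xc1) (nat_lit 1) (p (nat_lit 0xb0014) (nat_lit 0) (p (nat_lit 0xb0004) (nat_lit 0) (p (nat_lit 0x111) (nat_lit 0) (p (nat_lit 0x20000c) (nat_lit 0) (p (nat_lit 0xc9) (nat_lit 0) (p (nat_lit 0x81) (nat_lit 0) (p (nat_lit 0x101) (nat_lit 1) (p (nat_lit 0x119) (nat_lit 0) (p (nat_lit 0xd1) (nat_lit 0) (p (nat_lit 0x89) (nat_lit 0) (p (nat_lit 0x41) (nat_lit 0) (p (nat_lit 0x88090887069a) (nat_lit 0) (p (nat_lit 0x87870806861a) (nat_lit 0) (p (nat_lit 0x80000000070786058a) (nat_lit 0) (p (nat_lit 0x8787058502) (nat_lit 0) (p (nat_lit 0x8586850482) (nat_lit 0) (p (nat_lit 0x160014) (nat_lit 0) (p (nat_lit 0x160004) (nat_lit 0) (p (nat_lit 0x68612) (nat_lit 0) (p (nat_lit 0x50592) (nat_lit 0) (p (nat_lit 0x40512)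 (nat_lit 0) (p (nat_lit 0x50312) (nat_lit 0) (p (nat_lit 0x38292) (nat_lit 0) (p (nat_lit 0x28212) (nat_lit 0) (p (nat_lit 0x38112) (nat_lit 0) (p (nat_lit 0x20092) (nat_lit 0) (p (nat_lit 0x10012) (nat_lit 0) pn)))))))))))))))))))))))))))) :=
  Cl.node (nat_lit 0x101) (nat_lit 2) (by decide +kernel) (ClAll.succ (ClAll.succ ClAll.zero s7) n20)

def n42 : Cl (O (nat_lit 2)) (R (nat_lit 14353))
    (p (nat_lit 0x109) (nat_lit 0) (p (nat_lit 0xb0014) (nat_lit 0) (p (nat_lit 0xb0004) (nat_lit 0) (p (nat_lit 0x111) (nat_lit 0) (p (nat_lit 0x20000c) (nat_lit 0) (p (nat_lit 0xc9) (nat_lit 1) (p (nat_lit 0x81) (nat_lit 0) (p (nat_lit 0x101) (nat_lit 1) (p (nat_lit 0x119) (nat_lit 0) (p (nat_lit 0xd1) (nat_lit 0) (p (nat_lit 0x89) (nat_lit 0) (p (nat_lit 0x41) (nat_lit 0) (p (nat_lit 0x88090887069a) (nat_lit 0) (p (nat_lit 0x87870806861a) (nat_lit 0) (p (nat_lit 0x80000000070786058a)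 (nat_lit 0) (p (nat_lit 0x8787058502) (nat_lit 0) (p (nat_lit 0x8586850482) (nat_lit 0) (p (nat_lit 0x160014) (nat_lit 0) (p (nat_lit 0x160004) (nat_lit 0) (p (nat_lit 0x68612) (nat_lit 0) (p (nat_lit 0x50592) (nat_lit 0) (p (nat_lit 0x40512) (nat_lit 0) (p (nat_lit 0x50312) (nat_lit 0) (p (nat_lit 0x38292) (nat_lit 0) (p (nat_lit 0x28212) (nat_lit 0) (p (nat_lit 0x38112) (nat_lit 0) (p (nat_lit 0x20092) (nat_lit 0) (p (nat_lit 0x10012) (nat_lit 0) pn)))))))))))))))))))))))))))) :=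
  Cl.node (nat_lit 0x101) (nat_lit 2) (by decide +kernel) (ClAll.succ (ClAll.succ ClAll.zero s14) n21)

def n43 : Cl (O (nat_lit 2)) (R (nat_lit 14353))
    (p (nat_lit 0xd1) (nat_lit 1) (p (nat_lit 0xb0014) (nat_lit 0) (p (nat_lit 0xb0004) (nat_lit 0) (p (nat_lit 0x20000c) (nat_lit 0) (p (nat_lit 0xc9) (nat_lit 0) (p (nat_lit 0xc1) (nat_lit 0) (p (nat_lit 0x81) (nat_lit 1) (p (nat_lit 0x101) (nat_lit 1) (p (nat_lit 0x119) (nat_lit 0) (p (nat_lit 0xd1) (nat_lit 0) (p (nat_lit 0x89) (nat_lit 0) (p (nat_lit 0x41) (nat_lit 0) (p (nat_lit 0x88090887069a) (nat_lit 0) (p (nat_lit 0x87870806861a) (nat_lit 0) (p (nat_lit 0x80000000070786058a) (nat_lit 0) (p (nat_lit 0x8787058502) (nat_lit 0) (p (nat_lit 0x8586850482) (nat_lit 0) (p (nat_lit 0x160014) (nat_lit 0) (p (nat_lit 0x160004) (nat_lit 0) (p (nat_lit 0x68612) (nat_lit 0) (p (nat_lit 0x50592) (nat_lit 0) (p (nat_lit 0x40512)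 (nat_lit 0) (p (nat_lit 0x50312) (nat_lit 0) (p (nat_lit 0x38292) (nat_lit 0) (p (nat_lit 0x28212) (nat_lit 0) (p (nat_lit 0x38112) (nat_lit 0) (p (nat_lit 0x20092) (nat_lit 0) (p (nat_lit 0x10012) (nat_lit 0) pn)))))))))))))))))))))))))))) :=
  Cl.node (nat_lit 0x111) (nat_lit 2) (by decide +kernel) (ClAll.succ (ClAll.succ ClAll.zero s23) n22)

def n44 : Cl (O (nat_lit 2)) (R (nat_lit 14353))
    (p (nat_lit 0x111) (nat_lit 0) (p (nat_lit 0x41) (nat_lit 0) (p (nat_lit 0xb0014) (nat_lit 0) (p (nat_lit 0xb0004) (nat_lit 0) (p (nat_lit 0x20000c) (nat_lit 0) (p (nat_lit 0xd1) (nat_lit 1) (p (nat_lit 0x109) (nat_lit 1) (p (nat_lit 0x101) (nat_lit 0) (p (nat_lit 0x119) (nat_lit 0) (p (nat_lit 0xc9) (nat_lit 0) (p (nat_lit 0x89) (nat_lit 1) (p (nat_lit 0x41) (nat_lit 0) (p (nat_lit 0x88090887069a) (nat_lit 0) (p (nat_lit 0x87870806861a) (nat_lit 0) (p (nat_lit 0x80000000070786058a)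 (nat_lit 0) (p (nat_lit 0x8787058502) (nat_lit 0) (p (nat_lit 0x8586850482) (nat_lit 0) (p (nat_lit 0x160014) (nat_lit 0) (p (nat_lit 0x160004) (nat_lit 0) (p (nat_lit 0x68612) (nat_lit 0) (p (nat_lit 0x50592) (nat_lit 0) (p (nat_lit 0x40512) (nat_lit 0) (p (nat_lit 0x50312) (nat_lit 0) (p (nat_lit 0x38292) (nat_lit 0) (p (nat_lit 0x28212) (nat_lit 0) (p (nat_lit 0x38112) (nat_lit 0) (p (nat_lit 0x20092) (nat_lit 0) (p (nat_lit 0x10012) (nat_lit 0) pn)))))))))))))))))))))))))))) :=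
  Cl.node (nat_lit 0x109) (nat_lit 2) (by decide +kernel) (ClAll.succ (ClAll.succ ClAll.zero n23) n24)

def n45 : Cl (O (nat_lit 2)) (R (nat_lit 14353))
    (p (nat_lit 0x111) (nat_lit 1) (p (nat_lit 0x41) (nat_lit 0) (p (nat_lit 0xb0014) (nat_lit 0) (p (nat_lit 0xb0004) (nat_lit 0) (p (nat_lit 0x20000c) (nat_lit 0) (p (nat_lit 0xd1) (nat_lit 1) (p (nat_lit 0x109) (nat_lit 1) (p (nat_lit 0x101) (nat_lit 0) (p (nat_lit 0x119) (nat_lit 0) (p (nat_lit 0xc9) (nat_lit 0) (p (nat_lit 0x89) (nat_lit 1) (p (nat_lit 0x41) (nat_lit 0) (p (nat_lit 0x88090887069a) (nat_lit 0) (p (nat_lit 0x87870806861a) (nat_lit 0) (p (nat_lit 0x80000000070786058a) (nat_lit 0) (p (nat_lit 0x8787058502) (nat_lit 0) (p (nat_lit 0x8586850482) (nat_lit 0) (p (nat_lit 0x160014) (nat_lit 0) (p (nat_lit 0x160004) (nat_lit 0) (p (nat_lit 0x68612) (nat_lit 0) (p (nat_lit 0x50592) (nat_lit 0) (p (nat_lit 0x40512)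 (nat_lit 0) (p (nat_lit 0x50312) (nat_lit 0) (p (nat_lit 0x38292) (nat_lit 0) (p (nat_lit 0x28212) (nat_lit 0) (p (nat_lit 0x38112) (nat_lit 0) (p (nat_lit 0x20092) (nat_lit 0) (p (nat_lit 0x10012) (nat_lit 0) pn)))))))))))))))))))))))))))) :=
  Cl.node (nat_lit 0x89) (nat_lit 2) (by decide +kernel) (ClAll.succ (ClAll.succ ClAll.zero n25) n26)

def n46 : Cl (O (nat_lit 2)) (R (nat_lit 14353))
    (p (nat_lit 0x89088988079a) (nat_lit 0) (p (nat_lit 0x2a82580000088907870a) (nat_lit 0) (p (nat_lit 0xb0014) (nat_lit 1) (p (nat_lit 0xb0004) (nat_lit 0) (p (nat_lit 0x20000c) (nat_lit 0) (p (nat_lit 0xd1) (nat_lit 1) (p (nat_lit 0x109) (nat_lit 1) (p (nat_lit 0x101) (nat_lit 0) (p (nat_lit 0x119) (nat_lit 0) (p (nat_lit 0xc9) (nat_lit 0) (p (nat_lit 0x89) (nat_lit 1) (p (nat_lit 0x41) (nat_lit 0) (p (nat_lit 0x88090887069a) (nat_lit 0) (p (nat_lit 0x87870806861a) (nat_lit 0) (p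 (nat_lit 0x80000000070786058a) (nat_lit 0) (p (nat_lit 0x8787058502) (nat_lit 0) (p (nat_lit 0x8586850482) (nat_lit 0) (p (nat_lit 0x160014) (nat_lit 0) (p (nat_lit 0x160004) (nat_lit 0) (p (nat_lit 0x68612) (nat_lit 0) (p (nat_lit 0x50592) (nat_lit 0) (p (nat_lit 0x40512) (nat_lit 0) (p (nat_lit 0x50312) (nat_lit 0) (p (nat_lit 0x38292) (nat_lit 0) (p (nat_lit 0x28212) (nat_lit 0) (p (nat_lit 0x38112) (nat_lit 0) (p (nat_lit 0x20092) (nat_lit 0) (p (nat_lit 0x10012) (nat_lit 0) pn)))))))))))))))))))))))))))) :=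
  Cl.node (nat_lit 0x898a8a08881a) (nat_lit 1) (by decide +kernel) (ClAll.succ ClAll.zero n27)

def n47 : Cl (O (nat_lit 2)) (R (nat_lit 14353))
    (p (nat_lit 0x89088988079a) (nat_lit 0) (p (nat_lit 0x2a82580000088907870a) (nat_lit 0) (p (nat_lit 0xb0014) (nat_lit 0) (p (nat_lit 0xb0004) (nat_lit 1) (p (nat_lit 0x20000c) (nat_lit 0) (p (nat_lit 0xd1) (nat_lit 1) (p (nat_lit 0x109) (nat_lit 1) (p (nat_lit 0x101) (nat_lit 0) (p (nat_lit 0x119) (nat_lit 0) (p (nat_lit 0xc9) (nat_lit 0) (p (nat_lit 0x89) (nat_lit 1) (p (nat_lit 0x41) (nat_lit 0) (p (nat_lit 0x88090887069a) (nat_lit 0) (p (nat_lit 0x87870806861a) (nat_lit 0) (p (nat_lit 0x80000000070786058a) (nat_lit 0) (p (nat_lit 0x8787058502) (nat_lit 0) (p (nat_lit 0x8586850482) (nat_lit 0) (p (nat_lit 0x160014) (nat_lit 0) (p (nat_lit 0x160004) (nat_lit 0) (p (nat_lit 0x68612) (nat_lit 0) (p (nat_lit 0x50592) (nat_lit 0)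 (p (nat_lit 0x40512) (nat_lit 0) (p (nat_lit 0x50312) (nat_lit 0) (p (nat_lit 0x38292) (nat_lit 0) (p (nat_lit 0x28212) (nat_lit 0) (p (nat_lit 0x38112) (nat_lit 0) (p (nat_lit 0x20092) (nat_lit 0) (p (nat_lit 0x10012) (nat_lit 0) pn)))))))))))))))))))))))))))) :=
  Cl.node (nat_lit 0x898a8a08881a) (nat_lit 1) (by decide +kernel) (ClAll.succ ClAll.zero n28)

def n48 : Cl (O (nat_lit 2)) (R (nat_lit 14353))
    (p (nat_lit 0x81) (nat_lit 0) (p (nat_lit 0x109) (nat_lit 1) (p (nat_lit 0xb0014) (nat_lit 0) (p (nat_lit 0xb0004) (nat_lit 0) (p (nat_lit 0x20000c) (nat_lit 0) (p (nat_lit 0xd1) (nat_lit 1) (p (nat_lit 0xc1) (nat_lit 0) (p (nat_lit 0x101) (nat_lit 1) (p (nat_lit 0x119) (nat_lit 0) (p (nat_lit 0xc9) (nat_lit 0) (p (nat_lit 0x89) (nat_lit 1) (p (nat_lit 0x41) (nat_lit 0) (p (nat_lit 0x88090887069a) (nat_lit 0) (p (nat_lit 0x87870806861a) (nat_lit 0) (p (nat_lit 0x80000000070786058a)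 (nat_lit 0) (p (nat_lit 0x8787058502) (nat_lit 0) (p (nat_lit 0x8586850482) (nat_lit 0) (p (nat_lit 0x160014) (nat_lit 0) (p (nat_lit 0x160004) (nat_lit 0) (p (nat_lit 0x68612) (nat_lit 0) (p (nat_lit 0x50592) (nat_lit 0) (p (nat_lit 0x40512) (nat_lit 0) (p (nat_lit 0x50312) (nat_lit 0) (p (nat_lit 0x38292) (nat_lit 0) (p (nat_lit 0x28212) (nat_lit 0) (p (nat_lit 0x38112) (nat_lit 0) (p (nat_lit 0x20092) (nat_lit 0) (p (nat_lit 0x10012) (nat_lit 0) pn)))))))))))))))))))))))))))) :=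
  Cl.node (nat_lit 0x89) (nat_lit 2) (by decide +kernel) (ClAll.succ (ClAll.succ ClAll.zero n29) n30)

def n49 : Cl (O (nat_lit 2)) (R (nat_lit 14353))
    (p (nat_lit 0x81) (nat_lit 1) (p (nat_lit 0x109) (nat_lit 1) (p (nat_lit 0xb0014) (nat_lit 0) (p (nat_lit 0xb0004) (nat_lit 0) (p (nat_lit 0x20000c) (nat_lit 0) (p (nat_lit 0xd1) (nat_lit 1) (p (nat_lit 0xc1) (nat_lit 0) (p (nat_lit 0x101) (nat_lit 1) (p (nat_lit 0x119) (nat_lit 0) (p (nat_lit 0xc9) (nat_lit 0) (p (nat_lit 0x89) (nat_lit 1) (p (nat_lit 0x41) (nat_lit 0) (p (nat_lit 0x88090887069a) (nat_lit 0) (p (nat_lit 0x87870806861a) (nat_lit 0) (p (nat_lit 0x80000000070786058a) (nat_lit 0) (p (nat_lit 0x8787058502) (nat_lit 0) (p (nat_lit 0x8586850482) (nat_lit 0) (p (nat_lit 0x160014) (nat_lit 0) (p (nat_lit 0x160004) (nat_lit 0) (p (nat_lit 0x68612) (nat_lit 0) (p (nat_lit 0x50592) (nat_lit 0) (p (nat_lit 0x40512)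 (nat_lit 0) (p (nat_lit 0x50312) (nat_lit 0) (p (nat_lit 0x38292) (nat_lit 0) (p (nat_lit 0x28212) (nat_lit 0) (p (nat_lit 0x38112) (nat_lit 0) (p (nat_lit 0x20092) (nat_lit 0) (p (nat_lit 0x10012) (nat_lit 0) pn)))))))))))))))))))))))))))) :=
  Cl.node (nat_lit 0x41) (nat_lit 2) (by decide +kernel) (ClAll.succ (ClAll.succ ClAll.zero s126) s127)

def n50 : Cl (O (nat_lit 2)) (R (nat_lit 14353))
    (p (nat_lit 0x89088988079a) (nat_lit 0) (p (nat_lit 0x2a82580000088907870a) (nat_lit 0) (p (nat_lit 0xb0014) (nat_lit 1) (p (nat_lit 0xb0004) (nat_lit 0) (p (nat_lit 0x20000c) (nat_lit 0) (p (nat_lit 0xd1) (nat_lit 1) (p (nat_lit 0xc1) (nat_lit 0) (p (nat_lit 0x101) (nat_lit 1) (p (nat_lit 0x119) (nat_lit 0) (p (nat_lit 0xc9) (nat_lit 0) (p (nat_lit 0x89) (nat_lit 1) (p (nat_lit 0x41) (nat_lit 0) (p (nat_lit 0x88090887069a) (nat_lit 0) (p (nat_lit 0x87870806861a) (nat_lit 0) (p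 (nat_lit 0x80000000070786058a) (nat_lit 0) (p (nat_lit 0x8787058502) (nat_lit 0) (p (nat_lit 0x8586850482) (nat_lit 0) (p (nat_lit 0x160014) (nat_lit 0) (p (nat_lit 0x160004) (nat_lit 0) (p (nat_lit 0x68612) (nat_lit 0) (p (nat_lit 0x50592) (nat_lit 0) (p (nat_lit 0x40512) (nat_lit 0) (p (nat_lit 0x50312) (nat_lit 0) (p (nat_lit 0x38292) (nat_lit 0) (p (nat_lit 0x28212) (nat_lit 0) (p (nat_lit 0x38112) (nat_lit 0) (p (nat_lit 0x20092) (nat_lit 0) (p (nat_lit 0x10012) (nat_lit 0) pn)))))))))))))))))))))))))))) :=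
  Cl.node (nat_lit 0x898a8a08881a) (nat_lit 1) (by decide +kernel) (ClAll.succ ClAll.zero n31)

def n51 : Cl (O (nat_lit 2)) (R (nat_lit 14353))
    (p (nat_lit 0x81) (nat_lit 1) (p (nat_lit 0xd1) (nat_lit 1) (p (nat_lit 0xb0014) (nat_lit 0) (p (nat_lit 0xb0004) (nat_lit 0) (p (nat_lit 0x20000c) (nat_lit 0) (p (nat_lit 0x111) (nat_lit 1) (p (nat_lit 0x101) (nat_lit 0) (p (nat_lit 0xc1) (nat_lit 1) (p (nat_lit 0x119) (nat_lit 1) (p (nat_lit 0xc9) (nat_lit 0) (p (nat_lit 0x89) (nat_lit 1) (p (nat_lit 0x41) (nat_lit 0) (p (nat_lit 0x88090887069a) (nat_lit 0) (p (nat_lit 0x87870806861a) (nat_lit 0) (p (nat_lit 0x80000000070786058a) (nat_lit 0) (p (nat_lit 0x8787058502) (nat_lit 0) (p (nat_lit 0x8586850482) (nat_lit 0) (p (nat_lit 0x160014) (nat_lit 0) (p (nat_lit 0x160004) (nat_lit 0) (p (nat_lit 0x68612) (nat_lit 0) (p (nat_lit 0x50592) (nat_lit 0) (p (nat_lit 0x40512) (nat_lit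 0) (p (nat_lit 0x50312) (nat_lit 0) (p (nat_lit 0x38292) (nat_lit 0) (p (nat_lit 0x28212) (nat_lit 0) (p (nat_lit 0x38112) (nat_lit 0) (p (nat_lit 0x20092) (nat_lit 0) (p (nat_lit 0x10012) (nat_lit 0) pn)))))))))))))))))))))))))))) :=
  Cl.node (nat_lit 0x41) (nat_lit 2) (by decide +kernel) (ClAll.succ (ClAll.succ ClAll.zero s146) s147)

def n52 : Cl (O (nat_lit 2)) (R (nat_lit 14353))
    (p (nat_lit 0x89088988079a) (nat_lit 0) (p (nat_lit 0x2a82580000088907870a) (nat_lit 0) (p (nat_lit 0xb0014) (nat_lit 1) (p (nat_lit 0xb0004) (nat_lit 0) (p (nat_lit 0x20000c) (nat_lit 0) (p (nat_lit 0x111) (nat_lit 1) (p (nat_lit 0x101) (nat_lit 0) (p (nat_lit 0xc1) (nat_lit 1) (p (nat_lit 0x119) (nat_lit 1) (p (nat_lit 0xc9) (nat_lit 0) (p (nat_lit 0x89) (nat_lit 1) (p (nat_lit 0x41) (nat_lit 0) (p (nat_lit 0x88090887069a) (nat_lit 0) (p (nat_lit 0x87870806861a) (nat_lit 0) (p (nat_lit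 0x80000000070786058a) (nat_lit 0) (p (nat_lit 0x8787058502) (nat_lit 0) (p (nat_lit 0x8586850482) (nat_lit 0) (p (nat_lit 0x160014) (nat_lit 0) (p (nat_lit 0x160004) (nat_lit 0) (p (nat_lit 0x68612) (nat_lit 0) (p (nat_lit 0x50592) (nat_lit 0) (p (nat_lit 0x40512) (nat_lit 0) (p (nat_lit 0x50312) (nat_lit 0) (p (nat_lit 0x38292) (nat_lit 0) (p (nat_lit 0x28212) (nat_lit 0) (p (nat_lit 0x38112) (nat_lit 0) (p (nat_lit 0x20092) (nat_lit 0) (p (nat_lit 0x10012) (nat_lit 0) pn)))))))))))))))))))))))))))) :=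
  Cl.node (nat_lit 0x898a8a08881a) (nat_lit 1) (by decide +kernel) (ClAll.succ ClAll.zero n32)

def n53 : Cl (O (nat_lit 2)) (R (nat_lit 14353))
    (p (nat_lit 0xc9) (nat_lit 1) (p (nat_lit 0xb0014) (nat_lit 0) (p (nat_lit 0xb0004) (nat_lit 0) (p (nat_lit 0x111) (nat_lit 0) (p (nat_lit 0x20000c) (nat_lit 0) (p (nat_lit 0x89) (nat_lit 0) (p (nat_lit 0x109) (nat_lit 1) (p (nat_lit 0x101) (nat_lit 0) (p (nat_lit 0x119) (nat_lit 0) (p (nat_lit 0xd1) (nat_lit 0) (p (nat_lit 0x81) (nat_lit 0) (p (nat_lit 0x41) (nat_lit 1) (p (nat_lit 0x88090887069a) (nat_lit 0) (p (nat_lit 0x87870806861a) (nat_lit 0) (p (nat_lit 0x80000000070786058a) (nat_lit 0) (p (nat_lit 0x8787058502) (nat_lit 0) (p (nat_lit 0x8586850482) (nat_lit 0) (p (nat_lit 0x160014) (nat_lit 0) (p (nat_lit 0x160004) (nat_lit 0) (p (nat_lit 0x68612) (nat_lit 0) (p (nat_lit 0x50592) (nat_lit 0) (p (nat_lit 0x40512) (nat_lit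 0) (p (nat_lit 0x50312) (nat_lit 0) (p (nat_lit 0x38292) (nat_lit 0) (p (nat_lit 0x28212) (nat_lit 0) (p (nat_lit 0x38112) (nat_lit 0) (p (nat_lit 0x20092) (nat_lit 0) (p (nat_lit 0x10012) (nat_lit 0) pn)))))))))))))))))))))))))))) :=
  Cl.node (nat_lit 0x41) (nat_lit 2) (by decide +kernel) (ClAll.succ (ClAll.succ ClAll.zero n33) s163)

def n54 : Cl (O (nat_lit 2)) (R (nat_lit 14353))
    (p (nat_lit 0xd1) (nat_lit 1) (p (nat_lit 0xb0014) (nat_lit 0) (p (nat_lit 0xb0004) (nat_lit 0) (p (nat_lit 0x20000c) (nat_lit 0) (p (nat_lit 0xc9) (nat_lit 0) (p (nat_lit 0x89) (nat_lit 1) (p (nat_lit 0x109) (nat_lit 1) (p (nat_lit 0x101) (nat_lit 0) (p (nat_lit 0x119) (nat_lit 0) (p (nat_lit 0xd1) (nat_lit 0) (p (nat_lit 0x81) (nat_lit 0) (p (nat_lit 0x41) (nat_lit 1) (p (nat_lit 0x88090887069a) (nat_lit 0) (p (nat_lit 0x87870806861a) (nat_lit 0) (p (nat_lit 0x80000000070786058a) (nat_lit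 0) (p (nat_lit 0x8787058502) (nat_lit 0) (p (nat_lit 0x8586850482) (nat_lit 0) (p (nat_lit 0x160014) (nat_lit 0) (p (nat_lit 0x160004) (nat_lit 0) (p (nat_lit 0x68612) (nat_lit 0) (p (nat_lit 0x50592) (nat_lit 0) (p (nat_lit 0x40512) (nat_lit 0) (p (nat_lit 0x50312) (nat_lit 0) (p (nat_lit 0x38292) (nat_lit 0) (p (nat_lit 0x28212) (nat_lit 0) (p (nat_lit 0x38112) (nat_lit 0) (p (nat_lit 0x20092) (nat_lit 0) (p (nat_lit 0x10012) (nat_lit 0) pn)))))))))))))))))))))))))))) :=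
  Cl.node (nat_lit 0x81) (nat_lit 2) (by decide +kernel) (ClAll.succ (ClAll.succ ClAll.zero n34) s172)

def n55 : Cl (O (nat_lit 2)) (R (nat_lit 14353))
    (p (nat_lit 0xd1) (nat_lit 1) (p (nat_lit 0xb0014) (nat_lit 0) (p (nat_lit 0xb0004) (nat_lit 0) (p (nat_lit 0x20000c) (nat_lit 0) (p (nat_lit 0xc9) (nat_lit 0) (p (nat_lit 0x89) (nat_lit 1) (p (nat_lit 0xc1) (nat_lit 0) (p (nat_lit 0x101) (nat_lit 1) (p (nat_lit 0x119) (nat_lit 0) (p (nat_lit 0xd1) (nat_lit 0) (p (nat_lit 0x81) (nat_lit 0) (p (nat_lit 0x41) (nat_lit 1) (p (nat_lit 0x88090887069a) (nat_lit 0) (p (nat_lit 0x87870806861a) (nat_lit 0) (p (nat_lit 0x80000000070786058a) (nat_lit 0) (p (nat_lit 0x8787058502) (nat_lit 0) (p (nat_lit 0x8586850482) (nat_lit 0) (p (nat_lit 0x160014) (nat_lit 0) (p (nat_lit 0x160004) (nat_lit 0) (p (nat_lit 0x68612) (nat_lit 0) (p (nat_lit 0x50592) (nat_lit 0) (p (nat_lit 0x40512)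 (nat_lit 0) (p (nat_lit 0x50312) (nat_lit 0) (p (nat_lit 0x38292) (nat_lit 0) (p (nat_lit 0x28212) (nat_lit 0) (p (nat_lit 0x38112) (nat_lit 0) (p (nat_lit 0x20092) (nat_lit 0) (p (nat_lit 0x10012) (nat_lit 0) pn)))))))))))))))))))))))))))) :=
  Cl.node (nat_lit 0x111) (nat_lit 2) (by decide +kernel) (ClAll.succ (ClAll.succ ClAll.zero s181) n35)

def n56 : Cl (O (nat_lit 2)) (R (nat_lit 14353))
    (p (nat_lit 0x101) (nat_lit 0) (p (nat_lit 0x109) (nat_lit 0) (p (nat_lit 0xb0014) (nat_lit 0) (p (nat_lit 0xb0004) (nat_lit 0) (p (nat_lit 0x20000c) (nat_lit 0) (p (nat_lit 0x89) (nat_lit 1) (p (nat_lit 0xc1) (nat_lit 1) (p (nat_lit 0x101) (nat_lit 1) (p (nat_lit 0x119) (nat_lit 0) (p (nat_lit 0xd1) (nat_lit 0) (p (nat_lit 0x81) (nat_lit 0) (p (nat_lit 0x41) (nat_lit 1) (p (nat_lit 0x88090887069a) (nat_lit 0) (p (nat_lit 0x87870806861a) (nat_lit 0) (p (nat_lit 0x80000000070786058a)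 (nat_lit 0) (p (nat_lit 0x8787058502) (nat_lit 0) (p (nat_lit 0x8586850482) (nat_lit 0) (p (nat_lit 0x160014) (nat_lit 0) (p (nat_lit 0x160004) (nat_lit 0) (p (nat_lit 0x68612) (nat_lit 0) (p (nat_lit 0x50592) (nat_lit 0) (p (nat_lit 0x40512) (nat_lit 0) (p (nat_lit 0x50312) (nat_lit 0) (p (nat_lit 0x38292) (nat_lit 0) (p (nat_lit 0x28212) (nat_lit 0) (p (nat_lit 0x38112) (nat_lit 0) (p (nat_lit 0x20092) (nat_lit 0) (p (nat_lit 0x10012) (nat_lit 0) pn)))))))))))))))))))))))))))) :=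
  Cl.node (nat_lit 0x111) (nat_lit 2) (by decide +kernel) (ClAll.succ (ClAll.succ ClAll.zero s195) s196)

def n57 : Cl (O (nat_lit 2)) (R (nat_lit 14353))
    (p (nat_lit 0xc9) (nat_lit 0) (p (nat_lit 0xb0014) (nat_lit 0) (p (nat_lit 0xb0004) (nat_lit 0) (p (nat_lit 0x20000c) (nat_lit 0) (p (nat_lit 0x109) (nat_lit 1) (p (nat_lit 0x89) (nat_lit 1) (p (nat_lit 0x101) (nat_lit 0) (p (nat_lit 0xc1) (nat_lit 1) (p (nat_lit 0x119) (nat_lit 1) (p (nat_lit 0xd1) (nat_lit 0) (p (nat_lit 0x81) (nat_lit 0) (p (nat_lit 0x41) (nat_lit 1) (p (nat_lit 0x88090887069a) (nat_lit 0) (p (nat_lit 0x87870806861a) (nat_lit 0) (p (nat_lit 0x80000000070786058a) (nat_lit 0) (p (nat_lit 0x8787058502) (nat_lit 0) (p (nat_lit 0x8586850482) (nat_lit 0) (p (nat_lit 0x160014) (nat_lit 0) (p (nat_lit 0x160004) (nat_lit 0) (p (nat_lit 0x68612) (nat_lit 0) (p (nat_lit 0x50592) (nat_lit 0) (p (nat_lit 0x40512)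 (nat_lit 0) (p (nat_lit 0x50312) (nat_lit 0) (p (nat_lit 0x38292) (nat_lit 0) (p (nat_lit 0x28212) (nat_lit 0) (p (nat_lit 0x38112) (nat_lit 0) (p (nat_lit 0x20092) (nat_lit 0) (p (nat_lit 0x10012) (nat_lit 0) pn)))))))))))))))))))))))))))) :=
  Cl.node (nat_lit 0x119) (nat_lit 2) (by decide +kernel) (ClAll.succ (ClAll.succ ClAll.zero s219) s220)

def n58 : Cl (O (nat_lit 2)) (R (nat_lit 14353))
    (p (nat_lit 0xc9) (nat_lit 1) (p (nat_lit 0xb0014) (nat_lit 0) (p (nat_lit 0xb0004) (nat_lit 0) (p (nat_lit 0x20000c) (nat_lit 0) (p (nat_lit 0x109) (nat_lit 1) (p (nat_lit 0x89) (nat_lit 1) (p (nat_lit 0x101) (nat_lit 0) (p (nat_lit 0xc1) (nat_lit 1) (p (nat_lit 0x119) (nat_lit 1) (p (nat_lit 0xd1) (nat_lit 0) (p (nat_lit 0x81) (nat_lit 0) (p (nat_lit 0x41) (nat_lit 1) (p (nat_lit 0x88090887069a) (nat_lit 0) (p (nat_lit 0x87870806861a) (nat_lit 0) (p (nat_lit 0x80000000070786058a)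 (nat_lit 0) (p (nat_lit 0x8787058502) (nat_lit 0) (p (nat_lit 0x8586850482) (nat_lit 0) (p (nat_lit 0x160014) (nat_lit 0) (p (nat_lit 0x160004) (nat_lit 0) (p (nat_lit 0x68612) (nat_lit 0) (p (nat_lit 0x50592) (nat_lit 0) (p (nat_lit 0x40512) (nat_lit 0) (p (nat_lit 0x50312) (nat_lit 0) (p (nat_lit 0x38292) (nat_lit 0) (p (nat_lit 0x28212) (nat_lit 0) (p (nat_lit 0x38112) (nat_lit 0) (p (nat_lit 0x20092) (nat_lit 0) (p (nat_lit 0x10012) (nat_lit 0) pn)))))))))))))))))))))))))))) :=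
  Cl.node (nat_lit 0x41) (nat_lit 2) (by decide +kernel) (ClAll.succ (ClAll.succ ClAll.zero s221) s222)

def n59 : Cl (O (nat_lit 2)) (R (nat_lit 14353))
    (p (nat_lit 0xc1) (nat_lit 0) (p (nat_lit 0xc9) (nat_lit 0) (p (nat_lit 0xb0014) (nat_lit 0) (p (nat_lit 0xb0004) (nat_lit 0) (p (nat_lit 0x20000c) (nat_lit 0) (p (nat_lit 0x89) (nat_lit 1) (p (nat_lit 0x101) (nat_lit 1) (p (nat_lit 0xc1) (nat_lit 1) (p (nat_lit 0x119) (nat_lit 1) (p (nat_lit 0xd1) (nat_lit 0) (p (nat_lit 0x81) (nat_lit 0) (p (nat_lit 0x41) (nat_lit 1) (p (nat_lit 0x88090887069a) (nat_lit 0) (p (nat_lit 0x87870806861a) (nat_lit 0) (p (nat_lit 0x80000000070786058a) (nat_lit 0) (p (nat_lit 0x8787058502) (nat_lit 0) (p (nat_lit 0x8586850482) (nat_lit 0) (p (nat_lit 0x160014) (nat_lit 0) (p (nat_lit 0x160004) (nat_lit 0) (p (nat_lit 0x68612) (nat_lit 0) (p (nat_lit 0x50592) (nat_lit 0) (p (nat_lit 0x40512)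 (nat_lit 0) (p (nat_lit 0x50312) (nat_lit 0) (p (nat_lit 0x38292) (nat_lit 0) (p (nat_lit 0x28212) (nat_lit 0) (p (nat_lit 0x38112) (nat_lit 0) (p (nat_lit 0x20092) (nat_lit 0) (p (nat_lit 0x10012) (nat_lit 0) pn)))))))))))))))))))))))))))) :=
  Cl.node (nat_lit 0x10000c) (nat_lit 2) (by decide +kernel) (ClAll.succ (ClAll.succ ClAll.zero s229) s230)

def n60 : Cl (O (nat_lit 2)) (R (nat_lit 14353))
    (p (nat_lit 0xb0014) (nat_lit 0) (p (nat_lit 0xb0004) (nat_lit 0) (p (nat_lit 0x119) (nat_lit 1) (p (nat_lit 0x20000c) (nat_lit 0) (p (nat_lit 0xc9) (nat_lit 0) (p (nat_lit 0x89) (nat_lit 1) (p (nat_lit 0x109) (nat_lit 1) (p (nat_lit 0x101) (nat_lit 0) (p (nat_lit 0x111) (nat_lit 0) (p (nat_lit 0xd1) (nat_lit 1) (p (nat_lit 0x81) (nat_lit 0) (p (nat_lit 0x41) (nat_lit 1) (p (nat_lit 0x88090887069a) (nat_lit 0) (p (nat_lit 0x87870806861a) (nat_lit 0) (p (nat_lit 0x80000000070786058a)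 (nat_lit 0) (p (nat_lit 0x8787058502) (nat_lit 0) (p (nat_lit 0x8586850482) (nat_lit 0) (p (nat_lit 0x160014) (nat_lit 0) (p (nat_lit 0x160004) (nat_lit 0) (p (nat_lit 0x68612) (nat_lit 0) (p (nat_lit 0x50592) (nat_lit 0) (p (nat_lit 0x40512) (nat_lit 0) (p (nat_lit 0x50312) (nat_lit 0) (p (nat_lit 0x38292) (nat_lit 0) (p (nat_lit 0x28212) (nat_lit 0) (p (nat_lit 0x38112) (nat_lit 0) (p (nat_lit 0x20092) (nat_lit 0) (p (nat_lit 0x10012) (nat_lit 0) pn)))))))))))))))))))))))))))) :=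
  Cl.node (nat_lit 0xc1) (nat_lit 2) (by decide +kernel) (ClAll.succ (ClAll.succ ClAll.zero s241) s242)

def n61 : Cl (O (nat_lit 2)) (R (nat_lit 14353))
    (p (nat_lit 0x89088988079a) (nat_lit 0) (p (nat_lit 0x2a82580000088907870a) (nat_lit 0) (p (nat_lit 0xb0014) (nat_lit 0) (p (nat_lit 0xb0004) (nat_lit 1) (p (nat_lit 0x20000c) (nat_lit 0) (p (nat_lit 0xc9) (nat_lit 0) (p (nat_lit 0x89) (nat_lit 1) (p (nat_lit 0x101) (nat_lit 1) (p (nat_lit 0x111) (nat_lit 0) (p (nat_lit 0xd1) (nat_lit 1) (p (nat_lit 0x81) (nat_lit 0) (p (nat_lit 0x41) (nat_lit 1) (p (nat_lit 0x88090887069a) (nat_lit 0) (p (nat_lit 0x87870806861a) (nat_lit 0) (p (nat_lit 0x80000000070786058a) (nat_lit 0) (p (nat_lit 0x8787058502) (nat_lit 0) (p (nat_lit 0x8586850482) (nat_lit 0) (p (nat_lit 0x160014) (nat_lit 0) (p (nat_lit 0x160004) (nat_lit 0) (p (nat_lit 0x68612) (nat_lit 0) (p (nat_lit 0x50592) (nat_lit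 0) (p (nat_lit 0x40512) (nat_lit 0) (p (nat_lit 0x50312) (nat_lit 0) (p (nat_lit 0x38292) (nat_lit 0) (p (nat_lit 0x28212) (nat_lit 0) (p (nat_lit 0x38112) (nat_lit 0) (p (nat_lit 0x20092) (nat_lit 0) (p (nat_lit 0x10012) (nat_lit 0) pn)))))))))))))))))))))))))))) :=
  Cl.node (nat_lit 0x898a8a08881a) (nat_lit 1) (by decide +kernel) (ClAll.succ ClAll.zero n36)

def n62 : Cl (O (nat_lit 2)) (R (nat_lit 14353))
    (p (nat_lit 0x101) (nat_lit 1) (p (nat_lit 0x111) (nat_lit 0) (p (nat_lit 0xb0014) (nat_lit 0) (p (nat_lit 0xb0004) (nat_lit 0) (p (nat_lit 0x20000c) (nat_lit 0) (p (nat_lit 0xd1) (nat_lit 1) (p (nat_lit 0xc9) (nat_lit 0) (p (nat_lit 0x101) (nat_lit 1) (p (nat_lit 0x119) (nat_lit 0) (p (nat_lit 0xc1) (nat_lit 0) (p (nat_lit 0x81) (nat_lit 1) (p (nat_lit 0x41) (nat_lit 1) (p (nat_lit 0x88090887069a) (nat_lit 0) (p (nat_lit 0x87870806861a) (nat_lit 0) (p (nat_lit 0x80000000070786058a)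 (nat_lit 0) (p (nat_lit 0x8787058502) (nat_lit 0) (p (nat_lit 0x8586850482) (nat_lit 0) (p (nat_lit 0x160014) (nat_lit 0) (p (nat_lit 0x160004) (nat_lit 0) (p (nat_lit 0x68612) (nat_lit 0) (p (nat_lit 0x50592) (nat_lit 0) (p (nat_lit 0x40512) (nat_lit 0) (p (nat_lit 0x50312) (nat_lit 0) (p (nat_lit 0x38292) (nat_lit 0) (p (nat_lit 0x28212) (nat_lit 0) (p (nat_lit 0x38112) (nat_lit 0) (p (nat_lit 0x20092) (nat_lit 0) (p (nat_lit 0x10012) (nat_lit 0) pn)))))))))))))))))))))))))))) :=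
  Cl.node (nat_lit 0x81) (nat_lit 2) (by decide +kernel) (ClAll.succ (ClAll.succ ClAll.zero n37) s294)

def n63 : Cl (O (nat_lit 2)) (R (nat_lit 14353))
    (p (nat_lit 0x81) (nat_lit 1) (p (nat_lit 0x111) (nat_lit 1) (p (nat_lit 0xb0014) (nat_lit 0) (p (nat_lit 0xb0004) (nat_lit 0) (p (nat_lit 0x20000c) (nat_lit 0) (p (nat_lit 0xd1) (nat_lit 1) (p (nat_lit 0xc9) (nat_lit 0) (p (nat_lit 0x101) (nat_lit 1) (p (nat_lit 0x119) (nat_lit 0) (p (nat_lit 0xc1) (nat_lit 0) (p (nat_lit 0x81) (nat_lit 1) (p (nat_lit 0x41) (nat_lit 1) (p (nat_lit 0x88090887069a) (nat_lit 0) (p (nat_lit 0x87870806861a) (nat_lit 0) (p (nat_lit 0x80000000070786058a) (nat_lit 0) (p (nat_lit 0x8787058502) (nat_lit 0) (p (nat_lit 0x8586850482) (nat_lit 0) (p (nat_lit 0x160014) (nat_lit 0) (p (nat_lit 0x160004) (nat_lit 0) (p (nat_lit 0x68612) (nat_lit 0) (p (nat_lit 0x50592) (nat_lit 0) (p (nat_lit 0x40512)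 (nat_lit 0) (p (nat_lit 0x50312) (nat_lit 0) (p (nat_lit 0x38292) (nat_lit 0) (p (nat_lit 0x28212) (nat_lit 0) (p (nat_lit 0x38112) (nat_lit 0) (p (nat_lit 0x20092) (nat_lit 0) (p (nat_lit 0x10012) (nat_lit 0) pn)))))))))))))))))))))))))))) :=
  Cl.node (nat_lit 0x101) (nat_lit 2) (by decide +kernel) (ClAll.succ (ClAll.succ ClAll.zero n38) n39)

def n64 : Cl (O (nat_lit 2)) (R (nat_lit 14353))
    (p (nat_lit 0x81) (nat_lit 0) (p (nat_lit 0x89) (nat_lit 0) (p (nat_lit 0xb0014) (nat_lit 0) (p (nat_lit 0xb0004) (nat_lit 0) (p (nat_lit 0x20000c) (nat_lit 0) (p (nat_lit 0x111) (nat_lit 1) (p (nat_lit 0xd1) (nat_lit 1) (p (nat_lit 0xc9) (nat_lit 0) (p (nat_lit 0x119) (nat_lit 1) (p (nat_lit 0xc1) (nat_lit 0) (p (nat_lit 0x81) (nat_lit 1) (p (nat_lit 0x41) (nat_lit 1) (p (nat_lit 0x88090887069a) (nat_lit 0) (p (nat_lit 0x87870806861a) (nat_lit 0) (p (nat_lit 0x80000000070786058a)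 (nat_lit 0) (p (nat_lit 0x8787058502) (nat_lit 0) (p (nat_lit 0x8586850482) (nat_lit 0) (p (nat_lit 0x160014) (nat_lit 0) (p (nat_lit 0x160004) (nat_lit 0) (p (nat_lit 0x68612) (nat_lit 0) (p (nat_lit 0x50592) (nat_lit 0) (p (nat_lit 0x40512) (nat_lit 0) (p (nat_lit 0x50312) (nat_lit 0) (p (nat_lit 0x38292) (nat_lit 0) (p (nat_lit 0x28212) (nat_lit 0) (p (nat_lit 0x38112) (nat_lit 0) (p (nat_lit 0x20092) (nat_lit 0) (p (nat_lit 0x10012) (nat_lit 0) pn)))))))))))))))))))))))))))) :=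
  Cl.node (nat_lit 0xd1) (nat_lit 2) (by decide +kernel) (ClAll.succ (ClAll.succ ClAll.zero s307) s308)

def n65 : Cl (O (nat_lit 2)) (R (nat_lit 14353))
    (p (nat_lit 0x81) (nat_lit 0) (p (nat_lit 0xd1) (nat_lit 1) (p (nat_lit 0xb0014) (nat_lit 0) (p (nat_lit 0xb0004) (nat_lit 0) (p (nat_lit 0x20000c) (nat_lit 0) (p (nat_lit 0x111) (nat_lit 1) (p (nat_lit 0x109) (nat_lit 0) (p (nat_lit 0xc9) (nat_lit 1) (p (nat_lit 0x119) (nat_lit 1) (p (nat_lit 0xc1) (nat_lit 0) (p (nat_lit 0x81) (nat_lit 1) (p (nat_lit 0x41) (nat_lit 1) (p (nat_lit 0x88090887069a) (nat_lit 0) (p (nat_lit 0x87870806861a) (nat_lit 0) (p (nat_lit 0x80000000070786058a) (nat_lit 0) (p (nat_lit 0x8787058502) (nat_lit 0) (p (nat_lit 0x8586850482) (nat_lit 0) (p (nat_lit 0x160014) (nat_lit 0) (p (nat_lit 0x160004) (nat_lit 0) (p (nat_lit 0x68612) (nat_lit 0) (p (nat_lit 0x50592) (nat_lit 0) (p (nat_lit 0x40512)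 (nat_lit 0) (p (nat_lit 0x50312) (nat_lit 0) (p (nat_lit 0x38292) (nat_lit 0) (p (nat_lit 0x28212) (nat_lit 0) (p (nat_lit 0x38112) (nat_lit 0) (p (nat_lit 0x20092) (nat_lit 0) (p (nat_lit 0x10012) (nat_lit 0) pn)))))))))))))))))))))))))))) :=
  Cl.node (nat_lit 0x89) (nat_lit 2) (by decide +kernel) (ClAll.succ (ClAll.succ ClAll.zero s322) s323)

def n66 : Cl (O (nat_lit 2)) (R (nat_lit 14353))
    (p (nat_lit 0x81) (nat_lit 1) (p (nat_lit 0xd1) (nat_lit 1) (p (nat_lit 0xb0014) (nat_lit 0) (p (nat_lit 0xb0004) (nat_lit 0) (p (nat_lit 0x20000c) (nat_lit 0) (p (nat_lit 0x111) (nat_lit 1) (p (nat_lit 0x109) (nat_lit 0) (p (nat_lit 0xc9) (nat_lit 1) (p (nat_lit 0x119) (nat_lit 1) (p (nat_lit 0xc1) (nat_lit 0) (p (nat_lit 0x81) (nat_lit 1) (p (nat_lit 0x41) (nat_lit 1) (p (nat_lit 0x88090887069a) (nat_lit 0) (p (nat_lit 0x87870806861a) (nat_lit 0) (p (nat_lit 0x80000000070786058a)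 (nat_lit 0) (p (nat_lit 0x8787058502) (nat_lit 0) (p (nat_lit 0x8586850482) (nat_lit 0) (p (nat_lit 0x160014) (nat_lit 0) (p (nat_lit 0x160004) (nat_lit 0) (p (nat_lit 0x68612) (nat_lit 0) (p (nat_lit 0x50592) (nat_lit 0) (p (nat_lit 0x40512) (nat_lit 0) (p (nat_lit 0x50312) (nat_lit 0) (p (nat_lit 0x38292) (nat_lit 0) (p (nat_lit 0x28212) (nat_lit 0) (p (nat_lit 0x38112) (nat_lit 0) (p (nat_lit 0x20092) (nat_lit 0) (p (nat_lit 0x10012) (nat_lit 0) pn)))))))))))))))))))))))))))) :=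
  Cl.node (nat_lit 0x41) (nat_lit 2) (by decide +kernel) (ClAll.succ (ClAll.succ ClAll.zero s324) s325)

def n67 : Cl (O (nat_lit 2)) (R (nat_lit 14353))
    (p (nat_lit 0x89088988079a) (nat_lit 0) (p (nat_lit 0x2a82580000088907870a) (nat_lit 0) (p (nat_lit 0xb0014) (nat_lit 1) (p (nat_lit 0xb0004) (nat_lit 0) (p (nat_lit 0x20000c) (nat_lit 0) (p (nat_lit 0x111) (nat_lit 1) (p (nat_lit 0x109) (nat_lit 0) (p (nat_lit 0xc9) (nat_lit 1) (p (nat_lit 0x119) (nat_lit 1) (p (nat_lit 0xc1) (nat_lit 0) (p (nat_lit 0x81) (nat_lit 1) (p (nat_lit 0x41) (nat_lit 1) (p (nat_lit 0x88090887069a) (nat_lit 0) (p (nat_lit 0x87870806861a) (nat_lit 0) (p (nat_lit 0x80000000070786058a) (nat_lit 0) (p (nat_lit 0x8787058502) (nat_lit 0) (p (nat_lit 0x8586850482) (nat_lit 0) (p (nat_lit 0x160014) (nat_lit 0) (p (nat_lit 0x160004) (nat_lit 0) (p (nat_lit 0x68612) (nat_lit 0) (p (nat_lit 0x50592) (nat_lit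 0) (p (nat_lit 0x40512) (nat_lit 0) (p (nat_lit 0x50312) (nat_lit 0) (p (nat_lit 0x38292) (nat_lit 0) (p (nat_lit 0x28212) (nat_lit 0) (p (nat_lit 0x38112) (nat_lit 0) (p (nat_lit 0x20092) (nat_lit 0) (p (nat_lit 0x10012) (nat_lit 0) pn)))))))))))))))))))))))))))) :=
  Cl.node (nat_lit 0x898a8a08881a) (nat_lit 1) (by decide +kernel) (ClAll.succ ClAll.zero n40)

def n68 : Cl (O (nat_lit 2)) (R (nat_lit 14353))
    (p (nat_lit 0xb0014) (nat_lit 0) (p (nat_lit 0xb0004) (nat_lit 0) (p (nat_lit 0x111) (nat_lit 0) (p (nat_lit 0x20000c) (nat_lit 0) (p (nat_lit 0xc9) (nat_lit 0) (p (nat_lit 0x81) (nat_lit 0) (p (nat_lit 0x101) (nat_lit 1) (p (nat_lit 0x119) (nat_lit 0) (p (nat_lit 0xd1) (nat_lit 0) (p (nat_lit 0x89) (nat_lit 0) (p (nat_lit 0x41) (nat_lit 0) (p (nat_lit 0x88090887069a) (nat_lit 0) (p (nat_lit 0x87870806861a) (nat_lit 0) (p (nat_lit 0x80000000070786058a) (nat_lit 0)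 (p (nat_lit 0x8787058502) (nat_lit 0) (p (nat_lit 0x8586850482) (nat_lit 0) (p (nat_lit 0x160014) (nat_lit 0) (p (nat_lit 0x160004) (nat_lit 0) (p (nat_lit 0x68612) (nat_lit 0) (p (nat_lit 0x50592) (nat_lit 0) (p (nat_lit 0x40512) (nat_lit 0) (p (nat_lit 0x50312) (nat_lit 0) (p (nat_lit 0x38292) (nat_lit 0) (p (nat_lit 0x28212) (nat_lit 0) (p (nat_lit 0x38112) (nat_lit 0) (p (nat_lit 0x20092) (nat_lit 0) (p (nat_lit 0x10012) (nat_lit 0) pn))))))))))))))))))))))))))) :=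
  Cl.node (nat_lit 0xc1) (nat_lit 2) (by decide +kernel) (ClAll.succ (ClAll.succ ClAll.zero s6) n41)

def n69 : Cl (O (nat_lit 2)) (R (nat_lit 14353))
    (p (nat_lit 0xb0014) (nat_lit 0) (p (nat_lit 0xb0004) (nat_lit 0) (p (nat_lit 0x111) (nat_lit 0) (p (nat_lit 0x20000c) (nat_lit 0) (p (nat_lit 0xc9) (nat_lit 1) (p (nat_lit 0x81) (nat_lit 0) (p (nat_lit 0x101) (nat_lit 1) (p (nat_lit 0x119) (nat_lit 0) (p (nat_lit 0xd1) (nat_lit 0) (p (nat_lit 0x89) (nat_lit 0) (p (nat_lit 0x41) (nat_lit 0) (p (nat_lit 0x88090887069a) (nat_lit 0) (p (nat_lit 0x87870806861a) (nat_lit 0) (p (nat_lit 0x80000000070786058a) (nat_lit 0) (p (nat_lit 0x8787058502) (nat_lit 0) (p (nat_lit 0x8586850482) (nat_lit 0) (p (nat_lit 0x160014) (nat_lit 0) (p (nat_lit 0x160004) (nat_lit 0) (p (nat_lit 0x68612) (nat_lit 0) (p (nat_lit 0x50592) (nat_lit 0) (p (nat_lit 0x40512) (nat_lit 0) (p (nat_lit 0x50312)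 (nat_lit 0) (p (nat_lit 0x38292) (nat_lit 0) (p (nat_lit 0x28212) (nat_lit 0) (p (nat_lit 0x38112) (nat_lit 0) (p (nat_lit 0x20092) (nat_lit 0) (p (nat_lit 0x10012) (nat_lit 0) pn))))))))))))))))))))))))))) :=
  Cl.node (nat_lit 0x109) (nat_lit 2) (by decide +kernel) (ClAll.succ (ClAll.succ ClAll.zero n42) s17)

def n70 : Cl (O (nat_lit 2)) (R (nat_lit 14353))
    (p (nat_lit 0xb0014) (nat_lit 0) (p (nat_lit 0xb0004) (nat_lit 0) (p (nat_lit 0x20000c) (nat_lit 0) (p (nat_lit 0xc9) (nat_lit 0) (p (nat_lit 0xc1) (nat_lit 0) (p (nat_lit 0x81) (nat_lit 1) (p (nat_lit 0x101) (nat_lit 1) (p (nat_lit 0x119) (nat_lit 0) (p (nat_lit 0xd1) (nat_lit 0) (p (nat_lit 0x89) (nat_lit 0) (p (nat_lit 0x41) (nat_lit 0) (p (nat_lit 0x88090887069a) (nat_lit 0) (p (nat_lit 0x87870806861a) (nat_lit 0) (p (nat_lit 0x80000000070786058a) (nat_lit 0) (p (nat_lit 0x8787058502) (nat_lit 0) (p (nat_lit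 0x8586850482) (nat_lit 0) (p (nat_lit 0x160014) (nat_lit 0) (p (nat_lit 0x160004) (nat_lit 0) (p (nat_lit 0x68612) (nat_lit 0) (p (nat_lit 0x50592) (nat_lit 0) (p (nat_lit 0x40512) (nat_lit 0) (p (nat_lit 0x50312) (nat_lit 0) (p (nat_lit 0x38292) (nat_lit 0) (p (nat_lit 0x28212) (nat_lit 0) (p (nat_lit 0x38112) (nat_lit 0) (p (nat_lit 0x20092) (nat_lit 0) (p (nat_lit 0x10012) (nat_lit 0) pn))))))))))))))))))))))))))) :=
  Cl.node (nat_lit 0xd1) (nat_lit 2) (by decide +kernel) (ClAll.succ (ClAll.succ ClAll.zero s22) n43)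

def n71 : Cl (O (nat_lit 2)) (R (nat_lit 14353))
    (p (nat_lit 0xb0014) (nat_lit 0) (p (nat_lit 0xb0004) (nat_lit 0) (p (nat_lit 0x20000c) (nat_lit 0) (p (nat_lit 0xc9) (nat_lit 1) (p (nat_lit 0xc1) (nat_lit 0) (p (nat_lit 0x81) (nat_lit 1) (p (nat_lit 0x101) (nat_lit 1) (p (nat_lit 0x119) (nat_lit 0) (p (nat_lit 0xd1) (nat_lit 0) (p (nat_lit 0x89) (nat_lit 0) (p (nat_lit 0x41) (nat_lit 0) (p (nat_lit 0x88090887069a) (nat_lit 0) (p (nat_lit 0x87870806861a) (nat_lit 0) (p (nat_lit 0x80000000070786058a) (nat_lit 0) (p (nat_lit 0x8787058502) (nat_lit 0) (p (nat_lit 0x8586850482) (nat_lit 0) (p (nat_lit 0x160014) (nat_lit 0) (p (nat_lit 0x160004) (nat_lit 0) (p (nat_lit 0x68612) (nat_lit 0) (p (nat_lit 0x50592) (nat_lit 0) (p (nat_lit 0x40512) (nat_lit 0) (p (nat_lit 0x50312) (nat_lit 0) (p (nat_lit 0x38292) (nat_lit 0) (p (nat_lit 0x28212) (nat_lit 0) (p (nat_lit 0x38112)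 (nat_lit 0) (p (nat_lit 0x20092) (nat_lit 0) (p (nat_lit 0x10012) (nat_lit 0) pn))))))))))))))))))))))))))) :=
  Cl.node (nat_lit 0x109) (nat_lit 2) (by decide +kernel) (ClAll.succ (ClAll.succ ClAll.zero s29) s30)

def n72 : Cl (O (nat_lit 2)) (R (nat_lit 14353))
    (p (nat_lit 0xb0014) (nat_lit 0) (p (nat_lit 0xb0004) (nat_lit 0) (p (nat_lit 0x20000c) (nat_lit 0) (p (nat_lit 0x109) (nat_lit 0) (p (nat_lit 0x101) (nat_lit 0) (p (nat_lit 0x81) (nat_lit 1) (p (nat_lit 0xc1) (nat_lit 1) (p (nat_lit 0x119) (nat_lit 1) (p (nat_lit 0xd1) (nat_lit 0) (p (nat_lit 0x89) (nat_lit 0) (p (nat_lit 0x41) (nat_lit 0) (p (nat_lit 0x88090887069a) (nat_lit 0) (p (nat_lit 0x87870806861a) (nat_lit 0) (p (nat_lit 0x80000000070786058a) (nat_lit 0) (p (nat_lit 0x8787058502) (nat_lit 0) (p (nat_lit 0x8586850482) (nat_lit 0) (p (nat_lit 0x160014) (nat_lit 0) (p (nat_lit 0x160004) (nat_lit 0) (p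 (nat_lit 0x68612) (nat_lit 0) (p (nat_lit 0x50592) (nat_lit 0) (p (nat_lit 0x40512) (nat_lit 0) (p (nat_lit 0x50312) (nat_lit 0) (p (nat_lit 0x38292) (nat_lit 0) (p (nat_lit 0x28212) (nat_lit 0) (p (nat_lit 0x38112) (nat_lit 0) (p (nat_lit 0x20092) (nat_lit 0) (p (nat_lit 0x10012) (nat_lit 0) pn))))))))))))))))))))))))))) :=
  Cl.node (nat_lit 0x111) (nat_lit 2) (by decide +kernel) (ClAll.succ (ClAll.succ ClAll.zero s43) s44)

def n73 : Cl (O (nat_lit 2)) (R (nat_lit 14353))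
    (p (nat_lit 0xb0014) (nat_lit 0) (p (nat_lit 0xb0004) (nat_lit 0) (p (nat_lit 0x20000c) (nat_lit 0) (p (nat_lit 0x109) (nat_lit 1) (p (nat_lit 0x101) (nat_lit 0) (p (nat_lit 0x81) (nat_lit 1) (p (nat_lit 0xc1) (nat_lit 1) (p (nat_lit 0x119) (nat_lit 1) (p (nat_lit 0xd1) (nat_lit 0) (p (nat_lit 0x89) (nat_lit 0) (p (nat_lit 0x41) (nat_lit 0) (p (nat_lit 0x88090887069a) (nat_lit 0) (p (nat_lit 0x87870806861a) (nat_lit 0) (p (nat_lit 0x80000000070786058a) (nat_lit 0) (p (nat_lit 0x8787058502) (nat_lit 0) (p (nat_lit 0x8586850482) (nat_lit 0) (p (nat_lit 0x160014) (nat_lit 0) (p (nat_lit 0x160004) (nat_lit 0) (p (nat_lit 0x68612) (nat_lit 0) (p (nat_lit 0x50592) (nat_lit 0) (p (nat_lit 0x40512) (nat_lit 0) (p (nat_lit 0x50312) (nat_lit 0) (p (nat_lit 0x38292) (nat_lit 0) (p (nat_lit 0x28212) (nat_lit 0) (p (nat_lit 0x38112) (nat_lit 0) (p (nat_lit 0x20092) (nat_lit 0) (p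 (nat_lit 0x10012) (nat_lit 0) pn))))))))))))))))))))))))))) :=
  Cl.node (nat_lit 0xc9) (nat_lit 2) (by decide +kernel) (ClAll.succ (ClAll.succ ClAll.zero s48) s49)

def n74 : Cl (O (nat_lit 2)) (R (nat_lit 14353))
    (p (nat_lit 0xb0014) (nat_lit 0) (p (nat_lit 0xb0004) (nat_lit 0) (p (nat_lit 0x119) (nat_lit 0) (p (nat_lit 0x20000c) (nat_lit 0) (p (nat_lit 0xc1) (nat_lit 0) (p (nat_lit 0x81) (nat_lit 1) (p (nat_lit 0x101) (nat_lit 1) (p (nat_lit 0x111) (nat_lit 0) (p (nat_lit 0xd1) (nat_lit 1) (p (nat_lit 0x89) (nat_lit 0) (p (nat_lit 0x41) (nat_lit 0) (p (nat_lit 0x88090887069a) (nat_lit 0) (p (nat_lit 0x87870806861a) (nat_lit 0) (p (nat_lit 0x80000000070786058a) (nat_lit 0) (p (nat_lit 0x8787058502) (nat_lit 0) (p (nat_lit 0x8586850482) (nat_lit 0) (p (nat_lit 0x160014) (nat_lit 0) (p (nat_lit 0x160004) (nat_lit 0) (p (nat_lit 0x68612) (nat_lit 0) (p (nat_lit 0x50592)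 (nat_lit 0) (p (nat_lit 0x40512) (nat_lit 0) (p (nat_lit 0x50312) (nat_lit 0) (p (nat_lit 0x38292) (nat_lit 0) (p (nat_lit 0x28212) (nat_lit 0) (p (nat_lit 0x38112) (nat_lit 0) (p (nat_lit 0x20092) (nat_lit 0) (p (nat_lit 0x10012) (nat_lit 0) pn))))))))))))))))))))))))))) :=
  Cl.node (nat_lit 0x109) (nat_lit 2) (by decide +kernel) (ClAll.succ (ClAll.succ ClAll.zero s65) s66)

def n75 : Cl (O (nat_lit 2)) (R (nat_lit 14353))
    (p (nat_lit 0x41) (nat_lit 0) (p (nat_lit 0xb0014) (nat_lit 0) (p (nat_lit 0xb0004) (nat_lit 0) (p (nat_lit 0x20000c) (nat_lit 0) (p (nat_lit 0xd1) (nat_lit 1) (p (nat_lit 0x109) (nat_lit 1) (p (nat_lit 0x101) (nat_lit 0) (p (nat_lit 0x119) (nat_lit 0) (p (nat_lit 0xc9) (nat_lit 0) (p (nat_lit 0x89) (nat_lit 1) (p (nat_lit 0x41) (nat_lit 0) (p (nat_lit 0x88090887069a) (nat_lit 0) (p (nat_lit 0x87870806861a) (nat_lit 0) (p (nat_lit 0x80000000070786058a)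 (nat_lit 0) (p (nat_lit 0x8787058502) (nat_lit 0) (p (nat_lit 0x8586850482) (nat_lit 0) (p (nat_lit 0x160014) (nat_lit 0) (p (nat_lit 0x160004) (nat_lit 0) (p (nat_lit 0x68612) (nat_lit 0) (p (nat_lit 0x50592) (nat_lit 0) (p (nat_lit 0x40512) (nat_lit 0) (p (nat_lit 0x50312) (nat_lit 0) (p (nat_lit 0x38292) (nat_lit 0) (p (nat_lit 0x28212) (nat_lit 0) (p (nat_lit 0x38112) (nat_lit 0) (p (nat_lit 0x20092) (nat_lit 0) (p (nat_lit 0x10012) (nat_lit 0) pn))))))))))))))))))))))))))) :=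
  Cl.node (nat_lit 0x111) (nat_lit 2) (by decide +kernel) (ClAll.succ (ClAll.succ ClAll.zero n44) n45)

def n76 : Cl (O (nat_lit 2)) (R (nat_lit 14353))
    (p (nat_lit 0x2a82580000088907870a) (nat_lit 0) (p (nat_lit 0xb0014) (nat_lit 1) (p (nat_lit 0xb0004) (nat_lit 0) (p (nat_lit 0x20000c) (nat_lit 0) (p (nat_lit 0xd1) (nat_lit 1) (p (nat_lit 0x109) (nat_lit 1) (p (nat_lit 0x101) (nat_lit 0) (p (nat_lit 0x119) (nat_lit 0) (p (nat_lit 0xc9) (nat_lit 0) (p (nat_lit 0x89) (nat_lit 1) (p (nat_lit 0x41) (nat_lit 0) (p (nat_lit 0x88090887069a) (nat_lit 0) (p (nat_lit 0x87870806861a) (nat_lit 0) (p (nat_lit 0x80000000070786058a) (nat_lit 0) (p (nat_lit 0x8787058502) (nat_lit 0) (p (nat_lit 0x8586850482) (nat_lit 0) (p (nat_lit 0x160014) (nat_lit 0) (p (nat_lit 0x160004) (nat_lit 0) (p (nat_lit 0x68612) (nat_lit 0) (p (nat_lit 0x50592) (nat_lit 0) (p (nat_lit 0x40512) (nat_lit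 0) (p (nat_lit 0x50312) (nat_lit 0) (p (nat_lit 0x38292) (nat_lit 0) (p (nat_lit 0x28212) (nat_lit 0) (p (nat_lit 0x38112) (nat_lit 0) (p (nat_lit 0x20092) (nat_lit 0) (p (nat_lit 0x10012) (nat_lit 0) pn))))))))))))))))))))))))))) :=
  Cl.node (nat_lit 0x89088988079a) (nat_lit 1) (by decide +kernel) (ClAll.succ ClAll.zero n46)

def n77 : Cl (O (nat_lit 2)) (R (nat_lit 14353))
    (p (nat_lit 0x2a82580000088907870a) (nat_lit 0) (p (nat_lit 0xb0014) (nat_lit 0) (p (nat_lit 0xb0004) (nat_lit 1) (p (nat_lit 0x20000c) (nat_lit 0) (p (nat_lit 0xd1) (nat_lit 1) (p (nat_lit 0x109) (nat_lit 1) (p (nat_lit 0x101) (nat_lit 0) (p (nat_lit 0x119) (nat_lit 0) (p (nat_lit 0xc9) (nat_lit 0) (p (nat_lit 0x89) (nat_lit 1) (p (nat_lit 0x41) (nat_lit 0) (p (nat_lit 0x88090887069a) (nat_lit 0) (p (nat_lit 0x87870806861a) (nat_lit 0) (p (nat_lit 0x80000000070786058a) (nat_lit 0) (p (nat_lit 0x8787058502)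 (nat_lit 0) (p (nat_lit 0x8586850482) (nat_lit 0) (p (nat_lit 0x160014) (nat_lit 0) (p (nat_lit 0x160004) (nat_lit 0) (p (nat_lit 0x68612) (nat_lit 0) (p (nat_lit 0x50592) (nat_lit 0) (p (nat_lit 0x40512) (nat_lit 0) (p (nat_lit 0x50312) (nat_lit 0) (p (nat_lit 0x38292) (nat_lit 0) (p (nat_lit 0x28212) (nat_lit 0) (p (nat_lit 0x38112) (nat_lit 0) (p (nat_lit 0x20092) (nat_lit 0) (p (nat_lit 0x10012) (nat_lit 0) pn))))))))))))))))))))))))))) :=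
  Cl.node (nat_lit 0x89088988079a) (nat_lit 1) (by decide +kernel) (ClAll.succ ClAll.zero n47)

def n78 : Cl (O (nat_lit 2)) (R (nat_lit 14353))
    (p (nat_lit 0x109) (nat_lit 1) (p (nat_lit 0xb0014) (nat_lit 0) (p (nat_lit 0xb0004) (nat_lit 0) (p (nat_lit 0x20000c) (nat_lit 0) (p (nat_lit 0xd1) (nat_lit 1) (p (nat_lit 0xc1) (nat_lit 0) (p (nat_lit 0x101) (nat_lit 1) (p (nat_lit 0x119) (nat_lit 0) (p (nat_lit 0xc9) (nat_lit 0) (p (nat_lit 0x89) (nat_lit 1) (p (nat_lit 0x41) (nat_lit 0) (p (nat_lit 0x88090887069a) (nat_lit 0) (p (nat_lit 0x87870806861a) (nat_lit 0) (p (nat_lit 0x80000000070786058a) (nat_lit 0) (p (nat_lit 0x8787058502) (nat_lit 0) (p (nat_lit 0x8586850482) (nat_lit 0) (p (nat_lit 0x160014) (nat_lit 0) (p (nat_lit 0x160004) (nat_lit 0) (p (nat_lit 0x68612) (nat_lit 0) (p (nat_lit 0x50592) (nat_lit 0) (p (nat_lit 0x40512) (nat_lit 0) (p (nat_lit 0x50312) (nat_lit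 0) (p (nat_lit 0x38292) (nat_lit 0) (p (nat_lit 0x28212) (nat_lit 0) (p (nat_lit 0x38112) (nat_lit 0) (p (nat_lit 0x20092) (nat_lit 0) (p (nat_lit 0x10012) (nat_lit 0) pn))))))))))))))))))))))))))) :=
  Cl.node (nat_lit 0x81) (nat_lit 2) (by decide +kernel) (ClAll.succ (ClAll.succ ClAll.zero n48) n49)

def n79 : Cl (O (nat_lit 2)) (R (nat_lit 14353))
    (p (nat_lit 0x2a82580000088907870a) (nat_lit 0) (p (nat_lit 0xb0014) (nat_lit 1) (p (nat_lit 0xb0004) (nat_lit 0) (p (nat_lit 0x20000c) (nat_lit 0) (p (nat_lit 0xd1) (nat_lit 1) (p (nat_lit 0xc1) (nat_lit 0) (p (nat_lit 0x101) (nat_lit 1) (p (nat_lit 0x119) (nat_lit 0) (p (nat_lit 0xc9) (nat_lit 0) (p (nat_lit 0x89) (nat_lit 1) (p (nat_lit 0x41) (nat_lit 0) (p (nat_lit 0x88090887069a) (nat_lit 0) (p (nat_lit 0x87870806861a) (nat_lit 0) (p (nat_lit 0x80000000070786058a) (nat_lit 0) (p (nat_lit 0x8787058502) (nat_lit 0) (p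 (nat_lit 0x8586850482) (nat_lit 0) (p (nat_lit 0x160014) (nat_lit 0) (p (nat_lit 0x160004) (nat_lit 0) (p (nat_lit 0x68612) (nat_lit 0) (p (nat_lit 0x50592) (nat_lit 0) (p (nat_lit 0x40512) (nat_lit 0) (p (nat_lit 0x50312) (nat_lit 0) (p (nat_lit 0x38292) (nat_lit 0) (p (nat_lit 0x28212) (nat_lit 0) (p (nat_lit 0x38112) (nat_lit 0) (p (nat_lit 0x20092) (nat_lit 0) (p (nat_lit 0x10012) (nat_lit 0) pn))))))))))))))))))))))))))) :=
  Cl.node (nat_lit 0x89088988079a) (nat_lit 1) (by decide +kernel) (ClAll.succ ClAll.zero n50)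

def n80 : Cl (O (nat_lit 2)) (R (nat_lit 14353))
    (p (nat_lit 0xd1) (nat_lit 1) (p (nat_lit 0xb0014) (nat_lit 0) (p (nat_lit 0xb0004) (nat_lit 0) (p (nat_lit 0x20000c) (nat_lit 0) (p (nat_lit 0x111) (nat_lit 1) (p (nat_lit 0x101) (nat_lit 0) (p (nat_lit 0xc1) (nat_lit 1) (p (nat_lit 0x119) (nat_lit 1) (p (nat_lit 0xc9) (nat_lit 0) (p (nat_lit 0x89) (nat_lit 1) (p (nat_lit 0x41) (nat_lit 0) (p (nat_lit 0x88090887069a) (nat_lit 0) (p (nat_lit 0x87870806861a) (nat_lit 0) (p (nat_lit 0x80000000070786058a) (nat_lit 0) (p (nat_lit 0x8787058502) (nat_lit 0) (p (nat_lit 0x8586850482) (nat_lit 0) (p (nat_lit 0x160014) (nat_lit 0) (p (nat_lit 0x160004) (nat_lit 0) (p (nat_lit 0x68612) (nat_lit 0) (p (nat_lit 0x50592) (nat_lit 0) (p (nat_lit 0x40512) (nat_lit 0) (p (nat_lit 0x50312) (nat_lit 0) (p (nat_lit 0x38292) (nat_lit 0) (p (nat_lit 0x28212) (nat_lit 0) (p (nat_lit 0x38112)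 (nat_lit 0) (p (nat_lit 0x20092) (nat_lit 0) (p (nat_lit 0x10012) (nat_lit 0) pn))))))))))))))))))))))))))) :=
  Cl.node (nat_lit 0x81) (nat_lit 2) (by decide +kernel) (ClAll.succ (ClAll.succ ClAll.zero s145) n51)

def n81 : Cl (O (nat_lit 2)) (R (nat_lit 14353))
    (p (nat_lit 0x2a82580000088907870a) (nat_lit 0) (p (nat_lit 0xb0014) (nat_lit 1) (p (nat_lit 0xb0004) (nat_lit 0) (p (nat_lit 0x20000c) (nat_lit 0) (p (nat_lit 0x111) (nat_lit 1) (p (nat_lit 0x101) (nat_lit 0) (p (nat_lit 0xc1) (nat_lit 1) (p (nat_lit 0x119) (nat_lit 1) (p (nat_lit 0xc9) (nat_lit 0) (p (nat_lit 0x89) (nat_lit 1) (p (nat_lit 0x41) (nat_lit 0) (p (nat_lit 0x88090887069a) (nat_lit 0) (p (nat_lit 0x87870806861a) (nat_lit 0) (p (nat_lit 0x80000000070786058a) (nat_lit 0) (p (nat_lit 0x8787058502) (nat_lit 0) (p (nat_lit 0x8586850482) (nat_lit 0) (p (nat_lit 0x160014) (nat_lit 0) (p (nat_lit 0x160004)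 (nat_lit 0) (p (nat_lit 0x68612) (nat_lit 0) (p (nat_lit 0x50592) (nat_lit 0) (p (nat_lit 0x40512) (nat_lit 0) (p (nat_lit 0x50312) (nat_lit 0) (p (nat_lit 0x38292) (nat_lit 0) (p (nat_lit 0x28212) (nat_lit 0) (p (nat_lit 0x38112) (nat_lit 0) (p (nat_lit 0x20092) (nat_lit 0) (p (nat_lit 0x10012) (nat_lit 0) pn))))))))))))))))))))))))))) :=
  Cl.node (nat_lit 0x89088988079a) (nat_lit 1) (by decide +kernel) (ClAll.succ ClAll.zero n52)

def n82 : Cl (O (nat_lit 2)) (R (nat_lit 14353))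
    (p (nat_lit 0xb0014) (nat_lit 0) (p (nat_lit 0xb0004) (nat_lit 0) (p (nat_lit 0x111) (nat_lit 0) (p (nat_lit 0x20000c) (nat_lit 0) (p (nat_lit 0x89) (nat_lit 0) (p (nat_lit 0x109) (nat_lit 1) (p (nat_lit 0x101) (nat_lit 0) (p (nat_lit 0x119) (nat_lit 0) (p (nat_lit 0xd1) (nat_lit 0) (p (nat_lit 0x81) (nat_lit 0) (p (nat_lit 0x41) (nat_lit 1) (p (nat_lit 0x88090887069a) (nat_lit 0) (p (nat_lit 0x87870806861a) (nat_lit 0) (p (nat_lit 0x80000000070786058a) (nat_lit 0) (p (nat_lit 0x8787058502) (nat_lit 0) (p (nat_lit 0x8586850482) (nat_lit 0) (p (nat_lit 0x160014) (nat_lit 0) (p (nat_lit 0x160004) (nat_lit 0) (p (nat_lit 0x68612) (nat_lit 0) (p (nat_lit 0x50592) (nat_lit 0) (p (nat_lit 0x40512) (nat_lit 0) (p (nat_lit 0x50312) (nat_lit 0) (p (nat_lit 0x38292) (nat_lit 0) (p (nat_lit 0x28212) (nat_lit 0) (p (nat_lit 0x38112) (nat_lit 0) (p (nat_lit 0x20092) (nat_lit 0) (p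 (nat_lit 0x10012) (nat_lit 0) pn))))))))))))))))))))))))))) :=
  Cl.node (nat_lit 0xc9) (nat_lit 2) (by decide +kernel) (ClAll.succ (ClAll.succ ClAll.zero s159) n53)

def n83 : Cl (O (nat_lit 2)) (R (nat_lit 14353))
    (p (nat_lit 0xb0014) (nat_lit 0) (p (nat_lit 0xb0004) (nat_lit 0) (p (nat_lit 0x20000c) (nat_lit 0) (p (nat_lit 0xc9) (nat_lit 0) (p (nat_lit 0x89) (nat_lit 1) (p (nat_lit 0x109) (nat_lit 1) (p (nat_lit 0x101) (nat_lit 0) (p (nat_lit 0x119) (nat_lit 0) (p (nat_lit 0xd1) (nat_lit 0) (p (nat_lit 0x81) (nat_lit 0) (p (nat_lit 0x41) (nat_lit 1) (p (nat_lit 0x88090887069a) (nat_lit 0) (p (nat_lit 0x87870806861a) (nat_lit 0) (p (nat_lit 0x80000000070786058a) (nat_lit 0) (p (nat_lit 0x8787058502) (nat_lit 0) (p (nat_lit 0x8586850482) (nat_lit 0) (p (nat_lit 0x160014) (nat_lit 0) (p (nat_lit 0x160004) (nat_lit 0) (p (nat_lit 0x68612) (nat_lit 0) (p (nat_lit 0x50592)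 (nat_lit 0) (p (nat_lit 0x40512) (nat_lit 0) (p (nat_lit 0x50312) (nat_lit 0) (p (nat_lit 0x38292) (nat_lit 0) (p (nat_lit 0x28212) (nat_lit 0) (p (nat_lit 0x38112) (nat_lit 0) (p (nat_lit 0x20092) (nat_lit 0) (p (nat_lit 0x10012) (nat_lit 0) pn))))))))))))))))))))))))))) :=
  Cl.node (nat_lit 0xd1) (nat_lit 2) (by decide +kernel) (ClAll.succ (ClAll.succ ClAll.zero s168) n54)

def n84 : Cl (O (nat_lit 2)) (R (nat_lit 14353))
    (p (nat_lit 0xb0014) (nat_lit 0) (p (nat_lit 0xb0004) (nat_lit 0) (p (nat_lit 0x20000c) (nat_lit 0) (p (nat_lit 0xc9) (nat_lit 0) (p (nat_lit 0x89) (nat_lit 1) (p (nat_lit 0xc1) (nat_lit 0) (p (nat_lit 0x101) (nat_lit 1) (p (nat_lit 0x119) (nat_lit 0) (p (nat_lit 0xd1) (nat_lit 0) (p (nat_lit 0x81) (nat_lit 0) (p (nat_lit 0x41) (nat_lit 1) (p (nat_lit 0x88090887069a) (nat_lit 0) (p (nat_lit 0x87870806861a) (nat_lit 0) (p (nat_lit 0x80000000070786058a)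 (nat_lit 0) (p (nat_lit 0x8787058502) (nat_lit 0) (p (nat_lit 0x8586850482) (nat_lit 0) (p (nat_lit 0x160014) (nat_lit 0) (p (nat_lit 0x160004) (nat_lit 0) (p (nat_lit 0x68612) (nat_lit 0) (p (nat_lit 0x50592) (nat_lit 0) (p (nat_lit 0x40512) (nat_lit 0) (p (nat_lit 0x50312) (nat_lit 0) (p (nat_lit 0x38292) (nat_lit 0) (p (nat_lit 0x28212) (nat_lit 0) (p (nat_lit 0x38112) (nat_lit 0) (p (nat_lit 0x20092) (nat_lit 0) (p (nat_lit 0x10012) (nat_lit 0) pn))))))))))))))))))))))))))) :=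
  Cl.node (nat_lit 0xd1) (nat_lit 2) (by decide +kernel) (ClAll.succ (ClAll.succ ClAll.zero s180) n55)

def n85 : Cl (O (nat_lit 2)) (R (nat_lit 14353))
    (p (nat_lit 0xb0014) (nat_lit 0) (p (nat_lit 0xb0004) (nat_lit 0) (p (nat_lit 0x20000c) (nat_lit 0) (p (nat_lit 0xc9) (nat_lit 1) (p (nat_lit 0x89) (nat_lit 1) (p (nat_lit 0xc1) (nat_lit 0) (p (nat_lit 0x101) (nat_lit 1) (p (nat_lit 0x119) (nat_lit 0) (p (nat_lit 0xd1) (nat_lit 0) (p (nat_lit 0x81) (nat_lit 0) (p (nat_lit 0x41) (nat_lit 1) (p (nat_lit 0x88090887069a) (nat_lit 0) (p (nat_lit 0x87870806861a) (nat_lit 0) (p (nat_lit 0x80000000070786058a) (nat_lit 0) (p (nat_lit 0x8787058502) (nat_lit 0) (p (nat_lit 0x8586850482) (nat_lit 0) (p (nat_lit 0x160014) (nat_lit 0) (p (nat_lit 0x160004) (nat_lit 0) (p (nat_lit 0x68612) (nat_lit 0) (p (nat_lit 0x50592) (nat_lit 0) (p (nat_lit 0x40512) (nat_lit 0) (p (nat_lit 0x50312)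 (nat_lit 0) (p (nat_lit 0x38292) (nat_lit 0) (p (nat_lit 0x28212) (nat_lit 0) (p (nat_lit 0x38112) (nat_lit 0) (p (nat_lit 0x20092) (nat_lit 0) (p (nat_lit 0x10012) (nat_lit 0) pn))))))))))))))))))))))))))) :=
  Cl.node (nat_lit 0x109) (nat_lit 2) (by decide +kernel) (ClAll.succ (ClAll.succ ClAll.zero s188) s189)

def n86 : Cl (O (nat_lit 2)) (R (nat_lit 14353))
    (p (nat_lit 0x109) (nat_lit 0) (p (nat_lit 0xb0014) (nat_lit 0) (p (nat_lit 0xb0004) (nat_lit 0) (p (nat_lit 0x20000c) (nat_lit 0) (p (nat_lit 0x89) (nat_lit 1) (p (nat_lit 0xc1) (nat_lit 1) (p (nat_lit 0x101) (nat_lit 1) (p (nat_lit 0x119) (nat_lit 0) (p (nat_lit 0xd1) (nat_lit 0) (p (nat_lit 0x81) (nat_lit 0) (p (nat_lit 0x41) (nat_lit 1) (p (nat_lit 0x88090887069a) (nat_lit 0) (p (nat_lit 0x87870806861a) (nat_lit 0) (p (nat_lit 0x80000000070786058a) (nat_lit 0) (p (nat_lit 0x8787058502) (nat_lit 0) (p (nat_lit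 0x8586850482) (nat_lit 0) (p (nat_lit 0x160014) (nat_lit 0) (p (nat_lit 0x160004) (nat_lit 0) (p (nat_lit 0x68612) (nat_lit 0) (p (nat_lit 0x50592) (nat_lit 0) (p (nat_lit 0x40512) (nat_lit 0) (p (nat_lit 0x50312) (nat_lit 0) (p (nat_lit 0x38292) (nat_lit 0) (p (nat_lit 0x28212) (nat_lit 0) (p (nat_lit 0x38112) (nat_lit 0) (p (nat_lit 0x20092) (nat_lit 0) (p (nat_lit 0x10012) (nat_lit 0) pn))))))))))))))))))))))))))) :=
  Cl.node (nat_lit 0x101) (nat_lit 2) (by decide +kernel) (ClAll.succ (ClAll.succ ClAll.zero n56) s197)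

def n87 : Cl (O (nat_lit 2)) (R (nat_lit 14353))
    (p (nat_lit 0xb0014) (nat_lit 0) (p (nat_lit 0xb0004) (nat_lit 0) (p (nat_lit 0x20000c) (nat_lit 0) (p (nat_lit 0x109) (nat_lit 1) (p (nat_lit 0x89) (nat_lit 1) (p (nat_lit 0xc9) (nat_lit 1) (p (nat_lit 0xc1) (nat_lit 0) (p (nat_lit 0x119) (nat_lit 1) (p (nat_lit 0xd1) (nat_lit 0) (p (nat_lit 0x81) (nat_lit 0) (p (nat_lit 0x41) (nat_lit 1) (p (nat_lit 0x88090887069a) (nat_lit 0) (p (nat_lit 0x87870806861a) (nat_lit 0) (p (nat_lit 0x80000000070786058a) (nat_lit 0) (p (nat_lit 0x8787058502) (nat_lit 0) (p (nat_lit 0x8586850482) (nat_lit 0) (p (nat_lit 0x160014) (nat_lit 0) (p (nat_lit 0x160004) (nat_lit 0) (p (nat_lit 0x68612) (nat_lit 0) (p (nat_lit 0x50592) (nat_lit 0) (p (nat_lit 0x40512) (nat_lit 0) (p (nat_lit 0x50312) (nat_lit 0) (p (nat_lit 0x38292) (nat_lit 0) (p (nat_lit 0x28212) (nat_lit 0) (p (nat_lit 0x38112)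 (nat_lit 0) (p (nat_lit 0x20092) (nat_lit 0) (p (nat_lit 0x10012) (nat_lit 0) pn))))))))))))))))))))))))))) :=
  Cl.node (nat_lit 0x41) (nat_lit 2) (by decide +kernel) (ClAll.succ (ClAll.succ ClAll.zero s208) s209)

def n88 : Cl (O (nat_lit 2)) (R (nat_lit 14353))
    (p (nat_lit 0xb0014) (nat_lit 0) (p (nat_lit 0xb0004) (nat_lit 0) (p (nat_lit 0x20000c) (nat_lit 0) (p (nat_lit 0x109) (nat_lit 0) (p (nat_lit 0x89) (nat_lit 1) (p (nat_lit 0x101) (nat_lit 0) (p (nat_lit 0xc1) (nat_lit 1) (p (nat_lit 0x119) (nat_lit 1) (p (nat_lit 0xd1) (nat_lit 0) (p (nat_lit 0x81) (nat_lit 0) (p (nat_lit 0x41) (nat_lit 1) (p (nat_lit 0x88090887069a) (nat_lit 0) (p (nat_lit 0x87870806861a) (nat_lit 0) (p (nat_lit 0x80000000070786058a) (nat_lit 0) (p (nat_lit 0x8787058502) (nat_lit 0) (p (nat_lit 0x8586850482) (nat_lit 0) (p (nat_lit 0x160014) (nat_lit 0) (p (nat_lit 0x160004) (nat_lit 0) (p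 (nat_lit 0x68612) (nat_lit 0) (p (nat_lit 0x50592) (nat_lit 0) (p (nat_lit 0x40512) (nat_lit 0) (p (nat_lit 0x50312) (nat_lit 0) (p (nat_lit 0x38292) (nat_lit 0) (p (nat_lit 0x28212) (nat_lit 0) (p (nat_lit 0x38112) (nat_lit 0) (p (nat_lit 0x20092) (nat_lit 0) (p (nat_lit 0x10012) (nat_lit 0) pn))))))))))))))))))))))))))) :=
  Cl.node (nat_lit 0x111) (nat_lit 2) (by decide +kernel) (ClAll.succ (ClAll.succ ClAll.zero s214) s215)

def n89 : Cl (O (nat_lit 2)) (R (nat_lit 14353))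
    (p (nat_lit 0xb0014) (nat_lit 0) (p (nat_lit 0xb0004) (nat_lit 0) (p (nat_lit 0x20000c) (nat_lit 0) (p (nat_lit 0x109) (nat_lit 1) (p (nat_lit 0x89) (nat_lit 1) (p (nat_lit 0x101) (nat_lit 0) (p (nat_lit 0xc1) (nat_lit 1) (p (nat_lit 0x119) (nat_lit 1) (p (nat_lit 0xd1) (nat_lit 0) (p (nat_lit 0x81) (nat_lit 0) (p (nat_lit 0x41) (nat_lit 1) (p (nat_lit 0x88090887069a) (nat_lit 0) (p (nat_lit 0x87870806861a) (nat_lit 0) (p (nat_lit 0x80000000070786058a) (nat_lit 0) (p (nat_lit 0x8787058502) (nat_lit 0) (p (nat_lit 0x8586850482) (nat_lit 0) (p (nat_lit 0x160014) (nat_lit 0) (p (nat_lit 0x160004) (nat_lit 0) (p (nat_lit 0x68612) (nat_lit 0) (p (nat_lit 0x50592) (nat_lit 0) (p (nat_lit 0x40512) (nat_lit 0) (p (nat_lit 0x50312) (nat_lit 0) (p (nat_lit 0x38292) (nat_lit 0) (p (nat_lit 0x28212) (nat_lit 0) (p (nat_lit 0x38112) (nat_lit 0) (p (nat_lit 0x20092) (nat_lit 0) (p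 (nat_lit 0x10012) (nat_lit 0) pn))))))))))))))))))))))))))) :=
  Cl.node (nat_lit 0xc9) (nat_lit 2) (by decide +kernel) (ClAll.succ (ClAll.succ ClAll.zero n57) n58)

def n90 : Cl (O (nat_lit 2)) (R (nat_lit 14353))
    (p (nat_lit 0xc9) (nat_lit 0) (p (nat_lit 0xb0014) (nat_lit 0) (p (nat_lit 0xb0004) (nat_lit 0) (p (nat_lit 0x20000c) (nat_lit 0) (p (nat_lit 0x89) (nat_lit 1) (p (nat_lit 0x101) (nat_lit 1) (p (nat_lit 0xc1) (nat_lit 1) (p (nat_lit 0x119) (nat_lit 1) (p (nat_lit 0xd1) (nat_lit 0) (p (nat_lit 0x81) (nat_lit 0) (p (nat_lit 0x41) (nat_lit 1) (p (nat_lit 0x88090887069a) (nat_lit 0) (p (nat_lit 0x87870806861a) (nat_lit 0) (p (nat_lit 0x80000000070786058a) (nat_lit 0) (p (nat_lit 0x8787058502) (nat_lit 0) (p (nat_lit 0x8586850482) (nat_lit 0) (p (nat_lit 0x160014) (nat_lit 0) (p (nat_lit 0x160004) (nat_lit 0) (p (nat_lit 0x68612) (nat_lit 0) (p (nat_lit 0x50592)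 (nat_lit 0) (p (nat_lit 0x40512) (nat_lit 0) (p (nat_lit 0x50312) (nat_lit 0) (p (nat_lit 0x38292) (nat_lit 0) (p (nat_lit 0x28212) (nat_lit 0) (p (nat_lit 0x38112) (nat_lit 0) (p (nat_lit 0x20092) (nat_lit 0) (p (nat_lit 0x10012) (nat_lit 0) pn))))))))))))))))))))))))))) :=
  Cl.node (nat_lit 0xc1) (nat_lit 2) (by decide +kernel) (ClAll.succ (ClAll.succ ClAll.zero n59) s231)

def n91 : Cl (O (nat_lit 2)) (R (nat_lit 14353))
    (p (nat_lit 0xb0004) (nat_lit 0) (p (nat_lit 0x119) (nat_lit 0) (p (nat_lit 0x20000c) (nat_lit 0) (p (nat_lit 0xc9) (nat_lit 0) (p (nat_lit 0x89) (nat_lit 1) (p (nat_lit 0x109) (nat_lit 1) (p (nat_lit 0x101) (nat_lit 0) (p (nat_lit 0x111) (nat_lit 0) (p (nat_lit 0xd1) (nat_lit 1) (p (nat_lit 0x81) (nat_lit 0) (p (nat_lit 0x41) (nat_lit 1) (p (nat_lit 0x88090887069a) (nat_lit 0) (p (nat_lit 0x87870806861a) (nat_lit 0) (p (nat_lit 0x80000000070786058a)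 (nat_lit 0) (p (nat_lit 0x8787058502) (nat_lit 0) (p (nat_lit 0x8586850482) (nat_lit 0) (p (nat_lit 0x160014) (nat_lit 0) (p (nat_lit 0x160004) (nat_lit 0) (p (nat_lit 0x68612) (nat_lit 0) (p (nat_lit 0x50592) (nat_lit 0) (p (nat_lit 0x40512) (nat_lit 0) (p (nat_lit 0x50312) (nat_lit 0) (p (nat_lit 0x38292) (nat_lit 0) (p (nat_lit 0x28212) (nat_lit 0) (p (nat_lit 0x38112) (nat_lit 0) (p (nat_lit 0x20092) (nat_lit 0) (p (nat_lit 0x10012) (nat_lit 0) pn))))))))))))))))))))))))))) :=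
  Cl.node (nat_lit 0xb0014) (nat_lit 2) (by decide +kernel) (ClAll.succ (ClAll.succ ClAll.zero s238) s239)

def n92 : Cl (O (nat_lit 2)) (R (nat_lit 14353))
    (p (nat_lit 0xb0004) (nat_lit 0) (p (nat_lit 0x119) (nat_lit 1) (p (nat_lit 0x20000c) (nat_lit 0) (p (nat_lit 0xc9) (nat_lit 0) (p (nat_lit 0x89) (nat_lit 1) (p (nat_lit 0x109) (nat_lit 1) (p (nat_lit 0x101) (nat_lit 0) (p (nat_lit 0x111) (nat_lit 0) (p (nat_lit 0xd1) (nat_lit 1) (p (nat_lit 0x81) (nat_lit 0) (p (nat_lit 0x41) (nat_lit 1) (p (nat_lit 0x88090887069a) (nat_lit 0) (p (nat_lit 0x87870806861a) (nat_lit 0) (p (nat_lit 0x80000000070786058a) (nat_lit 0) (p (nat_lit 0x8787058502) (nat_lit 0) (p (nat_lit 0x8586850482) (nat_lit 0) (p (nat_lit 0x160014) (nat_lit 0) (p (nat_lit 0x160004) (nat_lit 0) (p (nat_lit 0x68612) (nat_lit 0) (p (nat_lit 0x50592) (nat_lit 0) (p (nat_lit 0x40512) (nat_lit 0) (p (nat_lit 0x50312)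 (nat_lit 0) (p (nat_lit 0x38292) (nat_lit 0) (p (nat_lit 0x28212) (nat_lit 0) (p (nat_lit 0x38112) (nat_lit 0) (p (nat_lit 0x20092) (nat_lit 0) (p (nat_lit 0x10012) (nat_lit 0) pn))))))))))))))))))))))))))) :=
  Cl.node (nat_lit 0xb0014) (nat_lit 2) (by decide +kernel) (ClAll.succ (ClAll.succ ClAll.zero n60) s243)

def n93 : Cl (O (nat_lit 2)) (R (nat_lit 14353))
    (p (nat_lit 0x119) (nat_lit 0) (p (nat_lit 0xb0014) (nat_lit 0) (p (nat_lit 0xb0004) (nat_lit 0) (p (nat_lit 0x20000c) (nat_lit 0) (p (nat_lit 0xc9) (nat_lit 0) (p (nat_lit 0x89) (nat_lit 1) (p (nat_lit 0x101) (nat_lit 1) (p (nat_lit 0x111) (nat_lit 0) (p (nat_lit 0xd1) (nat_lit 1) (p (nat_lit 0x81) (nat_lit 0) (p (nat_lit 0x41) (nat_lit 1) (p (nat_lit 0x88090887069a) (nat_lit 0) (p (nat_lit 0x87870806861a) (nat_lit 0) (p (nat_lit 0x80000000070786058a) (nat_lit 0) (p (nat_lit 0x8787058502) (nat_lit 0) (p (nat_lit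 0x8586850482) (nat_lit 0) (p (nat_lit 0x160014) (nat_lit 0) (p (nat_lit 0x160004) (nat_lit 0) (p (nat_lit 0x68612) (nat_lit 0) (p (nat_lit 0x50592) (nat_lit 0) (p (nat_lit 0x40512) (nat_lit 0) (p (nat_lit 0x50312) (nat_lit 0) (p (nat_lit 0x38292) (nat_lit 0) (p (nat_lit 0x28212) (nat_lit 0) (p (nat_lit 0x38112) (nat_lit 0) (p (nat_lit 0x20092) (nat_lit 0) (p (nat_lit 0x10012) (nat_lit 0) pn))))))))))))))))))))))))))) :=
  Cl.node (nat_lit 0x101) (nat_lit 2) (by decide +kernel) (ClAll.succ (ClAll.succ ClAll.zero s253) s254)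

def n94 : Cl (O (nat_lit 2)) (R (nat_lit 14353))
    (p (nat_lit 0x119) (nat_lit 1) (p (nat_lit 0xb0014) (nat_lit 0) (p (nat_lit 0xb0004) (nat_lit 0) (p (nat_lit 0x20000c) (nat_lit 0) (p (nat_lit 0xc9) (nat_lit 0) (p (nat_lit 0x89) (nat_lit 1) (p (nat_lit 0x101) (nat_lit 1) (p (nat_lit 0x111) (nat_lit 0) (p (nat_lit 0xd1) (nat_lit 1) (p (nat_lit 0x81) (nat_lit 0) (p (nat_lit 0x41) (nat_lit 1) (p (nat_lit 0x88090887069a) (nat_lit 0) (p (nat_lit 0x87870806861a) (nat_lit 0) (p (nat_lit 0x80000000070786058a) (nat_lit 0) (p (nat_lit 0x8787058502) (nat_lit 0) (p (nat_lit 0x8586850482) (nat_lit 0) (p (nat_lit 0x160014) (nat_lit 0) (p (nat_lit 0x160004) (nat_lit 0) (p (nat_lit 0x68612) (nat_lit 0) (p (nat_lit 0x50592) (nat_lit 0) (p (nat_lit 0x40512) (nat_lit 0) (p (nat_lit 0x50312) (nat_lit 0) (p (nat_lit 0x38292) (nat_lit 0) (p (nat_lit 0x28212) (nat_lit 0) (p (nat_lit 0x38112)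 (nat_lit 0) (p (nat_lit 0x20092) (nat_lit 0) (p (nat_lit 0x10012) (nat_lit 0) pn))))))))))))))))))))))))))) :=
  Cl.node (nat_lit 0xc1) (nat_lit 2) (by decide +kernel) (ClAll.succ (ClAll.succ ClAll.zero s255) s256)

def n95 : Cl (O (nat_lit 2)) (R (nat_lit 14353))
    (p (nat_lit 0x2a82580000088907870a) (nat_lit 0) (p (nat_lit 0xb0014) (nat_lit 0) (p (nat_lit 0xb0004) (nat_lit 1) (p (nat_lit 0x20000c) (nat_lit 0) (p (nat_lit 0xc9) (nat_lit 0) (p (nat_lit 0x89) (nat_lit 1) (p (nat_lit 0x101) (nat_lit 1) (p (nat_lit 0x111) (nat_lit 0) (p (nat_lit 0xd1) (nat_lit 1) (p (nat_lit 0x81) (nat_lit 0) (p (nat_lit 0x41) (nat_lit 1) (p (nat_lit 0x88090887069a) (nat_lit 0) (p (nat_lit 0x87870806861a) (nat_lit 0) (p (nat_lit 0x80000000070786058a) (nat_lit 0) (p (nat_lit 0x8787058502) (nat_lit 0) (p (nat_lit 0x8586850482) (nat_lit 0) (p (nat_lit 0x160014) (nat_lit 0) (p (nat_lit 0x160004)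 (nat_lit 0) (p (nat_lit 0x68612) (nat_lit 0) (p (nat_lit 0x50592) (nat_lit 0) (p (nat_lit 0x40512) (nat_lit 0) (p (nat_lit 0x50312) (nat_lit 0) (p (nat_lit 0x38292) (nat_lit 0) (p (nat_lit 0x28212) (nat_lit 0) (p (nat_lit 0x38112) (nat_lit 0) (p (nat_lit 0x20092) (nat_lit 0) (p (nat_lit 0x10012) (nat_lit 0) pn))))))))))))))))))))))))))) :=
  Cl.node (nat_lit 0x89088988079a) (nat_lit 1) (by decide +kernel) (ClAll.succ ClAll.zero n61)

def n96 : Cl (O (nat_lit 2)) (R (nat_lit 14353))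
    (p (nat_lit 0x111) (nat_lit 0) (p (nat_lit 0xb0014) (nat_lit 0) (p (nat_lit 0xb0004) (nat_lit 0) (p (nat_lit 0x20000c) (nat_lit 0) (p (nat_lit 0xd1) (nat_lit 1) (p (nat_lit 0xc9) (nat_lit 0) (p (nat_lit 0x101) (nat_lit 1) (p (nat_lit 0x119) (nat_lit 0) (p (nat_lit 0xc1) (nat_lit 0) (p (nat_lit 0x81) (nat_lit 1) (p (nat_lit 0x41) (nat_lit 1) (p (nat_lit 0x88090887069a) (nat_lit 0) (p (nat_lit 0x87870806861a) (nat_lit 0) (p (nat_lit 0x80000000070786058a) (nat_lit 0) (p (nat_lit 0x8787058502) (nat_lit 0) (p (nat_lit 0x8586850482) (nat_lit 0) (p (nat_lit 0x160014) (nat_lit 0) (p (nat_lit 0x160004) (nat_lit 0) (p (nat_lit 0x68612) (nat_lit 0) (p (nat_lit 0x50592) (nat_lit 0) (p (nat_lit 0x40512) (nat_lit 0) (p (nat_lit 0x50312) (nat_lit 0) (p (nat_lit 0x38292) (nat_lit 0) (p (nat_lit 0x28212) (nat_lit 0) (p (nat_lit 0x38112) (nat_lit 0) (p (nat_lit 0x20092) (nat_lit 0) (p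 (nat_lit 0x10012) (nat_lit 0) pn))))))))))))))))))))))))))) :=
  Cl.node (nat_lit 0x101) (nat_lit 2) (by decide +kernel) (ClAll.succ (ClAll.succ ClAll.zero s290) n62)

def n97 : Cl (O (nat_lit 2)) (R (nat_lit 14353))
    (p (nat_lit 0x111) (nat_lit 1) (p (nat_lit 0xb0014) (nat_lit 0) (p (nat_lit 0xb0004) (nat_lit 0) (p (nat_lit 0x20000c) (nat_lit 0) (p (nat_lit 0xd1) (nat_lit 1) (p (nat_lit 0xc9) (nat_lit 0) (p (nat_lit 0x101) (nat_lit 1) (p (nat_lit 0x119) (nat_lit 0) (p (nat_lit 0xc1) (nat_lit 0) (p (nat_lit 0x81) (nat_lit 1) (p (nat_lit 0x41) (nat_lit 1) (p (nat_lit 0x88090887069a) (nat_lit 0) (p (nat_lit 0x87870806861a) (nat_lit 0) (p (nat_lit 0x80000000070786058a) (nat_lit 0) (p (nat_lit 0x8787058502) (nat_lit 0) (p (nat_lit 0x8586850482) (nat_lit 0) (p (nat_lit 0x160014) (nat_lit 0) (p (nat_lit 0x160004) (nat_lit 0) (p (nat_lit 0x68612) (nat_lit 0) (p (nat_lit 0x50592)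 (nat_lit 0) (p (nat_lit 0x40512) (nat_lit 0) (p (nat_lit 0x50312) (nat_lit 0) (p (nat_lit 0x38292) (nat_lit 0) (p (nat_lit 0x28212) (nat_lit 0) (p (nat_lit 0x38112) (nat_lit 0) (p (nat_lit 0x20092) (nat_lit 0) (p (nat_lit 0x10012) (nat_lit 0) pn))))))))))))))))))))))))))) :=
  Cl.node (nat_lit 0x81) (nat_lit 2) (by decide +kernel) (ClAll.succ (ClAll.succ ClAll.zero s295) n63)

def n98 : Cl (O (nat_lit 2)) (R (nat_lit 14353))
    (p (nat_lit 0x89) (nat_lit 0) (p (nat_lit 0xb0014) (nat_lit 0) (p (nat_lit 0xb0004) (nat_lit 0) (p (nat_lit 0x20000c) (nat_lit 0) (p (nat_lit 0x111) (nat_lit 1) (p (nat_lit 0xd1) (nat_lit 1) (p (nat_lit 0xc9) (nat_lit 0) (p (nat_lit 0x119) (nat_lit 1) (p (nat_lit 0xc1) (nat_lit 0) (p (nat_lit 0x81) (nat_lit 1) (p (nat_lit 0x41) (nat_lit 1) (p (nat_lit 0x88090887069a) (nat_lit 0) (p (nat_lit 0x87870806861a) (nat_lit 0) (p (nat_lit 0x80000000070786058a)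 (nat_lit 0) (p (nat_lit 0x8787058502) (nat_lit 0) (p (nat_lit 0x8586850482) (nat_lit 0) (p (nat_lit 0x160014) (nat_lit 0) (p (nat_lit 0x160004) (nat_lit 0) (p (nat_lit 0x68612) (nat_lit 0) (p (nat_lit 0x50592) (nat_lit 0) (p (nat_lit 0x40512) (nat_lit 0) (p (nat_lit 0x50312) (nat_lit 0) (p (nat_lit 0x38292) (nat_lit 0) (p (nat_lit 0x28212) (nat_lit 0) (p (nat_lit 0x38112) (nat_lit 0) (p (nat_lit 0x20092) (nat_lit 0) (p (nat_lit 0x10012) (nat_lit 0) pn))))))))))))))))))))))))))) :=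
  Cl.node (nat_lit 0x81) (nat_lit 2) (by decide +kernel) (ClAll.succ (ClAll.succ ClAll.zero n64) s309)

def n99 : Cl (O (nat_lit 2)) (R (nat_lit 14353))
    (p (nat_lit 0x101) (nat_lit 0) (p (nat_lit 0xb0014) (nat_lit 0) (p (nat_lit 0xb0004) (nat_lit 0) (p (nat_lit 0x20000c) (nat_lit 0) (p (nat_lit 0x111) (nat_lit 0) (p (nat_lit 0x109) (nat_lit 0) (p (nat_lit 0xc9) (nat_lit 1) (p (nat_lit 0x119) (nat_lit 1) (p (nat_lit 0xc1) (nat_lit 0) (p (nat_lit 0x81) (nat_lit 1) (p (nat_lit 0x41) (nat_lit 1) (p (nat_lit 0x88090887069a) (nat_lit 0) (p (nat_lit 0x87870806861a) (nat_lit 0) (p (nat_lit 0x80000000070786058a) (nat_lit 0) (p (nat_lit 0x8787058502) (nat_lit 0) (p (nat_lit 0x8586850482) (nat_lit 0) (p (nat_lit 0x160014) (nat_lit 0) (p (nat_lit 0x160004) (nat_lit 0) (p (nat_lit 0x68612) (nat_lit 0) (p (nat_lit 0x50592) (nat_lit 0) (p (nat_lit 0x40512) (nat_lit 0) (p (nat_lit 0x50312)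 (nat_lit 0) (p (nat_lit 0x38292) (nat_lit 0) (p (nat_lit 0x28212) (nat_lit 0) (p (nat_lit 0x38112) (nat_lit 0) (p (nat_lit 0x20092) (nat_lit 0) (p (nat_lit 0x10012) (nat_lit 0) pn))))))))))))))))))))))))))) :=
  Cl.node (nat_lit 0x119) (nat_lit 2) (by decide +kernel) (ClAll.succ (ClAll.succ ClAll.zero s314) s315)

def n100 : Cl (O (nat_lit 2)) (R (nat_lit 14353))
    (p (nat_lit 0xd1) (nat_lit 0) (p (nat_lit 0xb0014) (nat_lit 0) (p (nat_lit 0xb0004) (nat_lit 0) (p (nat_lit 0x20000c) (nat_lit 0) (p (nat_lit 0x111) (nat_lit 1) (p (nat_lit 0x109) (nat_lit 0) (p (nat_lit 0xc9) (nat_lit 1) (p (nat_lit 0x119) (nat_lit 1) (p (nat_lit 0xc1) (nat_lit 0) (p (nat_lit 0x81) (nat_lit 1) (p (nat_lit 0x41) (nat_lit 1) (p (nat_lit 0x88090887069a) (nat_lit 0) (p (nat_lit 0x87870806861a) (nat_lit 0) (p (nat_lit 0x80000000070786058a) (nat_lit 0) (p (nat_lit 0x8787058502) (nat_lit 0) (p (nat_lit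 0x8586850482) (nat_lit 0) (p (nat_lit 0x160014) (nat_lit 0) (p (nat_lit 0x160004) (nat_lit 0) (p (nat_lit 0x68612) (nat_lit 0) (p (nat_lit 0x50592) (nat_lit 0) (p (nat_lit 0x40512) (nat_lit 0) (p (nat_lit 0x50312) (nat_lit 0) (p (nat_lit 0x38292) (nat_lit 0) (p (nat_lit 0x28212) (nat_lit 0) (p (nat_lit 0x38112) (nat_lit 0) (p (nat_lit 0x20092) (nat_lit 0) (p (nat_lit 0x10012) (nat_lit 0) pn))))))))))))))))))))))))))) :=
  Cl.node (nat_lit 0x41) (nat_lit 2) (by decide +kernel) (ClAll.succ (ClAll.succ ClAll.zero s320) s321)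

def n101 : Cl (O (nat_lit 2)) (R (nat_lit 14353))
    (p (nat_lit 0xd1) (nat_lit 1) (p (nat_lit 0xb0014) (nat_lit 0) (p (nat_lit 0xb0004) (nat_lit 0) (p (nat_lit 0x20000c) (nat_lit 0) (p (nat_lit 0x111) (nat_lit 1) (p (nat_lit 0x109) (nat_lit 0) (p (nat_lit 0xc9) (nat_lit 1) (p (nat_lit 0x119) (nat_lit 1) (p (nat_lit 0xc1) (nat_lit 0) (p (nat_lit 0x81) (nat_lit 1) (p (nat_lit 0x41) (nat_lit 1) (p (nat_lit 0x88090887069a) (nat_lit 0) (p (nat_lit 0x87870806861a) (nat_lit 0) (p (nat_lit 0x80000000070786058a) (nat_lit 0) (p (nat_lit 0x8787058502) (nat_lit 0) (p (nat_lit 0x8586850482) (nat_lit 0) (p (nat_lit 0x160014) (nat_lit 0) (p (nat_lit 0x160004) (nat_lit 0) (p (nat_lit 0x68612) (nat_lit 0) (p (nat_lit 0x50592) (nat_lit 0) (p (nat_lit 0x40512) (nat_lit 0) (p (nat_lit 0x50312) (nat_lit 0) (p (nat_lit 0x38292) (nat_lit 0) (p (nat_lit 0x28212) (nat_lit 0) (p (nat_lit 0x38112)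 (nat_lit 0) (p (nat_lit 0x20092) (nat_lit 0) (p (nat_lit 0x10012) (nat_lit 0) pn))))))))))))))))))))))))))) :=
  Cl.node (nat_lit 0x81) (nat_lit 2) (by decide +kernel) (ClAll.succ (ClAll.succ ClAll.zero n65) n66)

def n102 : Cl (O (nat_lit 2)) (R (nat_lit 14353))
    (p (nat_lit 0x2a82580000088907870a) (nat_lit 0) (p (nat_lit 0xb0014) (nat_lit 1) (p (nat_lit 0xb0004) (nat_lit 0) (p (nat_lit 0x20000c) (nat_lit 0) (p (nat_lit 0x111) (nat_lit 1) (p (nat_lit 0x109) (nat_lit 0) (p (nat_lit 0xc9) (nat_lit 1) (p (nat_lit 0x119) (nat_lit 1) (p (nat_lit 0xc1) (nat_lit 0) (p (nat_lit 0x81) (nat_lit 1) (p (nat_lit 0x41) (nat_lit 1) (p (nat_lit 0x88090887069a) (nat_lit 0) (p (nat_lit 0x87870806861a) (nat_lit 0) (p (nat_lit 0x80000000070786058a) (nat_lit 0) (p (nat_lit 0x8787058502) (nat_lit 0) (p (nat_lit 0x8586850482) (nat_lit 0) (p (nat_lit 0x160014) (nat_lit 0) (p (nat_lit 0x160004)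 (nat_lit 0) (p (nat_lit 0x68612) (nat_lit 0) (p (nat_lit 0x50592) (nat_lit 0) (p (nat_lit 0x40512) (nat_lit 0) (p (nat_lit 0x50312) (nat_lit 0) (p (nat_lit 0x38292) (nat_lit 0) (p (nat_lit 0x28212) (nat_lit 0) (p (nat_lit 0x38112) (nat_lit 0) (p (nat_lit 0x20092) (nat_lit 0) (p (nat_lit 0x10012) (nat_lit 0) pn))))))))))))))))))))))))))) :=
  Cl.node (nat_lit 0x89088988079a) (nat_lit 1) (by decide +kernel) (ClAll.succ ClAll.zero n67)

def n103 : Cl (O (nat_lit 2)) (R (nat_lit 14353))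
    (p (nat_lit 0xb0004) (nat_lit 0) (p (nat_lit 0x111) (nat_lit 0) (p (nat_lit 0x20000c) (nat_lit 0) (p (nat_lit 0xc9) (nat_lit 0) (p (nat_lit 0x81) (nat_lit 0) (p (nat_lit 0x101) (nat_lit 1) (p (nat_lit 0x119) (nat_lit 0) (p (nat_lit 0xd1) (nat_lit 0) (p (nat_lit 0x89) (nat_lit 0) (p (nat_lit 0x41) (nat_lit 0) (p (nat_lit 0x88090887069a) (nat_lit 0) (p (nat_lit 0x87870806861a) (nat_lit 0) (p (nat_lit 0x80000000070786058a) (nat_lit 0) (p (nat_lit 0x8787058502) (nat_lit 0) (p (nat_lit 0x8586850482) (nat_lit 0) (p (nat_lit 0x160014) (nat_lit 0) (p (nat_lit 0x160004) (nat_lit 0) (p (nat_lit 0x68612) (nat_lit 0) (p (nat_lit 0x50592) (nat_lit 0) (p (nat_lit 0x40512) (nat_lit 0) (p (nat_lit 0x50312) (nat_lit 0) (p (nat_lit 0x38292) (nat_lit 0) (p (nat_lit 0x28212) (nat_lit 0) (p (nat_lit 0x38112) (nat_lit 0) (p (nat_lit 0x20092) (nat_lit 0) (p (nat_lit 0x10012) (nat_lit 0) pn))))))))))))))))))))))))))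 :=
  Cl.node (nat_lit 0xb0014) (nat_lit 2) (by decide +kernel) (ClAll.succ (ClAll.succ ClAll.zero n68) s10)

def n104 : Cl (O (nat_lit 2)) (R (nat_lit 14353))
    (p (nat_lit 0xb0004) (nat_lit 0) (p (nat_lit 0x111) (nat_lit 0) (p (nat_lit 0x20000c) (nat_lit 0) (p (nat_lit 0xc9) (nat_lit 1) (p (nat_lit 0x81) (nat_lit 0) (p (nat_lit 0x101) (nat_lit 1) (p (nat_lit 0x119) (nat_lit 0) (p (nat_lit 0xd1) (nat_lit 0) (p (nat_lit 0x89) (nat_lit 0) (p (nat_lit 0x41) (nat_lit 0) (p (nat_lit 0x88090887069a) (nat_lit 0) (p (nat_lit 0x87870806861a) (nat_lit 0) (p (nat_lit 0x80000000070786058a) (nat_lit 0) (p (nat_lit 0x8787058502) (nat_lit 0) (p (nat_lit 0x8586850482) (nat_lit 0) (p (nat_lit 0x160014) (nat_lit 0) (p (nat_lit 0x160004) (nat_lit 0) (p (nat_lit 0x68612) (nat_lit 0) (p (nat_lit 0x50592) (nat_lit 0) (p (nat_lit 0x40512) (nat_lit 0) (p (nat_lit 0x50312) (nat_lit 0) (p (nat_lit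 0x38292) (nat_lit 0) (p (nat_lit 0x28212) (nat_lit 0) (p (nat_lit 0x38112) (nat_lit 0) (p (nat_lit 0x20092) (nat_lit 0) (p (nat_lit 0x10012) (nat_lit 0) pn)))))))))))))))))))))))))) :=
  Cl.node (nat_lit 0xb0014) (nat_lit 2) (by decide +kernel) (ClAll.succ (ClAll.succ ClAll.zero n69) s18)

def n105 : Cl (O (nat_lit 2)) (R (nat_lit 14353))
    (p (nat_lit 0xb0004) (nat_lit 0) (p (nat_lit 0x20000c) (nat_lit 0) (p (nat_lit 0xc9) (nat_lit 0) (p (nat_lit 0xc1) (nat_lit 0) (p (nat_lit 0x81) (nat_lit 1) (p (nat_lit 0x101) (nat_lit 1) (p (nat_lit 0x119) (nat_lit 0) (p (nat_lit 0xd1) (nat_lit 0) (p (nat_lit 0x89) (nat_lit 0) (p (nat_lit 0x41) (nat_lit 0) (p (nat_lit 0x88090887069a) (nat_lit 0) (p (nat_lit 0x87870806861a) (nat_lit 0) (p (nat_lit 0x80000000070786058a) (nat_lit 0) (p (nat_lit 0x8787058502) (nat_lit 0) (p (nat_lit 0x8586850482) (nat_lit 0) (p (nat_lit 0x160014) (nat_lit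 0) (p (nat_lit 0x160004) (nat_lit 0) (p (nat_lit 0x68612) (nat_lit 0) (p (nat_lit 0x50592) (nat_lit 0) (p (nat_lit 0x40512) (nat_lit 0) (p (nat_lit 0x50312) (nat_lit 0) (p (nat_lit 0x38292) (nat_lit 0) (p (nat_lit 0x28212) (nat_lit 0) (p (nat_lit 0x38112) (nat_lit 0) (p (nat_lit 0x20092) (nat_lit 0) (p (nat_lit 0x10012) (nat_lit 0) pn)))))))))))))))))))))))))) :=
  Cl.node (nat_lit 0xb0014) (nat_lit 2) (by decide +kernel) (ClAll.succ (ClAll.succ ClAll.zero n70) s26)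

def n106 : Cl (O (nat_lit 2)) (R (nat_lit 14353))
    (p (nat_lit 0xb0004) (nat_lit 0) (p (nat_lit 0x20000c) (nat_lit 0) (p (nat_lit 0xc9) (nat_lit 1) (p (nat_lit 0xc1) (nat_lit 0) (p (nat_lit 0x81) (nat_lit 1) (p (nat_lit 0x101) (nat_lit 1) (p (nat_lit 0x119) (nat_lit 0) (p (nat_lit 0xd1) (nat_lit 0) (p (nat_lit 0x89) (nat_lit 0) (p (nat_lit 0x41) (nat_lit 0) (p (nat_lit 0x88090887069a) (nat_lit 0) (p (nat_lit 0x87870806861a) (nat_lit 0) (p (nat_lit 0x80000000070786058a) (nat_lit 0) (p (nat_lit 0x8787058502) (nat_lit 0) (p (nat_lit 0x8586850482) (nat_lit 0) (p (nat_lit 0x160014) (nat_lit 0) (p (nat_lit 0x160004) (nat_lit 0) (p (nat_lit 0x68612) (nat_lit 0) (p (nat_lit 0x50592) (nat_lit 0) (p (nat_lit 0x40512) (nat_lit 0) (p (nat_lit 0x50312) (nat_lit 0) (p (nat_lit 0x38292) (nat_lit 0) (p (nat_lit 0x28212) (nat_lit 0) (p (nat_lit 0x38112) (nat_lit 0) (p (nat_lit 0x20092)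 (nat_lit 0) (p (nat_lit 0x10012) (nat_lit 0) pn)))))))))))))))))))))))))) :=
  Cl.node (nat_lit 0xb0014) (nat_lit 2) (by decide +kernel) (ClAll.succ (ClAll.succ ClAll.zero n71) s31)

def n107 : Cl (O (nat_lit 2)) (R (nat_lit 14353))
    (p (nat_lit 0xb0004) (nat_lit 0) (p (nat_lit 0x20000c) (nat_lit 0) (p (nat_lit 0x109) (nat_lit 0) (p (nat_lit 0x101) (nat_lit 0) (p (nat_lit 0x81) (nat_lit 1) (p (nat_lit 0xc1) (nat_lit 1) (p (nat_lit 0x119) (nat_lit 1) (p (nat_lit 0xd1) (nat_lit 0) (p (nat_lit 0x89) (nat_lit 0) (p (nat_lit 0x41) (nat_lit 0) (p (nat_lit 0x88090887069a) (nat_lit 0) (p (nat_lit 0x87870806861a) (nat_lit 0) (p (nat_lit 0x80000000070786058a) (nat_lit 0) (p (nat_lit 0x8787058502) (nat_lit 0) (p (nat_lit 0x8586850482) (nat_lit 0) (p (nat_lit 0x160014) (nat_lit 0) (p (nat_lit 0x160004) (nat_lit 0) (p (nat_lit 0x68612) (nat_lit 0) (p (nat_lit 0x50592) (nat_lit 0) (p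 (nat_lit 0x40512) (nat_lit 0) (p (nat_lit 0x50312) (nat_lit 0) (p (nat_lit 0x38292) (nat_lit 0) (p (nat_lit 0x28212) (nat_lit 0) (p (nat_lit 0x38112) (nat_lit 0) (p (nat_lit 0x20092) (nat_lit 0) (p (nat_lit 0x10012) (nat_lit 0) pn)))))))))))))))))))))))))) :=
  Cl.node (nat_lit 0xb0014) (nat_lit 2) (by decide +kernel) (ClAll.succ (ClAll.succ ClAll.zero n72) s45)

def n108 : Cl (O (nat_lit 2)) (R (nat_lit 14353))
    (p (nat_lit 0xb0004) (nat_lit 0) (p (nat_lit 0x20000c) (nat_lit 0) (p (nat_lit 0x109) (nat_lit 1) (p (nat_lit 0x101) (nat_lit 0) (p (nat_lit 0x81) (nat_lit 1) (p (nat_lit 0xc1) (nat_lit 1) (p (nat_lit 0x119) (nat_lit 1) (p (nat_lit 0xd1) (nat_lit 0) (p (nat_lit 0x89) (nat_lit 0) (p (nat_lit 0x41) (nat_lit 0) (p (nat_lit 0x88090887069a) (nat_lit 0) (p (nat_lit 0x87870806861a) (nat_lit 0) (p (nat_lit 0x80000000070786058a) (nat_lit 0) (p (nat_lit 0x8787058502) (nat_lit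 0) (p (nat_lit 0x8586850482) (nat_lit 0) (p (nat_lit 0x160014) (nat_lit 0) (p (nat_lit 0x160004) (nat_lit 0) (p (nat_lit 0x68612) (nat_lit 0) (p (nat_lit 0x50592) (nat_lit 0) (p (nat_lit 0x40512) (nat_lit 0) (p (nat_lit 0x50312) (nat_lit 0) (p (nat_lit 0x38292) (nat_lit 0) (p (nat_lit 0x28212) (nat_lit 0) (p (nat_lit 0x38112) (nat_lit 0) (p (nat_lit 0x20092) (nat_lit 0) (p (nat_lit 0x10012) (nat_lit 0) pn)))))))))))))))))))))))))) :=
  Cl.node (nat_lit 0xb0014) (nat_lit 2) (by decide +kernel) (ClAll.succ (ClAll.succ ClAll.zero n73) s50)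

def n109 : Cl (O (nat_lit 2)) (R (nat_lit 14353))
    (p (nat_lit 0xb0004) (nat_lit 0) (p (nat_lit 0x119) (nat_lit 0) (p (nat_lit 0x20000c) (nat_lit 0) (p (nat_lit 0xc1) (nat_lit 0) (p (nat_lit 0x81) (nat_lit 1) (p (nat_lit 0x101) (nat_lit 1) (p (nat_lit 0x111) (nat_lit 0) (p (nat_lit 0xd1) (nat_lit 1) (p (nat_lit 0x89) (nat_lit 0) (p (nat_lit 0x41) (nat_lit 0) (p (nat_lit 0x88090887069a) (nat_lit 0) (p (nat_lit 0x87870806861a) (nat_lit 0) (p (nat_lit 0x80000000070786058a) (nat_lit 0) (p (nat_lit 0x8787058502) (nat_lit 0) (p (nat_lit 0x8586850482) (nat_lit 0) (p (nat_lit 0x160014) (nat_lit 0) (p (nat_lit 0x160004) (nat_lit 0) (p (nat_lit 0x68612) (nat_lit 0) (p (nat_lit 0x50592) (nat_lit 0) (p (nat_lit 0x40512) (nat_lit 0) (p (nat_lit 0x50312) (nat_lit 0) (p (nat_lit 0x38292) (nat_lit 0) (p (nat_lit 0x28212) (nat_lit 0) (p (nat_lit 0x38112) (nat_lit 0) (p (nat_lit 0x20092)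 (nat_lit 0) (p (nat_lit 0x10012) (nat_lit 0) pn)))))))))))))))))))))))))) :=
  Cl.node (nat_lit 0xb0014) (nat_lit 2) (by decide +kernel) (ClAll.succ (ClAll.succ ClAll.zero n74) s67)

def n110 : Cl (O (nat_lit 2)) (R (nat_lit 14353))
    (p (nat_lit 0xb0014) (nat_lit 0) (p (nat_lit 0xb0004) (nat_lit 0) (p (nat_lit 0x20000c) (nat_lit 0) (p (nat_lit 0xd1) (nat_lit 1) (p (nat_lit 0x109) (nat_lit 1) (p (nat_lit 0x101) (nat_lit 0) (p (nat_lit 0x119) (nat_lit 0) (p (nat_lit 0xc9) (nat_lit 0) (p (nat_lit 0x89) (nat_lit 1) (p (nat_lit 0x41) (nat_lit 0) (p (nat_lit 0x88090887069a) (nat_lit 0) (p (nat_lit 0x87870806861a) (nat_lit 0) (p (nat_lit 0x80000000070786058a) (nat_lit 0) (p (nat_lit 0x8787058502) (nat_lit 0) (p (nat_lit 0x8586850482) (nat_lit 0) (p (nat_lit 0x160014) (nat_lit 0) (p (nat_lit 0x160004) (nat_lit 0) (p (nat_lit 0x68612) (nat_lit 0) (p (nat_lit 0x50592) (nat_lit 0)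 (p (nat_lit 0x40512) (nat_lit 0) (p (nat_lit 0x50312) (nat_lit 0) (p (nat_lit 0x38292) (nat_lit 0) (p (nat_lit 0x28212) (nat_lit 0) (p (nat_lit 0x38112) (nat_lit 0) (p (nat_lit 0x20092) (nat_lit 0) (p (nat_lit 0x10012) (nat_lit 0) pn)))))))))))))))))))))))))) :=
  Cl.node (nat_lit 0x41) (nat_lit 2) (by decide +kernel) (ClAll.succ (ClAll.succ ClAll.zero n75) s103)

def n111 : Cl (O (nat_lit 2)) (R (nat_lit 14353))
    (p (nat_lit 0xb0014) (nat_lit 1) (p (nat_lit 0xb0004) (nat_lit 0) (p (nat_lit 0x20000c) (nat_lit 0) (p (nat_lit 0xd1) (nat_lit 1) (p (nat_lit 0x109) (nat_lit 1) (p (nat_lit 0x101) (nat_lit 0) (p (nat_lit 0x119) (nat_lit 0) (p (nat_lit 0xc9) (nat_lit 0) (p (nat_lit 0x89) (nat_lit 1) (p (nat_lit 0x41) (nat_lit 0) (p (nat_lit 0x88090887069a) (nat_lit 0) (p (nat_lit 0x87870806861a) (nat_lit 0) (p (nat_lit 0x80000000070786058a) (nat_lit 0) (p (nat_lit 0x8787058502)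 (nat_lit 0) (p (nat_lit 0x8586850482) (nat_lit 0) (p (nat_lit 0x160014) (nat_lit 0) (p (nat_lit 0x160004) (nat_lit 0) (p (nat_lit 0x68612) (nat_lit 0) (p (nat_lit 0x50592) (nat_lit 0) (p (nat_lit 0x40512) (nat_lit 0) (p (nat_lit 0x50312) (nat_lit 0) (p (nat_lit 0x38292) (nat_lit 0) (p (nat_lit 0x28212) (nat_lit 0) (p (nat_lit 0x38112) (nat_lit 0) (p (nat_lit 0x20092) (nat_lit 0) (p (nat_lit 0x10012) (nat_lit 0) pn)))))))))))))))))))))))))) :=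
  Cl.node (nat_lit 0x2a82580000088907870a) (nat_lit 1) (by decide +kernel) (ClAll.succ ClAll.zero n76)

def n112 : Cl (O (nat_lit 2)) (R (nat_lit 14353))
    (p (nat_lit 0xb0014) (nat_lit 0) (p (nat_lit 0xb0004) (nat_lit 1) (p (nat_lit 0x20000c) (nat_lit 0) (p (nat_lit 0xd1) (nat_lit 1) (p (nat_lit 0x109) (nat_lit 1) (p (nat_lit 0x101) (nat_lit 0) (p (nat_lit 0x119) (nat_lit 0) (p (nat_lit 0xc9) (nat_lit 0) (p (nat_lit 0x89) (nat_lit 1) (p (nat_lit 0x41) (nat_lit 0) (p (nat_lit 0x88090887069a) (nat_lit 0) (p (nat_lit 0x87870806861a) (nat_lit 0) (p (nat_lit 0x80000000070786058a) (nat_lit 0) (p (nat_lit 0x8787058502) (nat_lit 0) (p (nat_lit 0x8586850482) (nat_lit 0) (p (nat_lit 0x160014) (nat_lit 0) (p (nat_lit 0x160004) (nat_lit 0) (p (nat_lit 0x68612) (nat_lit 0) (p (nat_lit 0x50592) (nat_lit 0) (p (nat_lit 0x40512) (nat_lit 0) (p (nat_lit 0x50312) (nat_lit 0) (p (nat_lit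 0x38292) (nat_lit 0) (p (nat_lit 0x28212) (nat_lit 0) (p (nat_lit 0x38112) (nat_lit 0) (p (nat_lit 0x20092) (nat_lit 0) (p (nat_lit 0x10012) (nat_lit 0) pn)))))))))))))))))))))))))) :=
  Cl.node (nat_lit 0x2a82580000088907870a) (nat_lit 1) (by decide +kernel) (ClAll.succ ClAll.zero n77)

def n113 : Cl (O (nat_lit 2)) (R (nat_lit 14353))
    (p (nat_lit 0xb0014) (nat_lit 0) (p (nat_lit 0xb0004) (nat_lit 0) (p (nat_lit 0x20000c) (nat_lit 0) (p (nat_lit 0xd1) (nat_lit 0) (p (nat_lit 0xc1) (nat_lit 0) (p (nat_lit 0x101) (nat_lit 1) (p (nat_lit 0x119) (nat_lit 0) (p (nat_lit 0xc9) (nat_lit 0) (p (nat_lit 0x89) (nat_lit 1) (p (nat_lit 0x41) (nat_lit 0) (p (nat_lit 0x88090887069a) (nat_lit 0) (p (nat_lit 0x87870806861a) (nat_lit 0) (p (nat_lit 0x80000000070786058a) (nat_lit 0) (p (nat_lit 0x8787058502) (nat_lit 0) (p (nat_lit 0x8586850482) (nat_lit 0) (p (nat_lit 0x160014) (nat_lit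 0) (p (nat_lit 0x160004) (nat_lit 0) (p (nat_lit 0x68612) (nat_lit 0) (p (nat_lit 0x50592) (nat_lit 0) (p (nat_lit 0x40512) (nat_lit 0) (p (nat_lit 0x50312) (nat_lit 0) (p (nat_lit 0x38292) (nat_lit 0) (p (nat_lit 0x28212) (nat_lit 0) (p (nat_lit 0x38112) (nat_lit 0) (p (nat_lit 0x20092) (nat_lit 0) (p (nat_lit 0x10012) (nat_lit 0) pn)))))))))))))))))))))))))) :=
  Cl.node (nat_lit 0x109) (nat_lit 2) (by decide +kernel) (ClAll.succ (ClAll.succ ClAll.zero s113) s114)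

def n114 : Cl (O (nat_lit 2)) (R (nat_lit 14353))
    (p (nat_lit 0xb0014) (nat_lit 0) (p (nat_lit 0xb0004) (nat_lit 0) (p (nat_lit 0x20000c) (nat_lit 0) (p (nat_lit 0xd1) (nat_lit 1) (p (nat_lit 0xc1) (nat_lit 0) (p (nat_lit 0x101) (nat_lit 1) (p (nat_lit 0x119) (nat_lit 0) (p (nat_lit 0xc9) (nat_lit 0) (p (nat_lit 0x89) (nat_lit 1) (p (nat_lit 0x41) (nat_lit 0) (p (nat_lit 0x88090887069a) (nat_lit 0) (p (nat_lit 0x87870806861a) (nat_lit 0) (p (nat_lit 0x80000000070786058a) (nat_lit 0) (p (nat_lit 0x8787058502) (nat_lit 0) (p (nat_lit 0x8586850482) (nat_lit 0) (p (nat_lit 0x160014) (nat_lit 0) (p (nat_lit 0x160004) (nat_lit 0) (p (nat_lit 0x68612) (nat_lit 0) (p (nat_lit 0x50592) (nat_lit 0) (p (nat_lit 0x40512) (nat_lit 0) (p (nat_lit 0x50312) (nat_lit 0) (p (nat_lit 0x38292) (nat_lit 0) (p (nat_lit 0x28212) (nat_lit 0) (p (nat_lit 0x38112) (nat_lit 0) (p (nat_lit 0x20092)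 (nat_lit 0) (p (nat_lit 0x10012) (nat_lit 0) pn)))))))))))))))))))))))))) :=
  Cl.node (nat_lit 0x109) (nat_lit 2) (by decide +kernel) (ClAll.succ (ClAll.succ ClAll.zero s118) n78)

def n115 : Cl (O (nat_lit 2)) (R (nat_lit 14353))
    (p (nat_lit 0xb0014) (nat_lit 1) (p (nat_lit 0xb0004) (nat_lit 0) (p (nat_lit 0x20000c) (nat_lit 0) (p (nat_lit 0xd1) (nat_lit 1) (p (nat_lit 0xc1) (nat_lit 0) (p (nat_lit 0x101) (nat_lit 1) (p (nat_lit 0x119) (nat_lit 0) (p (nat_lit 0xc9) (nat_lit 0) (p (nat_lit 0x89) (nat_lit 1) (p (nat_lit 0x41) (nat_lit 0) (p (nat_lit 0x88090887069a) (nat_lit 0) (p (nat_lit 0x87870806861a) (nat_lit 0) (p (nat_lit 0x80000000070786058a) (nat_lit 0) (p (nat_lit 0x8787058502) (nat_lit 0) (p (nat_lit 0x8586850482) (nat_lit 0) (p (nat_lit 0x160014) (nat_lit 0) (p (nat_lit 0x160004) (nat_lit 0) (p (nat_lit 0x68612) (nat_lit 0) (p (nat_lit 0x50592) (nat_lit 0)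 (p (nat_lit 0x40512) (nat_lit 0) (p (nat_lit 0x50312) (nat_lit 0) (p (nat_lit 0x38292) (nat_lit 0) (p (nat_lit 0x28212) (nat_lit 0) (p (nat_lit 0x38112) (nat_lit 0) (p (nat_lit 0x20092) (nat_lit 0) (p (nat_lit 0x10012) (nat_lit 0) pn)))))))))))))))))))))))))) :=
  Cl.node (nat_lit 0x2a82580000088907870a) (nat_lit 1) (by decide +kernel) (ClAll.succ ClAll.zero n79)

def n116 : Cl (O (nat_lit 2)) (R (nat_lit 14353))
    (p (nat_lit 0xb0014) (nat_lit 0) (p (nat_lit 0xb0004) (nat_lit 0) (p (nat_lit 0x20000c) (nat_lit 0) (p (nat_lit 0x111) (nat_lit 1) (p (nat_lit 0x101) (nat_lit 0) (p (nat_lit 0xc1) (nat_lit 1) (p (nat_lit 0x119) (nat_lit 1) (p (nat_lit 0xc9) (nat_lit 0) (p (nat_lit 0x89) (nat_lit 1) (p (nat_lit 0x41) (nat_lit 0) (p (nat_lit 0x88090887069a) (nat_lit 0) (p (nat_lit 0x87870806861a) (nat_lit 0) (p (nat_lit 0x80000000070786058a) (nat_lit 0) (p (nat_lit 0x8787058502)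 (nat_lit 0) (p (nat_lit 0x8586850482) (nat_lit 0) (p (nat_lit 0x160014) (nat_lit 0) (p (nat_lit 0x160004) (nat_lit 0) (p (nat_lit 0x68612) (nat_lit 0) (p (nat_lit 0x50592) (nat_lit 0) (p (nat_lit 0x40512) (nat_lit 0) (p (nat_lit 0x50312) (nat_lit 0) (p (nat_lit 0x38292) (nat_lit 0) (p (nat_lit 0x28212) (nat_lit 0) (p (nat_lit 0x38112) (nat_lit 0) (p (nat_lit 0x20092) (nat_lit 0) (p (nat_lit 0x10012) (nat_lit 0) pn)))))))))))))))))))))))))) :=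
  Cl.node (nat_lit 0xd1) (nat_lit 2) (by decide +kernel) (ClAll.succ (ClAll.succ ClAll.zero s144) n80)

def n117 : Cl (O (nat_lit 2)) (R (nat_lit 14353))
    (p (nat_lit 0xb0014) (nat_lit 1) (p (nat_lit 0xb0004) (nat_lit 0) (p (nat_lit 0x20000c) (nat_lit 0) (p (nat_lit 0x111) (nat_lit 1) (p (nat_lit 0x101) (nat_lit 0) (p (nat_lit 0xc1) (nat_lit 1) (p (nat_lit 0x119) (nat_lit 1) (p (nat_lit 0xc9) (nat_lit 0) (p (nat_lit 0x89) (nat_lit 1) (p (nat_lit 0x41) (nat_lit 0) (p (nat_lit 0x88090887069a) (nat_lit 0) (p (nat_lit 0x87870806861a) (nat_lit 0) (p (nat_lit 0x80000000070786058a) (nat_lit 0) (p (nat_lit 0x8787058502) (nat_lit 0) (p (nat_lit 0x8586850482) (nat_lit 0) (p (nat_lit 0x160014) (nat_lit 0) (p (nat_lit 0x160004) (nat_lit 0) (p (nat_lit 0x68612) (nat_lit 0) (p (nat_lit 0x50592) (nat_lit 0) (p (nat_lit 0x40512) (nat_lit 0) (p (nat_lit 0x50312) (nat_lit 0) (p (nat_lit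 0x38292) (nat_lit 0) (p (nat_lit 0x28212) (nat_lit 0) (p (nat_lit 0x38112) (nat_lit 0) (p (nat_lit 0x20092) (nat_lit 0) (p (nat_lit 0x10012) (nat_lit 0) pn)))))))))))))))))))))))))) :=
  Cl.node (nat_lit 0x2a82580000088907870a) (nat_lit 1) (by decide +kernel) (ClAll.succ ClAll.zero n81)

def n118 : Cl (O (nat_lit 2)) (R (nat_lit 14353))
    (p (nat_lit 0xb0004) (nat_lit 0) (p (nat_lit 0x111) (nat_lit 0) (p (nat_lit 0x20000c) (nat_lit 0) (p (nat_lit 0x89) (nat_lit 0) (p (nat_lit 0x109) (nat_lit 1) (p (nat_lit 0x101) (nat_lit 0) (p (nat_lit 0x119) (nat_lit 0) (p (nat_lit 0xd1) (nat_lit 0) (p (nat_lit 0x81) (nat_lit 0) (p (nat_lit 0x41) (nat_lit 1) (p (nat_lit 0x88090887069a) (nat_lit 0) (p (nat_lit 0x87870806861a) (nat_lit 0) (p (nat_lit 0x80000000070786058a) (nat_lit 0) (p (nat_lit 0x8787058502) (nat_lit 0) (p (nat_lit 0x8586850482) (nat_lit 0) (p (nat_lit 0x160014) (nat_lit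 0) (p (nat_lit 0x160004) (nat_lit 0) (p (nat_lit 0x68612) (nat_lit 0) (p (nat_lit 0x50592) (nat_lit 0) (p (nat_lit 0x40512) (nat_lit 0) (p (nat_lit 0x50312) (nat_lit 0) (p (nat_lit 0x38292) (nat_lit 0) (p (nat_lit 0x28212) (nat_lit 0) (p (nat_lit 0x38112) (nat_lit 0) (p (nat_lit 0x20092) (nat_lit 0) (p (nat_lit 0x10012) (nat_lit 0) pn)))))))))))))))))))))))))) :=
  Cl.node (nat_lit 0xb0014) (nat_lit 2) (by decide +kernel) (ClAll.succ (ClAll.succ ClAll.zero n82) s164)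

def n119 : Cl (O (nat_lit 2)) (R (nat_lit 14353))
    (p (nat_lit 0xb0004) (nat_lit 0) (p (nat_lit 0x20000c) (nat_lit 0) (p (nat_lit 0xc9) (nat_lit 0) (p (nat_lit 0x89) (nat_lit 1) (p (nat_lit 0x109) (nat_lit 1) (p (nat_lit 0x101) (nat_lit 0) (p (nat_lit 0x119) (nat_lit 0) (p (nat_lit 0xd1) (nat_lit 0) (p (nat_lit 0x81) (nat_lit 0) (p (nat_lit 0x41) (nat_lit 1) (p (nat_lit 0x88090887069a) (nat_lit 0) (p (nat_lit 0x87870806861a) (nat_lit 0) (p (nat_lit 0x80000000070786058a) (nat_lit 0) (p (nat_lit 0x8787058502) (nat_lit 0) (p (nat_lit 0x8586850482) (nat_lit 0) (p (nat_lit 0x160014) (nat_lit 0) (p (nat_lit 0x160004) (nat_lit 0) (p (nat_lit 0x68612) (nat_lit 0) (p (nat_lit 0x50592) (nat_lit 0) (p (nat_lit 0x40512) (nat_lit 0) (p (nat_lit 0x50312) (nat_lit 0) (p (nat_lit 0x38292) (nat_lit 0) (p (nat_lit 0x28212) (nat_lit 0) (p (nat_lit 0x38112) (nat_lit 0) (p (nat_lit 0x20092)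 (nat_lit 0) (p (nat_lit 0x10012) (nat_lit 0) pn)))))))))))))))))))))))))) :=
  Cl.node (nat_lit 0xb0014) (nat_lit 2) (by decide +kernel) (ClAll.succ (ClAll.succ ClAll.zero n83) s173)

def n120 : Cl (O (nat_lit 2)) (R (nat_lit 14353))
    (p (nat_lit 0xb0004) (nat_lit 0) (p (nat_lit 0x20000c) (nat_lit 0) (p (nat_lit 0xc9) (nat_lit 0) (p (nat_lit 0x89) (nat_lit 1) (p (nat_lit 0xc1) (nat_lit 0) (p (nat_lit 0x101) (nat_lit 1) (p (nat_lit 0x119) (nat_lit 0) (p (nat_lit 0xd1) (nat_lit 0) (p (nat_lit 0x81) (nat_lit 0) (p (nat_lit 0x41) (nat_lit 1) (p (nat_lit 0x88090887069a) (nat_lit 0) (p (nat_lit 0x87870806861a) (nat_lit 0) (p (nat_lit 0x80000000070786058a) (nat_lit 0) (p (nat_lit 0x8787058502) (nat_lit 0) (p (nat_lit 0x8586850482) (nat_lit 0) (p (nat_lit 0x160014) (nat_lit 0) (p (nat_lit 0x160004) (nat_lit 0) (p (nat_lit 0x68612) (nat_lit 0) (p (nat_lit 0x50592) (nat_lit 0) (p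 (nat_lit 0x40512) (nat_lit 0) (p (nat_lit 0x50312) (nat_lit 0) (p (nat_lit 0x38292) (nat_lit 0) (p (nat_lit 0x28212) (nat_lit 0) (p (nat_lit 0x38112) (nat_lit 0) (p (nat_lit 0x20092) (nat_lit 0) (p (nat_lit 0x10012) (nat_lit 0) pn)))))))))))))))))))))))))) :=
  Cl.node (nat_lit 0xb0014) (nat_lit 2) (by decide +kernel) (ClAll.succ (ClAll.succ ClAll.zero n84) s185)

def n121 : Cl (O (nat_lit 2)) (R (nat_lit 14353))
    (p (nat_lit 0xb0004) (nat_lit 0) (p (nat_lit 0x20000c) (nat_lit 0) (p (nat_lit 0xc9) (nat_lit 1) (p (nat_lit 0x89) (nat_lit 1) (p (nat_lit 0xc1) (nat_lit 0) (p (nat_lit 0x101) (nat_lit 1) (p (nat_lit 0x119) (nat_lit 0) (p (nat_lit 0xd1) (nat_lit 0) (p (nat_lit 0x81) (nat_lit 0) (p (nat_lit 0x41) (nat_lit 1) (p (nat_lit 0x88090887069a) (nat_lit 0) (p (nat_lit 0x87870806861a) (nat_lit 0) (p (nat_lit 0x80000000070786058a) (nat_lit 0) (p (nat_lit 0x8787058502) (nat_lit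 0) (p (nat_lit 0x8586850482) (nat_lit 0) (p (nat_lit 0x160014) (nat_lit 0) (p (nat_lit 0x160004) (nat_lit 0) (p (nat_lit 0x68612) (nat_lit 0) (p (nat_lit 0x50592) (nat_lit 0) (p (nat_lit 0x40512) (nat_lit 0) (p (nat_lit 0x50312) (nat_lit 0) (p (nat_lit 0x38292) (nat_lit 0) (p (nat_lit 0x28212) (nat_lit 0) (p (nat_lit 0x38112) (nat_lit 0) (p (nat_lit 0x20092) (nat_lit 0) (p (nat_lit 0x10012) (nat_lit 0) pn)))))))))))))))))))))))))) :=
  Cl.node (nat_lit 0xb0014) (nat_lit 2) (by decide +kernel) (ClAll.succ (ClAll.succ ClAll.zero n85) s190)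

def n122 : Cl (O (nat_lit 2)) (R (nat_lit 14353))
    (p (nat_lit 0xb0014) (nat_lit 0) (p (nat_lit 0xb0004) (nat_lit 0) (p (nat_lit 0x20000c) (nat_lit 0) (p (nat_lit 0x89) (nat_lit 1) (p (nat_lit 0xc1) (nat_lit 1) (p (nat_lit 0x101) (nat_lit 1) (p (nat_lit 0x119) (nat_lit 0) (p (nat_lit 0xd1) (nat_lit 0) (p (nat_lit 0x81) (nat_lit 0) (p (nat_lit 0x41) (nat_lit 1) (p (nat_lit 0x88090887069a) (nat_lit 0) (p (nat_lit 0x87870806861a) (nat_lit 0) (p (nat_lit 0x80000000070786058a) (nat_lit 0) (p (nat_lit 0x8787058502) (nat_lit 0) (p (nat_lit 0x8586850482) (nat_lit 0) (p (nat_lit 0x160014) (nat_lit 0) (p (nat_lit 0x160004) (nat_lit 0) (p (nat_lit 0x68612) (nat_lit 0) (p (nat_lit 0x50592) (nat_lit 0) (p (nat_lit 0x40512) (nat_lit 0) (p (nat_lit 0x50312) (nat_lit 0) (p (nat_lit 0x38292) (nat_lit 0) (p (nat_lit 0x28212) (nat_lit 0) (p (nat_lit 0x38112) (nat_lit 0) (p (nat_lit 0x20092)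 (nat_lit 0) (p (nat_lit 0x10012) (nat_lit 0) pn)))))))))))))))))))))))))) :=
  Cl.node (nat_lit 0x109) (nat_lit 2) (by decide +kernel) (ClAll.succ (ClAll.succ ClAll.zero n86) s198)

def n123 : Cl (O (nat_lit 2)) (R (nat_lit 14353))
    (p (nat_lit 0xb0004) (nat_lit 0) (p (nat_lit 0x20000c) (nat_lit 0) (p (nat_lit 0x109) (nat_lit 0) (p (nat_lit 0x89) (nat_lit 1) (p (nat_lit 0xc9) (nat_lit 1) (p (nat_lit 0xc1) (nat_lit 0) (p (nat_lit 0x119) (nat_lit 1) (p (nat_lit 0xd1) (nat_lit 0) (p (nat_lit 0x81) (nat_lit 0) (p (nat_lit 0x41) (nat_lit 1) (p (nat_lit 0x88090887069a) (nat_lit 0) (p (nat_lit 0x87870806861a) (nat_lit 0) (p (nat_lit 0x80000000070786058a) (nat_lit 0) (p (nat_lit 0x8787058502) (nat_lit 0) (p (nat_lit 0x8586850482) (nat_lit 0) (p (nat_lit 0x160014) (nat_lit 0) (p (nat_lit 0x160004) (nat_lit 0) (p (nat_lit 0x68612) (nat_lit 0) (p (nat_lit 0x50592) (nat_lit 0) (p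 (nat_lit 0x40512) (nat_lit 0) (p (nat_lit 0x50312) (nat_lit 0) (p (nat_lit 0x38292) (nat_lit 0) (p (nat_lit 0x28212) (nat_lit 0) (p (nat_lit 0x38112) (nat_lit 0) (p (nat_lit 0x20092) (nat_lit 0) (p (nat_lit 0x10012) (nat_lit 0) pn)))))))))))))))))))))))))) :=
  Cl.node (nat_lit 0xb0014) (nat_lit 2) (by decide +kernel) (ClAll.succ (ClAll.succ ClAll.zero s204) s205)

def n124 : Cl (O (nat_lit 2)) (R (nat_lit 14353))
    (p (nat_lit 0xb0004) (nat_lit 0) (p (nat_lit 0x20000c) (nat_lit 0) (p (nat_lit 0x109) (nat_lit 1) (p (nat_lit 0x89) (nat_lit 1) (p (nat_lit 0xc9) (nat_lit 1) (p (nat_lit 0xc1) (nat_lit 0) (p (nat_lit 0x119) (nat_lit 1) (p (nat_lit 0xd1) (nat_lit 0) (p (nat_lit 0x81) (nat_lit 0) (p (nat_lit 0x41) (nat_lit 1) (p (nat_lit 0x88090887069a) (nat_lit 0) (p (nat_lit 0x87870806861a) (nat_lit 0) (p (nat_lit 0x80000000070786058a) (nat_lit 0) (p (nat_lit 0x8787058502) (nat_lit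 0) (p (nat_lit 0x8586850482) (nat_lit 0) (p (nat_lit 0x160014) (nat_lit 0) (p (nat_lit 0x160004) (nat_lit 0) (p (nat_lit 0x68612) (nat_lit 0) (p (nat_lit 0x50592) (nat_lit 0) (p (nat_lit 0x40512) (nat_lit 0) (p (nat_lit 0x50312) (nat_lit 0) (p (nat_lit 0x38292) (nat_lit 0) (p (nat_lit 0x28212) (nat_lit 0) (p (nat_lit 0x38112) (nat_lit 0) (p (nat_lit 0x20092) (nat_lit 0) (p (nat_lit 0x10012) (nat_lit 0) pn)))))))))))))))))))))))))) :=
  Cl.node (nat_lit 0xb0014) (nat_lit 2) (by decide +kernel) (ClAll.succ (ClAll.succ ClAll.zero n87) s210)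

def n125 : Cl (O (nat_lit 2)) (R (nat_lit 14353))
    (p (nat_lit 0xb0004) (nat_lit 0) (p (nat_lit 0x20000c) (nat_lit 0) (p (nat_lit 0x109) (nat_lit 0) (p (nat_lit 0x89) (nat_lit 1) (p (nat_lit 0x101) (nat_lit 0) (p (nat_lit 0xc1) (nat_lit 1) (p (nat_lit 0x119) (nat_lit 1) (p (nat_lit 0xd1) (nat_lit 0) (p (nat_lit 0x81) (nat_lit 0) (p (nat_lit 0x41) (nat_lit 1) (p (nat_lit 0x88090887069a) (nat_lit 0) (p (nat_lit 0x87870806861a) (nat_lit 0) (p (nat_lit 0x80000000070786058a) (nat_lit 0) (p (nat_lit 0x8787058502) (nat_lit 0) (p (nat_lit 0x8586850482) (nat_lit 0) (p (nat_lit 0x160014) (nat_lit 0) (p (nat_lit 0x160004) (nat_lit 0) (p (nat_lit 0x68612) (nat_lit 0) (p (nat_lit 0x50592) (nat_lit 0) (p (nat_lit 0x40512) (nat_lit 0) (p (nat_lit 0x50312) (nat_lit 0) (p (nat_lit 0x38292) (nat_lit 0) (p (nat_lit 0x28212) (nat_lit 0) (p (nat_lit 0x38112) (nat_lit 0) (p (nat_lit 0x20092)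 (nat_lit 0) (p (nat_lit 0x10012) (nat_lit 0) pn)))))))))))))))))))))))))) :=
  Cl.node (nat_lit 0xb0014) (nat_lit 2) (by decide +kernel) (ClAll.succ (ClAll.succ ClAll.zero n88) s216)

def n126 : Cl (O (nat_lit 2)) (R (nat_lit 14353))
    (p (nat_lit 0xb0004) (nat_lit 0) (p (nat_lit 0x20000c) (nat_lit 0) (p (nat_lit 0x109) (nat_lit 1) (p (nat_lit 0x89) (nat_lit 1) (p (nat_lit 0x101) (nat_lit 0) (p (nat_lit 0xc1) (nat_lit 1) (p (nat_lit 0x119) (nat_lit 1) (p (nat_lit 0xd1) (nat_lit 0) (p (nat_lit 0x81) (nat_lit 0) (p (nat_lit 0x41) (nat_lit 1) (p (nat_lit 0x88090887069a) (nat_lit 0) (p (nat_lit 0x87870806861a) (nat_lit 0) (p (nat_lit 0x80000000070786058a) (nat_lit 0) (p (nat_lit 0x8787058502) (nat_lit 0) (p (nat_lit 0x8586850482) (nat_lit 0) (p (nat_lit 0x160014) (nat_lit 0) (p (nat_lit 0x160004) (nat_lit 0) (p (nat_lit 0x68612) (nat_lit 0) (p (nat_lit 0x50592) (nat_lit 0)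 (p (nat_lit 0x40512) (nat_lit 0) (p (nat_lit 0x50312) (nat_lit 0) (p (nat_lit 0x38292) (nat_lit 0) (p (nat_lit 0x28212) (nat_lit 0) (p (nat_lit 0x38112) (nat_lit 0) (p (nat_lit 0x20092) (nat_lit 0) (p (nat_lit 0x10012) (nat_lit 0) pn)))))))))))))))))))))))))) :=
  Cl.node (nat_lit 0xb0014) (nat_lit 2) (by decide +kernel) (ClAll.succ (ClAll.succ ClAll.zero n89) s223)

def n127 : Cl (O (nat_lit 2)) (R (nat_lit 14353))
    (p (nat_lit 0xb0014) (nat_lit 0) (p (nat_lit 0xb0004) (nat_lit 0) (p (nat_lit 0x20000c) (nat_lit 0) (p (nat_lit 0x89) (nat_lit 1) (p (nat_lit 0x101) (nat_lit 1) (p (nat_lit 0xc1) (nat_lit 1) (p (nat_lit 0x119) (nat_lit 1) (p (nat_lit 0xd1) (nat_lit 0) (p (nat_lit 0x81) (nat_lit 0) (p (nat_lit 0x41) (nat_lit 1) (p (nat_lit 0x88090887069a) (nat_lit 0) (p (nat_lit 0x87870806861a) (nat_lit 0) (p (nat_lit 0x80000000070786058a) (nat_lit 0) (p (nat_lit 0x8787058502)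 (nat_lit 0) (p (nat_lit 0x8586850482) (nat_lit 0) (p (nat_lit 0x160014) (nat_lit 0) (p (nat_lit 0x160004) (nat_lit 0) (p (nat_lit 0x68612) (nat_lit 0) (p (nat_lit 0x50592) (nat_lit 0) (p (nat_lit 0x40512) (nat_lit 0) (p (nat_lit 0x50312) (nat_lit 0) (p (nat_lit 0x38292) (nat_lit 0) (p (nat_lit 0x28212) (nat_lit 0) (p (nat_lit 0x38112) (nat_lit 0) (p (nat_lit 0x20092) (nat_lit 0) (p (nat_lit 0x10012) (nat_lit 0) pn)))))))))))))))))))))))))) :=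
  Cl.node (nat_lit 0xc9) (nat_lit 2) (by decide +kernel) (ClAll.succ (ClAll.succ ClAll.zero n90) s232)

def n128 : Cl (O (nat_lit 2)) (R (nat_lit 14353))
    (p (nat_lit 0x119) (nat_lit 0) (p (nat_lit 0x20000c) (nat_lit 0) (p (nat_lit 0xc9) (nat_lit 0) (p (nat_lit 0x89) (nat_lit 1) (p (nat_lit 0x109) (nat_lit 1) (p (nat_lit 0x101) (nat_lit 0) (p (nat_lit 0x111) (nat_lit 0) (p (nat_lit 0xd1) (nat_lit 1) (p (nat_lit 0x81) (nat_lit 0) (p (nat_lit 0x41) (nat_lit 1) (p (nat_lit 0x88090887069a) (nat_lit 0) (p (nat_lit 0x87870806861a) (nat_lit 0) (p (nat_lit 0x80000000070786058a) (nat_lit 0) (p (nat_lit 0x8787058502) (nat_lit 0) (p (nat_lit 0x8586850482) (nat_lit 0) (p (nat_lit 0x160014) (nat_lit 0) (p (nat_lit 0x160004) (nat_lit 0) (p (nat_lit 0x68612) (nat_lit 0) (p (nat_lit 0x50592) (nat_lit 0) (p (nat_lit 0x40512) (nat_lit 0) (p (nat_lit 0x50312) (nat_lit 0) (p (nat_lit 0x38292)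 (nat_lit 0) (p (nat_lit 0x28212) (nat_lit 0) (p (nat_lit 0x38112) (nat_lit 0) (p (nat_lit 0x20092) (nat_lit 0) (p (nat_lit 0x10012) (nat_lit 0) pn)))))))))))))))))))))))))) :=
  Cl.node (nat_lit 0xb0004) (nat_lit 2) (by decide +kernel) (ClAll.succ (ClAll.succ ClAll.zero n91) s240)

def n129 : Cl (O (nat_lit 2)) (R (nat_lit 14353))
    (p (nat_lit 0x119) (nat_lit 1) (p (nat_lit 0x20000c) (nat_lit 0) (p (nat_lit 0xc9) (nat_lit 0) (p (nat_lit 0x89) (nat_lit 1) (p (nat_lit 0x109) (nat_lit 1) (p (nat_lit 0x101) (nat_lit 0) (p (nat_lit 0x111) (nat_lit 0) (p (nat_lit 0xd1) (nat_lit 1) (p (nat_lit 0x81) (nat_lit 0) (p (nat_lit 0x41) (nat_lit 1) (p (nat_lit 0x88090887069a) (nat_lit 0) (p (nat_lit 0x87870806861a) (nat_lit 0) (p (nat_lit 0x80000000070786058a) (nat_lit 0) (p (nat_lit 0x8787058502) (nat_lit 0) (p (nat_lit 0x8586850482) (nat_lit 0) (p (nat_lit 0x160014) (nat_lit 0) (p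 (nat_lit 0x160004) (nat_lit 0) (p (nat_lit 0x68612) (nat_lit 0) (p (nat_lit 0x50592) (nat_lit 0) (p (nat_lit 0x40512) (nat_lit 0) (p (nat_lit 0x50312) (nat_lit 0) (p (nat_lit 0x38292) (nat_lit 0) (p (nat_lit 0x28212) (nat_lit 0) (p (nat_lit 0x38112) (nat_lit 0) (p (nat_lit 0x20092) (nat_lit 0) (p (nat_lit 0x10012) (nat_lit 0) pn)))))))))))))))))))))))))) :=
  Cl.node (nat_lit 0xb0004) (nat_lit 2) (by decide +kernel) (ClAll.succ (ClAll.succ ClAll.zero n92) s244)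

def n130 : Cl (O (nat_lit 2)) (R (nat_lit 14353))
    (p (nat_lit 0x119) (nat_lit 1) (p (nat_lit 0xb0014) (nat_lit 0) (p (nat_lit 0xb0004) (nat_lit 0) (p (nat_lit 0x20000c) (nat_lit 0) (p (nat_lit 0x89) (nat_lit 0) (p (nat_lit 0x101) (nat_lit 1) (p (nat_lit 0x111) (nat_lit 0) (p (nat_lit 0xd1) (nat_lit 1) (p (nat_lit 0x81) (nat_lit 0) (p (nat_lit 0x41) (nat_lit 1) (p (nat_lit 0x88090887069a) (nat_lit 0) (p (nat_lit 0x87870806861a) (nat_lit 0) (p (nat_lit 0x80000000070786058a) (nat_lit 0) (p (nat_lit 0x8787058502) (nat_lit 0) (p (nat_lit 0x8586850482) (nat_lit 0) (p (nat_lit 0x160014) (nat_lit 0) (p (nat_lit 0x160004) (nat_lit 0) (p (nat_lit 0x68612) (nat_lit 0) (p (nat_lit 0x50592) (nat_lit 0) (p (nat_lit 0x40512) (nat_lit 0) (p (nat_lit 0x50312) (nat_lit 0) (p (nat_lit 0x38292) (nat_lit 0) (p (nat_lit 0x28212) (nat_lit 0) (p (nat_lit 0x38112) (nat_lit 0) (p (nat_lit 0x20092)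 (nat_lit 0) (p (nat_lit 0x10012) (nat_lit 0) pn)))))))))))))))))))))))))) :=
  Cl.node (nat_lit 0x81) (nat_lit 2) (by decide +kernel) (ClAll.succ (ClAll.succ ClAll.zero s248) s249)

def n131 : Cl (O (nat_lit 2)) (R (nat_lit 14353))
    (p (nat_lit 0xb0014) (nat_lit 0) (p (nat_lit 0xb0004) (nat_lit 0) (p (nat_lit 0x20000c) (nat_lit 0) (p (nat_lit 0xc9) (nat_lit 0) (p (nat_lit 0x89) (nat_lit 1) (p (nat_lit 0x101) (nat_lit 1) (p (nat_lit 0x111) (nat_lit 0) (p (nat_lit 0xd1) (nat_lit 1) (p (nat_lit 0x81) (nat_lit 0) (p (nat_lit 0x41) (nat_lit 1) (p (nat_lit 0x88090887069a) (nat_lit 0) (p (nat_lit 0x87870806861a) (nat_lit 0) (p (nat_lit 0x80000000070786058a) (nat_lit 0) (p (nat_lit 0x8787058502) (nat_lit 0) (p (nat_lit 0x8586850482) (nat_lit 0) (p (nat_lit 0x160014) (nat_lit 0) (p (nat_lit 0x160004) (nat_lit 0) (p (nat_lit 0x68612) (nat_lit 0) (p (nat_lit 0x50592) (nat_lit 0)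 (p (nat_lit 0x40512) (nat_lit 0) (p (nat_lit 0x50312) (nat_lit 0) (p (nat_lit 0x38292) (nat_lit 0) (p (nat_lit 0x28212) (nat_lit 0) (p (nat_lit 0x38112) (nat_lit 0) (p (nat_lit 0x20092) (nat_lit 0) (p (nat_lit 0x10012) (nat_lit 0) pn)))))))))))))))))))))))))) :=
  Cl.node (nat_lit 0x119) (nat_lit 2) (by decide +kernel) (ClAll.succ (ClAll.succ ClAll.zero n93) n94)

def n132 : Cl (O (nat_lit 2)) (R (nat_lit 14353))
    (p (nat_lit 0xb0014) (nat_lit 0) (p (nat_lit 0xb0004) (nat_lit 1) (p (nat_lit 0x20000c) (nat_lit 0) (p (nat_lit 0xc9) (nat_lit 0) (p (nat_lit 0x89) (nat_lit 1) (p (nat_lit 0x101) (nat_lit 1) (p (nat_lit 0x111) (nat_lit 0) (p (nat_lit 0xd1) (nat_lit 1) (p (nat_lit 0x81) (nat_lit 0) (p (nat_lit 0x41) (nat_lit 1) (p (nat_lit 0x88090887069a) (nat_lit 0) (p (nat_lit 0x87870806861a) (nat_lit 0) (p (nat_lit 0x80000000070786058a) (nat_lit 0) (p (nat_lit 0x8787058502)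 (nat_lit 0) (p (nat_lit 0x8586850482) (nat_lit 0) (p (nat_lit 0x160014) (nat_lit 0) (p (nat_lit 0x160004) (nat_lit 0) (p (nat_lit 0x68612) (nat_lit 0) (p (nat_lit 0x50592) (nat_lit 0) (p (nat_lit 0x40512) (nat_lit 0) (p (nat_lit 0x50312) (nat_lit 0) (p (nat_lit 0x38292) (nat_lit 0) (p (nat_lit 0x28212) (nat_lit 0) (p (nat_lit 0x38112) (nat_lit 0) (p (nat_lit 0x20092) (nat_lit 0) (p (nat_lit 0x10012) (nat_lit 0) pn)))))))))))))))))))))))))) :=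
  Cl.node (nat_lit 0x2a82580000088907870a) (nat_lit 1) (by decide +kernel) (ClAll.succ ClAll.zero n95)

def n133 : Cl (O (nat_lit 2)) (R (nat_lit 14353))
    (p (nat_lit 0xb0014) (nat_lit 0) (p (nat_lit 0xb0004) (nat_lit 0) (p (nat_lit 0x20000c) (nat_lit 1) (p (nat_lit 0xc9) (nat_lit 0) (p (nat_lit 0x89) (nat_lit 1) (p (nat_lit 0x101) (nat_lit 1) (p (nat_lit 0x111) (nat_lit 0) (p (nat_lit 0xd1) (nat_lit 1) (p (nat_lit 0x81) (nat_lit 0) (p (nat_lit 0x41) (nat_lit 1) (p (nat_lit 0x88090887069a) (nat_lit 0) (p (nat_lit 0x87870806861a) (nat_lit 0) (p (nat_lit 0x80000000070786058a) (nat_lit 0) (p (nat_lit 0x8787058502) (nat_lit 0) (p (nat_lit 0x8586850482) (nat_lit 0) (p (nat_lit 0x160014) (nat_lit 0) (p (nat_lit 0x160004) (nat_lit 0) (p (nat_lit 0x68612) (nat_lit 0) (p (nat_lit 0x50592) (nat_lit 0) (p (nat_lit 0x40512) (nat_lit 0) (p (nat_lit 0x50312) (nat_lit 0) (p (nat_lit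 0x38292) (nat_lit 0) (p (nat_lit 0x28212) (nat_lit 0) (p (nat_lit 0x38112) (nat_lit 0) (p (nat_lit 0x20092) (nat_lit 0) (p (nat_lit 0x10012) (nat_lit 0) pn)))))))))))))))))))))))))) :=
  Cl.node (nat_lit 0x119) (nat_lit 2) (by decide +kernel) (ClAll.succ (ClAll.succ ClAll.zero s261) s262)

def n134 : Cl (O (nat_lit 2)) (R (nat_lit 14353))
    (p (nat_lit 0xb0014) (nat_lit 0) (p (nat_lit 0xb0004) (nat_lit 0) (p (nat_lit 0x20000c) (nat_lit 0) (p (nat_lit 0x109) (nat_lit 0) (p (nat_lit 0xc9) (nat_lit 1) (p (nat_lit 0x89) (nat_lit 1) (p (nat_lit 0x111) (nat_lit 1) (p (nat_lit 0xd1) (nat_lit 1) (p (nat_lit 0x81) (nat_lit 0) (p (nat_lit 0x41) (nat_lit 1) (p (nat_lit 0x88090887069a) (nat_lit 0) (p (nat_lit 0x87870806861a) (nat_lit 0) (p (nat_lit 0x80000000070786058a) (nat_lit 0) (p (nat_lit 0x8787058502) (nat_lit 0) (p (nat_lit 0x8586850482) (nat_lit 0) (p (nat_lit 0x160014) (nat_lit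 0) (p (nat_lit 0x160004) (nat_lit 0) (p (nat_lit 0x68612) (nat_lit 0) (p (nat_lit 0x50592) (nat_lit 0) (p (nat_lit 0x40512) (nat_lit 0) (p (nat_lit 0x50312) (nat_lit 0) (p (nat_lit 0x38292) (nat_lit 0) (p (nat_lit 0x28212) (nat_lit 0) (p (nat_lit 0x38112) (nat_lit 0) (p (nat_lit 0x20092) (nat_lit 0) (p (nat_lit 0x10012) (nat_lit 0) pn)))))))))))))))))))))))))) :=
  Cl.node (nat_lit 0x101) (nat_lit 2) (by decide +kernel) (ClAll.succ (ClAll.succ ClAll.zero s270) s271)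

def n135 : Cl (O (nat_lit 2)) (R (nat_lit 14353))
    (p (nat_lit 0xb0014) (nat_lit 0) (p (nat_lit 0xb0004) (nat_lit 0) (p (nat_lit 0x20000c) (nat_lit 0) (p (nat_lit 0xd1) (nat_lit 1) (p (nat_lit 0xc9) (nat_lit 0) (p (nat_lit 0x101) (nat_lit 1) (p (nat_lit 0x119) (nat_lit 0) (p (nat_lit 0xc1) (nat_lit 0) (p (nat_lit 0x81) (nat_lit 1) (p (nat_lit 0x41) (nat_lit 1) (p (nat_lit 0x88090887069a) (nat_lit 0) (p (nat_lit 0x87870806861a) (nat_lit 0) (p (nat_lit 0x80000000070786058a) (nat_lit 0) (p (nat_lit 0x8787058502) (nat_lit 0) (p (nat_lit 0x8586850482) (nat_lit 0) (p (nat_lit 0x160014) (nat_lit 0) (p (nat_lit 0x160004) (nat_lit 0) (p (nat_lit 0x68612) (nat_lit 0) (p (nat_lit 0x50592) (nat_lit 0) (p (nat_lit 0x40512) (nat_lit 0) (p (nat_lit 0x50312) (nat_lit 0) (p (nat_lit 0x38292) (nat_lit 0) (p (nat_lit 0x28212) (nat_lit 0) (p (nat_lit 0x38112) (nat_lit 0) (p (nat_lit 0x20092)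 (nat_lit 0) (p (nat_lit 0x10012) (nat_lit 0) pn)))))))))))))))))))))))))) :=
  Cl.node (nat_lit 0x111) (nat_lit 2) (by decide +kernel) (ClAll.succ (ClAll.succ ClAll.zero n96) n97)

def n136 : Cl (O (nat_lit 2)) (R (nat_lit 14353))
    (p (nat_lit 0xb0014) (nat_lit 0) (p (nat_lit 0xb0004) (nat_lit 0) (p (nat_lit 0x20000c) (nat_lit 0) (p (nat_lit 0x111) (nat_lit 1) (p (nat_lit 0xd1) (nat_lit 1) (p (nat_lit 0xc9) (nat_lit 0) (p (nat_lit 0x119) (nat_lit 1) (p (nat_lit 0xc1) (nat_lit 0) (p (nat_lit 0x81) (nat_lit 1) (p (nat_lit 0x41) (nat_lit 1) (p (nat_lit 0x88090887069a) (nat_lit 0) (p (nat_lit 0x87870806861a) (nat_lit 0) (p (nat_lit 0x80000000070786058a) (nat_lit 0) (p (nat_lit 0x8787058502) (nat_lit 0) (p (nat_lit 0x8586850482) (nat_lit 0) (p (nat_lit 0x160014) (nat_lit 0) (p (nat_lit 0x160004) (nat_lit 0) (p (nat_lit 0x68612) (nat_lit 0) (p (nat_lit 0x50592) (nat_lit 0) (p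 (nat_lit 0x40512) (nat_lit 0) (p (nat_lit 0x50312) (nat_lit 0) (p (nat_lit 0x38292) (nat_lit 0) (p (nat_lit 0x28212) (nat_lit 0) (p (nat_lit 0x38112) (nat_lit 0) (p (nat_lit 0x20092) (nat_lit 0) (p (nat_lit 0x10012) (nat_lit 0) pn)))))))))))))))))))))))))) :=
  Cl.node (nat_lit 0x89) (nat_lit 2) (by decide +kernel) (ClAll.succ (ClAll.succ ClAll.zero n98) s310)

def n137 : Cl (O (nat_lit 2)) (R (nat_lit 14353))
    (p (nat_lit 0xb0014) (nat_lit 0) (p (nat_lit 0xb0004) (nat_lit 0) (p (nat_lit 0x20000c) (nat_lit 0) (p (nat_lit 0x111) (nat_lit 0) (p (nat_lit 0x109) (nat_lit 0) (p (nat_lit 0xc9) (nat_lit 1) (p (nat_lit 0x119) (nat_lit 1) (p (nat_lit 0xc1) (nat_lit 0) (p (nat_lit 0x81) (nat_lit 1) (p (nat_lit 0x41) (nat_lit 1) (p (nat_lit 0x88090887069a) (nat_lit 0) (p (nat_lit 0x87870806861a) (nat_lit 0) (p (nat_lit 0x80000000070786058a) (nat_lit 0) (p (nat_lit 0x8787058502) (nat_lit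 0) (p (nat_lit 0x8586850482) (nat_lit 0) (p (nat_lit 0x160014) (nat_lit 0) (p (nat_lit 0x160004) (nat_lit 0) (p (nat_lit 0x68612) (nat_lit 0) (p (nat_lit 0x50592) (nat_lit 0) (p (nat_lit 0x40512) (nat_lit 0) (p (nat_lit 0x50312) (nat_lit 0) (p (nat_lit 0x38292) (nat_lit 0) (p (nat_lit 0x28212) (nat_lit 0) (p (nat_lit 0x38112) (nat_lit 0) (p (nat_lit 0x20092) (nat_lit 0) (p (nat_lit 0x10012) (nat_lit 0) pn)))))))))))))))))))))))))) :=
  Cl.node (nat_lit 0x101) (nat_lit 2) (by decide +kernel) (ClAll.succ (ClAll.succ ClAll.zero n99) s316)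

def n138 : Cl (O (nat_lit 2)) (R (nat_lit 14353))
    (p (nat_lit 0xb0014) (nat_lit 0) (p (nat_lit 0xb0004) (nat_lit 0) (p (nat_lit 0x20000c) (nat_lit 0) (p (nat_lit 0x111) (nat_lit 1) (p (nat_lit 0x109) (nat_lit 0) (p (nat_lit 0xc9) (nat_lit 1) (p (nat_lit 0x119) (nat_lit 1) (p (nat_lit 0xc1) (nat_lit 0) (p (nat_lit 0x81) (nat_lit 1) (p (nat_lit 0x41) (nat_lit 1) (p (nat_lit 0x88090887069a) (nat_lit 0) (p (nat_lit 0x87870806861a) (nat_lit 0) (p (nat_lit 0x80000000070786058a) (nat_lit 0) (p (nat_lit 0x8787058502) (nat_lit 0) (p (nat_lit 0x8586850482) (nat_lit 0) (p (nat_lit 0x160014) (nat_lit 0) (p (nat_lit 0x160004) (nat_lit 0) (p (nat_lit 0x68612) (nat_lit 0) (p (nat_lit 0x50592) (nat_lit 0) (p (nat_lit 0x40512) (nat_lit 0) (p (nat_lit 0x50312) (nat_lit 0) (p (nat_lit 0x38292) (nat_lit 0) (p (nat_lit 0x28212) (nat_lit 0) (p (nat_lit 0x38112) (nat_lit 0) (p (nat_lit 0x20092)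 (nat_lit 0) (p (nat_lit 0x10012) (nat_lit 0) pn)))))))))))))))))))))))))) :=
  Cl.node (nat_lit 0xd1) (nat_lit 2) (by decide +kernel) (ClAll.succ (ClAll.succ ClAll.zero n100) n101)

def n139 : Cl (O (nat_lit 2)) (R (nat_lit 14353))
    (p (nat_lit 0xb0014) (nat_lit 1) (p (nat_lit 0xb0004) (nat_lit 0) (p (nat_lit 0x20000c) (nat_lit 0) (p (nat_lit 0x111) (nat_lit 1) (p (nat_lit 0x109) (nat_lit 0) (p (nat_lit 0xc9) (nat_lit 1) (p (nat_lit 0x119) (nat_lit 1) (p (nat_lit 0xc1) (nat_lit 0) (p (nat_lit 0x81) (nat_lit 1) (p (nat_lit 0x41) (nat_lit 1) (p (nat_lit 0x88090887069a) (nat_lit 0) (p (nat_lit 0x87870806861a) (nat_lit 0) (p (nat_lit 0x80000000070786058a) (nat_lit 0) (p (nat_lit 0x8787058502) (nat_lit 0) (p (nat_lit 0x8586850482) (nat_lit 0) (p (nat_lit 0x160014) (nat_lit 0) (p (nat_lit 0x160004) (nat_lit 0) (p (nat_lit 0x68612) (nat_lit 0) (p (nat_lit 0x50592) (nat_lit 0)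 (p (nat_lit 0x40512) (nat_lit 0) (p (nat_lit 0x50312) (nat_lit 0) (p (nat_lit 0x38292) (nat_lit 0) (p (nat_lit 0x28212) (nat_lit 0) (p (nat_lit 0x38112) (nat_lit 0) (p (nat_lit 0x20092) (nat_lit 0) (p (nat_lit 0x10012) (nat_lit 0) pn)))))))))))))))))))))))))) :=
  Cl.node (nat_lit 0x2a82580000088907870a) (nat_lit 1) (by decide +kernel) (ClAll.succ ClAll.zero n102)

def n140 : Cl (O (nat_lit 2)) (R (nat_lit 14353))
    (p (nat_lit 0x81) (nat_lit 1) (p (nat_lit 0x20000c) (nat_lit 0) (p (nat_lit 0xc9) (nat_lit 1) (p (nat_lit 0x109) (nat_lit 1) (p (nat_lit 0x101) (nat_lit 0) (p (nat_lit 0x119) (nat_lit 0) (p (nat_lit 0xd1) (nat_lit 0) (p (nat_lit 0x89) (nat_lit 0) (p (nat_lit 0x41) (nat_lit 0) (p (nat_lit 0x88090887069a) (nat_lit 0) (p (nat_lit 0x87870806861a) (nat_lit 0) (p (nat_lit 0x80000000070786058a) (nat_lit 0) (p (nat_lit 0x8787058502) (nat_lit 0) (p (nat_lit 0x8586850482)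 (nat_lit 0) (p (nat_lit 0x160014) (nat_lit 0) (p (nat_lit 0x160004) (nat_lit 0) (p (nat_lit 0x68612) (nat_lit 0) (p (nat_lit 0x50592) (nat_lit 0) (p (nat_lit 0x40512) (nat_lit 0) (p (nat_lit 0x50312) (nat_lit 0) (p (nat_lit 0x38292) (nat_lit 0) (p (nat_lit 0x28212) (nat_lit 0) (p (nat_lit 0x38112) (nat_lit 0) (p (nat_lit 0x20092) (nat_lit 0) (p (nat_lit 0x10012) (nat_lit 0) pn))))))))))))))))))))))))) :=
  Cl.node (nat_lit 0xb0004) (nat_lit 2) (by decide +kernel) (ClAll.succ (ClAll.succ ClAll.zero s3) s4)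

def n141 : Cl (O (nat_lit 2)) (R (nat_lit 14353))
    (p (nat_lit 0x111) (nat_lit 0) (p (nat_lit 0x20000c) (nat_lit 0) (p (nat_lit 0xc9) (nat_lit 0) (p (nat_lit 0x81) (nat_lit 0) (p (nat_lit 0x101) (nat_lit 1) (p (nat_lit 0x119) (nat_lit 0) (p (nat_lit 0xd1) (nat_lit 0) (p (nat_lit 0x89) (nat_lit 0) (p (nat_lit 0x41) (nat_lit 0) (p (nat_lit 0x88090887069a) (nat_lit 0) (p (nat_lit 0x87870806861a) (nat_lit 0) (p (nat_lit 0x80000000070786058a) (nat_lit 0) (p (nat_lit 0x8787058502) (nat_lit 0) (p (nat_lit 0x8586850482) (nat_lit 0) (p (nat_lit 0x160014) (nat_lit 0) (p (nat_lit 0x160004) (nat_lit 0) (p (nat_lit 0x68612) (nat_lit 0) (p (nat_lit 0x50592) (nat_lit 0) (p (nat_lit 0x40512) (nat_lit 0) (p (nat_lit 0x50312) (nat_lit 0) (p (nat_lit 0x38292) (nat_lit 0) (p (nat_lit 0x28212) (nat_lit 0) (p (nat_lit 0x38112) (nat_lit 0) (p (nat_lit 0x20092) (nat_lit 0) (p (nat_lit 0x10012)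 (nat_lit 0) pn))))))))))))))))))))))))) :=
  Cl.node (nat_lit 0xb0004) (nat_lit 2) (by decide +kernel) (ClAll.succ (ClAll.succ ClAll.zero n103) s11)

def n142 : Cl (O (nat_lit 2)) (R (nat_lit 14353))
    (p (nat_lit 0x111) (nat_lit 0) (p (nat_lit 0x20000c) (nat_lit 0) (p (nat_lit 0xc9) (nat_lit 1) (p (nat_lit 0x81) (nat_lit 0) (p (nat_lit 0x101) (nat_lit 1) (p (nat_lit 0x119) (nat_lit 0) (p (nat_lit 0xd1) (nat_lit 0) (p (nat_lit 0x89) (nat_lit 0) (p (nat_lit 0x41) (nat_lit 0) (p (nat_lit 0x88090887069a) (nat_lit 0) (p (nat_lit 0x87870806861a) (nat_lit 0) (p (nat_lit 0x80000000070786058a) (nat_lit 0) (p (nat_lit 0x8787058502) (nat_lit 0) (p (nat_lit 0x8586850482) (nat_lit 0) (p (nat_lit 0x160014) (nat_lit 0) (p (nat_lit 0x160004) (nat_lit 0) (p (nat_lit 0x68612) (nat_lit 0) (p (nat_lit 0x50592) (nat_lit 0) (p (nat_lit 0x40512) (nat_lit 0) (p (nat_lit 0x50312) (nat_lit 0) (p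 (nat_lit 0x38292) (nat_lit 0) (p (nat_lit 0x28212) (nat_lit 0) (p (nat_lit 0x38112) (nat_lit 0) (p (nat_lit 0x20092) (nat_lit 0) (p (nat_lit 0x10012) (nat_lit 0) pn))))))))))))))))))))))))) :=
  Cl.node (nat_lit 0xb0004) (nat_lit 2) (by decide +kernel) (ClAll.succ (ClAll.succ ClAll.zero n104) s19)

def n143 : Cl (O (nat_lit 2)) (R (nat_lit 14353))
    (p (nat_lit 0x20000c) (nat_lit 0) (p (nat_lit 0xc9) (nat_lit 0) (p (nat_lit 0xc1) (nat_lit 0) (p (nat_lit 0x81) (nat_lit 1) (p (nat_lit 0x101) (nat_lit 1) (p (nat_lit 0x119) (nat_lit 0) (p (nat_lit 0xd1) (nat_lit 0) (p (nat_lit 0x89) (nat_lit 0) (p (nat_lit 0x41) (nat_lit 0) (p (nat_lit 0x88090887069a) (nat_lit 0) (p (nat_lit 0x87870806861a) (nat_lit 0) (p (nat_lit 0x80000000070786058a) (nat_lit 0) (p (nat_lit 0x8787058502) (nat_lit 0) (p (nat_lit 0x8586850482) (nat_lit 0) (p (nat_lit 0x160014) (nat_lit 0) (p (nat_lit 0x160004)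 (nat_lit 0) (p (nat_lit 0x68612) (nat_lit 0) (p (nat_lit 0x50592) (nat_lit 0) (p (nat_lit 0x40512) (nat_lit 0) (p (nat_lit 0x50312) (nat_lit 0) (p (nat_lit 0x38292) (nat_lit 0) (p (nat_lit 0x28212) (nat_lit 0) (p (nat_lit 0x38112) (nat_lit 0) (p (nat_lit 0x20092) (nat_lit 0) (p (nat_lit 0x10012) (nat_lit 0) pn))))))))))))))))))))))))) :=
  Cl.node (nat_lit 0xb0004) (nat_lit 2) (by decide +kernel) (ClAll.succ (ClAll.succ ClAll.zero n105) s27)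

def n144 : Cl (O (nat_lit 2)) (R (nat_lit 14353))
    (p (nat_lit 0x20000c) (nat_lit 0) (p (nat_lit 0xc9) (nat_lit 1) (p (nat_lit 0xc1) (nat_lit 0) (p (nat_lit 0x81) (nat_lit 1) (p (nat_lit 0x101) (nat_lit 1) (p (nat_lit 0x119) (nat_lit 0) (p (nat_lit 0xd1) (nat_lit 0) (p (nat_lit 0x89) (nat_lit 0) (p (nat_lit 0x41) (nat_lit 0) (p (nat_lit 0x88090887069a) (nat_lit 0) (p (nat_lit 0x87870806861a) (nat_lit 0) (p (nat_lit 0x80000000070786058a) (nat_lit 0) (p (nat_lit 0x8787058502) (nat_lit 0) (p (nat_lit 0x8586850482) (nat_lit 0) (p (nat_lit 0x160014) (nat_lit 0) (p (nat_lit 0x160004) (nat_lit 0) (p (nat_lit 0x68612) (nat_lit 0) (p (nat_lit 0x50592) (nat_lit 0) (p (nat_lit 0x40512) (nat_lit 0) (p (nat_lit 0x50312) (nat_lit 0) (p (nat_lit 0x38292) (nat_lit 0) (p (nat_lit 0x28212) (nat_lit 0) (p (nat_lit 0x38112) (nat_lit 0) (p (nat_lit 0x20092) (nat_lit 0) (p (nat_lit 0x10012)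 (nat_lit 0) pn))))))))))))))))))))))))) :=
  Cl.node (nat_lit 0xb0004) (nat_lit 2) (by decide +kernel) (ClAll.succ (ClAll.succ ClAll.zero n106) s32)

def n145 : Cl (O (nat_lit 2)) (R (nat_lit 14353))
    (p (nat_lit 0x20000c) (nat_lit 0) (p (nat_lit 0x109) (nat_lit 0) (p (nat_lit 0x101) (nat_lit 0) (p (nat_lit 0x81) (nat_lit 1) (p (nat_lit 0xc1) (nat_lit 1) (p (nat_lit 0x119) (nat_lit 1) (p (nat_lit 0xd1) (nat_lit 0) (p (nat_lit 0x89) (nat_lit 0) (p (nat_lit 0x41) (nat_lit 0) (p (nat_lit 0x88090887069a) (nat_lit 0) (p (nat_lit 0x87870806861a) (nat_lit 0) (p (nat_lit 0x80000000070786058a) (nat_lit 0) (p (nat_lit 0x8787058502) (nat_lit 0) (p (nat_lit 0x8586850482) (nat_lit 0) (p (nat_lit 0x160014) (nat_lit 0) (p (nat_lit 0x160004) (nat_lit 0) (p (nat_lit 0x68612) (nat_lit 0) (p (nat_lit 0x50592) (nat_lit 0) (p (nat_lit 0x40512) (nat_lit 0) (p (nat_lit 0x50312) (nat_lit 0) (p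 (nat_lit 0x38292) (nat_lit 0) (p (nat_lit 0x28212) (nat_lit 0) (p (nat_lit 0x38112) (nat_lit 0) (p (nat_lit 0x20092) (nat_lit 0) (p (nat_lit 0x10012) (nat_lit 0) pn))))))))))))))))))))))))) :=
  Cl.node (nat_lit 0xb0004) (nat_lit 2) (by decide +kernel) (ClAll.succ (ClAll.succ ClAll.zero n107) s46)

def n146 : Cl (O (nat_lit 2)) (R (nat_lit 14353))
    (p (nat_lit 0x20000c) (nat_lit 0) (p (nat_lit 0x109) (nat_lit 1) (p (nat_lit 0x101) (nat_lit 0) (p (nat_lit 0x81) (nat_lit 1) (p (nat_lit 0xc1) (nat_lit 1) (p (nat_lit 0x119) (nat_lit 1) (p (nat_lit 0xd1) (nat_lit 0) (p (nat_lit 0x89) (nat_lit 0) (p (nat_lit 0x41) (nat_lit 0) (p (nat_lit 0x88090887069a) (nat_lit 0) (p (nat_lit 0x87870806861a) (nat_lit 0) (p (nat_lit 0x80000000070786058a) (nat_lit 0) (p (nat_lit 0x8787058502) (nat_lit 0) (p (nat_lit 0x8586850482) (nat_lit 0) (p (nat_lit 0x160014) (nat_lit 0) (p (nat_lit 0x160004)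 (nat_lit 0) (p (nat_lit 0x68612) (nat_lit 0) (p (nat_lit 0x50592) (nat_lit 0) (p (nat_lit 0x40512) (nat_lit 0) (p (nat_lit 0x50312) (nat_lit 0) (p (nat_lit 0x38292) (nat_lit 0) (p (nat_lit 0x28212) (nat_lit 0) (p (nat_lit 0x38112) (nat_lit 0) (p (nat_lit 0x20092) (nat_lit 0) (p (nat_lit 0x10012) (nat_lit 0) pn))))))))))))))))))))))))) :=
  Cl.node (nat_lit 0xb0004) (nat_lit 2) (by decide +kernel) (ClAll.succ (ClAll.succ ClAll.zero n108) s51)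

def n147 : Cl (O (nat_lit 2)) (R (nat_lit 14353))
    (p (nat_lit 0xb0004) (nat_lit 0) (p (nat_lit 0xc1) (nat_lit 1) (p (nat_lit 0x20000c) (nat_lit 0) (p (nat_lit 0x109) (nat_lit 1) (p (nat_lit 0x101) (nat_lit 0) (p (nat_lit 0x111) (nat_lit 0) (p (nat_lit 0xd1) (nat_lit 1) (p (nat_lit 0x89) (nat_lit 0) (p (nat_lit 0x41) (nat_lit 0) (p (nat_lit 0x88090887069a) (nat_lit 0) (p (nat_lit 0x87870806861a) (nat_lit 0) (p (nat_lit 0x80000000070786058a) (nat_lit 0) (p (nat_lit 0x8787058502) (nat_lit 0) (p (nat_lit 0x8586850482) (nat_lit 0) (p (nat_lit 0x160014) (nat_lit 0) (p (nat_lit 0x160004) (nat_lit 0) (p (nat_lit 0x68612) (nat_lit 0) (p (nat_lit 0x50592) (nat_lit 0) (p (nat_lit 0x40512) (nat_lit 0) (p (nat_lit 0x50312) (nat_lit 0) (p (nat_lit 0x38292) (nat_lit 0) (p (nat_lit 0x28212) (nat_lit 0) (p (nat_lit 0x38112) (nat_lit 0) (p (nat_lit 0x20092) (nat_lit 0) (p (nat_lit 0x10012)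 (nat_lit 0) pn))))))))))))))))))))))))) :=
  Cl.node (nat_lit 0xb0014) (nat_lit 2) (by decide +kernel) (ClAll.succ (ClAll.succ ClAll.zero s56) s57)

def n148 : Cl (O (nat_lit 2)) (R (nat_lit 14353))
    (p (nat_lit 0xb0004) (nat_lit 0) (p (nat_lit 0x119) (nat_lit 0) (p (nat_lit 0x20000c) (nat_lit 0) (p (nat_lit 0x81) (nat_lit 0) (p (nat_lit 0x101) (nat_lit 1) (p (nat_lit 0x111) (nat_lit 0) (p (nat_lit 0xd1) (nat_lit 1) (p (nat_lit 0x89) (nat_lit 0) (p (nat_lit 0x41) (nat_lit 0) (p (nat_lit 0x88090887069a) (nat_lit 0) (p (nat_lit 0x87870806861a) (nat_lit 0) (p (nat_lit 0x80000000070786058a) (nat_lit 0) (p (nat_lit 0x8787058502) (nat_lit 0) (p (nat_lit 0x8586850482) (nat_lit 0) (p (nat_lit 0x160014) (nat_lit 0) (p (nat_lit 0x160004) (nat_lit 0) (p (nat_lit 0x68612) (nat_lit 0) (p (nat_lit 0x50592) (nat_lit 0) (p (nat_lit 0x40512) (nat_lit 0) (p (nat_lit 0x50312) (nat_lit 0)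 (p (nat_lit 0x38292) (nat_lit 0) (p (nat_lit 0x28212) (nat_lit 0) (p (nat_lit 0x38112) (nat_lit 0) (p (nat_lit 0x20092) (nat_lit 0) (p (nat_lit 0x10012) (nat_lit 0) pn))))))))))))))))))))))))) :=
  Cl.node (nat_lit 0xb0014) (nat_lit 2) (by decide +kernel) (ClAll.succ (ClAll.succ ClAll.zero s60) s61)

def n149 : Cl (O (nat_lit 2)) (R (nat_lit 14353))
    (p (nat_lit 0x119) (nat_lit 0) (p (nat_lit 0x20000c) (nat_lit 0) (p (nat_lit 0xc1) (nat_lit 0) (p (nat_lit 0x81) (nat_lit 1) (p (nat_lit 0x101) (nat_lit 1) (p (nat_lit 0x111) (nat_lit 0) (p (nat_lit 0xd1) (nat_lit 1) (p (nat_lit 0x89) (nat_lit 0) (p (nat_lit 0x41) (nat_lit 0) (p (nat_lit 0x88090887069a) (nat_lit 0) (p (nat_lit 0x87870806861a) (nat_lit 0) (p (nat_lit 0x80000000070786058a) (nat_lit 0) (p (nat_lit 0x8787058502) (nat_lit 0) (p (nat_lit 0x8586850482) (nat_lit 0) (p (nat_lit 0x160014) (nat_lit 0) (p (nat_lit 0x160004)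 (nat_lit 0) (p (nat_lit 0x68612) (nat_lit 0) (p (nat_lit 0x50592) (nat_lit 0) (p (nat_lit 0x40512) (nat_lit 0) (p (nat_lit 0x50312) (nat_lit 0) (p (nat_lit 0x38292) (nat_lit 0) (p (nat_lit 0x28212) (nat_lit 0) (p (nat_lit 0x38112) (nat_lit 0) (p (nat_lit 0x20092) (nat_lit 0) (p (nat_lit 0x10012) (nat_lit 0) pn))))))))))))))))))))))))) :=
  Cl.node (nat_lit 0xb0004) (nat_lit 2) (by decide +kernel) (ClAll.succ (ClAll.succ ClAll.zero n109) s68)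

def n150 : Cl (O (nat_lit 2)) (R (nat_lit 14353))
    (p (nat_lit 0x119) (nat_lit 1) (p (nat_lit 0x20000c) (nat_lit 0) (p (nat_lit 0xc1) (nat_lit 0) (p (nat_lit 0x81) (nat_lit 1) (p (nat_lit 0x101) (nat_lit 1) (p (nat_lit 0x111) (nat_lit 0) (p (nat_lit 0xd1) (nat_lit 1) (p (nat_lit 0x89) (nat_lit 0) (p (nat_lit 0x41) (nat_lit 0) (p (nat_lit 0x88090887069a) (nat_lit 0) (p (nat_lit 0x87870806861a) (nat_lit 0) (p (nat_lit 0x80000000070786058a) (nat_lit 0) (p (nat_lit 0x8787058502) (nat_lit 0) (p (nat_lit 0x8586850482) (nat_lit 0) (p (nat_lit 0x160014) (nat_lit 0) (p (nat_lit 0x160004) (nat_lit 0) (p (nat_lit 0x68612) (nat_lit 0) (p (nat_lit 0x50592) (nat_lit 0) (p (nat_lit 0x40512) (nat_lit 0) (p (nat_lit 0x50312) (nat_lit 0) (p (nat_lit 0x38292) (nat_lit 0) (p (nat_lit 0x28212) (nat_lit 0) (p (nat_lit 0x38112) (nat_lit 0) (p (nat_lit 0x20092) (nat_lit 0) (p (nat_lit 0x10012)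 (nat_lit 0) pn))))))))))))))))))))))))) :=
  Cl.node (nat_lit 0xb0004) (nat_lit 2) (by decide +kernel) (ClAll.succ (ClAll.succ ClAll.zero s69) s70)

def n151 : Cl (O (nat_lit 2)) (R (nat_lit 14353))
    (p (nat_lit 0xb0004) (nat_lit 0) (p (nat_lit 0x20000c) (nat_lit 0) (p (nat_lit 0x101) (nat_lit 0) (p (nat_lit 0xc1) (nat_lit 1) (p (nat_lit 0x81) (nat_lit 1) (p (nat_lit 0x111) (nat_lit 1) (p (nat_lit 0xd1) (nat_lit 1) (p (nat_lit 0x89) (nat_lit 0) (p (nat_lit 0x41) (nat_lit 0) (p (nat_lit 0x88090887069a) (nat_lit 0) (p (nat_lit 0x87870806861a) (nat_lit 0) (p (nat_lit 0x80000000070786058a) (nat_lit 0) (p (nat_lit 0x8787058502) (nat_lit 0) (p (nat_lit 0x8586850482) (nat_lit 0) (p (nat_lit 0x160014) (nat_lit 0) (p (nat_lit 0x160004) (nat_lit 0) (p (nat_lit 0x68612) (nat_lit 0) (p (nat_lit 0x50592) (nat_lit 0) (p (nat_lit 0x40512) (nat_lit 0) (p (nat_lit 0x50312) (nat_lit 0)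 (p (nat_lit 0x38292) (nat_lit 0) (p (nat_lit 0x28212) (nat_lit 0) (p (nat_lit 0x38112) (nat_lit 0) (p (nat_lit 0x20092) (nat_lit 0) (p (nat_lit 0x10012) (nat_lit 0) pn))))))))))))))))))))))))) :=
  Cl.node (nat_lit 0xb0014) (nat_lit 2) (by decide +kernel) (ClAll.succ (ClAll.succ ClAll.zero s75) s76)

def n152 : Cl (O (nat_lit 2)) (R (nat_lit 14353))
    (p (nat_lit 0x20000c) (nat_lit 0) (p (nat_lit 0xd1) (nat_lit 1) (p (nat_lit 0x111) (nat_lit 1) (p (nat_lit 0x109) (nat_lit 0) (p (nat_lit 0x101) (nat_lit 0) (p (nat_lit 0x119) (nat_lit 0) (p (nat_lit 0xc9) (nat_lit 0) (p (nat_lit 0x89) (nat_lit 1) (p (nat_lit 0x41) (nat_lit 0) (p (nat_lit 0x88090887069a) (nat_lit 0) (p (nat_lit 0x87870806861a) (nat_lit 0) (p (nat_lit 0x80000000070786058a) (nat_lit 0) (p (nat_lit 0x8787058502) (nat_lit 0) (p (nat_lit 0x8586850482) (nat_lit 0) (p (nat_lit 0x160014) (nat_lit 0) (p (nat_lit 0x160004)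 (nat_lit 0) (p (nat_lit 0x68612) (nat_lit 0) (p (nat_lit 0x50592) (nat_lit 0) (p (nat_lit 0x40512) (nat_lit 0) (p (nat_lit 0x50312) (nat_lit 0) (p (nat_lit 0x38292) (nat_lit 0) (p (nat_lit 0x28212) (nat_lit 0) (p (nat_lit 0x38112) (nat_lit 0) (p (nat_lit 0x20092) (nat_lit 0) (p (nat_lit 0x10012) (nat_lit 0) pn))))))))))))))))))))))))) :=
  Cl.node (nat_lit 0xb0004) (nat_lit 2) (by decide +kernel) (ClAll.succ (ClAll.succ ClAll.zero s82) s83)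

def n153 : Cl (O (nat_lit 2)) (R (nat_lit 14353))
    (p (nat_lit 0xb0004) (nat_lit 0) (p (nat_lit 0x20000c) (nat_lit 0) (p (nat_lit 0xd1) (nat_lit 0) (p (nat_lit 0x109) (nat_lit 1) (p (nat_lit 0x101) (nat_lit 0) (p (nat_lit 0x119) (nat_lit 0) (p (nat_lit 0xc9) (nat_lit 0) (p (nat_lit 0x89) (nat_lit 1) (p (nat_lit 0x41) (nat_lit 0) (p (nat_lit 0x88090887069a) (nat_lit 0) (p (nat_lit 0x87870806861a) (nat_lit 0) (p (nat_lit 0x80000000070786058a) (nat_lit 0) (p (nat_lit 0x8787058502) (nat_lit 0) (p (nat_lit 0x8586850482) (nat_lit 0) (p (nat_lit 0x160014) (nat_lit 0) (p (nat_lit 0x160004) (nat_lit 0) (p (nat_lit 0x68612) (nat_lit 0) (p (nat_lit 0x50592) (nat_lit 0) (p (nat_lit 0x40512) (nat_lit 0) (p (nat_lit 0x50312) (nat_lit 0) (p (nat_lit 0x38292) (nat_lit 0) (p (nat_lit 0x28212) (nat_lit 0) (p (nat_lit 0x38112) (nat_lit 0) (p (nat_lit 0x20092) (nat_lit 0) (p (nat_lit 0x10012)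 (nat_lit 0) pn))))))))))))))))))))))))) :=
  Cl.node (nat_lit 0xb0014) (nat_lit 2) (by decide +kernel) (ClAll.succ (ClAll.succ ClAll.zero s85) s86)

def n154 : Cl (O (nat_lit 2)) (R (nat_lit 14353))
    (p (nat_lit 0xb0004) (nat_lit 0) (p (nat_lit 0x20000c) (nat_lit 0) (p (nat_lit 0xd1) (nat_lit 1) (p (nat_lit 0x109) (nat_lit 1) (p (nat_lit 0x101) (nat_lit 0) (p (nat_lit 0x119) (nat_lit 0) (p (nat_lit 0xc9) (nat_lit 0) (p (nat_lit 0x89) (nat_lit 1) (p (nat_lit 0x41) (nat_lit 0) (p (nat_lit 0x88090887069a) (nat_lit 0) (p (nat_lit 0x87870806861a) (nat_lit 0) (p (nat_lit 0x80000000070786058a) (nat_lit 0) (p (nat_lit 0x8787058502) (nat_lit 0) (p (nat_lit 0x8586850482) (nat_lit 0) (p (nat_lit 0x160014) (nat_lit 0) (p (nat_lit 0x160004) (nat_lit 0) (p (nat_lit 0x68612) (nat_lit 0) (p (nat_lit 0x50592) (nat_lit 0) (p (nat_lit 0x40512) (nat_lit 0) (p (nat_lit 0x50312) (nat_lit 0)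 (p (nat_lit 0x38292) (nat_lit 0) (p (nat_lit 0x28212) (nat_lit 0) (p (nat_lit 0x38112) (nat_lit 0) (p (nat_lit 0x20092) (nat_lit 0) (p (nat_lit 0x10012) (nat_lit 0) pn))))))))))))))))))))))))) :=
  Cl.node (nat_lit 0xb0014) (nat_lit 2) (by decide +kernel) (ClAll.succ (ClAll.succ ClAll.zero n110) n111)

def n155 : Cl (O (nat_lit 2)) (R (nat_lit 14353))
    (p (nat_lit 0xb0004) (nat_lit 1) (p (nat_lit 0x20000c) (nat_lit 0) (p (nat_lit 0xd1) (nat_lit 1) (p (nat_lit 0x109) (nat_lit 1) (p (nat_lit 0x101) (nat_lit 0) (p (nat_lit 0x119) (nat_lit 0) (p (nat_lit 0xc9) (nat_lit 0) (p (nat_lit 0x89) (nat_lit 1) (p (nat_lit 0x41) (nat_lit 0) (p (nat_lit 0x88090887069a) (nat_lit 0) (p (nat_lit 0x87870806861a) (nat_lit 0) (p (nat_lit 0x80000000070786058a) (nat_lit 0) (p (nat_lit 0x8787058502) (nat_lit 0) (p (nat_lit 0x8586850482) (nat_lit 0) (p (nat_lit 0x160014) (nat_lit 0) (p (nat_lit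 0x160004) (nat_lit 0) (p (nat_lit 0x68612) (nat_lit 0) (p (nat_lit 0x50592) (nat_lit 0) (p (nat_lit 0x40512) (nat_lit 0) (p (nat_lit 0x50312) (nat_lit 0) (p (nat_lit 0x38292) (nat_lit 0) (p (nat_lit 0x28212) (nat_lit 0) (p (nat_lit 0x38112) (nat_lit 0) (p (nat_lit 0x20092) (nat_lit 0) (p (nat_lit 0x10012) (nat_lit 0) pn))))))))))))))))))))))))) :=
  Cl.node (nat_lit 0xb0014) (nat_lit 2) (by decide +kernel) (ClAll.succ (ClAll.succ ClAll.zero n112) s111)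

def n156 : Cl (O (nat_lit 2)) (R (nat_lit 14353))
    (p (nat_lit 0xb0004) (nat_lit 0) (p (nat_lit 0x20000c) (nat_lit 0) (p (nat_lit 0xd1) (nat_lit 0) (p (nat_lit 0xc1) (nat_lit 0) (p (nat_lit 0x101) (nat_lit 1) (p (nat_lit 0x119) (nat_lit 0) (p (nat_lit 0xc9) (nat_lit 0) (p (nat_lit 0x89) (nat_lit 1) (p (nat_lit 0x41) (nat_lit 0) (p (nat_lit 0x88090887069a) (nat_lit 0) (p (nat_lit 0x87870806861a) (nat_lit 0) (p (nat_lit 0x80000000070786058a) (nat_lit 0) (p (nat_lit 0x8787058502) (nat_lit 0) (p (nat_lit 0x8586850482) (nat_lit 0) (p (nat_lit 0x160014) (nat_lit 0) (p (nat_lit 0x160004) (nat_lit 0) (p (nat_lit 0x68612) (nat_lit 0) (p (nat_lit 0x50592) (nat_lit 0) (p (nat_lit 0x40512) (nat_lit 0) (p (nat_lit 0x50312) (nat_lit 0) (p (nat_lit 0x38292) (nat_lit 0) (p (nat_lit 0x28212) (nat_lit 0) (p (nat_lit 0x38112) (nat_lit 0) (p (nat_lit 0x20092) (nat_lit 0) (p (nat_lit 0x10012)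 (nat_lit 0) pn))))))))))))))))))))))))) :=
  Cl.node (nat_lit 0xb0014) (nat_lit 2) (by decide +kernel) (ClAll.succ (ClAll.succ ClAll.zero n113) s115)

def n157 : Cl (O (nat_lit 2)) (R (nat_lit 14353))
    (p (nat_lit 0xb0004) (nat_lit 0) (p (nat_lit 0x20000c) (nat_lit 0) (p (nat_lit 0xd1) (nat_lit 1) (p (nat_lit 0xc1) (nat_lit 0) (p (nat_lit 0x101) (nat_lit 1) (p (nat_lit 0x119) (nat_lit 0) (p (nat_lit 0xc9) (nat_lit 0) (p (nat_lit 0x89) (nat_lit 1) (p (nat_lit 0x41) (nat_lit 0) (p (nat_lit 0x88090887069a) (nat_lit 0) (p (nat_lit 0x87870806861a) (nat_lit 0) (p (nat_lit 0x80000000070786058a) (nat_lit 0) (p (nat_lit 0x8787058502) (nat_lit 0) (p (nat_lit 0x8586850482) (nat_lit 0) (p (nat_lit 0x160014) (nat_lit 0) (p (nat_lit 0x160004) (nat_lit 0) (p (nat_lit 0x68612) (nat_lit 0) (p (nat_lit 0x50592) (nat_lit 0) (p (nat_lit 0x40512) (nat_lit 0) (p (nat_lit 0x50312) (nat_lit 0)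 (p (nat_lit 0x38292) (nat_lit 0) (p (nat_lit 0x28212) (nat_lit 0) (p (nat_lit 0x38112) (nat_lit 0) (p (nat_lit 0x20092) (nat_lit 0) (p (nat_lit 0x10012) (nat_lit 0) pn))))))))))))))))))))))))) :=
  Cl.node (nat_lit 0xb0014) (nat_lit 2) (by decide +kernel) (ClAll.succ (ClAll.succ ClAll.zero n114) n115)

def n158 : Cl (O (nat_lit 2)) (R (nat_lit 14353))
    (p (nat_lit 0xb0004) (nat_lit 0) (p (nat_lit 0x20000c) (nat_lit 0) (p (nat_lit 0x111) (nat_lit 1) (p (nat_lit 0xd1) (nat_lit 1) (p (nat_lit 0xc1) (nat_lit 0) (p (nat_lit 0x119) (nat_lit 1) (p (nat_lit 0xc9) (nat_lit 0) (p (nat_lit 0x89) (nat_lit 1) (p (nat_lit 0x41) (nat_lit 0) (p (nat_lit 0x88090887069a) (nat_lit 0) (p (nat_lit 0x87870806861a) (nat_lit 0) (p (nat_lit 0x80000000070786058a) (nat_lit 0) (p (nat_lit 0x8787058502) (nat_lit 0) (p (nat_lit 0x8586850482) (nat_lit 0) (p (nat_lit 0x160014) (nat_lit 0) (p (nat_lit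 0x160004) (nat_lit 0) (p (nat_lit 0x68612) (nat_lit 0) (p (nat_lit 0x50592) (nat_lit 0) (p (nat_lit 0x40512) (nat_lit 0) (p (nat_lit 0x50312) (nat_lit 0) (p (nat_lit 0x38292) (nat_lit 0) (p (nat_lit 0x28212) (nat_lit 0) (p (nat_lit 0x38112) (nat_lit 0) (p (nat_lit 0x20092) (nat_lit 0) (p (nat_lit 0x10012) (nat_lit 0) pn))))))))))))))))))))))))) :=
  Cl.node (nat_lit 0xb0014) (nat_lit 2) (by decide +kernel) (ClAll.succ (ClAll.succ ClAll.zero s137) s138)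

def n159 : Cl (O (nat_lit 2)) (R (nat_lit 14353))
    (p (nat_lit 0xb0004) (nat_lit 0) (p (nat_lit 0x20000c) (nat_lit 0) (p (nat_lit 0x111) (nat_lit 1) (p (nat_lit 0x101) (nat_lit 0) (p (nat_lit 0xc1) (nat_lit 1) (p (nat_lit 0x119) (nat_lit 1) (p (nat_lit 0xc9) (nat_lit 0) (p (nat_lit 0x89) (nat_lit 1) (p (nat_lit 0x41) (nat_lit 0) (p (nat_lit 0x88090887069a) (nat_lit 0) (p (nat_lit 0x87870806861a) (nat_lit 0) (p (nat_lit 0x80000000070786058a) (nat_lit 0) (p (nat_lit 0x8787058502) (nat_lit 0) (p (nat_lit 0x8586850482) (nat_lit 0) (p (nat_lit 0x160014) (nat_lit 0) (p (nat_lit 0x160004) (nat_lit 0) (p (nat_lit 0x68612) (nat_lit 0) (p (nat_lit 0x50592) (nat_lit 0) (p (nat_lit 0x40512) (nat_lit 0) (p (nat_lit 0x50312) (nat_lit 0) (p (nat_lit 0x38292) (nat_lit 0) (p (nat_lit 0x28212) (nat_lit 0) (p (nat_lit 0x38112) (nat_lit 0) (p (nat_lit 0x20092) (nat_lit 0) (p (nat_lit 0x10012)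 (nat_lit 0) pn))))))))))))))))))))))))) :=
  Cl.node (nat_lit 0xb0014) (nat_lit 2) (by decide +kernel) (ClAll.succ (ClAll.succ ClAll.zero n116) n117)

def n160 : Cl (O (nat_lit 2)) (R (nat_lit 14353))
    (p (nat_lit 0x111) (nat_lit 0) (p (nat_lit 0x20000c) (nat_lit 0) (p (nat_lit 0x89) (nat_lit 0) (p (nat_lit 0x109) (nat_lit 1) (p (nat_lit 0x101) (nat_lit 0) (p (nat_lit 0x119) (nat_lit 0) (p (nat_lit 0xd1) (nat_lit 0) (p (nat_lit 0x81) (nat_lit 0) (p (nat_lit 0x41) (nat_lit 1) (p (nat_lit 0x88090887069a) (nat_lit 0) (p (nat_lit 0x87870806861a) (nat_lit 0) (p (nat_lit 0x80000000070786058a) (nat_lit 0) (p (nat_lit 0x8787058502) (nat_lit 0) (p (nat_lit 0x8586850482) (nat_lit 0) (p (nat_lit 0x160014) (nat_lit 0) (p (nat_lit 0x160004) (nat_lit 0) (p (nat_lit 0x68612) (nat_lit 0) (p (nat_lit 0x50592) (nat_lit 0) (p (nat_lit 0x40512) (nat_lit 0) (p (nat_lit 0x50312) (nat_lit 0)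 (p (nat_lit 0x38292) (nat_lit 0) (p (nat_lit 0x28212) (nat_lit 0) (p (nat_lit 0x38112) (nat_lit 0) (p (nat_lit 0x20092) (nat_lit 0) (p (nat_lit 0x10012) (nat_lit 0) pn))))))))))))))))))))))))) :=
  Cl.node (nat_lit 0xb0004) (nat_lit 2) (by decide +kernel) (ClAll.succ (ClAll.succ ClAll.zero n118) s165)

def n161 : Cl (O (nat_lit 2)) (R (nat_lit 14353))
    (p (nat_lit 0x20000c) (nat_lit 0) (p (nat_lit 0xc9) (nat_lit 0) (p (nat_lit 0x89) (nat_lit 1) (p (nat_lit 0x109) (nat_lit 1) (p (nat_lit 0x101) (nat_lit 0) (p (nat_lit 0x119) (nat_lit 0) (p (nat_lit 0xd1) (nat_lit 0) (p (nat_lit 0x81) (nat_lit 0) (p (nat_lit 0x41) (nat_lit 1) (p (nat_lit 0x88090887069a) (nat_lit 0) (p (nat_lit 0x87870806861a) (nat_lit 0) (p (nat_lit 0x80000000070786058a) (nat_lit 0) (p (nat_lit 0x8787058502) (nat_lit 0) (p (nat_lit 0x8586850482) (nat_lit 0) (p (nat_lit 0x160014) (nat_lit 0) (p (nat_lit 0x160004)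 (nat_lit 0) (p (nat_lit 0x68612) (nat_lit 0) (p (nat_lit 0x50592) (nat_lit 0) (p (nat_lit 0x40512) (nat_lit 0) (p (nat_lit 0x50312) (nat_lit 0) (p (nat_lit 0x38292) (nat_lit 0) (p (nat_lit 0x28212) (nat_lit 0) (p (nat_lit 0x38112) (nat_lit 0) (p (nat_lit 0x20092) (nat_lit 0) (p (nat_lit 0x10012) (nat_lit 0) pn))))))))))))))))))))))))) :=
  Cl.node (nat_lit 0xb0004) (nat_lit 2) (by decide +kernel) (ClAll.succ (ClAll.succ ClAll.zero n119) s174)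

def n162 : Cl (O (nat_lit 2)) (R (nat_lit 14353))
    (p (nat_lit 0x20000c) (nat_lit 0) (p (nat_lit 0xc9) (nat_lit 0) (p (nat_lit 0x89) (nat_lit 1) (p (nat_lit 0xc1) (nat_lit 0) (p (nat_lit 0x101) (nat_lit 1) (p (nat_lit 0x119) (nat_lit 0) (p (nat_lit 0xd1) (nat_lit 0) (p (nat_lit 0x81) (nat_lit 0) (p (nat_lit 0x41) (nat_lit 1) (p (nat_lit 0x88090887069a) (nat_lit 0) (p (nat_lit 0x87870806861a) (nat_lit 0) (p (nat_lit 0x80000000070786058a) (nat_lit 0) (p (nat_lit 0x8787058502) (nat_lit 0) (p (nat_lit 0x8586850482) (nat_lit 0) (p (nat_lit 0x160014) (nat_lit 0) (p (nat_lit 0x160004) (nat_lit 0) (p (nat_lit 0x68612) (nat_lit 0) (p (nat_lit 0x50592) (nat_lit 0) (p (nat_lit 0x40512) (nat_lit 0) (p (nat_lit 0x50312) (nat_lit 0) (p (nat_lit 0x38292) (nat_lit 0) (p (nat_lit 0x28212) (nat_lit 0) (p (nat_lit 0x38112) (nat_lit 0) (p (nat_lit 0x20092) (nat_lit 0) (p (nat_lit 0x10012)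 (nat_lit 0) pn))))))))))))))))))))))))) :=
  Cl.node (nat_lit 0xb0004) (nat_lit 2) (by decide +kernel) (ClAll.succ (ClAll.succ ClAll.zero n120) s186)

def n163 : Cl (O (nat_lit 2)) (R (nat_lit 14353))
    (p (nat_lit 0x20000c) (nat_lit 0) (p (nat_lit 0xc9) (nat_lit 1) (p (nat_lit 0x89) (nat_lit 1) (p (nat_lit 0xc1) (nat_lit 0) (p (nat_lit 0x101) (nat_lit 1) (p (nat_lit 0x119) (nat_lit 0) (p (nat_lit 0xd1) (nat_lit 0) (p (nat_lit 0x81) (nat_lit 0) (p (nat_lit 0x41) (nat_lit 1) (p (nat_lit 0x88090887069a) (nat_lit 0) (p (nat_lit 0x87870806861a) (nat_lit 0) (p (nat_lit 0x80000000070786058a) (nat_lit 0) (p (nat_lit 0x8787058502) (nat_lit 0) (p (nat_lit 0x8586850482) (nat_lit 0) (p (nat_lit 0x160014) (nat_lit 0) (p (nat_lit 0x160004) (nat_lit 0) (p (nat_lit 0x68612) (nat_lit 0) (p (nat_lit 0x50592) (nat_lit 0) (p (nat_lit 0x40512) (nat_lit 0) (p (nat_lit 0x50312) (nat_lit 0) (p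 (nat_lit 0x38292) (nat_lit 0) (p (nat_lit 0x28212) (nat_lit 0) (p (nat_lit 0x38112) (nat_lit 0) (p (nat_lit 0x20092) (nat_lit 0) (p (nat_lit 0x10012) (nat_lit 0) pn))))))))))))))))))))))))) :=
  Cl.node (nat_lit 0xb0004) (nat_lit 2) (by decide +kernel) (ClAll.succ (ClAll.succ ClAll.zero n121) s191)

def n164 : Cl (O (nat_lit 2)) (R (nat_lit 14353))
    (p (nat_lit 0xb0004) (nat_lit 0) (p (nat_lit 0x20000c) (nat_lit 0) (p (nat_lit 0x89) (nat_lit 1) (p (nat_lit 0xc1) (nat_lit 1) (p (nat_lit 0x101) (nat_lit 1) (p (nat_lit 0x119) (nat_lit 0) (p (nat_lit 0xd1) (nat_lit 0) (p (nat_lit 0x81) (nat_lit 0) (p (nat_lit 0x41) (nat_lit 1) (p (nat_lit 0x88090887069a) (nat_lit 0) (p (nat_lit 0x87870806861a) (nat_lit 0) (p (nat_lit 0x80000000070786058a) (nat_lit 0) (p (nat_lit 0x8787058502) (nat_lit 0) (p (nat_lit 0x8586850482) (nat_lit 0) (p (nat_lit 0x160014) (nat_lit 0) (p (nat_lit 0x160004)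 (nat_lit 0) (p (nat_lit 0x68612) (nat_lit 0) (p (nat_lit 0x50592) (nat_lit 0) (p (nat_lit 0x40512) (nat_lit 0) (p (nat_lit 0x50312) (nat_lit 0) (p (nat_lit 0x38292) (nat_lit 0) (p (nat_lit 0x28212) (nat_lit 0) (p (nat_lit 0x38112) (nat_lit 0) (p (nat_lit 0x20092) (nat_lit 0) (p (nat_lit 0x10012) (nat_lit 0) pn))))))))))))))))))))))))) :=
  Cl.node (nat_lit 0xb0014) (nat_lit 2) (by decide +kernel) (ClAll.succ (ClAll.succ ClAll.zero n122) s199)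

def n165 : Cl (O (nat_lit 2)) (R (nat_lit 14353))
    (p (nat_lit 0x20000c) (nat_lit 0) (p (nat_lit 0x109) (nat_lit 0) (p (nat_lit 0x89) (nat_lit 1) (p (nat_lit 0xc9) (nat_lit 1) (p (nat_lit 0xc1) (nat_lit 0) (p (nat_lit 0x119) (nat_lit 1) (p (nat_lit 0xd1) (nat_lit 0) (p (nat_lit 0x81) (nat_lit 0) (p (nat_lit 0x41) (nat_lit 1) (p (nat_lit 0x88090887069a) (nat_lit 0) (p (nat_lit 0x87870806861a) (nat_lit 0) (p (nat_lit 0x80000000070786058a) (nat_lit 0) (p (nat_lit 0x8787058502) (nat_lit 0) (p (nat_lit 0x8586850482) (nat_lit 0) (p (nat_lit 0x160014) (nat_lit 0) (p (nat_lit 0x160004) (nat_lit 0) (p (nat_lit 0x68612) (nat_lit 0) (p (nat_lit 0x50592) (nat_lit 0) (p (nat_lit 0x40512) (nat_lit 0) (p (nat_lit 0x50312) (nat_lit 0) (p (nat_lit 0x38292) (nat_lit 0) (p (nat_lit 0x28212) (nat_lit 0) (p (nat_lit 0x38112) (nat_lit 0) (p (nat_lit 0x20092) (nat_lit 0) (p (nat_lit 0x10012)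 (nat_lit 0) pn))))))))))))))))))))))))) :=
  Cl.node (nat_lit 0xb0004) (nat_lit 2) (by decide +kernel) (ClAll.succ (ClAll.succ ClAll.zero n123) s206)

def n166 : Cl (O (nat_lit 2)) (R (nat_lit 14353))
    (p (nat_lit 0x20000c) (nat_lit 0) (p (nat_lit 0x109) (nat_lit 1) (p (nat_lit 0x89) (nat_lit 1) (p (nat_lit 0xc9) (nat_lit 1) (p (nat_lit 0xc1) (nat_lit 0) (p (nat_lit 0x119) (nat_lit 1) (p (nat_lit 0xd1) (nat_lit 0) (p (nat_lit 0x81) (nat_lit 0) (p (nat_lit 0x41) (nat_lit 1) (p (nat_lit 0x88090887069a) (nat_lit 0) (p (nat_lit 0x87870806861a) (nat_lit 0) (p (nat_lit 0x80000000070786058a) (nat_lit 0) (p (nat_lit 0x8787058502) (nat_lit 0) (p (nat_lit 0x8586850482) (nat_lit 0) (p (nat_lit 0x160014) (nat_lit 0) (p (nat_lit 0x160004) (nat_lit 0) (p (nat_lit 0x68612) (nat_lit 0) (p (nat_lit 0x50592) (nat_lit 0) (p (nat_lit 0x40512) (nat_lit 0) (p (nat_lit 0x50312) (nat_lit 0) (p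 (nat_lit 0x38292) (nat_lit 0) (p (nat_lit 0x28212) (nat_lit 0) (p (nat_lit 0x38112) (nat_lit 0) (p (nat_lit 0x20092) (nat_lit 0) (p (nat_lit 0x10012) (nat_lit 0) pn))))))))))))))))))))))))) :=
  Cl.node (nat_lit 0xb0004) (nat_lit 2) (by decide +kernel) (ClAll.succ (ClAll.succ ClAll.zero n124) s211)

def n167 : Cl (O (nat_lit 2)) (R (nat_lit 14353))
    (p (nat_lit 0x20000c) (nat_lit 0) (p (nat_lit 0x109) (nat_lit 0) (p (nat_lit 0x89) (nat_lit 1) (p (nat_lit 0x101) (nat_lit 0) (p (nat_lit 0xc1) (nat_lit 1) (p (nat_lit 0x119) (nat_lit 1) (p (nat_lit 0xd1) (nat_lit 0) (p (nat_lit 0x81) (nat_lit 0) (p (nat_lit 0x41) (nat_lit 1) (p (nat_lit 0x88090887069a) (nat_lit 0) (p (nat_lit 0x87870806861a) (nat_lit 0) (p (nat_lit 0x80000000070786058a) (nat_lit 0) (p (nat_lit 0x8787058502) (nat_lit 0) (p (nat_lit 0x8586850482) (nat_lit 0) (p (nat_lit 0x160014) (nat_lit 0) (p (nat_lit 0x160004)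 (nat_lit 0) (p (nat_lit 0x68612) (nat_lit 0) (p (nat_lit 0x50592) (nat_lit 0) (p (nat_lit 0x40512) (nat_lit 0) (p (nat_lit 0x50312) (nat_lit 0) (p (nat_lit 0x38292) (nat_lit 0) (p (nat_lit 0x28212) (nat_lit 0) (p (nat_lit 0x38112) (nat_lit 0) (p (nat_lit 0x20092) (nat_lit 0) (p (nat_lit 0x10012) (nat_lit 0) pn))))))))))))))))))))))))) :=
  Cl.node (nat_lit 0xb0004) (nat_lit 2) (by decide +kernel) (ClAll.succ (ClAll.succ ClAll.zero n125) s217)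

def n168 : Cl (O (nat_lit 2)) (R (nat_lit 14353))
    (p (nat_lit 0x20000c) (nat_lit 0) (p (nat_lit 0x109) (nat_lit 1) (p (nat_lit 0x89) (nat_lit 1) (p (nat_lit 0x101) (nat_lit 0) (p (nat_lit 0xc1) (nat_lit 1) (p (nat_lit 0x119) (nat_lit 1) (p (nat_lit 0xd1) (nat_lit 0) (p (nat_lit 0x81) (nat_lit 0) (p (nat_lit 0x41) (nat_lit 1) (p (nat_lit 0x88090887069a) (nat_lit 0) (p (nat_lit 0x87870806861a) (nat_lit 0) (p (nat_lit 0x80000000070786058a) (nat_lit 0) (p (nat_lit 0x8787058502) (nat_lit 0) (p (nat_lit 0x8586850482) (nat_lit 0) (p (nat_lit 0x160014) (nat_lit 0) (p (nat_lit 0x160004) (nat_lit 0) (p (nat_lit 0x68612) (nat_lit 0) (p (nat_lit 0x50592) (nat_lit 0) (p (nat_lit 0x40512) (nat_lit 0) (p (nat_lit 0x50312) (nat_lit 0) (p (nat_lit 0x38292) (nat_lit 0) (p (nat_lit 0x28212) (nat_lit 0) (p (nat_lit 0x38112) (nat_lit 0) (p (nat_lit 0x20092) (nat_lit 0) (p (nat_lit 0x10012)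 (nat_lit 0) pn))))))))))))))))))))))))) :=
  Cl.node (nat_lit 0xb0004) (nat_lit 2) (by decide +kernel) (ClAll.succ (ClAll.succ ClAll.zero n126) s224)

def n169 : Cl (O (nat_lit 2)) (R (nat_lit 14353))
    (p (nat_lit 0xb0004) (nat_lit 0) (p (nat_lit 0x20000c) (nat_lit 0) (p (nat_lit 0x89) (nat_lit 1) (p (nat_lit 0x101) (nat_lit 1) (p (nat_lit 0xc1) (nat_lit 1) (p (nat_lit 0x119) (nat_lit 1) (p (nat_lit 0xd1) (nat_lit 0) (p (nat_lit 0x81) (nat_lit 0) (p (nat_lit 0x41) (nat_lit 1) (p (nat_lit 0x88090887069a) (nat_lit 0) (p (nat_lit 0x87870806861a) (nat_lit 0) (p (nat_lit 0x80000000070786058a) (nat_lit 0) (p (nat_lit 0x8787058502) (nat_lit 0) (p (nat_lit 0x8586850482) (nat_lit 0) (p (nat_lit 0x160014) (nat_lit 0) (p (nat_lit 0x160004) (nat_lit 0) (p (nat_lit 0x68612) (nat_lit 0) (p (nat_lit 0x50592) (nat_lit 0) (p (nat_lit 0x40512) (nat_lit 0) (p (nat_lit 0x50312) (nat_lit 0)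 (p (nat_lit 0x38292) (nat_lit 0) (p (nat_lit 0x28212) (nat_lit 0) (p (nat_lit 0x38112) (nat_lit 0) (p (nat_lit 0x20092) (nat_lit 0) (p (nat_lit 0x10012) (nat_lit 0) pn))))))))))))))))))))))))) :=
  Cl.node (nat_lit 0xb0014) (nat_lit 2) (by decide +kernel) (ClAll.succ (ClAll.succ ClAll.zero n127) s233)

def n170 : Cl (O (nat_lit 2)) (R (nat_lit 14353))
    (p (nat_lit 0x20000c) (nat_lit 0) (p (nat_lit 0xc9) (nat_lit 0) (p (nat_lit 0x89) (nat_lit 1) (p (nat_lit 0x109) (nat_lit 1) (p (nat_lit 0x101) (nat_lit 0) (p (nat_lit 0x111) (nat_lit 0) (p (nat_lit 0xd1) (nat_lit 1) (p (nat_lit 0x81) (nat_lit 0) (p (nat_lit 0x41) (nat_lit 1) (p (nat_lit 0x88090887069a) (nat_lit 0) (p (nat_lit 0x87870806861a) (nat_lit 0) (p (nat_lit 0x80000000070786058a) (nat_lit 0) (p (nat_lit 0x8787058502) (nat_lit 0) (p (nat_lit 0x8586850482) (nat_lit 0) (p (nat_lit 0x160014) (nat_lit 0) (p (nat_lit 0x160004)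 (nat_lit 0) (p (nat_lit 0x68612) (nat_lit 0) (p (nat_lit 0x50592) (nat_lit 0) (p (nat_lit 0x40512) (nat_lit 0) (p (nat_lit 0x50312) (nat_lit 0) (p (nat_lit 0x38292) (nat_lit 0) (p (nat_lit 0x28212) (nat_lit 0) (p (nat_lit 0x38112) (nat_lit 0) (p (nat_lit 0x20092) (nat_lit 0) (p (nat_lit 0x10012) (nat_lit 0) pn))))))))))))))))))))))))) :=
  Cl.node (nat_lit 0x119) (nat_lit 2) (by decide +kernel) (ClAll.succ (ClAll.succ ClAll.zero n128) n129)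

def n171 : Cl (O (nat_lit 2)) (R (nat_lit 14353))
    (p (nat_lit 0xb0014) (nat_lit 0) (p (nat_lit 0xb0004) (nat_lit 0) (p (nat_lit 0x20000c) (nat_lit 0) (p (nat_lit 0x89) (nat_lit 0) (p (nat_lit 0x101) (nat_lit 1) (p (nat_lit 0x111) (nat_lit 0) (p (nat_lit 0xd1) (nat_lit 1) (p (nat_lit 0x81) (nat_lit 0) (p (nat_lit 0x41) (nat_lit 1) (p (nat_lit 0x88090887069a) (nat_lit 0) (p (nat_lit 0x87870806861a) (nat_lit 0) (p (nat_lit 0x80000000070786058a) (nat_lit 0) (p (nat_lit 0x8787058502) (nat_lit 0) (p (nat_lit 0x8586850482) (nat_lit 0) (p (nat_lit 0x160014) (nat_lit 0) (p (nat_lit 0x160004) (nat_lit 0) (p (nat_lit 0x68612) (nat_lit 0) (p (nat_lit 0x50592) (nat_lit 0) (p (nat_lit 0x40512) (nat_lit 0) (p (nat_lit 0x50312) (nat_lit 0) (p (nat_lit 0x38292) (nat_lit 0) (p (nat_lit 0x28212) (nat_lit 0) (p (nat_lit 0x38112) (nat_lit 0) (p (nat_lit 0x20092) (nat_lit 0) (p (nat_lit 0x10012)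 (nat_lit 0) pn))))))))))))))))))))))))) :=
  Cl.node (nat_lit 0x119) (nat_lit 2) (by decide +kernel) (ClAll.succ (ClAll.succ ClAll.zero s247) n130)

def n172 : Cl (O (nat_lit 2)) (R (nat_lit 14353))
    (p (nat_lit 0xb0004) (nat_lit 0) (p (nat_lit 0x20000c) (nat_lit 0) (p (nat_lit 0xc9) (nat_lit 0) (p (nat_lit 0x89) (nat_lit 1) (p (nat_lit 0x101) (nat_lit 1) (p (nat_lit 0x111) (nat_lit 0) (p (nat_lit 0xd1) (nat_lit 1) (p (nat_lit 0x81) (nat_lit 0) (p (nat_lit 0x41) (nat_lit 1) (p (nat_lit 0x88090887069a) (nat_lit 0) (p (nat_lit 0x87870806861a) (nat_lit 0) (p (nat_lit 0x80000000070786058a) (nat_lit 0) (p (nat_lit 0x8787058502) (nat_lit 0) (p (nat_lit 0x8586850482) (nat_lit 0) (p (nat_lit 0x160014) (nat_lit 0) (p (nat_lit 0x160004) (nat_lit 0) (p (nat_lit 0x68612) (nat_lit 0) (p (nat_lit 0x50592) (nat_lit 0) (p (nat_lit 0x40512) (nat_lit 0) (p (nat_lit 0x50312) (nat_lit 0)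 (p (nat_lit 0x38292) (nat_lit 0) (p (nat_lit 0x28212) (nat_lit 0) (p (nat_lit 0x38112) (nat_lit 0) (p (nat_lit 0x20092) (nat_lit 0) (p (nat_lit 0x10012) (nat_lit 0) pn))))))))))))))))))))))))) :=
  Cl.node (nat_lit 0xb0014) (nat_lit 2) (by decide +kernel) (ClAll.succ (ClAll.succ ClAll.zero n131) s257)

def n173 : Cl (O (nat_lit 2)) (R (nat_lit 14353))
    (p (nat_lit 0xb0004) (nat_lit 1) (p (nat_lit 0x20000c) (nat_lit 0) (p (nat_lit 0xc9) (nat_lit 0) (p (nat_lit 0x89) (nat_lit 1) (p (nat_lit 0x101) (nat_lit 1) (p (nat_lit 0x111) (nat_lit 0) (p (nat_lit 0xd1) (nat_lit 1) (p (nat_lit 0x81) (nat_lit 0) (p (nat_lit 0x41) (nat_lit 1) (p (nat_lit 0x88090887069a) (nat_lit 0) (p (nat_lit 0x87870806861a) (nat_lit 0) (p (nat_lit 0x80000000070786058a) (nat_lit 0) (p (nat_lit 0x8787058502) (nat_lit 0) (p (nat_lit 0x8586850482) (nat_lit 0) (p (nat_lit 0x160014) (nat_lit 0) (p (nat_lit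 0x160004) (nat_lit 0) (p (nat_lit 0x68612) (nat_lit 0) (p (nat_lit 0x50592) (nat_lit 0) (p (nat_lit 0x40512) (nat_lit 0) (p (nat_lit 0x50312) (nat_lit 0) (p (nat_lit 0x38292) (nat_lit 0) (p (nat_lit 0x28212) (nat_lit 0) (p (nat_lit 0x38112) (nat_lit 0) (p (nat_lit 0x20092) (nat_lit 0) (p (nat_lit 0x10012) (nat_lit 0) pn))))))))))))))))))))))))) :=
  Cl.node (nat_lit 0xb0014) (nat_lit 2) (by decide +kernel) (ClAll.succ (ClAll.succ ClAll.zero n132) s260)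

def n174 : Cl (O (nat_lit 2)) (R (nat_lit 14353))
    (p (nat_lit 0xb0004) (nat_lit 0) (p (nat_lit 0x20000c) (nat_lit 1) (p (nat_lit 0xc9) (nat_lit 0) (p (nat_lit 0x89) (nat_lit 1) (p (nat_lit 0x101) (nat_lit 1) (p (nat_lit 0x111) (nat_lit 0) (p (nat_lit 0xd1) (nat_lit 1) (p (nat_lit 0x81) (nat_lit 0) (p (nat_lit 0x41) (nat_lit 1) (p (nat_lit 0x88090887069a) (nat_lit 0) (p (nat_lit 0x87870806861a) (nat_lit 0) (p (nat_lit 0x80000000070786058a) (nat_lit 0) (p (nat_lit 0x8787058502) (nat_lit 0) (p (nat_lit 0x8586850482) (nat_lit 0) (p (nat_lit 0x160014) (nat_lit 0) (p (nat_lit 0x160004) (nat_lit 0) (p (nat_lit 0x68612) (nat_lit 0) (p (nat_lit 0x50592) (nat_lit 0) (p (nat_lit 0x40512) (nat_lit 0) (p (nat_lit 0x50312) (nat_lit 0) (p (nat_lit 0x38292) (nat_lit 0) (p (nat_lit 0x28212) (nat_lit 0) (p (nat_lit 0x38112) (nat_lit 0) (p (nat_lit 0x20092) (nat_lit 0) (p (nat_lit 0x10012)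 (nat_lit 0) pn))))))))))))))))))))))))) :=
  Cl.node (nat_lit 0xb0014) (nat_lit 2) (by decide +kernel) (ClAll.succ (ClAll.succ ClAll.zero n133) s263)

def n175 : Cl (O (nat_lit 2)) (R (nat_lit 14353))
    (p (nat_lit 0xb0004) (nat_lit 0) (p (nat_lit 0x20000c) (nat_lit 0) (p (nat_lit 0x109) (nat_lit 0) (p (nat_lit 0xc9) (nat_lit 1) (p (nat_lit 0x89) (nat_lit 1) (p (nat_lit 0x111) (nat_lit 1) (p (nat_lit 0xd1) (nat_lit 1) (p (nat_lit 0x81) (nat_lit 0) (p (nat_lit 0x41) (nat_lit 1) (p (nat_lit 0x88090887069a) (nat_lit 0) (p (nat_lit 0x87870806861a) (nat_lit 0) (p (nat_lit 0x80000000070786058a) (nat_lit 0) (p (nat_lit 0x8787058502) (nat_lit 0) (p (nat_lit 0x8586850482) (nat_lit 0) (p (nat_lit 0x160014) (nat_lit 0) (p (nat_lit 0x160004) (nat_lit 0) (p (nat_lit 0x68612) (nat_lit 0) (p (nat_lit 0x50592) (nat_lit 0) (p (nat_lit 0x40512) (nat_lit 0) (p (nat_lit 0x50312) (nat_lit 0)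 (p (nat_lit 0x38292) (nat_lit 0) (p (nat_lit 0x28212) (nat_lit 0) (p (nat_lit 0x38112) (nat_lit 0) (p (nat_lit 0x20092) (nat_lit 0) (p (nat_lit 0x10012) (nat_lit 0) pn))))))))))))))))))))))))) :=
  Cl.node (nat_lit 0xb0014) (nat_lit 2) (by decide +kernel) (ClAll.succ (ClAll.succ ClAll.zero n134) s272)

def n176 : Cl (O (nat_lit 2)) (R (nat_lit 14353))
    (p (nat_lit 0x20000c) (nat_lit 0) (p (nat_lit 0xd1) (nat_lit 1) (p (nat_lit 0x111) (nat_lit 1) (p (nat_lit 0x109) (nat_lit 0) (p (nat_lit 0x101) (nat_lit 0) (p (nat_lit 0x119) (nat_lit 0) (p (nat_lit 0xc1) (nat_lit 0) (p (nat_lit 0x81) (nat_lit 1) (p (nat_lit 0x41) (nat_lit 1) (p (nat_lit 0x88090887069a) (nat_lit 0) (p (nat_lit 0x87870806861a) (nat_lit 0) (p (nat_lit 0x80000000070786058a) (nat_lit 0) (p (nat_lit 0x8787058502) (nat_lit 0) (p (nat_lit 0x8586850482) (nat_lit 0) (p (nat_lit 0x160014) (nat_lit 0) (p (nat_lit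 0x160004) (nat_lit 0) (p (nat_lit 0x68612) (nat_lit 0) (p (nat_lit 0x50592) (nat_lit 0) (p (nat_lit 0x40512) (nat_lit 0) (p (nat_lit 0x50312) (nat_lit 0) (p (nat_lit 0x38292) (nat_lit 0) (p (nat_lit 0x28212) (nat_lit 0) (p (nat_lit 0x38112) (nat_lit 0) (p (nat_lit 0x20092) (nat_lit 0) (p (nat_lit 0x10012) (nat_lit 0) pn))))))))))))))))))))))))) :=
  Cl.node (nat_lit 0xb0004) (nat_lit 2) (by decide +kernel) (ClAll.succ (ClAll.succ ClAll.zero s278) s279)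

def n177 : Cl (O (nat_lit 2)) (R (nat_lit 14353))
    (p (nat_lit 0x20000c) (nat_lit 0) (p (nat_lit 0xd1) (nat_lit 1) (p (nat_lit 0xc9) (nat_lit 0) (p (nat_lit 0x109) (nat_lit 1) (p (nat_lit 0x101) (nat_lit 0) (p (nat_lit 0x119) (nat_lit 0) (p (nat_lit 0xc1) (nat_lit 0) (p (nat_lit 0x81) (nat_lit 1) (p (nat_lit 0x41) (nat_lit 1) (p (nat_lit 0x88090887069a) (nat_lit 0) (p (nat_lit 0x87870806861a) (nat_lit 0) (p (nat_lit 0x80000000070786058a) (nat_lit 0) (p (nat_lit 0x8787058502) (nat_lit 0) (p (nat_lit 0x8586850482) (nat_lit 0) (p (nat_lit 0x160014) (nat_lit 0) (p (nat_lit 0x160004) (nat_lit 0) (p (nat_lit 0x68612) (nat_lit 0) (p (nat_lit 0x50592) (nat_lit 0) (p (nat_lit 0x40512) (nat_lit 0) (p (nat_lit 0x50312) (nat_lit 0) (p (nat_lit 0x38292) (nat_lit 0) (p (nat_lit 0x28212) (nat_lit 0) (p (nat_lit 0x38112) (nat_lit 0) (p (nat_lit 0x20092) (nat_lit 0) (p (nat_lit 0x10012)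 (nat_lit 0) pn))))))))))))))))))))))))) :=
  Cl.node (nat_lit 0xb0004) (nat_lit 2) (by decide +kernel) (ClAll.succ (ClAll.succ ClAll.zero s282) s283)

def n178 : Cl (O (nat_lit 2)) (R (nat_lit 14353))
    (p (nat_lit 0xb0004) (nat_lit 0) (p (nat_lit 0x20000c) (nat_lit 0) (p (nat_lit 0xd1) (nat_lit 0) (p (nat_lit 0xc9) (nat_lit 0) (p (nat_lit 0x101) (nat_lit 1) (p (nat_lit 0x119) (nat_lit 0) (p (nat_lit 0xc1) (nat_lit 0) (p (nat_lit 0x81) (nat_lit 1) (p (nat_lit 0x41) (nat_lit 1) (p (nat_lit 0x88090887069a) (nat_lit 0) (p (nat_lit 0x87870806861a) (nat_lit 0) (p (nat_lit 0x80000000070786058a) (nat_lit 0) (p (nat_lit 0x8787058502) (nat_lit 0) (p (nat_lit 0x8586850482) (nat_lit 0) (p (nat_lit 0x160014) (nat_lit 0) (p (nat_lit 0x160004) (nat_lit 0) (p (nat_lit 0x68612) (nat_lit 0) (p (nat_lit 0x50592) (nat_lit 0) (p (nat_lit 0x40512) (nat_lit 0) (p (nat_lit 0x50312) (nat_lit 0)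 (p (nat_lit 0x38292) (nat_lit 0) (p (nat_lit 0x28212) (nat_lit 0) (p (nat_lit 0x38112) (nat_lit 0) (p (nat_lit 0x20092) (nat_lit 0) (p (nat_lit 0x10012) (nat_lit 0) pn))))))))))))))))))))))))) :=
  Cl.node (nat_lit 0xb0014) (nat_lit 2) (by decide +kernel) (ClAll.succ (ClAll.succ ClAll.zero s286) s287)

def n179 : Cl (O (nat_lit 2)) (R (nat_lit 14353))
    (p (nat_lit 0xb0004) (nat_lit 0) (p (nat_lit 0x20000c) (nat_lit 0) (p (nat_lit 0xd1) (nat_lit 1) (p (nat_lit 0xc9) (nat_lit 0) (p (nat_lit 0x101) (nat_lit 1) (p (nat_lit 0x119) (nat_lit 0) (p (nat_lit 0xc1) (nat_lit 0) (p (nat_lit 0x81) (nat_lit 1) (p (nat_lit 0x41) (nat_lit 1) (p (nat_lit 0x88090887069a) (nat_lit 0) (p (nat_lit 0x87870806861a) (nat_lit 0) (p (nat_lit 0x80000000070786058a) (nat_lit 0) (p (nat_lit 0x8787058502) (nat_lit 0) (p (nat_lit 0x8586850482) (nat_lit 0) (p (nat_lit 0x160014) (nat_lit 0) (p (nat_lit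 0x160004) (nat_lit 0) (p (nat_lit 0x68612) (nat_lit 0) (p (nat_lit 0x50592) (nat_lit 0) (p (nat_lit 0x40512) (nat_lit 0) (p (nat_lit 0x50312) (nat_lit 0) (p (nat_lit 0x38292) (nat_lit 0) (p (nat_lit 0x28212) (nat_lit 0) (p (nat_lit 0x38112) (nat_lit 0) (p (nat_lit 0x20092) (nat_lit 0) (p (nat_lit 0x10012) (nat_lit 0) pn))))))))))))))))))))))))) :=
  Cl.node (nat_lit 0xb0014) (nat_lit 2) (by decide +kernel) (ClAll.succ (ClAll.succ ClAll.zero n135) s301)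

def n180 : Cl (O (nat_lit 2)) (R (nat_lit 14353))
    (p (nat_lit 0xb0004) (nat_lit 0) (p (nat_lit 0x20000c) (nat_lit 0) (p (nat_lit 0x111) (nat_lit 1) (p (nat_lit 0xd1) (nat_lit 1) (p (nat_lit 0xc9) (nat_lit 0) (p (nat_lit 0x119) (nat_lit 1) (p (nat_lit 0xc1) (nat_lit 0) (p (nat_lit 0x81) (nat_lit 1) (p (nat_lit 0x41) (nat_lit 1) (p (nat_lit 0x88090887069a) (nat_lit 0) (p (nat_lit 0x87870806861a) (nat_lit 0) (p (nat_lit 0x80000000070786058a) (nat_lit 0) (p (nat_lit 0x8787058502) (nat_lit 0) (p (nat_lit 0x8586850482) (nat_lit 0) (p (nat_lit 0x160014) (nat_lit 0) (p (nat_lit 0x160004) (nat_lit 0) (p (nat_lit 0x68612) (nat_lit 0) (p (nat_lit 0x50592) (nat_lit 0) (p (nat_lit 0x40512) (nat_lit 0) (p (nat_lit 0x50312) (nat_lit 0) (p (nat_lit 0x38292) (nat_lit 0) (p (nat_lit 0x28212) (nat_lit 0) (p (nat_lit 0x38112) (nat_lit 0) (p (nat_lit 0x20092) (nat_lit 0) (p (nat_lit 0x10012)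 (nat_lit 0) pn))))))))))))))))))))))))) :=
  Cl.node (nat_lit 0xb0014) (nat_lit 2) (by decide +kernel) (ClAll.succ (ClAll.succ ClAll.zero n136) s311)

def n181 : Cl (O (nat_lit 2)) (R (nat_lit 14353))
    (p (nat_lit 0xb0004) (nat_lit 0) (p (nat_lit 0x20000c) (nat_lit 0) (p (nat_lit 0x111) (nat_lit 0) (p (nat_lit 0x109) (nat_lit 0) (p (nat_lit 0xc9) (nat_lit 1) (p (nat_lit 0x119) (nat_lit 1) (p (nat_lit 0xc1) (nat_lit 0) (p (nat_lit 0x81) (nat_lit 1) (p (nat_lit 0x41) (nat_lit 1) (p (nat_lit 0x88090887069a) (nat_lit 0) (p (nat_lit 0x87870806861a) (nat_lit 0) (p (nat_lit 0x80000000070786058a) (nat_lit 0) (p (nat_lit 0x8787058502) (nat_lit 0) (p (nat_lit 0x8586850482) (nat_lit 0) (p (nat_lit 0x160014) (nat_lit 0) (p (nat_lit 0x160004) (nat_lit 0) (p (nat_lit 0x68612) (nat_lit 0) (p (nat_lit 0x50592) (nat_lit 0) (p (nat_lit 0x40512) (nat_lit 0) (p (nat_lit 0x50312) (nat_lit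 0) (p (nat_lit 0x38292) (nat_lit 0) (p (nat_lit 0x28212) (nat_lit 0) (p (nat_lit 0x38112) (nat_lit 0) (p (nat_lit 0x20092) (nat_lit 0) (p (nat_lit 0x10012) (nat_lit 0) pn))))))))))))))))))))))))) :=
  Cl.node (nat_lit 0xb0014) (nat_lit 2) (by decide +kernel) (ClAll.succ (ClAll.succ ClAll.zero n137) s317)

def n182 : Cl (O (nat_lit 2)) (R (nat_lit 14353))
    (p (nat_lit 0xb0004) (nat_lit 0) (p (nat_lit 0x20000c) (nat_lit 0) (p (nat_lit 0x111) (nat_lit 1) (p (nat_lit 0x109) (nat_lit 0) (p (nat_lit 0xc9) (nat_lit 1) (p (nat_lit 0x119) (nat_lit 1) (p (nat_lit 0xc1) (nat_lit 0) (p (nat_lit 0x81) (nat_lit 1) (p (nat_lit 0x41) (nat_lit 1) (p (nat_lit 0x88090887069a) (nat_lit 0) (p (nat_lit 0x87870806861a) (nat_lit 0) (p (nat_lit 0x80000000070786058a) (nat_lit 0) (p (nat_lit 0x8787058502) (nat_lit 0) (p (nat_lit 0x8586850482) (nat_lit 0) (p (nat_lit 0x160014) (nat_lit 0) (p (nat_lit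 0x160004) (nat_lit 0) (p (nat_lit 0x68612) (nat_lit 0) (p (nat_lit 0x50592) (nat_lit 0) (p (nat_lit 0x40512) (nat_lit 0) (p (nat_lit 0x50312) (nat_lit 0) (p (nat_lit 0x38292) (nat_lit 0) (p (nat_lit 0x28212) (nat_lit 0) (p (nat_lit 0x38112) (nat_lit 0) (p (nat_lit 0x20092) (nat_lit 0) (p (nat_lit 0x10012) (nat_lit 0) pn))))))))))))))))))))))))) :=
  Cl.node (nat_lit 0xb0014) (nat_lit 2) (by decide +kernel) (ClAll.succ (ClAll.succ ClAll.zero n138) n139)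

def n183 : Cl (O (nat_lit 2)) (R (nat_lit 14353))
    (p (nat_lit 0x20000c) (nat_lit 0) (p (nat_lit 0xc9) (nat_lit 1) (p (nat_lit 0x109) (nat_lit 1) (p (nat_lit 0x101) (nat_lit 0) (p (nat_lit 0x119) (nat_lit 0) (p (nat_lit 0xd1) (nat_lit 0) (p (nat_lit 0x89) (nat_lit 0) (p (nat_lit 0x41) (nat_lit 0) (p (nat_lit 0x88090887069a) (nat_lit 0) (p (nat_lit 0x87870806861a) (nat_lit 0) (p (nat_lit 0x80000000070786058a) (nat_lit 0) (p (nat_lit 0x8787058502) (nat_lit 0) (p (nat_lit 0x8586850482) (nat_lit 0) (p (nat_lit 0x160014) (nat_lit 0) (p (nat_lit 0x160004) (nat_lit 0) (p (nat_lit 0x68612) (nat_lit 0) (p (nat_lit 0x50592) (nat_lit 0) (p (nat_lit 0x40512) (nat_lit 0) (p (nat_lit 0x50312) (nat_lit 0) (p (nat_lit 0x38292) (nat_lit 0) (p (nat_lit 0x28212) (nat_lit 0) (p (nat_lit 0x38112) (nat_lit 0) (p (nat_lit 0x20092) (nat_lit 0) (p (nat_lit 0x10012) (nat_lit 0) pn))))))))))))))))))))))))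 :=
  Cl.node (nat_lit 0x81) (nat_lit 2) (by decide +kernel) (ClAll.succ (ClAll.succ ClAll.zero s2) n140)

def n184 : Cl (O (nat_lit 2)) (R (nat_lit 14353))
    (p (nat_lit 0x20000c) (nat_lit 0) (p (nat_lit 0xc9) (nat_lit 0) (p (nat_lit 0x81) (nat_lit 0) (p (nat_lit 0x101) (nat_lit 1) (p (nat_lit 0x119) (nat_lit 0) (p (nat_lit 0xd1) (nat_lit 0) (p (nat_lit 0x89) (nat_lit 0) (p (nat_lit 0x41) (nat_lit 0) (p (nat_lit 0x88090887069a) (nat_lit 0) (p (nat_lit 0x87870806861a) (nat_lit 0) (p (nat_lit 0x80000000070786058a) (nat_lit 0) (p (nat_lit 0x8787058502) (nat_lit 0) (p (nat_lit 0x8586850482) (nat_lit 0) (p (nat_lit 0x160014) (nat_lit 0) (p (nat_lit 0x160004) (nat_lit 0) (p (nat_lit 0x68612) (nat_lit 0) (p (nat_lit 0x50592) (nat_lit 0) (p (nat_lit 0x40512) (nat_lit 0) (p (nat_lit 0x50312) (nat_lit 0) (p (nat_lit 0x38292) (nat_lit 0) (p (nat_lit 0x28212) (nat_lit 0) (p (nat_lit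 0x38112) (nat_lit 0) (p (nat_lit 0x20092) (nat_lit 0) (p (nat_lit 0x10012) (nat_lit 0) pn)))))))))))))))))))))))) :=
  Cl.node (nat_lit 0x111) (nat_lit 2) (by decide +kernel) (ClAll.succ (ClAll.succ ClAll.zero n141) s12)

def n185 : Cl (O (nat_lit 2)) (R (nat_lit 14353))
    (p (nat_lit 0x20000c) (nat_lit 0) (p (nat_lit 0xc9) (nat_lit 1) (p (nat_lit 0x81) (nat_lit 0) (p (nat_lit 0x101) (nat_lit 1) (p (nat_lit 0x119) (nat_lit 0) (p (nat_lit 0xd1) (nat_lit 0) (p (nat_lit 0x89) (nat_lit 0) (p (nat_lit 0x41) (nat_lit 0) (p (nat_lit 0x88090887069a) (nat_lit 0) (p (nat_lit 0x87870806861a) (nat_lit 0) (p (nat_lit 0x80000000070786058a) (nat_lit 0) (p (nat_lit 0x8787058502) (nat_lit 0) (p (nat_lit 0x8586850482) (nat_lit 0) (p (nat_lit 0x160014) (nat_lit 0) (p (nat_lit 0x160004) (nat_lit 0) (p (nat_lit 0x68612) (nat_lit 0) (p (nat_lit 0x50592) (nat_lit 0) (p (nat_lit 0x40512) (nat_lit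 0) (p (nat_lit 0x50312) (nat_lit 0) (p (nat_lit 0x38292) (nat_lit 0) (p (nat_lit 0x28212) (nat_lit 0) (p (nat_lit 0x38112) (nat_lit 0) (p (nat_lit 0x20092) (nat_lit 0) (p (nat_lit 0x10012) (nat_lit 0) pn)))))))))))))))))))))))) :=
  Cl.node (nat_lit 0x111) (nat_lit 2) (by decide +kernel) (ClAll.succ (ClAll.succ ClAll.zero n142) s20)

def n186 : Cl (O (nat_lit 2)) (R (nat_lit 14353))
    (p (nat_lit 0xc9) (nat_lit 0) (p (nat_lit 0xc1) (nat_lit 0) (p (nat_lit 0x81) (nat_lit 1) (p (nat_lit 0x101) (nat_lit 1) (p (nat_lit 0x119) (nat_lit 0) (p (nat_lit 0xd1) (nat_lit 0) (p (nat_lit 0x89) (nat_lit 0) (p (nat_lit 0x41) (nat_lit 0) (p (nat_lit 0x88090887069a) (nat_lit 0) (p (nat_lit 0x87870806861a) (nat_lit 0) (p (nat_lit 0x80000000070786058a) (nat_lit 0) (p (nat_lit 0x8787058502) (nat_lit 0) (p (nat_lit 0x8586850482) (nat_lit 0) (p (nat_lit 0x160014) (nat_lit 0) (p (nat_lit 0x160004)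 (nat_lit 0) (p (nat_lit 0x68612) (nat_lit 0) (p (nat_lit 0x50592) (nat_lit 0) (p (nat_lit 0x40512) (nat_lit 0) (p (nat_lit 0x50312) (nat_lit 0) (p (nat_lit 0x38292) (nat_lit 0) (p (nat_lit 0x28212) (nat_lit 0) (p (nat_lit 0x38112) (nat_lit 0) (p (nat_lit 0x20092) (nat_lit 0) (p (nat_lit 0x10012) (nat_lit 0) pn)))))))))))))))))))))))) :=
  Cl.node (nat_lit 0x20000c) (nat_lit 2) (by decide +kernel) (ClAll.succ (ClAll.succ ClAll.zero n143) s28)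

def n187 : Cl (O (nat_lit 2)) (R (nat_lit 14353))
    (p (nat_lit 0xc9) (nat_lit 1) (p (nat_lit 0xc1) (nat_lit 0) (p (nat_lit 0x81) (nat_lit 1) (p (nat_lit 0x101) (nat_lit 1) (p (nat_lit 0x119) (nat_lit 0) (p (nat_lit 0xd1) (nat_lit 0) (p (nat_lit 0x89) (nat_lit 0) (p (nat_lit 0x41) (nat_lit 0) (p (nat_lit 0x88090887069a) (nat_lit 0) (p (nat_lit 0x87870806861a) (nat_lit 0) (p (nat_lit 0x80000000070786058a) (nat_lit 0) (p (nat_lit 0x8787058502) (nat_lit 0) (p (nat_lit 0x8586850482) (nat_lit 0) (p (nat_lit 0x160014) (nat_lit 0) (p (nat_lit 0x160004) (nat_lit 0) (p (nat_lit 0x68612) (nat_lit 0) (p (nat_lit 0x50592) (nat_lit 0) (p (nat_lit 0x40512) (nat_lit 0) (p (nat_lit 0x50312) (nat_lit 0) (p (nat_lit 0x38292) (nat_lit 0) (p (nat_lit 0x28212) (nat_lit 0) (p (nat_lit 0x38112) (nat_lit 0) (p (nat_lit 0x20092) (nat_lit 0) (p (nat_lit 0x10012) (nat_lit 0) pn))))))))))))))))))))))))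 :=
  Cl.node (nat_lit 0x20000c) (nat_lit 2) (by decide +kernel) (ClAll.succ (ClAll.succ ClAll.zero n144) s33)

def n188 : Cl (O (nat_lit 2)) (R (nat_lit 14353))
    (p (nat_lit 0x20000c) (nat_lit 0) (p (nat_lit 0x109) (nat_lit 1) (p (nat_lit 0xc9) (nat_lit 1) (p (nat_lit 0xc1) (nat_lit 0) (p (nat_lit 0x119) (nat_lit 1) (p (nat_lit 0xd1) (nat_lit 0) (p (nat_lit 0x89) (nat_lit 0) (p (nat_lit 0x41) (nat_lit 0) (p (nat_lit 0x88090887069a) (nat_lit 0) (p (nat_lit 0x87870806861a) (nat_lit 0) (p (nat_lit 0x80000000070786058a) (nat_lit 0) (p (nat_lit 0x8787058502) (nat_lit 0) (p (nat_lit 0x8586850482) (nat_lit 0) (p (nat_lit 0x160014) (nat_lit 0) (p (nat_lit 0x160004) (nat_lit 0) (p (nat_lit 0x68612) (nat_lit 0) (p (nat_lit 0x50592) (nat_lit 0) (p (nat_lit 0x40512) (nat_lit 0) (p (nat_lit 0x50312) (nat_lit 0) (p (nat_lit 0x38292) (nat_lit 0) (p (nat_lit 0x28212) (nat_lit 0) (p (nat_lit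 0x38112) (nat_lit 0) (p (nat_lit 0x20092) (nat_lit 0) (p (nat_lit 0x10012) (nat_lit 0) pn)))))))))))))))))))))))) :=
  Cl.node (nat_lit 0xb0004) (nat_lit 2) (by decide +kernel) (ClAll.succ (ClAll.succ ClAll.zero s37) s38)

def n189 : Cl (O (nat_lit 2)) (R (nat_lit 14353))
    (p (nat_lit 0x109) (nat_lit 0) (p (nat_lit 0x101) (nat_lit 0) (p (nat_lit 0x81) (nat_lit 1) (p (nat_lit 0xc1) (nat_lit 1) (p (nat_lit 0x119) (nat_lit 1) (p (nat_lit 0xd1) (nat_lit 0) (p (nat_lit 0x89) (nat_lit 0) (p (nat_lit 0x41) (nat_lit 0) (p (nat_lit 0x88090887069a) (nat_lit 0) (p (nat_lit 0x87870806861a) (nat_lit 0) (p (nat_lit 0x80000000070786058a) (nat_lit 0) (p (nat_lit 0x8787058502) (nat_lit 0) (p (nat_lit 0x8586850482) (nat_lit 0) (p (nat_lit 0x160014) (nat_lit 0) (p (nat_lit 0x160004) (nat_lit 0) (p (nat_lit 0x68612) (nat_lit 0) (p (nat_lit 0x50592) (nat_lit 0) (p (nat_lit 0x40512) (nat_lit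 0) (p (nat_lit 0x50312) (nat_lit 0) (p (nat_lit 0x38292) (nat_lit 0) (p (nat_lit 0x28212) (nat_lit 0) (p (nat_lit 0x38112) (nat_lit 0) (p (nat_lit 0x20092) (nat_lit 0) (p (nat_lit 0x10012) (nat_lit 0) pn)))))))))))))))))))))))) :=
  Cl.node (nat_lit 0x20000c) (nat_lit 2) (by decide +kernel) (ClAll.succ (ClAll.succ ClAll.zero n145) s47)

def n190 : Cl (O (nat_lit 2)) (R (nat_lit 14353))
    (p (nat_lit 0x109) (nat_lit 1) (p (nat_lit 0x101) (nat_lit 0) (p (nat_lit 0x81) (nat_lit 1) (p (nat_lit 0xc1) (nat_lit 1) (p (nat_lit 0x119) (nat_lit 1) (p (nat_lit 0xd1) (nat_lit 0) (p (nat_lit 0x89) (nat_lit 0) (p (nat_lit 0x41) (nat_lit 0) (p (nat_lit 0x88090887069a) (nat_lit 0) (p (nat_lit 0x87870806861a) (nat_lit 0) (p (nat_lit 0x80000000070786058a) (nat_lit 0) (p (nat_lit 0x8787058502) (nat_lit 0) (p (nat_lit 0x8586850482) (nat_lit 0) (p (nat_lit 0x160014) (nat_lit 0) (p (nat_lit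 0x160004) (nat_lit 0) (p (nat_lit 0x68612) (nat_lit 0) (p (nat_lit 0x50592) (nat_lit 0) (p (nat_lit 0x40512) (nat_lit 0) (p (nat_lit 0x50312) (nat_lit 0) (p (nat_lit 0x38292) (nat_lit 0) (p (nat_lit 0x28212) (nat_lit 0) (p (nat_lit 0x38112) (nat_lit 0) (p (nat_lit 0x20092) (nat_lit 0) (p (nat_lit 0x10012) (nat_lit 0) pn)))))))))))))))))))))))) :=
  Cl.node (nat_lit 0x20000c) (nat_lit 2) (by decide +kernel) (ClAll.succ (ClAll.succ ClAll.zero n146) s52)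

def n191 : Cl (O (nat_lit 2)) (R (nat_lit 14353))
    (p (nat_lit 0xc1) (nat_lit 1) (p (nat_lit 0x20000c) (nat_lit 0) (p (nat_lit 0x109) (nat_lit 1) (p (nat_lit 0x101) (nat_lit 0) (p (nat_lit 0x111) (nat_lit 0) (p (nat_lit 0xd1) (nat_lit 1) (p (nat_lit 0x89) (nat_lit 0) (p (nat_lit 0x41) (nat_lit 0) (p (nat_lit 0x88090887069a) (nat_lit 0) (p (nat_lit 0x87870806861a) (nat_lit 0) (p (nat_lit 0x80000000070786058a) (nat_lit 0) (p (nat_lit 0x8787058502) (nat_lit 0) (p (nat_lit 0x8586850482) (nat_lit 0) (p (nat_lit 0x160014) (nat_lit 0) (p (nat_lit 0x160004) (nat_lit 0) (p (nat_lit 0x68612) (nat_lit 0) (p (nat_lit 0x50592) (nat_lit 0) (p (nat_lit 0x40512) (nat_lit 0) (p (nat_lit 0x50312) (nat_lit 0) (p (nat_lit 0x38292) (nat_lit 0) (p (nat_lit 0x28212) (nat_lit 0) (p (nat_lit 0x38112) (nat_lit 0) (p (nat_lit 0x20092) (nat_lit 0) (p (nat_lit 0x10012) (nat_lit 0) pn))))))))))))))))))))))))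 :=
  Cl.node (nat_lit 0xb0004) (nat_lit 2) (by decide +kernel) (ClAll.succ (ClAll.succ ClAll.zero n147) s58)

def n192 : Cl (O (nat_lit 2)) (R (nat_lit 14353))
    (p (nat_lit 0x119) (nat_lit 0) (p (nat_lit 0x20000c) (nat_lit 0) (p (nat_lit 0x81) (nat_lit 0) (p (nat_lit 0x101) (nat_lit 1) (p (nat_lit 0x111) (nat_lit 0) (p (nat_lit 0xd1) (nat_lit 1) (p (nat_lit 0x89) (nat_lit 0) (p (nat_lit 0x41) (nat_lit 0) (p (nat_lit 0x88090887069a) (nat_lit 0) (p (nat_lit 0x87870806861a) (nat_lit 0) (p (nat_lit 0x80000000070786058a) (nat_lit 0) (p (nat_lit 0x8787058502) (nat_lit 0) (p (nat_lit 0x8586850482) (nat_lit 0) (p (nat_lit 0x160014) (nat_lit 0) (p (nat_lit 0x160004) (nat_lit 0) (p (nat_lit 0x68612) (nat_lit 0) (p (nat_lit 0x50592) (nat_lit 0) (p (nat_lit 0x40512) (nat_lit 0) (p (nat_lit 0x50312) (nat_lit 0) (p (nat_lit 0x38292) (nat_lit 0) (p (nat_lit 0x28212) (nat_lit 0) (p (nat_lit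 0x38112) (nat_lit 0) (p (nat_lit 0x20092) (nat_lit 0) (p (nat_lit 0x10012) (nat_lit 0) pn)))))))))))))))))))))))) :=
  Cl.node (nat_lit 0xb0004) (nat_lit 2) (by decide +kernel) (ClAll.succ (ClAll.succ ClAll.zero n148) s62)

def n193 : Cl (O (nat_lit 2)) (R (nat_lit 14353))
    (p (nat_lit 0x20000c) (nat_lit 0) (p (nat_lit 0xc1) (nat_lit 0) (p (nat_lit 0x81) (nat_lit 1) (p (nat_lit 0x101) (nat_lit 1) (p (nat_lit 0x111) (nat_lit 0) (p (nat_lit 0xd1) (nat_lit 1) (p (nat_lit 0x89) (nat_lit 0) (p (nat_lit 0x41) (nat_lit 0) (p (nat_lit 0x88090887069a) (nat_lit 0) (p (nat_lit 0x87870806861a) (nat_lit 0) (p (nat_lit 0x80000000070786058a) (nat_lit 0) (p (nat_lit 0x8787058502) (nat_lit 0) (p (nat_lit 0x8586850482) (nat_lit 0) (p (nat_lit 0x160014) (nat_lit 0) (p (nat_lit 0x160004) (nat_lit 0) (p (nat_lit 0x68612) (nat_lit 0) (p (nat_lit 0x50592) (nat_lit 0) (p (nat_lit 0x40512) (nat_lit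 0) (p (nat_lit 0x50312) (nat_lit 0) (p (nat_lit 0x38292) (nat_lit 0) (p (nat_lit 0x28212) (nat_lit 0) (p (nat_lit 0x38112) (nat_lit 0) (p (nat_lit 0x20092) (nat_lit 0) (p (nat_lit 0x10012) (nat_lit 0) pn)))))))))))))))))))))))) :=
  Cl.node (nat_lit 0x119) (nat_lit 2) (by decide +kernel) (ClAll.succ (ClAll.succ ClAll.zero n149) n150)

def n194 : Cl (O (nat_lit 2)) (R (nat_lit 14353))
    (p (nat_lit 0x20000c) (nat_lit 0) (p (nat_lit 0x101) (nat_lit 0) (p (nat_lit 0xc1) (nat_lit 1) (p (nat_lit 0x81) (nat_lit 1) (p (nat_lit 0x111) (nat_lit 1) (p (nat_lit 0xd1) (nat_lit 1) (p (nat_lit 0x89) (nat_lit 0) (p (nat_lit 0x41) (nat_lit 0) (p (nat_lit 0x88090887069a) (nat_lit 0) (p (nat_lit 0x87870806861a) (nat_lit 0) (p (nat_lit 0x80000000070786058a) (nat_lit 0) (p (nat_lit 0x8787058502) (nat_lit 0) (p (nat_lit 0x8586850482) (nat_lit 0) (p (nat_lit 0x160014) (nat_lit 0) (p (nat_lit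 0x160004) (nat_lit 0) (p (nat_lit 0x68612) (nat_lit 0) (p (nat_lit 0x50592) (nat_lit 0) (p (nat_lit 0x40512) (nat_lit 0) (p (nat_lit 0x50312) (nat_lit 0) (p (nat_lit 0x38292) (nat_lit 0) (p (nat_lit 0x28212) (nat_lit 0) (p (nat_lit 0x38112) (nat_lit 0) (p (nat_lit 0x20092) (nat_lit 0) (p (nat_lit 0x10012) (nat_lit 0) pn)))))))))))))))))))))))) :=
  Cl.node (nat_lit 0xb0004) (nat_lit 2) (by decide +kernel) (ClAll.succ (ClAll.succ ClAll.zero n151) s77)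

def n195 : Cl (O (nat_lit 2)) (R (nat_lit 14353))
    (p (nat_lit 0xd1) (nat_lit 1) (p (nat_lit 0x111) (nat_lit 1) (p (nat_lit 0x109) (nat_lit 0) (p (nat_lit 0x101) (nat_lit 0) (p (nat_lit 0x119) (nat_lit 0) (p (nat_lit 0xc9) (nat_lit 0) (p (nat_lit 0x89) (nat_lit 1) (p (nat_lit 0x41) (nat_lit 0) (p (nat_lit 0x88090887069a) (nat_lit 0) (p (nat_lit 0x87870806861a) (nat_lit 0) (p (nat_lit 0x80000000070786058a) (nat_lit 0) (p (nat_lit 0x8787058502) (nat_lit 0) (p (nat_lit 0x8586850482) (nat_lit 0) (p (nat_lit 0x160014) (nat_lit 0) (p (nat_lit 0x160004) (nat_lit 0) (p (nat_lit 0x68612) (nat_lit 0) (p (nat_lit 0x50592) (nat_lit 0) (p (nat_lit 0x40512) (nat_lit 0) (p (nat_lit 0x50312) (nat_lit 0) (p (nat_lit 0x38292) (nat_lit 0) (p (nat_lit 0x28212) (nat_lit 0) (p (nat_lit 0x38112) (nat_lit 0) (p (nat_lit 0x20092) (nat_lit 0) (p (nat_lit 0x10012) (nat_lit 0) pn))))))))))))))))))))))))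 :=
  Cl.node (nat_lit 0x20000c) (nat_lit 2) (by decide +kernel) (ClAll.succ (ClAll.succ ClAll.zero n152) s84)

def n196 : Cl (O (nat_lit 2)) (R (nat_lit 14353))
    (p (nat_lit 0x20000c) (nat_lit 0) (p (nat_lit 0xd1) (nat_lit 0) (p (nat_lit 0x109) (nat_lit 1) (p (nat_lit 0x101) (nat_lit 0) (p (nat_lit 0x119) (nat_lit 0) (p (nat_lit 0xc9) (nat_lit 0) (p (nat_lit 0x89) (nat_lit 1) (p (nat_lit 0x41) (nat_lit 0) (p (nat_lit 0x88090887069a) (nat_lit 0) (p (nat_lit 0x87870806861a) (nat_lit 0) (p (nat_lit 0x80000000070786058a) (nat_lit 0) (p (nat_lit 0x8787058502) (nat_lit 0) (p (nat_lit 0x8586850482) (nat_lit 0) (p (nat_lit 0x160014) (nat_lit 0) (p (nat_lit 0x160004) (nat_lit 0) (p (nat_lit 0x68612) (nat_lit 0) (p (nat_lit 0x50592) (nat_lit 0) (p (nat_lit 0x40512) (nat_lit 0) (p (nat_lit 0x50312) (nat_lit 0) (p (nat_lit 0x38292) (nat_lit 0) (p (nat_lit 0x28212) (nat_lit 0) (p (nat_lit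 0x38112) (nat_lit 0) (p (nat_lit 0x20092) (nat_lit 0) (p (nat_lit 0x10012) (nat_lit 0) pn)))))))))))))))))))))))) :=
  Cl.node (nat_lit 0xb0004) (nat_lit 2) (by decide +kernel) (ClAll.succ (ClAll.succ ClAll.zero n153) s87)

def n197 : Cl (O (nat_lit 2)) (R (nat_lit 14353))
    (p (nat_lit 0x20000c) (nat_lit 0) (p (nat_lit 0xd1) (nat_lit 1) (p (nat_lit 0x109) (nat_lit 1) (p (nat_lit 0x101) (nat_lit 0) (p (nat_lit 0x119) (nat_lit 0) (p (nat_lit 0xc9) (nat_lit 0) (p (nat_lit 0x89) (nat_lit 1) (p (nat_lit 0x41) (nat_lit 0) (p (nat_lit 0x88090887069a) (nat_lit 0) (p (nat_lit 0x87870806861a) (nat_lit 0) (p (nat_lit 0x80000000070786058a) (nat_lit 0) (p (nat_lit 0x8787058502) (nat_lit 0) (p (nat_lit 0x8586850482) (nat_lit 0) (p (nat_lit 0x160014) (nat_lit 0) (p (nat_lit 0x160004) (nat_lit 0) (p (nat_lit 0x68612) (nat_lit 0) (p (nat_lit 0x50592) (nat_lit 0) (p (nat_lit 0x40512) (nat_lit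 0) (p (nat_lit 0x50312) (nat_lit 0) (p (nat_lit 0x38292) (nat_lit 0) (p (nat_lit 0x28212) (nat_lit 0) (p (nat_lit 0x38112) (nat_lit 0) (p (nat_lit 0x20092) (nat_lit 0) (p (nat_lit 0x10012) (nat_lit 0) pn)))))))))))))))))))))))) :=
  Cl.node (nat_lit 0xb0004) (nat_lit 2) (by decide +kernel) (ClAll.succ (ClAll.succ ClAll.zero n154) n155)

def n198 : Cl (O (nat_lit 2)) (R (nat_lit 14353))
    (p (nat_lit 0x20000c) (nat_lit 0) (p (nat_lit 0xd1) (nat_lit 0) (p (nat_lit 0xc1) (nat_lit 0) (p (nat_lit 0x101) (nat_lit 1) (p (nat_lit 0x119) (nat_lit 0) (p (nat_lit 0xc9) (nat_lit 0) (p (nat_lit 0x89) (nat_lit 1) (p (nat_lit 0x41) (nat_lit 0) (p (nat_lit 0x88090887069a) (nat_lit 0) (p (nat_lit 0x87870806861a) (nat_lit 0) (p (nat_lit 0x80000000070786058a) (nat_lit 0) (p (nat_lit 0x8787058502) (nat_lit 0) (p (nat_lit 0x8586850482) (nat_lit 0) (p (nat_lit 0x160014) (nat_lit 0) (p (nat_lit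 0x160004) (nat_lit 0) (p (nat_lit 0x68612) (nat_lit 0) (p (nat_lit 0x50592) (nat_lit 0) (p (nat_lit 0x40512) (nat_lit 0) (p (nat_lit 0x50312) (nat_lit 0) (p (nat_lit 0x38292) (nat_lit 0) (p (nat_lit 0x28212) (nat_lit 0) (p (nat_lit 0x38112) (nat_lit 0) (p (nat_lit 0x20092) (nat_lit 0) (p (nat_lit 0x10012) (nat_lit 0) pn)))))))))))))))))))))))) :=
  Cl.node (nat_lit 0xb0004) (nat_lit 2) (by decide +kernel) (ClAll.succ (ClAll.succ ClAll.zero n156) s116)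

def n199 : Cl (O (nat_lit 2)) (R (nat_lit 14353))
    (p (nat_lit 0x20000c) (nat_lit 0) (p (nat_lit 0xd1) (nat_lit 1) (p (nat_lit 0xc1) (nat_lit 0) (p (nat_lit 0x101) (nat_lit 1) (p (nat_lit 0x119) (nat_lit 0) (p (nat_lit 0xc9) (nat_lit 0) (p (nat_lit 0x89) (nat_lit 1) (p (nat_lit 0x41) (nat_lit 0) (p (nat_lit 0x88090887069a) (nat_lit 0) (p (nat_lit 0x87870806861a) (nat_lit 0) (p (nat_lit 0x80000000070786058a) (nat_lit 0) (p (nat_lit 0x8787058502) (nat_lit 0) (p (nat_lit 0x8586850482) (nat_lit 0) (p (nat_lit 0x160014) (nat_lit 0) (p (nat_lit 0x160004) (nat_lit 0) (p (nat_lit 0x68612) (nat_lit 0) (p (nat_lit 0x50592) (nat_lit 0) (p (nat_lit 0x40512) (nat_lit 0) (p (nat_lit 0x50312) (nat_lit 0) (p (nat_lit 0x38292) (nat_lit 0) (p (nat_lit 0x28212) (nat_lit 0) (p (nat_lit 0x38112) (nat_lit 0) (p (nat_lit 0x20092) (nat_lit 0) (p (nat_lit 0x10012) (nat_lit 0) pn))))))))))))))))))))))))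 :=
  Cl.node (nat_lit 0xb0004) (nat_lit 2) (by decide +kernel) (ClAll.succ (ClAll.succ ClAll.zero n157) s132)

def n200 : Cl (O (nat_lit 2)) (R (nat_lit 14353))
    (p (nat_lit 0x20000c) (nat_lit 0) (p (nat_lit 0x111) (nat_lit 1) (p (nat_lit 0xd1) (nat_lit 1) (p (nat_lit 0xc1) (nat_lit 0) (p (nat_lit 0x119) (nat_lit 1) (p (nat_lit 0xc9) (nat_lit 0) (p (nat_lit 0x89) (nat_lit 1) (p (nat_lit 0x41) (nat_lit 0) (p (nat_lit 0x88090887069a) (nat_lit 0) (p (nat_lit 0x87870806861a) (nat_lit 0) (p (nat_lit 0x80000000070786058a) (nat_lit 0) (p (nat_lit 0x8787058502) (nat_lit 0) (p (nat_lit 0x8586850482) (nat_lit 0) (p (nat_lit 0x160014) (nat_lit 0) (p (nat_lit 0x160004) (nat_lit 0) (p (nat_lit 0x68612) (nat_lit 0) (p (nat_lit 0x50592) (nat_lit 0) (p (nat_lit 0x40512) (nat_lit 0) (p (nat_lit 0x50312) (nat_lit 0) (p (nat_lit 0x38292) (nat_lit 0) (p (nat_lit 0x28212) (nat_lit 0) (p (nat_lit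 0x38112) (nat_lit 0) (p (nat_lit 0x20092) (nat_lit 0) (p (nat_lit 0x10012) (nat_lit 0) pn)))))))))))))))))))))))) :=
  Cl.node (nat_lit 0xb0004) (nat_lit 2) (by decide +kernel) (ClAll.succ (ClAll.succ ClAll.zero n158) s139)

def n201 : Cl (O (nat_lit 2)) (R (nat_lit 14353))
    (p (nat_lit 0x20000c) (nat_lit 0) (p (nat_lit 0x111) (nat_lit 0) (p (nat_lit 0x101) (nat_lit 0) (p (nat_lit 0xc1) (nat_lit 1) (p (nat_lit 0x119) (nat_lit 1) (p (nat_lit 0xc9) (nat_lit 0) (p (nat_lit 0x89) (nat_lit 1) (p (nat_lit 0x41) (nat_lit 0) (p (nat_lit 0x88090887069a) (nat_lit 0) (p (nat_lit 0x87870806861a) (nat_lit 0) (p (nat_lit 0x80000000070786058a) (nat_lit 0) (p (nat_lit 0x8787058502) (nat_lit 0) (p (nat_lit 0x8586850482) (nat_lit 0) (p (nat_lit 0x160014) (nat_lit 0) (p (nat_lit 0x160004) (nat_lit 0) (p (nat_lit 0x68612) (nat_lit 0) (p (nat_lit 0x50592) (nat_lit 0) (p (nat_lit 0x40512) (nat_lit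 0) (p (nat_lit 0x50312) (nat_lit 0) (p (nat_lit 0x38292) (nat_lit 0) (p (nat_lit 0x28212) (nat_lit 0) (p (nat_lit 0x38112) (nat_lit 0) (p (nat_lit 0x20092) (nat_lit 0) (p (nat_lit 0x10012) (nat_lit 0) pn)))))))))))))))))))))))) :=
  Cl.node (nat_lit 0xb0004) (nat_lit 2) (by decide +kernel) (ClAll.succ (ClAll.succ ClAll.zero s141) s142)

def n202 : Cl (O (nat_lit 2)) (R (nat_lit 14353))
    (p (nat_lit 0x20000c) (nat_lit 0) (p (nat_lit 0x111) (nat_lit 1) (p (nat_lit 0x101) (nat_lit 0) (p (nat_lit 0xc1) (nat_lit 1) (p (nat_lit 0x119) (nat_lit 1) (p (nat_lit 0xc9) (nat_lit 0) (p (nat_lit 0x89) (nat_lit 1) (p (nat_lit 0x41) (nat_lit 0) (p (nat_lit 0x88090887069a) (nat_lit 0) (p (nat_lit 0x87870806861a) (nat_lit 0) (p (nat_lit 0x80000000070786058a) (nat_lit 0) (p (nat_lit 0x8787058502) (nat_lit 0) (p (nat_lit 0x8586850482) (nat_lit 0) (p (nat_lit 0x160014) (nat_lit 0) (p (nat_lit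 0x160004) (nat_lit 0) (p (nat_lit 0x68612) (nat_lit 0) (p (nat_lit 0x50592) (nat_lit 0) (p (nat_lit 0x40512) (nat_lit 0) (p (nat_lit 0x50312) (nat_lit 0) (p (nat_lit 0x38292) (nat_lit 0) (p (nat_lit 0x28212) (nat_lit 0) (p (nat_lit 0x38112) (nat_lit 0) (p (nat_lit 0x20092) (nat_lit 0) (p (nat_lit 0x10012) (nat_lit 0) pn)))))))))))))))))))))))) :=
  Cl.node (nat_lit 0xb0004) (nat_lit 2) (by decide +kernel) (ClAll.succ (ClAll.succ ClAll.zero n159) s151)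

def n203 : Cl (O (nat_lit 2)) (R (nat_lit 14353))
    (p (nat_lit 0x20000c) (nat_lit 0) (p (nat_lit 0x89) (nat_lit 0) (p (nat_lit 0x109) (nat_lit 1) (p (nat_lit 0x101) (nat_lit 0) (p (nat_lit 0x119) (nat_lit 0) (p (nat_lit 0xd1) (nat_lit 0) (p (nat_lit 0x81) (nat_lit 0) (p (nat_lit 0x41) (nat_lit 1) (p (nat_lit 0x88090887069a) (nat_lit 0) (p (nat_lit 0x87870806861a) (nat_lit 0) (p (nat_lit 0x80000000070786058a) (nat_lit 0) (p (nat_lit 0x8787058502) (nat_lit 0) (p (nat_lit 0x8586850482) (nat_lit 0) (p (nat_lit 0x160014) (nat_lit 0) (p (nat_lit 0x160004) (nat_lit 0) (p (nat_lit 0x68612) (nat_lit 0) (p (nat_lit 0x50592) (nat_lit 0) (p (nat_lit 0x40512) (nat_lit 0) (p (nat_lit 0x50312) (nat_lit 0) (p (nat_lit 0x38292) (nat_lit 0) (p (nat_lit 0x28212) (nat_lit 0) (p (nat_lit 0x38112) (nat_lit 0) (p (nat_lit 0x20092) (nat_lit 0) (p (nat_lit 0x10012) (nat_lit 0) pn))))))))))))))))))))))))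 :=
  Cl.node (nat_lit 0x111) (nat_lit 2) (by decide +kernel) (ClAll.succ (ClAll.succ ClAll.zero n160) s166)

def n204 : Cl (O (nat_lit 2)) (R (nat_lit 14353))
    (p (nat_lit 0xc9) (nat_lit 0) (p (nat_lit 0x89) (nat_lit 1) (p (nat_lit 0x109) (nat_lit 1) (p (nat_lit 0x101) (nat_lit 0) (p (nat_lit 0x119) (nat_lit 0) (p (nat_lit 0xd1) (nat_lit 0) (p (nat_lit 0x81) (nat_lit 0) (p (nat_lit 0x41) (nat_lit 1) (p (nat_lit 0x88090887069a) (nat_lit 0) (p (nat_lit 0x87870806861a) (nat_lit 0) (p (nat_lit 0x80000000070786058a) (nat_lit 0) (p (nat_lit 0x8787058502) (nat_lit 0) (p (nat_lit 0x8586850482) (nat_lit 0) (p (nat_lit 0x160014) (nat_lit 0) (p (nat_lit 0x160004) (nat_lit 0) (p (nat_lit 0x68612) (nat_lit 0) (p (nat_lit 0x50592) (nat_lit 0) (p (nat_lit 0x40512) (nat_lit 0) (p (nat_lit 0x50312) (nat_lit 0) (p (nat_lit 0x38292) (nat_lit 0) (p (nat_lit 0x28212) (nat_lit 0) (p (nat_lit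 0x38112) (nat_lit 0) (p (nat_lit 0x20092) (nat_lit 0) (p (nat_lit 0x10012) (nat_lit 0) pn)))))))))))))))))))))))) :=
  Cl.node (nat_lit 0x20000c) (nat_lit 2) (by decide +kernel) (ClAll.succ (ClAll.succ ClAll.zero n161) s175)

def n205 : Cl (O (nat_lit 2)) (R (nat_lit 14353))
    (p (nat_lit 0x20000c) (nat_lit 0) (p (nat_lit 0x89) (nat_lit 0) (p (nat_lit 0xc1) (nat_lit 0) (p (nat_lit 0x101) (nat_lit 1) (p (nat_lit 0x119) (nat_lit 0) (p (nat_lit 0xd1) (nat_lit 0) (p (nat_lit 0x81) (nat_lit 0) (p (nat_lit 0x41) (nat_lit 1) (p (nat_lit 0x88090887069a) (nat_lit 0) (p (nat_lit 0x87870806861a) (nat_lit 0) (p (nat_lit 0x80000000070786058a) (nat_lit 0) (p (nat_lit 0x8787058502) (nat_lit 0) (p (nat_lit 0x8586850482) (nat_lit 0) (p (nat_lit 0x160014) (nat_lit 0) (p (nat_lit 0x160004) (nat_lit 0) (p (nat_lit 0x68612) (nat_lit 0) (p (nat_lit 0x50592) (nat_lit 0) (p (nat_lit 0x40512) (nat_lit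 0) (p (nat_lit 0x50312) (nat_lit 0) (p (nat_lit 0x38292) (nat_lit 0) (p (nat_lit 0x28212) (nat_lit 0) (p (nat_lit 0x38112) (nat_lit 0) (p (nat_lit 0x20092) (nat_lit 0) (p (nat_lit 0x10012) (nat_lit 0) pn)))))))))))))))))))))))) :=
  Cl.node (nat_lit 0xb0004) (nat_lit 2) (by decide +kernel) (ClAll.succ (ClAll.succ ClAll.zero s177) s178)

def n206 : Cl (O (nat_lit 2)) (R (nat_lit 14353))
    (p (nat_lit 0xc9) (nat_lit 0) (p (nat_lit 0x89) (nat_lit 1) (p (nat_lit 0xc1) (nat_lit 0) (p (nat_lit 0x101) (nat_lit 1) (p (nat_lit 0x119) (nat_lit 0) (p (nat_lit 0xd1) (nat_lit 0) (p (nat_lit 0x81) (nat_lit 0) (p (nat_lit 0x41) (nat_lit 1) (p (nat_lit 0x88090887069a) (nat_lit 0) (p (nat_lit 0x87870806861a) (nat_lit 0) (p (nat_lit 0x80000000070786058a) (nat_lit 0) (p (nat_lit 0x8787058502) (nat_lit 0) (p (nat_lit 0x8586850482) (nat_lit 0) (p (nat_lit 0x160014) (nat_lit 0) (p (nat_lit 0x160004)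 (nat_lit 0) (p (nat_lit 0x68612) (nat_lit 0) (p (nat_lit 0x50592) (nat_lit 0) (p (nat_lit 0x40512) (nat_lit 0) (p (nat_lit 0x50312) (nat_lit 0) (p (nat_lit 0x38292) (nat_lit 0) (p (nat_lit 0x28212) (nat_lit 0) (p (nat_lit 0x38112) (nat_lit 0) (p (nat_lit 0x20092) (nat_lit 0) (p (nat_lit 0x10012) (nat_lit 0) pn)))))))))))))))))))))))) :=
  Cl.node (nat_lit 0x20000c) (nat_lit 2) (by decide +kernel) (ClAll.succ (ClAll.succ ClAll.zero n162) s187)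

def n207 : Cl (O (nat_lit 2)) (R (nat_lit 14353))
    (p (nat_lit 0xc9) (nat_lit 1) (p (nat_lit 0x89) (nat_lit 1) (p (nat_lit 0xc1) (nat_lit 0) (p (nat_lit 0x101) (nat_lit 1) (p (nat_lit 0x119) (nat_lit 0) (p (nat_lit 0xd1) (nat_lit 0) (p (nat_lit 0x81) (nat_lit 0) (p (nat_lit 0x41) (nat_lit 1) (p (nat_lit 0x88090887069a) (nat_lit 0) (p (nat_lit 0x87870806861a) (nat_lit 0) (p (nat_lit 0x80000000070786058a) (nat_lit 0) (p (nat_lit 0x8787058502) (nat_lit 0) (p (nat_lit 0x8586850482) (nat_lit 0) (p (nat_lit 0x160014) (nat_lit 0) (p (nat_lit 0x160004) (nat_lit 0) (p (nat_lit 0x68612) (nat_lit 0) (p (nat_lit 0x50592) (nat_lit 0) (p (nat_lit 0x40512) (nat_lit 0) (p (nat_lit 0x50312) (nat_lit 0) (p (nat_lit 0x38292) (nat_lit 0) (p (nat_lit 0x28212) (nat_lit 0) (p (nat_lit 0x38112) (nat_lit 0) (p (nat_lit 0x20092) (nat_lit 0) (p (nat_lit 0x10012) (nat_lit 0) pn))))))))))))))))))))))))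 :=
  Cl.node (nat_lit 0x20000c) (nat_lit 2) (by decide +kernel) (ClAll.succ (ClAll.succ ClAll.zero n163) s192)

def n208 : Cl (O (nat_lit 2)) (R (nat_lit 14353))
    (p (nat_lit 0x20000c) (nat_lit 0) (p (nat_lit 0x89) (nat_lit 1) (p (nat_lit 0xc1) (nat_lit 1) (p (nat_lit 0x101) (nat_lit 1) (p (nat_lit 0x119) (nat_lit 0) (p (nat_lit 0xd1) (nat_lit 0) (p (nat_lit 0x81) (nat_lit 0) (p (nat_lit 0x41) (nat_lit 1) (p (nat_lit 0x88090887069a) (nat_lit 0) (p (nat_lit 0x87870806861a) (nat_lit 0) (p (nat_lit 0x80000000070786058a) (nat_lit 0) (p (nat_lit 0x8787058502) (nat_lit 0) (p (nat_lit 0x8586850482) (nat_lit 0) (p (nat_lit 0x160014) (nat_lit 0) (p (nat_lit 0x160004) (nat_lit 0) (p (nat_lit 0x68612) (nat_lit 0) (p (nat_lit 0x50592) (nat_lit 0) (p (nat_lit 0x40512) (nat_lit 0) (p (nat_lit 0x50312) (nat_lit 0) (p (nat_lit 0x38292) (nat_lit 0) (p (nat_lit 0x28212) (nat_lit 0) (p (nat_lit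 0x38112) (nat_lit 0) (p (nat_lit 0x20092) (nat_lit 0) (p (nat_lit 0x10012) (nat_lit 0) pn)))))))))))))))))))))))) :=
  Cl.node (nat_lit 0xb0004) (nat_lit 2) (by decide +kernel) (ClAll.succ (ClAll.succ ClAll.zero n164) s200)

def n209 : Cl (O (nat_lit 2)) (R (nat_lit 14353))
    (p (nat_lit 0x109) (nat_lit 0) (p (nat_lit 0x89) (nat_lit 1) (p (nat_lit 0xc9) (nat_lit 1) (p (nat_lit 0xc1) (nat_lit 0) (p (nat_lit 0x119) (nat_lit 1) (p (nat_lit 0xd1) (nat_lit 0) (p (nat_lit 0x81) (nat_lit 0) (p (nat_lit 0x41) (nat_lit 1) (p (nat_lit 0x88090887069a) (nat_lit 0) (p (nat_lit 0x87870806861a) (nat_lit 0) (p (nat_lit 0x80000000070786058a) (nat_lit 0) (p (nat_lit 0x8787058502) (nat_lit 0) (p (nat_lit 0x8586850482) (nat_lit 0) (p (nat_lit 0x160014) (nat_lit 0) (p (nat_lit 0x160004) (nat_lit 0) (p (nat_lit 0x68612) (nat_lit 0) (p (nat_lit 0x50592) (nat_lit 0) (p (nat_lit 0x40512) (nat_lit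 0) (p (nat_lit 0x50312) (nat_lit 0) (p (nat_lit 0x38292) (nat_lit 0) (p (nat_lit 0x28212) (nat_lit 0) (p (nat_lit 0x38112) (nat_lit 0) (p (nat_lit 0x20092) (nat_lit 0) (p (nat_lit 0x10012) (nat_lit 0) pn)))))))))))))))))))))))) :=
  Cl.node (nat_lit 0x20000c) (nat_lit 2) (by decide +kernel) (ClAll.succ (ClAll.succ ClAll.zero n165) s207)

def n210 : Cl (O (nat_lit 2)) (R (nat_lit 14353))
    (p (nat_lit 0x109) (nat_lit 1) (p (nat_lit 0x89) (nat_lit 1) (p (nat_lit 0xc9) (nat_lit 1) (p (nat_lit 0xc1) (nat_lit 0) (p (nat_lit 0x119) (nat_lit 1) (p (nat_lit 0xd1) (nat_lit 0) (p (nat_lit 0x81) (nat_lit 0) (p (nat_lit 0x41) (nat_lit 1) (p (nat_lit 0x88090887069a) (nat_lit 0) (p (nat_lit 0x87870806861a) (nat_lit 0) (p (nat_lit 0x80000000070786058a) (nat_lit 0) (p (nat_lit 0x8787058502) (nat_lit 0) (p (nat_lit 0x8586850482) (nat_lit 0) (p (nat_lit 0x160014) (nat_lit 0) (p (nat_lit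 0x160004) (nat_lit 0) (p (nat_lit 0x68612) (nat_lit 0) (p (nat_lit 0x50592) (nat_lit 0) (p (nat_lit 0x40512) (nat_lit 0) (p (nat_lit 0x50312) (nat_lit 0) (p (nat_lit 0x38292) (nat_lit 0) (p (nat_lit 0x28212) (nat_lit 0) (p (nat_lit 0x38112) (nat_lit 0) (p (nat_lit 0x20092) (nat_lit 0) (p (nat_lit 0x10012) (nat_lit 0) pn)))))))))))))))))))))))) :=
  Cl.node (nat_lit 0x20000c) (nat_lit 2) (by decide +kernel) (ClAll.succ (ClAll.succ ClAll.zero n166) s212)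

def n211 : Cl (O (nat_lit 2)) (R (nat_lit 14353))
    (p (nat_lit 0x109) (nat_lit 0) (p (nat_lit 0x89) (nat_lit 1) (p (nat_lit 0x101) (nat_lit 0) (p (nat_lit 0xc1) (nat_lit 1) (p (nat_lit 0x119) (nat_lit 1) (p (nat_lit 0xd1) (nat_lit 0) (p (nat_lit 0x81) (nat_lit 0) (p (nat_lit 0x41) (nat_lit 1) (p (nat_lit 0x88090887069a) (nat_lit 0) (p (nat_lit 0x87870806861a) (nat_lit 0) (p (nat_lit 0x80000000070786058a) (nat_lit 0) (p (nat_lit 0x8787058502) (nat_lit 0) (p (nat_lit 0x8586850482) (nat_lit 0) (p (nat_lit 0x160014) (nat_lit 0) (p (nat_lit 0x160004) (nat_lit 0) (p (nat_lit 0x68612) (nat_lit 0) (p (nat_lit 0x50592) (nat_lit 0) (p (nat_lit 0x40512) (nat_lit 0) (p (nat_lit 0x50312) (nat_lit 0) (p (nat_lit 0x38292) (nat_lit 0) (p (nat_lit 0x28212) (nat_lit 0) (p (nat_lit 0x38112) (nat_lit 0) (p (nat_lit 0x20092) (nat_lit 0) (p (nat_lit 0x10012) (nat_lit 0) pn))))))))))))))))))))))))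 :=
  Cl.node (nat_lit 0x20000c) (nat_lit 2) (by decide +kernel) (ClAll.succ (ClAll.succ ClAll.zero n167) s218)

def n212 : Cl (O (nat_lit 2)) (R (nat_lit 14353))
    (p (nat_lit 0x109) (nat_lit 1) (p (nat_lit 0x89) (nat_lit 1) (p (nat_lit 0x101) (nat_lit 0) (p (nat_lit 0xc1) (nat_lit 1) (p (nat_lit 0x119) (nat_lit 1) (p (nat_lit 0xd1) (nat_lit 0) (p (nat_lit 0x81) (nat_lit 0) (p (nat_lit 0x41) (nat_lit 1) (p (nat_lit 0x88090887069a) (nat_lit 0) (p (nat_lit 0x87870806861a) (nat_lit 0) (p (nat_lit 0x80000000070786058a) (nat_lit 0) (p (nat_lit 0x8787058502) (nat_lit 0) (p (nat_lit 0x8586850482) (nat_lit 0) (p (nat_lit 0x160014) (nat_lit 0) (p (nat_lit 0x160004) (nat_lit 0) (p (nat_lit 0x68612) (nat_lit 0) (p (nat_lit 0x50592) (nat_lit 0) (p (nat_lit 0x40512) (nat_lit 0) (p (nat_lit 0x50312) (nat_lit 0) (p (nat_lit 0x38292) (nat_lit 0) (p (nat_lit 0x28212) (nat_lit 0) (p (nat_lit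 0x38112) (nat_lit 0) (p (nat_lit 0x20092) (nat_lit 0) (p (nat_lit 0x10012) (nat_lit 0) pn)))))))))))))))))))))))) :=
  Cl.node (nat_lit 0x20000c) (nat_lit 2) (by decide +kernel) (ClAll.succ (ClAll.succ ClAll.zero n168) s225)

def n213 : Cl (O (nat_lit 2)) (R (nat_lit 14353))
    (p (nat_lit 0x20000c) (nat_lit 0) (p (nat_lit 0x89) (nat_lit 0) (p (nat_lit 0x101) (nat_lit 1) (p (nat_lit 0xc1) (nat_lit 1) (p (nat_lit 0x119) (nat_lit 1) (p (nat_lit 0xd1) (nat_lit 0) (p (nat_lit 0x81) (nat_lit 0) (p (nat_lit 0x41) (nat_lit 1) (p (nat_lit 0x88090887069a) (nat_lit 0) (p (nat_lit 0x87870806861a) (nat_lit 0) (p (nat_lit 0x80000000070786058a) (nat_lit 0) (p (nat_lit 0x8787058502) (nat_lit 0) (p (nat_lit 0x8586850482) (nat_lit 0) (p (nat_lit 0x160014) (nat_lit 0) (p (nat_lit 0x160004) (nat_lit 0) (p (nat_lit 0x68612) (nat_lit 0) (p (nat_lit 0x50592) (nat_lit 0) (p (nat_lit 0x40512) (nat_lit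 0) (p (nat_lit 0x50312) (nat_lit 0) (p (nat_lit 0x38292) (nat_lit 0) (p (nat_lit 0x28212) (nat_lit 0) (p (nat_lit 0x38112) (nat_lit 0) (p (nat_lit 0x20092) (nat_lit 0) (p (nat_lit 0x10012) (nat_lit 0) pn)))))))))))))))))))))))) :=
  Cl.node (nat_lit 0xb0004) (nat_lit 2) (by decide +kernel) (ClAll.succ (ClAll.succ ClAll.zero s226) s227)

def n214 : Cl (O (nat_lit 2)) (R (nat_lit 14353))
    (p (nat_lit 0x20000c) (nat_lit 0) (p (nat_lit 0x89) (nat_lit 1) (p (nat_lit 0x101) (nat_lit 1) (p (nat_lit 0xc1) (nat_lit 1) (p (nat_lit 0x119) (nat_lit 1) (p (nat_lit 0xd1) (nat_lit 0) (p (nat_lit 0x81) (nat_lit 0) (p (nat_lit 0x41) (nat_lit 1) (p (nat_lit 0x88090887069a) (nat_lit 0) (p (nat_lit 0x87870806861a) (nat_lit 0) (p (nat_lit 0x80000000070786058a) (nat_lit 0) (p (nat_lit 0x8787058502) (nat_lit 0) (p (nat_lit 0x8586850482) (nat_lit 0) (p (nat_lit 0x160014) (nat_lit 0) (p (nat_lit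 0x160004) (nat_lit 0) (p (nat_lit 0x68612) (nat_lit 0) (p (nat_lit 0x50592) (nat_lit 0) (p (nat_lit 0x40512) (nat_lit 0) (p (nat_lit 0x50312) (nat_lit 0) (p (nat_lit 0x38292) (nat_lit 0) (p (nat_lit 0x28212) (nat_lit 0) (p (nat_lit 0x38112) (nat_lit 0) (p (nat_lit 0x20092) (nat_lit 0) (p (nat_lit 0x10012) (nat_lit 0) pn)))))))))))))))))))))))) :=
  Cl.node (nat_lit 0xb0004) (nat_lit 2) (by decide +kernel) (ClAll.succ (ClAll.succ ClAll.zero n169) s234)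

def n215 : Cl (O (nat_lit 2)) (R (nat_lit 14353))
    (p (nat_lit 0xc9) (nat_lit 0) (p (nat_lit 0x89) (nat_lit 1) (p (nat_lit 0x109) (nat_lit 1) (p (nat_lit 0x101) (nat_lit 0) (p (nat_lit 0x111) (nat_lit 0) (p (nat_lit 0xd1) (nat_lit 1) (p (nat_lit 0x81) (nat_lit 0) (p (nat_lit 0x41) (nat_lit 1) (p (nat_lit 0x88090887069a) (nat_lit 0) (p (nat_lit 0x87870806861a) (nat_lit 0) (p (nat_lit 0x80000000070786058a) (nat_lit 0) (p (nat_lit 0x8787058502) (nat_lit 0) (p (nat_lit 0x8586850482) (nat_lit 0) (p (nat_lit 0x160014) (nat_lit 0) (p (nat_lit 0x160004) (nat_lit 0) (p (nat_lit 0x68612) (nat_lit 0) (p (nat_lit 0x50592) (nat_lit 0) (p (nat_lit 0x40512) (nat_lit 0) (p (nat_lit 0x50312) (nat_lit 0) (p (nat_lit 0x38292) (nat_lit 0) (p (nat_lit 0x28212) (nat_lit 0) (p (nat_lit 0x38112) (nat_lit 0) (p (nat_lit 0x20092) (nat_lit 0) (p (nat_lit 0x10012) (nat_lit 0) pn))))))))))))))))))))))))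 :=
  Cl.node (nat_lit 0x20000c) (nat_lit 2) (by decide +kernel) (ClAll.succ (ClAll.succ ClAll.zero n170) s245)

def n216 : Cl (O (nat_lit 2)) (R (nat_lit 14353))
    (p (nat_lit 0xb0004) (nat_lit 0) (p (nat_lit 0x20000c) (nat_lit 0) (p (nat_lit 0x89) (nat_lit 0) (p (nat_lit 0x101) (nat_lit 1) (p (nat_lit 0x111) (nat_lit 0) (p (nat_lit 0xd1) (nat_lit 1) (p (nat_lit 0x81) (nat_lit 0) (p (nat_lit 0x41) (nat_lit 1) (p (nat_lit 0x88090887069a) (nat_lit 0) (p (nat_lit 0x87870806861a) (nat_lit 0) (p (nat_lit 0x80000000070786058a) (nat_lit 0) (p (nat_lit 0x8787058502) (nat_lit 0) (p (nat_lit 0x8586850482) (nat_lit 0) (p (nat_lit 0x160014) (nat_lit 0) (p (nat_lit 0x160004) (nat_lit 0) (p (nat_lit 0x68612) (nat_lit 0) (p (nat_lit 0x50592) (nat_lit 0) (p (nat_lit 0x40512) (nat_lit 0) (p (nat_lit 0x50312) (nat_lit 0) (p (nat_lit 0x38292) (nat_lit 0) (p (nat_lit 0x28212) (nat_lit 0) (p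 (nat_lit 0x38112) (nat_lit 0) (p (nat_lit 0x20092) (nat_lit 0) (p (nat_lit 0x10012) (nat_lit 0) pn)))))))))))))))))))))))) :=
  Cl.node (nat_lit 0xb0014) (nat_lit 2) (by decide +kernel) (ClAll.succ (ClAll.succ ClAll.zero n171) s250)

def n217 : Cl (O (nat_lit 2)) (R (nat_lit 14353))
    (p (nat_lit 0x20000c) (nat_lit 0) (p (nat_lit 0xc9) (nat_lit 0) (p (nat_lit 0x89) (nat_lit 1) (p (nat_lit 0x101) (nat_lit 1) (p (nat_lit 0x111) (nat_lit 0) (p (nat_lit 0xd1) (nat_lit 1) (p (nat_lit 0x81) (nat_lit 0) (p (nat_lit 0x41) (nat_lit 1) (p (nat_lit 0x88090887069a) (nat_lit 0) (p (nat_lit 0x87870806861a) (nat_lit 0) (p (nat_lit 0x80000000070786058a) (nat_lit 0) (p (nat_lit 0x8787058502) (nat_lit 0) (p (nat_lit 0x8586850482) (nat_lit 0) (p (nat_lit 0x160014) (nat_lit 0) (p (nat_lit 0x160004) (nat_lit 0) (p (nat_lit 0x68612) (nat_lit 0) (p (nat_lit 0x50592) (nat_lit 0) (p (nat_lit 0x40512)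 (nat_lit 0) (p (nat_lit 0x50312) (nat_lit 0) (p (nat_lit 0x38292) (nat_lit 0) (p (nat_lit 0x28212) (nat_lit 0) (p (nat_lit 0x38112) (nat_lit 0) (p (nat_lit 0x20092) (nat_lit 0) (p (nat_lit 0x10012) (nat_lit 0) pn)))))))))))))))))))))))) :=
  Cl.node (nat_lit 0xb0004) (nat_lit 2) (by decide +kernel) (ClAll.succ (ClAll.succ ClAll.zero n172) n173)

def n218 : Cl (O (nat_lit 2)) (R (nat_lit 14353))
    (p (nat_lit 0x20000c) (nat_lit 1) (p (nat_lit 0xc9) (nat_lit 0) (p (nat_lit 0x89) (nat_lit 1) (p (nat_lit 0x101) (nat_lit 1) (p (nat_lit 0x111) (nat_lit 0) (p (nat_lit 0xd1) (nat_lit 1) (p (nat_lit 0x81) (nat_lit 0) (p (nat_lit 0x41) (nat_lit 1) (p (nat_lit 0x88090887069a) (nat_lit 0) (p (nat_lit 0x87870806861a) (nat_lit 0) (p (nat_lit 0x80000000070786058a) (nat_lit 0) (p (nat_lit 0x8787058502) (nat_lit 0) (p (nat_lit 0x8586850482) (nat_lit 0) (p (nat_lit 0x160014) (nat_lit 0)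 (p (nat_lit 0x160004) (nat_lit 0) (p (nat_lit 0x68612) (nat_lit 0) (p (nat_lit 0x50592) (nat_lit 0) (p (nat_lit 0x40512) (nat_lit 0) (p (nat_lit 0x50312) (nat_lit 0) (p (nat_lit 0x38292) (nat_lit 0) (p (nat_lit 0x28212) (nat_lit 0) (p (nat_lit 0x38112) (nat_lit 0) (p (nat_lit 0x20092) (nat_lit 0) (p (nat_lit 0x10012) (nat_lit 0) pn)))))))))))))))))))))))) :=
  Cl.node (nat_lit 0xb0004) (nat_lit 2) (by decide +kernel) (ClAll.succ (ClAll.succ ClAll.zero n174) s264)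

def n219 : Cl (O (nat_lit 2)) (R (nat_lit 14353))
    (p (nat_lit 0x20000c) (nat_lit 0) (p (nat_lit 0xc9) (nat_lit 1) (p (nat_lit 0x89) (nat_lit 1) (p (nat_lit 0x101) (nat_lit 1) (p (nat_lit 0x111) (nat_lit 0) (p (nat_lit 0xd1) (nat_lit 1) (p (nat_lit 0x81) (nat_lit 0) (p (nat_lit 0x41) (nat_lit 1) (p (nat_lit 0x88090887069a) (nat_lit 0) (p (nat_lit 0x87870806861a) (nat_lit 0) (p (nat_lit 0x80000000070786058a) (nat_lit 0) (p (nat_lit 0x8787058502) (nat_lit 0) (p (nat_lit 0x8586850482) (nat_lit 0) (p (nat_lit 0x160014) (nat_lit 0) (p (nat_lit 0x160004) (nat_lit 0) (p (nat_lit 0x68612) (nat_lit 0) (p (nat_lit 0x50592) (nat_lit 0) (p (nat_lit 0x40512) (nat_lit 0) (p (nat_lit 0x50312) (nat_lit 0) (p (nat_lit 0x38292) (nat_lit 0) (p (nat_lit 0x28212) (nat_lit 0) (p (nat_lit 0x38112) (nat_lit 0) (p (nat_lit 0x20092) (nat_lit 0) (p (nat_lit 0x10012) (nat_lit 0) pn))))))))))))))))))))))))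 :=
  Cl.node (nat_lit 0xb0004) (nat_lit 2) (by decide +kernel) (ClAll.succ (ClAll.succ ClAll.zero s265) s266)

def n220 : Cl (O (nat_lit 2)) (R (nat_lit 14353))
    (p (nat_lit 0x20000c) (nat_lit 0) (p (nat_lit 0x109) (nat_lit 0) (p (nat_lit 0xc9) (nat_lit 1) (p (nat_lit 0x89) (nat_lit 1) (p (nat_lit 0x111) (nat_lit 1) (p (nat_lit 0xd1) (nat_lit 1) (p (nat_lit 0x81) (nat_lit 0) (p (nat_lit 0x41) (nat_lit 1) (p (nat_lit 0x88090887069a) (nat_lit 0) (p (nat_lit 0x87870806861a) (nat_lit 0) (p (nat_lit 0x80000000070786058a) (nat_lit 0) (p (nat_lit 0x8787058502) (nat_lit 0) (p (nat_lit 0x8586850482) (nat_lit 0) (p (nat_lit 0x160014) (nat_lit 0) (p (nat_lit 0x160004) (nat_lit 0) (p (nat_lit 0x68612) (nat_lit 0) (p (nat_lit 0x50592) (nat_lit 0) (p (nat_lit 0x40512) (nat_lit 0) (p (nat_lit 0x50312) (nat_lit 0) (p (nat_lit 0x38292) (nat_lit 0) (p (nat_lit 0x28212) (nat_lit 0) (p (nat_lit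 0x38112) (nat_lit 0) (p (nat_lit 0x20092) (nat_lit 0) (p (nat_lit 0x10012) (nat_lit 0) pn)))))))))))))))))))))))) :=
  Cl.node (nat_lit 0xb0004) (nat_lit 2) (by decide +kernel) (ClAll.succ (ClAll.succ ClAll.zero n175) s273)

def n221 : Cl (O (nat_lit 2)) (R (nat_lit 14353))
    (p (nat_lit 0xd1) (nat_lit 1) (p (nat_lit 0x111) (nat_lit 1) (p (nat_lit 0x109) (nat_lit 0) (p (nat_lit 0x101) (nat_lit 0) (p (nat_lit 0x119) (nat_lit 0) (p (nat_lit 0xc1) (nat_lit 0) (p (nat_lit 0x81) (nat_lit 1) (p (nat_lit 0x41) (nat_lit 1) (p (nat_lit 0x88090887069a) (nat_lit 0) (p (nat_lit 0x87870806861a) (nat_lit 0) (p (nat_lit 0x80000000070786058a) (nat_lit 0) (p (nat_lit 0x8787058502) (nat_lit 0) (p (nat_lit 0x8586850482) (nat_lit 0) (p (nat_lit 0x160014) (nat_lit 0) (p (nat_lit 0x160004) (nat_lit 0) (p (nat_lit 0x68612) (nat_lit 0) (p (nat_lit 0x50592) (nat_lit 0) (p (nat_lit 0x40512) (nat_lit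 0) (p (nat_lit 0x50312) (nat_lit 0) (p (nat_lit 0x38292) (nat_lit 0) (p (nat_lit 0x28212) (nat_lit 0) (p (nat_lit 0x38112) (nat_lit 0) (p (nat_lit 0x20092) (nat_lit 0) (p (nat_lit 0x10012) (nat_lit 0) pn)))))))))))))))))))))))) :=
  Cl.node (nat_lit 0x20000c) (nat_lit 2) (by decide +kernel) (ClAll.succ (ClAll.succ ClAll.zero n176) s280)

def n222 : Cl (O (nat_lit 2)) (R (nat_lit 14353))
    (p (nat_lit 0xd1) (nat_lit 1) (p (nat_lit 0xc9) (nat_lit 0) (p (nat_lit 0x109) (nat_lit 1) (p (nat_lit 0x101) (nat_lit 0) (p (nat_lit 0x119) (nat_lit 0) (p (nat_lit 0xc1) (nat_lit 0) (p (nat_lit 0x81) (nat_lit 1) (p (nat_lit 0x41) (nat_lit 1) (p (nat_lit 0x88090887069a) (nat_lit 0) (p (nat_lit 0x87870806861a) (nat_lit 0) (p (nat_lit 0x80000000070786058a) (nat_lit 0) (p (nat_lit 0x8787058502) (nat_lit 0) (p (nat_lit 0x8586850482) (nat_lit 0) (p (nat_lit 0x160014) (nat_lit 0) (p (nat_lit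 0x160004) (nat_lit 0) (p (nat_lit 0x68612) (nat_lit 0) (p (nat_lit 0x50592) (nat_lit 0) (p (nat_lit 0x40512) (nat_lit 0) (p (nat_lit 0x50312) (nat_lit 0) (p (nat_lit 0x38292) (nat_lit 0) (p (nat_lit 0x28212) (nat_lit 0) (p (nat_lit 0x38112) (nat_lit 0) (p (nat_lit 0x20092) (nat_lit 0) (p (nat_lit 0x10012) (nat_lit 0) pn)))))))))))))))))))))))) :=
  Cl.node (nat_lit 0x20000c) (nat_lit 2) (by decide +kernel) (ClAll.succ (ClAll.succ ClAll.zero n177) s284)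

def n223 : Cl (O (nat_lit 2)) (R (nat_lit 14353))
    (p (nat_lit 0x20000c) (nat_lit 0) (p (nat_lit 0xd1) (nat_lit 0) (p (nat_lit 0xc9) (nat_lit 0) (p (nat_lit 0x101) (nat_lit 1) (p (nat_lit 0x119) (nat_lit 0) (p (nat_lit 0xc1) (nat_lit 0) (p (nat_lit 0x81) (nat_lit 1) (p (nat_lit 0x41) (nat_lit 1) (p (nat_lit 0x88090887069a) (nat_lit 0) (p (nat_lit 0x87870806861a) (nat_lit 0) (p (nat_lit 0x80000000070786058a) (nat_lit 0) (p (nat_lit 0x8787058502) (nat_lit 0) (p (nat_lit 0x8586850482) (nat_lit 0) (p (nat_lit 0x160014) (nat_lit 0) (p (nat_lit 0x160004) (nat_lit 0) (p (nat_lit 0x68612) (nat_lit 0) (p (nat_lit 0x50592) (nat_lit 0) (p (nat_lit 0x40512) (nat_lit 0) (p (nat_lit 0x50312) (nat_lit 0) (p (nat_lit 0x38292) (nat_lit 0) (p (nat_lit 0x28212) (nat_lit 0) (p (nat_lit 0x38112) (nat_lit 0) (p (nat_lit 0x20092) (nat_lit 0) (p (nat_lit 0x10012) (nat_lit 0) pn))))))))))))))))))))))))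 :=
  Cl.node (nat_lit 0xb0004) (nat_lit 2) (by decide +kernel) (ClAll.succ (ClAll.succ ClAll.zero n178) s288)

def n224 : Cl (O (nat_lit 2)) (R (nat_lit 14353))
    (p (nat_lit 0x20000c) (nat_lit 0) (p (nat_lit 0xd1) (nat_lit 1) (p (nat_lit 0xc9) (nat_lit 0) (p (nat_lit 0x101) (nat_lit 1) (p (nat_lit 0x119) (nat_lit 0) (p (nat_lit 0xc1) (nat_lit 0) (p (nat_lit 0x81) (nat_lit 1) (p (nat_lit 0x41) (nat_lit 1) (p (nat_lit 0x88090887069a) (nat_lit 0) (p (nat_lit 0x87870806861a) (nat_lit 0) (p (nat_lit 0x80000000070786058a) (nat_lit 0) (p (nat_lit 0x8787058502) (nat_lit 0) (p (nat_lit 0x8586850482) (nat_lit 0) (p (nat_lit 0x160014) (nat_lit 0) (p (nat_lit 0x160004) (nat_lit 0) (p (nat_lit 0x68612) (nat_lit 0) (p (nat_lit 0x50592) (nat_lit 0) (p (nat_lit 0x40512) (nat_lit 0) (p (nat_lit 0x50312) (nat_lit 0) (p (nat_lit 0x38292) (nat_lit 0) (p (nat_lit 0x28212) (nat_lit 0) (p (nat_lit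 0x38112) (nat_lit 0) (p (nat_lit 0x20092) (nat_lit 0) (p (nat_lit 0x10012) (nat_lit 0) pn)))))))))))))))))))))))) :=
  Cl.node (nat_lit 0xb0004) (nat_lit 2) (by decide +kernel) (ClAll.succ (ClAll.succ ClAll.zero n179) s302)

def n225 : Cl (O (nat_lit 2)) (R (nat_lit 14353))
    (p (nat_lit 0x20000c) (nat_lit 0) (p (nat_lit 0x111) (nat_lit 1) (p (nat_lit 0xd1) (nat_lit 1) (p (nat_lit 0xc9) (nat_lit 0) (p (nat_lit 0x119) (nat_lit 1) (p (nat_lit 0xc1) (nat_lit 0) (p (nat_lit 0x81) (nat_lit 1) (p (nat_lit 0x41) (nat_lit 1) (p (nat_lit 0x88090887069a) (nat_lit 0) (p (nat_lit 0x87870806861a) (nat_lit 0) (p (nat_lit 0x80000000070786058a) (nat_lit 0) (p (nat_lit 0x8787058502) (nat_lit 0) (p (nat_lit 0x8586850482) (nat_lit 0) (p (nat_lit 0x160014) (nat_lit 0) (p (nat_lit 0x160004) (nat_lit 0) (p (nat_lit 0x68612) (nat_lit 0) (p (nat_lit 0x50592) (nat_lit 0) (p (nat_lit 0x40512) (nat_lit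 0) (p (nat_lit 0x50312) (nat_lit 0) (p (nat_lit 0x38292) (nat_lit 0) (p (nat_lit 0x28212) (nat_lit 0) (p (nat_lit 0x38112) (nat_lit 0) (p (nat_lit 0x20092) (nat_lit 0) (p (nat_lit 0x10012) (nat_lit 0) pn)))))))))))))))))))))))) :=
  Cl.node (nat_lit 0xb0004) (nat_lit 2) (by decide +kernel) (ClAll.succ (ClAll.succ ClAll.zero n180) s312)

def n226 : Cl (O (nat_lit 2)) (R (nat_lit 14353))
    (p (nat_lit 0x20000c) (nat_lit 0) (p (nat_lit 0x111) (nat_lit 0) (p (nat_lit 0x109) (nat_lit 0) (p (nat_lit 0xc9) (nat_lit 1) (p (nat_lit 0x119) (nat_lit 1) (p (nat_lit 0xc1) (nat_lit 0) (p (nat_lit 0x81) (nat_lit 1) (p (nat_lit 0x41) (nat_lit 1) (p (nat_lit 0x88090887069a) (nat_lit 0) (p (nat_lit 0x87870806861a) (nat_lit 0) (p (nat_lit 0x80000000070786058a) (nat_lit 0) (p (nat_lit 0x8787058502) (nat_lit 0) (p (nat_lit 0x8586850482) (nat_lit 0) (p (nat_lit 0x160014) (nat_lit 0) (p (nat_lit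 0x160004) (nat_lit 0) (p (nat_lit 0x68612) (nat_lit 0) (p (nat_lit 0x50592) (nat_lit 0) (p (nat_lit 0x40512) (nat_lit 0) (p (nat_lit 0x50312) (nat_lit 0) (p (nat_lit 0x38292) (nat_lit 0) (p (nat_lit 0x28212) (nat_lit 0) (p (nat_lit 0x38112) (nat_lit 0) (p (nat_lit 0x20092) (nat_lit 0) (p (nat_lit 0x10012) (nat_lit 0) pn)))))))))))))))))))))))) :=
  Cl.node (nat_lit 0xb0004) (nat_lit 2) (by decide +kernel) (ClAll.succ (ClAll.succ ClAll.zero n181) s318)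

def n227 : Cl (O (nat_lit 2)) (R (nat_lit 14353))
    (p (nat_lit 0x20000c) (nat_lit 0) (p (nat_lit 0x111) (nat_lit 1) (p (nat_lit 0x109) (nat_lit 0) (p (nat_lit 0xc9) (nat_lit 1) (p (nat_lit 0x119) (nat_lit 1) (p (nat_lit 0xc1) (nat_lit 0) (p (nat_lit 0x81) (nat_lit 1) (p (nat_lit 0x41) (nat_lit 1) (p (nat_lit 0x88090887069a) (nat_lit 0) (p (nat_lit 0x87870806861a) (nat_lit 0) (p (nat_lit 0x80000000070786058a) (nat_lit 0) (p (nat_lit 0x8787058502) (nat_lit 0) (p (nat_lit 0x8586850482) (nat_lit 0) (p (nat_lit 0x160014) (nat_lit 0) (p (nat_lit 0x160004) (nat_lit 0) (p (nat_lit 0x68612) (nat_lit 0) (p (nat_lit 0x50592) (nat_lit 0) (p (nat_lit 0x40512) (nat_lit 0) (p (nat_lit 0x50312) (nat_lit 0) (p (nat_lit 0x38292) (nat_lit 0) (p (nat_lit 0x28212) (nat_lit 0) (p (nat_lit 0x38112) (nat_lit 0) (p (nat_lit 0x20092) (nat_lit 0) (p (nat_lit 0x10012) (nat_lit 0) pn))))))))))))))))))))))))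 :=
  Cl.node (nat_lit 0xb0004) (nat_lit 2) (by decide +kernel) (ClAll.succ (ClAll.succ ClAll.zero n182) s328)

def n228 : Cl (O (nat_lit 2)) (R (nat_lit 14353))
    (p (nat_lit 0xc9) (nat_lit 1) (p (nat_lit 0x109) (nat_lit 1) (p (nat_lit 0x101) (nat_lit 0) (p (nat_lit 0x119) (nat_lit 0) (p (nat_lit 0xd1) (nat_lit 0) (p (nat_lit 0x89) (nat_lit 0) (p (nat_lit 0x41) (nat_lit 0) (p (nat_lit 0x88090887069a) (nat_lit 0) (p (nat_lit 0x87870806861a) (nat_lit 0) (p (nat_lit 0x80000000070786058a) (nat_lit 0) (p (nat_lit 0x8787058502) (nat_lit 0) (p (nat_lit 0x8586850482) (nat_lit 0) (p (nat_lit 0x160014) (nat_lit 0) (p (nat_lit 0x160004) (nat_lit 0) (p (nat_lit 0x68612) (nat_lit 0) (p (nat_lit 0x50592) (nat_lit 0) (p (nat_lit 0x40512) (nat_lit 0) (p (nat_lit 0x50312) (nat_lit 0) (p (nat_lit 0x38292) (nat_lit 0) (p (nat_lit 0x28212) (nat_lit 0) (p (nat_lit 0x38112) (nat_lit 0) (p (nat_lit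 0x20092) (nat_lit 0) (p (nat_lit 0x10012) (nat_lit 0) pn))))))))))))))))))))))) :=
  Cl.node (nat_lit 0x20000c) (nat_lit 2) (by decide +kernel) (ClAll.succ (ClAll.succ ClAll.zero n183) s5)

def n229 : Cl (O (nat_lit 2)) (R (nat_lit 14353))
    (p (nat_lit 0xc9) (nat_lit 0) (p (nat_lit 0x81) (nat_lit 0) (p (nat_lit 0x101) (nat_lit 1) (p (nat_lit 0x119) (nat_lit 0) (p (nat_lit 0xd1) (nat_lit 0) (p (nat_lit 0x89) (nat_lit 0) (p (nat_lit 0x41) (nat_lit 0) (p (nat_lit 0x88090887069a) (nat_lit 0) (p (nat_lit 0x87870806861a) (nat_lit 0) (p (nat_lit 0x80000000070786058a) (nat_lit 0) (p (nat_lit 0x8787058502) (nat_lit 0) (p (nat_lit 0x8586850482) (nat_lit 0) (p (nat_lit 0x160014) (nat_lit 0) (p (nat_lit 0x160004) (nat_lit 0) (p (nat_lit 0x68612) (nat_lit 0) (p (nat_lit 0x50592) (nat_lit 0) (p (nat_lit 0x40512) (nat_lit 0) (p (nat_lit 0x50312) (nat_lit 0) (p (nat_lit 0x38292) (nat_lit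 0) (p (nat_lit 0x28212) (nat_lit 0) (p (nat_lit 0x38112) (nat_lit 0) (p (nat_lit 0x20092) (nat_lit 0) (p (nat_lit 0x10012) (nat_lit 0) pn))))))))))))))))))))))) :=
  Cl.node (nat_lit 0x20000c) (nat_lit 2) (by decide +kernel) (ClAll.succ (ClAll.succ ClAll.zero n184) s13)

def n230 : Cl (O (nat_lit 2)) (R (nat_lit 14353))
    (p (nat_lit 0xc9) (nat_lit 1) (p (nat_lit 0x81) (nat_lit 0) (p (nat_lit 0x101) (nat_lit 1) (p (nat_lit 0x119) (nat_lit 0) (p (nat_lit 0xd1) (nat_lit 0) (p (nat_lit 0x89) (nat_lit 0) (p (nat_lit 0x41) (nat_lit 0) (p (nat_lit 0x88090887069a) (nat_lit 0) (p (nat_lit 0x87870806861a) (nat_lit 0) (p (nat_lit 0x80000000070786058a) (nat_lit 0) (p (nat_lit 0x8787058502) (nat_lit 0) (p (nat_lit 0x8586850482) (nat_lit 0) (p (nat_lit 0x160014) (nat_lit 0) (p (nat_lit 0x160004) (nat_lit 0) (p (nat_lit 0x68612) (nat_lit 0) (p (nat_lit 0x50592) (nat_lit 0) (p (nat_lit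 0x40512) (nat_lit 0) (p (nat_lit 0x50312) (nat_lit 0) (p (nat_lit 0x38292) (nat_lit 0) (p (nat_lit 0x28212) (nat_lit 0) (p (nat_lit 0x38112) (nat_lit 0) (p (nat_lit 0x20092) (nat_lit 0) (p (nat_lit 0x10012) (nat_lit 0) pn))))))))))))))))))))))) :=
  Cl.node (nat_lit 0x20000c) (nat_lit 2) (by decide +kernel) (ClAll.succ (ClAll.succ ClAll.zero n185) s21)

def n231 : Cl (O (nat_lit 2)) (R (nat_lit 14353))
    (p (nat_lit 0xc1) (nat_lit 0) (p (nat_lit 0x81) (nat_lit 1) (p (nat_lit 0x101) (nat_lit 1) (p (nat_lit 0x119) (nat_lit 0) (p (nat_lit 0xd1) (nat_lit 0) (p (nat_lit 0x89) (nat_lit 0) (p (nat_lit 0x41) (nat_lit 0) (p (nat_lit 0x88090887069a) (nat_lit 0) (p (nat_lit 0x87870806861a) (nat_lit 0) (p (nat_lit 0x80000000070786058a) (nat_lit 0) (p (nat_lit 0x8787058502) (nat_lit 0) (p (nat_lit 0x8586850482) (nat_lit 0) (p (nat_lit 0x160014) (nat_lit 0) (p (nat_lit 0x160004) (nat_lit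 0) (p (nat_lit 0x68612) (nat_lit 0) (p (nat_lit 0x50592) (nat_lit 0) (p (nat_lit 0x40512) (nat_lit 0) (p (nat_lit 0x50312) (nat_lit 0) (p (nat_lit 0x38292) (nat_lit 0) (p (nat_lit 0x28212) (nat_lit 0) (p (nat_lit 0x38112) (nat_lit 0) (p (nat_lit 0x20092) (nat_lit 0) (p (nat_lit 0x10012) (nat_lit 0) pn))))))))))))))))))))))) :=
  Cl.node (nat_lit 0xc9) (nat_lit 2) (by decide +kernel) (ClAll.succ (ClAll.succ ClAll.zero n186) n187)

def n232 : Cl (O (nat_lit 2)) (R (nat_lit 14353))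
    (p (nat_lit 0x109) (nat_lit 1) (p (nat_lit 0xc9) (nat_lit 1) (p (nat_lit 0xc1) (nat_lit 0) (p (nat_lit 0x119) (nat_lit 1) (p (nat_lit 0xd1) (nat_lit 0) (p (nat_lit 0x89) (nat_lit 0) (p (nat_lit 0x41) (nat_lit 0) (p (nat_lit 0x88090887069a) (nat_lit 0) (p (nat_lit 0x87870806861a) (nat_lit 0) (p (nat_lit 0x80000000070786058a) (nat_lit 0) (p (nat_lit 0x8787058502) (nat_lit 0) (p (nat_lit 0x8586850482) (nat_lit 0) (p (nat_lit 0x160014) (nat_lit 0) (p (nat_lit 0x160004) (nat_lit 0) (p (nat_lit 0x68612) (nat_lit 0) (p (nat_lit 0x50592) (nat_lit 0) (p (nat_lit 0x40512) (nat_lit 0) (p (nat_lit 0x50312) (nat_lit 0) (p (nat_lit 0x38292) (nat_lit 0) (p (nat_lit 0x28212) (nat_lit 0) (p (nat_lit 0x38112) (nat_lit 0) (p (nat_lit 0x20092) (nat_lit 0) (p (nat_lit 0x10012) (nat_lit 0) pn))))))))))))))))))))))) :=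
  Cl.node (nat_lit 0x20000c) (nat_lit 2) (by decide +kernel) (ClAll.succ (ClAll.succ ClAll.zero n188) s39)

def n233 : Cl (O (nat_lit 2)) (R (nat_lit 14353))
    (p (nat_lit 0x109) (nat_lit 1) (p (nat_lit 0x81) (nat_lit 0) (p (nat_lit 0xc1) (nat_lit 1) (p (nat_lit 0x119) (nat_lit 1) (p (nat_lit 0xd1) (nat_lit 0) (p (nat_lit 0x89) (nat_lit 0) (p (nat_lit 0x41) (nat_lit 0) (p (nat_lit 0x88090887069a) (nat_lit 0) (p (nat_lit 0x87870806861a) (nat_lit 0) (p (nat_lit 0x80000000070786058a) (nat_lit 0) (p (nat_lit 0x8787058502) (nat_lit 0) (p (nat_lit 0x8586850482) (nat_lit 0) (p (nat_lit 0x160014) (nat_lit 0) (p (nat_lit 0x160004) (nat_lit 0) (p (nat_lit 0x68612) (nat_lit 0) (p (nat_lit 0x50592) (nat_lit 0) (p (nat_lit 0x40512) (nat_lit 0) (p (nat_lit 0x50312) (nat_lit 0) (p (nat_lit 0x38292) (nat_lit 0) (p (nat_lit 0x28212) (nat_lit 0) (p (nat_lit 0x38112) (nat_lit 0) (p (nat_lit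 0x20092) (nat_lit 0) (p (nat_lit 0x10012) (nat_lit 0) pn))))))))))))))))))))))) :=
  Cl.node (nat_lit 0x20000c) (nat_lit 2) (by decide +kernel) (ClAll.succ (ClAll.succ ClAll.zero s41) s42)

def n234 : Cl (O (nat_lit 2)) (R (nat_lit 14353))
    (p (nat_lit 0x101) (nat_lit 0) (p (nat_lit 0x81) (nat_lit 1) (p (nat_lit 0xc1) (nat_lit 1) (p (nat_lit 0x119) (nat_lit 1) (p (nat_lit 0xd1) (nat_lit 0) (p (nat_lit 0x89) (nat_lit 0) (p (nat_lit 0x41) (nat_lit 0) (p (nat_lit 0x88090887069a) (nat_lit 0) (p (nat_lit 0x87870806861a) (nat_lit 0) (p (nat_lit 0x80000000070786058a) (nat_lit 0) (p (nat_lit 0x8787058502) (nat_lit 0) (p (nat_lit 0x8586850482) (nat_lit 0) (p (nat_lit 0x160014) (nat_lit 0) (p (nat_lit 0x160004) (nat_lit 0) (p (nat_lit 0x68612) (nat_lit 0) (p (nat_lit 0x50592) (nat_lit 0) (p (nat_lit 0x40512) (nat_lit 0) (p (nat_lit 0x50312) (nat_lit 0) (p (nat_lit 0x38292) (nat_lit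 0) (p (nat_lit 0x28212) (nat_lit 0) (p (nat_lit 0x38112) (nat_lit 0) (p (nat_lit 0x20092) (nat_lit 0) (p (nat_lit 0x10012) (nat_lit 0) pn))))))))))))))))))))))) :=
  Cl.node (nat_lit 0x109) (nat_lit 2) (by decide +kernel) (ClAll.succ (ClAll.succ ClAll.zero n189) n190)

def n235 : Cl (O (nat_lit 2)) (R (nat_lit 14353))
    (p (nat_lit 0x20000c) (nat_lit 0) (p (nat_lit 0x109) (nat_lit 1) (p (nat_lit 0x101) (nat_lit 0) (p (nat_lit 0x111) (nat_lit 0) (p (nat_lit 0xd1) (nat_lit 1) (p (nat_lit 0x89) (nat_lit 0) (p (nat_lit 0x41) (nat_lit 0) (p (nat_lit 0x88090887069a) (nat_lit 0) (p (nat_lit 0x87870806861a) (nat_lit 0) (p (nat_lit 0x80000000070786058a) (nat_lit 0) (p (nat_lit 0x8787058502) (nat_lit 0) (p (nat_lit 0x8586850482) (nat_lit 0) (p (nat_lit 0x160014) (nat_lit 0) (p (nat_lit 0x160004) (nat_lit 0) (p (nat_lit 0x68612) (nat_lit 0) (p (nat_lit 0x50592) (nat_lit 0) (p (nat_lit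 0x40512) (nat_lit 0) (p (nat_lit 0x50312) (nat_lit 0) (p (nat_lit 0x38292) (nat_lit 0) (p (nat_lit 0x28212) (nat_lit 0) (p (nat_lit 0x38112) (nat_lit 0) (p (nat_lit 0x20092) (nat_lit 0) (p (nat_lit 0x10012) (nat_lit 0) pn))))))))))))))))))))))) :=
  Cl.node (nat_lit 0xc1) (nat_lit 2) (by decide +kernel) (ClAll.succ (ClAll.succ ClAll.zero s55) n191)

def n236 : Cl (O (nat_lit 2)) (R (nat_lit 14353))
    (p (nat_lit 0x20000c) (nat_lit 0) (p (nat_lit 0x81) (nat_lit 0) (p (nat_lit 0x101) (nat_lit 1) (p (nat_lit 0x111) (nat_lit 0) (p (nat_lit 0xd1) (nat_lit 1) (p (nat_lit 0x89) (nat_lit 0) (p (nat_lit 0x41) (nat_lit 0) (p (nat_lit 0x88090887069a) (nat_lit 0) (p (nat_lit 0x87870806861a) (nat_lit 0) (p (nat_lit 0x80000000070786058a) (nat_lit 0) (p (nat_lit 0x8787058502) (nat_lit 0) (p (nat_lit 0x8586850482) (nat_lit 0) (p (nat_lit 0x160014) (nat_lit 0) (p (nat_lit 0x160004) (nat_lit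 0) (p (nat_lit 0x68612) (nat_lit 0) (p (nat_lit 0x50592) (nat_lit 0) (p (nat_lit 0x40512) (nat_lit 0) (p (nat_lit 0x50312) (nat_lit 0) (p (nat_lit 0x38292) (nat_lit 0) (p (nat_lit 0x28212) (nat_lit 0) (p (nat_lit 0x38112) (nat_lit 0) (p (nat_lit 0x20092) (nat_lit 0) (p (nat_lit 0x10012) (nat_lit 0) pn))))))))))))))))))))))) :=
  Cl.node (nat_lit 0x119) (nat_lit 2) (by decide +kernel) (ClAll.succ (ClAll.succ ClAll.zero n192) s63)

def n237 : Cl (O (nat_lit 2)) (R (nat_lit 14353))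
    (p (nat_lit 0xc1) (nat_lit 0) (p (nat_lit 0x81) (nat_lit 1) (p (nat_lit 0x101) (nat_lit 1) (p (nat_lit 0x111) (nat_lit 0) (p (nat_lit 0xd1) (nat_lit 1) (p (nat_lit 0x89) (nat_lit 0) (p (nat_lit 0x41) (nat_lit 0) (p (nat_lit 0x88090887069a) (nat_lit 0) (p (nat_lit 0x87870806861a) (nat_lit 0) (p (nat_lit 0x80000000070786058a) (nat_lit 0) (p (nat_lit 0x8787058502) (nat_lit 0) (p (nat_lit 0x8586850482) (nat_lit 0) (p (nat_lit 0x160014) (nat_lit 0) (p (nat_lit 0x160004) (nat_lit 0) (p (nat_lit 0x68612) (nat_lit 0) (p (nat_lit 0x50592) (nat_lit 0) (p (nat_lit 0x40512) (nat_lit 0) (p (nat_lit 0x50312) (nat_lit 0) (p (nat_lit 0x38292) (nat_lit 0) (p (nat_lit 0x28212) (nat_lit 0) (p (nat_lit 0x38112) (nat_lit 0) (p (nat_lit 0x20092) (nat_lit 0) (p (nat_lit 0x10012) (nat_lit 0) pn))))))))))))))))))))))) :=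
  Cl.node (nat_lit 0x20000c) (nat_lit 2) (by decide +kernel) (ClAll.succ (ClAll.succ ClAll.zero n193) s71)

def n238 : Cl (O (nat_lit 2)) (R (nat_lit 14353))
    (p (nat_lit 0x101) (nat_lit 0) (p (nat_lit 0xc1) (nat_lit 1) (p (nat_lit 0x81) (nat_lit 1) (p (nat_lit 0x111) (nat_lit 1) (p (nat_lit 0xd1) (nat_lit 1) (p (nat_lit 0x89) (nat_lit 0) (p (nat_lit 0x41) (nat_lit 0) (p (nat_lit 0x88090887069a) (nat_lit 0) (p (nat_lit 0x87870806861a) (nat_lit 0) (p (nat_lit 0x80000000070786058a) (nat_lit 0) (p (nat_lit 0x8787058502) (nat_lit 0) (p (nat_lit 0x8586850482) (nat_lit 0) (p (nat_lit 0x160014) (nat_lit 0) (p (nat_lit 0x160004) (nat_lit 0) (p (nat_lit 0x68612) (nat_lit 0) (p (nat_lit 0x50592) (nat_lit 0) (p (nat_lit 0x40512) (nat_lit 0) (p (nat_lit 0x50312) (nat_lit 0) (p (nat_lit 0x38292) (nat_lit 0) (p (nat_lit 0x28212) (nat_lit 0) (p (nat_lit 0x38112) (nat_lit 0) (p (nat_lit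 0x20092) (nat_lit 0) (p (nat_lit 0x10012) (nat_lit 0) pn))))))))))))))))))))))) :=
  Cl.node (nat_lit 0x20000c) (nat_lit 2) (by decide +kernel) (ClAll.succ (ClAll.succ ClAll.zero n194) s78)

def n239 : Cl (O (nat_lit 2)) (R (nat_lit 14353))
    (p (nat_lit 0x111) (nat_lit 1) (p (nat_lit 0x109) (nat_lit 0) (p (nat_lit 0x101) (nat_lit 0) (p (nat_lit 0x119) (nat_lit 0) (p (nat_lit 0xc9) (nat_lit 0) (p (nat_lit 0x89) (nat_lit 1) (p (nat_lit 0x41) (nat_lit 0) (p (nat_lit 0x88090887069a) (nat_lit 0) (p (nat_lit 0x87870806861a) (nat_lit 0) (p (nat_lit 0x80000000070786058a) (nat_lit 0) (p (nat_lit 0x8787058502) (nat_lit 0) (p (nat_lit 0x8586850482) (nat_lit 0) (p (nat_lit 0x160014) (nat_lit 0) (p (nat_lit 0x160004) (nat_lit 0) (p (nat_lit 0x68612) (nat_lit 0) (p (nat_lit 0x50592) (nat_lit 0) (p (nat_lit 0x40512) (nat_lit 0) (p (nat_lit 0x50312) (nat_lit 0) (p (nat_lit 0x38292) (nat_lit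 0) (p (nat_lit 0x28212) (nat_lit 0) (p (nat_lit 0x38112) (nat_lit 0) (p (nat_lit 0x20092) (nat_lit 0) (p (nat_lit 0x10012) (nat_lit 0) pn))))))))))))))))))))))) :=
  Cl.node (nat_lit 0xd1) (nat_lit 2) (by decide +kernel) (ClAll.succ (ClAll.succ ClAll.zero s81) n195)

def n240 : Cl (O (nat_lit 2)) (R (nat_lit 14353))
    (p (nat_lit 0xd1) (nat_lit 0) (p (nat_lit 0x109) (nat_lit 1) (p (nat_lit 0x101) (nat_lit 0) (p (nat_lit 0x119) (nat_lit 0) (p (nat_lit 0xc9) (nat_lit 0) (p (nat_lit 0x89) (nat_lit 1) (p (nat_lit 0x41) (nat_lit 0) (p (nat_lit 0x88090887069a) (nat_lit 0) (p (nat_lit 0x87870806861a) (nat_lit 0) (p (nat_lit 0x80000000070786058a) (nat_lit 0) (p (nat_lit 0x8787058502) (nat_lit 0) (p (nat_lit 0x8586850482) (nat_lit 0) (p (nat_lit 0x160014) (nat_lit 0) (p (nat_lit 0x160004) (nat_lit 0) (p (nat_lit 0x68612) (nat_lit 0) (p (nat_lit 0x50592) (nat_lit 0) (p (nat_lit 0x40512)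 (nat_lit 0) (p (nat_lit 0x50312) (nat_lit 0) (p (nat_lit 0x38292) (nat_lit 0) (p (nat_lit 0x28212) (nat_lit 0) (p (nat_lit 0x38112) (nat_lit 0) (p (nat_lit 0x20092) (nat_lit 0) (p (nat_lit 0x10012) (nat_lit 0) pn))))))))))))))))))))))) :=
  Cl.node (nat_lit 0x20000c) (nat_lit 2) (by decide +kernel) (ClAll.succ (ClAll.succ ClAll.zero n196) s88)

def n241 : Cl (O (nat_lit 2)) (R (nat_lit 14353))
    (p (nat_lit 0xd1) (nat_lit 1) (p (nat_lit 0x109) (nat_lit 1) (p (nat_lit 0x101) (nat_lit 0) (p (nat_lit 0x119) (nat_lit 0) (p (nat_lit 0xc9) (nat_lit 0) (p (nat_lit 0x89) (nat_lit 1) (p (nat_lit 0x41) (nat_lit 0) (p (nat_lit 0x88090887069a) (nat_lit 0) (p (nat_lit 0x87870806861a) (nat_lit 0) (p (nat_lit 0x80000000070786058a) (nat_lit 0) (p (nat_lit 0x8787058502) (nat_lit 0) (p (nat_lit 0x8586850482) (nat_lit 0) (p (nat_lit 0x160014) (nat_lit 0) (p (nat_lit 0x160004) (nat_lit 0)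 (p (nat_lit 0x68612) (nat_lit 0) (p (nat_lit 0x50592) (nat_lit 0) (p (nat_lit 0x40512) (nat_lit 0) (p (nat_lit 0x50312) (nat_lit 0) (p (nat_lit 0x38292) (nat_lit 0) (p (nat_lit 0x28212) (nat_lit 0) (p (nat_lit 0x38112) (nat_lit 0) (p (nat_lit 0x20092) (nat_lit 0) (p (nat_lit 0x10012) (nat_lit 0) pn))))))))))))))))))))))) :=
  Cl.node (nat_lit 0x20000c) (nat_lit 2) (by decide +kernel) (ClAll.succ (ClAll.succ ClAll.zero n197) s112)

def n242 : Cl (O (nat_lit 2)) (R (nat_lit 14353))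
    (p (nat_lit 0xd1) (nat_lit 0) (p (nat_lit 0xc1) (nat_lit 0) (p (nat_lit 0x101) (nat_lit 1) (p (nat_lit 0x119) (nat_lit 0) (p (nat_lit 0xc9) (nat_lit 0) (p (nat_lit 0x89) (nat_lit 1) (p (nat_lit 0x41) (nat_lit 0) (p (nat_lit 0x88090887069a) (nat_lit 0) (p (nat_lit 0x87870806861a) (nat_lit 0) (p (nat_lit 0x80000000070786058a) (nat_lit 0) (p (nat_lit 0x8787058502) (nat_lit 0) (p (nat_lit 0x8586850482) (nat_lit 0) (p (nat_lit 0x160014) (nat_lit 0) (p (nat_lit 0x160004) (nat_lit 0) (p (nat_lit 0x68612) (nat_lit 0) (p (nat_lit 0x50592) (nat_lit 0) (p (nat_lit 0x40512) (nat_lit 0) (p (nat_lit 0x50312) (nat_lit 0) (p (nat_lit 0x38292) (nat_lit 0) (p (nat_lit 0x28212) (nat_lit 0) (p (nat_lit 0x38112) (nat_lit 0) (p (nat_lit 0x20092) (nat_lit 0) (p (nat_lit 0x10012) (nat_lit 0) pn))))))))))))))))))))))) :=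
  Cl.node (nat_lit 0x20000c) (nat_lit 2) (by decide +kernel) (ClAll.succ (ClAll.succ ClAll.zero n198) s117)

def n243 : Cl (O (nat_lit 2)) (R (nat_lit 14353))
    (p (nat_lit 0xd1) (nat_lit 1) (p (nat_lit 0xc1) (nat_lit 0) (p (nat_lit 0x101) (nat_lit 1) (p (nat_lit 0x119) (nat_lit 0) (p (nat_lit 0xc9) (nat_lit 0) (p (nat_lit 0x89) (nat_lit 1) (p (nat_lit 0x41) (nat_lit 0) (p (nat_lit 0x88090887069a) (nat_lit 0) (p (nat_lit 0x87870806861a) (nat_lit 0) (p (nat_lit 0x80000000070786058a) (nat_lit 0) (p (nat_lit 0x8787058502) (nat_lit 0) (p (nat_lit 0x8586850482) (nat_lit 0) (p (nat_lit 0x160014) (nat_lit 0) (p (nat_lit 0x160004) (nat_lit 0) (p (nat_lit 0x68612) (nat_lit 0) (p (nat_lit 0x50592) (nat_lit 0) (p (nat_lit 0x40512) (nat_lit 0) (p (nat_lit 0x50312) (nat_lit 0) (p (nat_lit 0x38292) (nat_lit 0) (p (nat_lit 0x28212) (nat_lit 0) (p (nat_lit 0x38112) (nat_lit 0) (p (nat_lit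 0x20092) (nat_lit 0) (p (nat_lit 0x10012) (nat_lit 0) pn))))))))))))))))))))))) :=
  Cl.node (nat_lit 0x20000c) (nat_lit 2) (by decide +kernel) (ClAll.succ (ClAll.succ ClAll.zero n199) s133)

def n244 : Cl (O (nat_lit 2)) (R (nat_lit 14353))
    (p (nat_lit 0x111) (nat_lit 1) (p (nat_lit 0xd1) (nat_lit 1) (p (nat_lit 0xc1) (nat_lit 0) (p (nat_lit 0x119) (nat_lit 1) (p (nat_lit 0xc9) (nat_lit 0) (p (nat_lit 0x89) (nat_lit 1) (p (nat_lit 0x41) (nat_lit 0) (p (nat_lit 0x88090887069a) (nat_lit 0) (p (nat_lit 0x87870806861a) (nat_lit 0) (p (nat_lit 0x80000000070786058a) (nat_lit 0) (p (nat_lit 0x8787058502) (nat_lit 0) (p (nat_lit 0x8586850482) (nat_lit 0) (p (nat_lit 0x160014) (nat_lit 0) (p (nat_lit 0x160004) (nat_lit 0) (p (nat_lit 0x68612) (nat_lit 0) (p (nat_lit 0x50592) (nat_lit 0) (p (nat_lit 0x40512) (nat_lit 0) (p (nat_lit 0x50312) (nat_lit 0) (p (nat_lit 0x38292) (nat_lit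 0) (p (nat_lit 0x28212) (nat_lit 0) (p (nat_lit 0x38112) (nat_lit 0) (p (nat_lit 0x20092) (nat_lit 0) (p (nat_lit 0x10012) (nat_lit 0) pn))))))))))))))))))))))) :=
  Cl.node (nat_lit 0x20000c) (nat_lit 2) (by decide +kernel) (ClAll.succ (ClAll.succ ClAll.zero n200) s140)

def n245 : Cl (O (nat_lit 2)) (R (nat_lit 14353))
    (p (nat_lit 0x111) (nat_lit 0) (p (nat_lit 0x101) (nat_lit 0) (p (nat_lit 0xc1) (nat_lit 1) (p (nat_lit 0x119) (nat_lit 1) (p (nat_lit 0xc9) (nat_lit 0) (p (nat_lit 0x89) (nat_lit 1) (p (nat_lit 0x41) (nat_lit 0) (p (nat_lit 0x88090887069a) (nat_lit 0) (p (nat_lit 0x87870806861a) (nat_lit 0) (p (nat_lit 0x80000000070786058a) (nat_lit 0) (p (nat_lit 0x8787058502) (nat_lit 0) (p (nat_lit 0x8586850482) (nat_lit 0) (p (nat_lit 0x160014) (nat_lit 0) (p (nat_lit 0x160004) (nat_lit 0) (p (nat_lit 0x68612) (nat_lit 0) (p (nat_lit 0x50592) (nat_lit 0) (p (nat_lit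 0x40512) (nat_lit 0) (p (nat_lit 0x50312) (nat_lit 0) (p (nat_lit 0x38292) (nat_lit 0) (p (nat_lit 0x28212) (nat_lit 0) (p (nat_lit 0x38112) (nat_lit 0) (p (nat_lit 0x20092) (nat_lit 0) (p (nat_lit 0x10012) (nat_lit 0) pn))))))))))))))))))))))) :=
  Cl.node (nat_lit 0x20000c) (nat_lit 2) (by decide +kernel) (ClAll.succ (ClAll.succ ClAll.zero n201) s143)

def n246 : Cl (O (nat_lit 2)) (R (nat_lit 14353))
    (p (nat_lit 0x111) (nat_lit 1) (p (nat_lit 0x101) (nat_lit 0) (p (nat_lit 0xc1) (nat_lit 1) (p (nat_lit 0x119) (nat_lit 1) (p (nat_lit 0xc9) (nat_lit 0) (p (nat_lit 0x89) (nat_lit 1) (p (nat_lit 0x41) (nat_lit 0) (p (nat_lit 0x88090887069a) (nat_lit 0) (p (nat_lit 0x87870806861a) (nat_lit 0) (p (nat_lit 0x80000000070786058a) (nat_lit 0) (p (nat_lit 0x8787058502) (nat_lit 0) (p (nat_lit 0x8586850482) (nat_lit 0) (p (nat_lit 0x160014) (nat_lit 0) (p (nat_lit 0x160004) (nat_lit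 0) (p (nat_lit 0x68612) (nat_lit 0) (p (nat_lit 0x50592) (nat_lit 0) (p (nat_lit 0x40512) (nat_lit 0) (p (nat_lit 0x50312) (nat_lit 0) (p (nat_lit 0x38292) (nat_lit 0) (p (nat_lit 0x28212) (nat_lit 0) (p (nat_lit 0x38112) (nat_lit 0) (p (nat_lit 0x20092) (nat_lit 0) (p (nat_lit 0x10012) (nat_lit 0) pn))))))))))))))))))))))) :=
  Cl.node (nat_lit 0x20000c) (nat_lit 2) (by decide +kernel) (ClAll.succ (ClAll.succ ClAll.zero n202) s152)

def n247 : Cl (O (nat_lit 2)) (R (nat_lit 14353))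
    (p (nat_lit 0x89) (nat_lit 0) (p (nat_lit 0x109) (nat_lit 1) (p (nat_lit 0x101) (nat_lit 0) (p (nat_lit 0x119) (nat_lit 0) (p (nat_lit 0xd1) (nat_lit 0) (p (nat_lit 0x81) (nat_lit 0) (p (nat_lit 0x41) (nat_lit 1) (p (nat_lit 0x88090887069a) (nat_lit 0) (p (nat_lit 0x87870806861a) (nat_lit 0) (p (nat_lit 0x80000000070786058a) (nat_lit 0) (p (nat_lit 0x8787058502) (nat_lit 0) (p (nat_lit 0x8586850482) (nat_lit 0) (p (nat_lit 0x160014) (nat_lit 0) (p (nat_lit 0x160004) (nat_lit 0) (p (nat_lit 0x68612) (nat_lit 0) (p (nat_lit 0x50592) (nat_lit 0) (p (nat_lit 0x40512) (nat_lit 0) (p (nat_lit 0x50312) (nat_lit 0) (p (nat_lit 0x38292) (nat_lit 0) (p (nat_lit 0x28212) (nat_lit 0) (p (nat_lit 0x38112) (nat_lit 0) (p (nat_lit 0x20092) (nat_lit 0) (p (nat_lit 0x10012) (nat_lit 0) pn))))))))))))))))))))))) :=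
  Cl.node (nat_lit 0x20000c) (nat_lit 2) (by decide +kernel) (ClAll.succ (ClAll.succ ClAll.zero n203) s167)

def n248 : Cl (O (nat_lit 2)) (R (nat_lit 14353))
    (p (nat_lit 0x89) (nat_lit 1) (p (nat_lit 0x109) (nat_lit 1) (p (nat_lit 0x101) (nat_lit 0) (p (nat_lit 0x119) (nat_lit 0) (p (nat_lit 0xd1) (nat_lit 0) (p (nat_lit 0x81) (nat_lit 0) (p (nat_lit 0x41) (nat_lit 1) (p (nat_lit 0x88090887069a) (nat_lit 0) (p (nat_lit 0x87870806861a) (nat_lit 0) (p (nat_lit 0x80000000070786058a) (nat_lit 0) (p (nat_lit 0x8787058502) (nat_lit 0) (p (nat_lit 0x8586850482) (nat_lit 0) (p (nat_lit 0x160014) (nat_lit 0) (p (nat_lit 0x160004) (nat_lit 0) (p (nat_lit 0x68612) (nat_lit 0) (p (nat_lit 0x50592) (nat_lit 0) (p (nat_lit 0x40512) (nat_lit 0) (p (nat_lit 0x50312) (nat_lit 0) (p (nat_lit 0x38292) (nat_lit 0) (p (nat_lit 0x28212) (nat_lit 0) (p (nat_lit 0x38112) (nat_lit 0) (p (nat_lit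 0x20092) (nat_lit 0) (p (nat_lit 0x10012) (nat_lit 0) pn))))))))))))))))))))))) :=
  Cl.node (nat_lit 0xc9) (nat_lit 2) (by decide +kernel) (ClAll.succ (ClAll.succ ClAll.zero n204) s176)

def n249 : Cl (O (nat_lit 2)) (R (nat_lit 14353))
    (p (nat_lit 0x89) (nat_lit 0) (p (nat_lit 0xc1) (nat_lit 0) (p (nat_lit 0x101) (nat_lit 1) (p (nat_lit 0x119) (nat_lit 0) (p (nat_lit 0xd1) (nat_lit 0) (p (nat_lit 0x81) (nat_lit 0) (p (nat_lit 0x41) (nat_lit 1) (p (nat_lit 0x88090887069a) (nat_lit 0) (p (nat_lit 0x87870806861a) (nat_lit 0) (p (nat_lit 0x80000000070786058a) (nat_lit 0) (p (nat_lit 0x8787058502) (nat_lit 0) (p (nat_lit 0x8586850482) (nat_lit 0) (p (nat_lit 0x160014) (nat_lit 0) (p (nat_lit 0x160004) (nat_lit 0) (p (nat_lit 0x68612) (nat_lit 0) (p (nat_lit 0x50592) (nat_lit 0) (p (nat_lit 0x40512) (nat_lit 0) (p (nat_lit 0x50312) (nat_lit 0) (p (nat_lit 0x38292) (nat_lit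 0) (p (nat_lit 0x28212) (nat_lit 0) (p (nat_lit 0x38112) (nat_lit 0) (p (nat_lit 0x20092) (nat_lit 0) (p (nat_lit 0x10012) (nat_lit 0) pn))))))))))))))))))))))) :=
  Cl.node (nat_lit 0x20000c) (nat_lit 2) (by decide +kernel) (ClAll.succ (ClAll.succ ClAll.zero n205) s179)

def n250 : Cl (O (nat_lit 2)) (R (nat_lit 14353))
    (p (nat_lit 0x89) (nat_lit 1) (p (nat_lit 0xc1) (nat_lit 0) (p (nat_lit 0x101) (nat_lit 1) (p (nat_lit 0x119) (nat_lit 0) (p (nat_lit 0xd1) (nat_lit 0) (p (nat_lit 0x81) (nat_lit 0) (p (nat_lit 0x41) (nat_lit 1) (p (nat_lit 0x88090887069a) (nat_lit 0) (p (nat_lit 0x87870806861a) (nat_lit 0) (p (nat_lit 0x80000000070786058a) (nat_lit 0) (p (nat_lit 0x8787058502) (nat_lit 0) (p (nat_lit 0x8586850482) (nat_lit 0) (p (nat_lit 0x160014) (nat_lit 0) (p (nat_lit 0x160004) (nat_lit 0) (p (nat_lit 0x68612) (nat_lit 0) (p (nat_lit 0x50592) (nat_lit 0) (p (nat_lit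 0x40512) (nat_lit 0) (p (nat_lit 0x50312) (nat_lit 0) (p (nat_lit 0x38292) (nat_lit 0) (p (nat_lit 0x28212) (nat_lit 0) (p (nat_lit 0x38112) (nat_lit 0) (p (nat_lit 0x20092) (nat_lit 0) (p (nat_lit 0x10012) (nat_lit 0) pn))))))))))))))))))))))) :=
  Cl.node (nat_lit 0xc9) (nat_lit 2) (by decide +kernel) (ClAll.succ (ClAll.succ ClAll.zero n206) n207)

def n251 : Cl (O (nat_lit 2)) (R (nat_lit 14353))
    (p (nat_lit 0x89) (nat_lit 0) (p (nat_lit 0xc1) (nat_lit 1) (p (nat_lit 0x101) (nat_lit 1) (p (nat_lit 0x119) (nat_lit 0) (p (nat_lit 0xd1) (nat_lit 0) (p (nat_lit 0x81) (nat_lit 0) (p (nat_lit 0x41) (nat_lit 1) (p (nat_lit 0x88090887069a) (nat_lit 0) (p (nat_lit 0x87870806861a) (nat_lit 0) (p (nat_lit 0x80000000070786058a) (nat_lit 0) (p (nat_lit 0x8787058502) (nat_lit 0) (p (nat_lit 0x8586850482) (nat_lit 0) (p (nat_lit 0x160014) (nat_lit 0) (p (nat_lit 0x160004) (nat_lit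 0) (p (nat_lit 0x68612) (nat_lit 0) (p (nat_lit 0x50592) (nat_lit 0) (p (nat_lit 0x40512) (nat_lit 0) (p (nat_lit 0x50312) (nat_lit 0) (p (nat_lit 0x38292) (nat_lit 0) (p (nat_lit 0x28212) (nat_lit 0) (p (nat_lit 0x38112) (nat_lit 0) (p (nat_lit 0x20092) (nat_lit 0) (p (nat_lit 0x10012) (nat_lit 0) pn))))))))))))))))))))))) :=
  Cl.node (nat_lit 0x20000c) (nat_lit 2) (by decide +kernel) (ClAll.succ (ClAll.succ ClAll.zero s193) s194)

def n252 : Cl (O (nat_lit 2)) (R (nat_lit 14353))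
    (p (nat_lit 0x89) (nat_lit 1) (p (nat_lit 0xc1) (nat_lit 1) (p (nat_lit 0x101) (nat_lit 1) (p (nat_lit 0x119) (nat_lit 0) (p (nat_lit 0xd1) (nat_lit 0) (p (nat_lit 0x81) (nat_lit 0) (p (nat_lit 0x41) (nat_lit 1) (p (nat_lit 0x88090887069a) (nat_lit 0) (p (nat_lit 0x87870806861a) (nat_lit 0) (p (nat_lit 0x80000000070786058a) (nat_lit 0) (p (nat_lit 0x8787058502) (nat_lit 0) (p (nat_lit 0x8586850482) (nat_lit 0) (p (nat_lit 0x160014) (nat_lit 0) (p (nat_lit 0x160004) (nat_lit 0) (p (nat_lit 0x68612) (nat_lit 0) (p (nat_lit 0x50592) (nat_lit 0) (p (nat_lit 0x40512) (nat_lit 0) (p (nat_lit 0x50312) (nat_lit 0) (p (nat_lit 0x38292) (nat_lit 0) (p (nat_lit 0x28212) (nat_lit 0) (p (nat_lit 0x38112) (nat_lit 0) (p (nat_lit 0x20092) (nat_lit 0) (p (nat_lit 0x10012) (nat_lit 0) pn))))))))))))))))))))))) :=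
  Cl.node (nat_lit 0x20000c) (nat_lit 2) (by decide +kernel) (ClAll.succ (ClAll.succ ClAll.zero n208) s201)

def n253 : Cl (O (nat_lit 2)) (R (nat_lit 14353))
    (p (nat_lit 0x89) (nat_lit 1) (p (nat_lit 0xc9) (nat_lit 1) (p (nat_lit 0xc1) (nat_lit 0) (p (nat_lit 0x119) (nat_lit 1) (p (nat_lit 0xd1) (nat_lit 0) (p (nat_lit 0x81) (nat_lit 0) (p (nat_lit 0x41) (nat_lit 1) (p (nat_lit 0x88090887069a) (nat_lit 0) (p (nat_lit 0x87870806861a) (nat_lit 0) (p (nat_lit 0x80000000070786058a) (nat_lit 0) (p (nat_lit 0x8787058502) (nat_lit 0) (p (nat_lit 0x8586850482) (nat_lit 0) (p (nat_lit 0x160014) (nat_lit 0) (p (nat_lit 0x160004) (nat_lit 0) (p (nat_lit 0x68612) (nat_lit 0) (p (nat_lit 0x50592) (nat_lit 0) (p (nat_lit 0x40512) (nat_lit 0) (p (nat_lit 0x50312) (nat_lit 0) (p (nat_lit 0x38292) (nat_lit 0) (p (nat_lit 0x28212) (nat_lit 0) (p (nat_lit 0x38112) (nat_lit 0) (p (nat_lit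 0x20092) (nat_lit 0) (p (nat_lit 0x10012) (nat_lit 0) pn))))))))))))))))))))))) :=
  Cl.node (nat_lit 0x109) (nat_lit 2) (by decide +kernel) (ClAll.succ (ClAll.succ ClAll.zero n209) n210)

def n254 : Cl (O (nat_lit 2)) (R (nat_lit 14353))
    (p (nat_lit 0x89) (nat_lit 1) (p (nat_lit 0x101) (nat_lit 0) (p (nat_lit 0xc1) (nat_lit 1) (p (nat_lit 0x119) (nat_lit 1) (p (nat_lit 0xd1) (nat_lit 0) (p (nat_lit 0x81) (nat_lit 0) (p (nat_lit 0x41) (nat_lit 1) (p (nat_lit 0x88090887069a) (nat_lit 0) (p (nat_lit 0x87870806861a) (nat_lit 0) (p (nat_lit 0x80000000070786058a) (nat_lit 0) (p (nat_lit 0x8787058502) (nat_lit 0) (p (nat_lit 0x8586850482) (nat_lit 0) (p (nat_lit 0x160014) (nat_lit 0) (p (nat_lit 0x160004) (nat_lit 0) (p (nat_lit 0x68612) (nat_lit 0) (p (nat_lit 0x50592) (nat_lit 0) (p (nat_lit 0x40512) (nat_lit 0) (p (nat_lit 0x50312) (nat_lit 0) (p (nat_lit 0x38292) (nat_lit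 0) (p (nat_lit 0x28212) (nat_lit 0) (p (nat_lit 0x38112) (nat_lit 0) (p (nat_lit 0x20092) (nat_lit 0) (p (nat_lit 0x10012) (nat_lit 0) pn))))))))))))))))))))))) :=
  Cl.node (nat_lit 0x109) (nat_lit 2) (by decide +kernel) (ClAll.succ (ClAll.succ ClAll.zero n211) n212)

def n255 : Cl (O (nat_lit 2)) (R (nat_lit 14353))
    (p (nat_lit 0x89) (nat_lit 0) (p (nat_lit 0x101) (nat_lit 1) (p (nat_lit 0xc1) (nat_lit 1) (p (nat_lit 0x119) (nat_lit 1) (p (nat_lit 0xd1) (nat_lit 0) (p (nat_lit 0x81) (nat_lit 0) (p (nat_lit 0x41) (nat_lit 1) (p (nat_lit 0x88090887069a) (nat_lit 0) (p (nat_lit 0x87870806861a) (nat_lit 0) (p (nat_lit 0x80000000070786058a) (nat_lit 0) (p (nat_lit 0x8787058502) (nat_lit 0) (p (nat_lit 0x8586850482) (nat_lit 0) (p (nat_lit 0x160014) (nat_lit 0) (p (nat_lit 0x160004) (nat_lit 0) (p (nat_lit 0x68612) (nat_lit 0) (p (nat_lit 0x50592) (nat_lit 0) (p (nat_lit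 0x40512) (nat_lit 0) (p (nat_lit 0x50312) (nat_lit 0) (p (nat_lit 0x38292) (nat_lit 0) (p (nat_lit 0x28212) (nat_lit 0) (p (nat_lit 0x38112) (nat_lit 0) (p (nat_lit 0x20092) (nat_lit 0) (p (nat_lit 0x10012) (nat_lit 0) pn))))))))))))))))))))))) :=
  Cl.node (nat_lit 0x20000c) (nat_lit 2) (by decide +kernel) (ClAll.succ (ClAll.succ ClAll.zero n213) s228)

def n256 : Cl (O (nat_lit 2)) (R (nat_lit 14353))
    (p (nat_lit 0x89) (nat_lit 1) (p (nat_lit 0x101) (nat_lit 1) (p (nat_lit 0xc1) (nat_lit 1) (p (nat_lit 0x119) (nat_lit 1) (p (nat_lit 0xd1) (nat_lit 0) (p (nat_lit 0x81) (nat_lit 0) (p (nat_lit 0x41) (nat_lit 1) (p (nat_lit 0x88090887069a) (nat_lit 0) (p (nat_lit 0x87870806861a) (nat_lit 0) (p (nat_lit 0x80000000070786058a) (nat_lit 0) (p (nat_lit 0x8787058502) (nat_lit 0) (p (nat_lit 0x8586850482) (nat_lit 0) (p (nat_lit 0x160014) (nat_lit 0) (p (nat_lit 0x160004) (nat_lit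 0) (p (nat_lit 0x68612) (nat_lit 0) (p (nat_lit 0x50592) (nat_lit 0) (p (nat_lit 0x40512) (nat_lit 0) (p (nat_lit 0x50312) (nat_lit 0) (p (nat_lit 0x38292) (nat_lit 0) (p (nat_lit 0x28212) (nat_lit 0) (p (nat_lit 0x38112) (nat_lit 0) (p (nat_lit 0x20092) (nat_lit 0) (p (nat_lit 0x10012) (nat_lit 0) pn))))))))))))))))))))))) :=
  Cl.node (nat_lit 0x20000c) (nat_lit 2) (by decide +kernel) (ClAll.succ (ClAll.succ ClAll.zero n214) s235)

def n257 : Cl (O (nat_lit 2)) (R (nat_lit 14353))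
    (p (nat_lit 0x89) (nat_lit 1) (p (nat_lit 0x109) (nat_lit 1) (p (nat_lit 0x101) (nat_lit 0) (p (nat_lit 0x111) (nat_lit 0) (p (nat_lit 0xd1) (nat_lit 1) (p (nat_lit 0x81) (nat_lit 0) (p (nat_lit 0x41) (nat_lit 1) (p (nat_lit 0x88090887069a) (nat_lit 0) (p (nat_lit 0x87870806861a) (nat_lit 0) (p (nat_lit 0x80000000070786058a) (nat_lit 0) (p (nat_lit 0x8787058502) (nat_lit 0) (p (nat_lit 0x8586850482) (nat_lit 0) (p (nat_lit 0x160014) (nat_lit 0) (p (nat_lit 0x160004) (nat_lit 0) (p (nat_lit 0x68612) (nat_lit 0) (p (nat_lit 0x50592) (nat_lit 0) (p (nat_lit 0x40512) (nat_lit 0) (p (nat_lit 0x50312) (nat_lit 0) (p (nat_lit 0x38292) (nat_lit 0) (p (nat_lit 0x28212) (nat_lit 0) (p (nat_lit 0x38112) (nat_lit 0) (p (nat_lit 0x20092) (nat_lit 0) (p (nat_lit 0x10012) (nat_lit 0) pn))))))))))))))))))))))) :=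
  Cl.node (nat_lit 0xc9) (nat_lit 2) (by decide +kernel) (ClAll.succ (ClAll.succ ClAll.zero n215) s246)

def n258 : Cl (O (nat_lit 2)) (R (nat_lit 14353))
    (p (nat_lit 0x20000c) (nat_lit 0) (p (nat_lit 0x89) (nat_lit 0) (p (nat_lit 0x101) (nat_lit 1) (p (nat_lit 0x111) (nat_lit 0) (p (nat_lit 0xd1) (nat_lit 1) (p (nat_lit 0x81) (nat_lit 0) (p (nat_lit 0x41) (nat_lit 1) (p (nat_lit 0x88090887069a) (nat_lit 0) (p (nat_lit 0x87870806861a) (nat_lit 0) (p (nat_lit 0x80000000070786058a) (nat_lit 0) (p (nat_lit 0x8787058502) (nat_lit 0) (p (nat_lit 0x8586850482) (nat_lit 0) (p (nat_lit 0x160014) (nat_lit 0) (p (nat_lit 0x160004) (nat_lit 0) (p (nat_lit 0x68612) (nat_lit 0) (p (nat_lit 0x50592) (nat_lit 0) (p (nat_lit 0x40512) (nat_lit 0) (p (nat_lit 0x50312) (nat_lit 0) (p (nat_lit 0x38292) (nat_lit 0) (p (nat_lit 0x28212) (nat_lit 0) (p (nat_lit 0x38112) (nat_lit 0) (p (nat_lit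 0x20092) (nat_lit 0) (p (nat_lit 0x10012) (nat_lit 0) pn))))))))))))))))))))))) :=
  Cl.node (nat_lit 0xb0004) (nat_lit 2) (by decide +kernel) (ClAll.succ (ClAll.succ ClAll.zero n216) s251)

def n259 : Cl (O (nat_lit 2)) (R (nat_lit 14353))
    (p (nat_lit 0xc9) (nat_lit 0) (p (nat_lit 0x89) (nat_lit 1) (p (nat_lit 0x101) (nat_lit 1) (p (nat_lit 0x111) (nat_lit 0) (p (nat_lit 0xd1) (nat_lit 1) (p (nat_lit 0x81) (nat_lit 0) (p (nat_lit 0x41) (nat_lit 1) (p (nat_lit 0x88090887069a) (nat_lit 0) (p (nat_lit 0x87870806861a) (nat_lit 0) (p (nat_lit 0x80000000070786058a) (nat_lit 0) (p (nat_lit 0x8787058502) (nat_lit 0) (p (nat_lit 0x8586850482) (nat_lit 0) (p (nat_lit 0x160014) (nat_lit 0) (p (nat_lit 0x160004) (nat_lit 0) (p (nat_lit 0x68612) (nat_lit 0) (p (nat_lit 0x50592) (nat_lit 0) (p (nat_lit 0x40512) (nat_lit 0) (p (nat_lit 0x50312) (nat_lit 0) (p (nat_lit 0x38292) (nat_lit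 0) (p (nat_lit 0x28212) (nat_lit 0) (p (nat_lit 0x38112) (nat_lit 0) (p (nat_lit 0x20092) (nat_lit 0) (p (nat_lit 0x10012) (nat_lit 0) pn))))))))))))))))))))))) :=
  Cl.node (nat_lit 0x20000c) (nat_lit 2) (by decide +kernel) (ClAll.succ (ClAll.succ ClAll.zero n217) n218)

def n260 : Cl (O (nat_lit 2)) (R (nat_lit 14353))
    (p (nat_lit 0xc9) (nat_lit 1) (p (nat_lit 0x89) (nat_lit 1) (p (nat_lit 0x101) (nat_lit 1) (p (nat_lit 0x111) (nat_lit 0) (p (nat_lit 0xd1) (nat_lit 1) (p (nat_lit 0x81) (nat_lit 0) (p (nat_lit 0x41) (nat_lit 1) (p (nat_lit 0x88090887069a) (nat_lit 0) (p (nat_lit 0x87870806861a) (nat_lit 0) (p (nat_lit 0x80000000070786058a) (nat_lit 0) (p (nat_lit 0x8787058502) (nat_lit 0) (p (nat_lit 0x8586850482) (nat_lit 0) (p (nat_lit 0x160014) (nat_lit 0) (p (nat_lit 0x160004) (nat_lit 0) (p (nat_lit 0x68612) (nat_lit 0) (p (nat_lit 0x50592) (nat_lit 0) (p (nat_lit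 0x40512) (nat_lit 0) (p (nat_lit 0x50312) (nat_lit 0) (p (nat_lit 0x38292) (nat_lit 0) (p (nat_lit 0x28212) (nat_lit 0) (p (nat_lit 0x38112) (nat_lit 0) (p (nat_lit 0x20092) (nat_lit 0) (p (nat_lit 0x10012) (nat_lit 0) pn))))))))))))))))))))))) :=
  Cl.node (nat_lit 0x20000c) (nat_lit 2) (by decide +kernel) (ClAll.succ (ClAll.succ ClAll.zero n219) s267)

def n261 : Cl (O (nat_lit 2)) (R (nat_lit 14353))
    (p (nat_lit 0x109) (nat_lit 0) (p (nat_lit 0xc9) (nat_lit 1) (p (nat_lit 0x89) (nat_lit 1) (p (nat_lit 0x111) (nat_lit 1) (p (nat_lit 0xd1) (nat_lit 1) (p (nat_lit 0x81) (nat_lit 0) (p (nat_lit 0x41) (nat_lit 1) (p (nat_lit 0x88090887069a) (nat_lit 0) (p (nat_lit 0x87870806861a) (nat_lit 0) (p (nat_lit 0x80000000070786058a) (nat_lit 0) (p (nat_lit 0x8787058502) (nat_lit 0) (p (nat_lit 0x8586850482) (nat_lit 0) (p (nat_lit 0x160014) (nat_lit 0) (p (nat_lit 0x160004) (nat_lit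 0) (p (nat_lit 0x68612) (nat_lit 0) (p (nat_lit 0x50592) (nat_lit 0) (p (nat_lit 0x40512) (nat_lit 0) (p (nat_lit 0x50312) (nat_lit 0) (p (nat_lit 0x38292) (nat_lit 0) (p (nat_lit 0x28212) (nat_lit 0) (p (nat_lit 0x38112) (nat_lit 0) (p (nat_lit 0x20092) (nat_lit 0) (p (nat_lit 0x10012) (nat_lit 0) pn))))))))))))))))))))))) :=
  Cl.node (nat_lit 0x20000c) (nat_lit 2) (by decide +kernel) (ClAll.succ (ClAll.succ ClAll.zero n220) s274)

def n262 : Cl (O (nat_lit 2)) (R (nat_lit 14353))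
    (p (nat_lit 0x111) (nat_lit 1) (p (nat_lit 0x109) (nat_lit 0) (p (nat_lit 0x101) (nat_lit 0) (p (nat_lit 0x119) (nat_lit 0) (p (nat_lit 0xc1) (nat_lit 0) (p (nat_lit 0x81) (nat_lit 1) (p (nat_lit 0x41) (nat_lit 1) (p (nat_lit 0x88090887069a) (nat_lit 0) (p (nat_lit 0x87870806861a) (nat_lit 0) (p (nat_lit 0x80000000070786058a) (nat_lit 0) (p (nat_lit 0x8787058502) (nat_lit 0) (p (nat_lit 0x8586850482) (nat_lit 0) (p (nat_lit 0x160014) (nat_lit 0) (p (nat_lit 0x160004) (nat_lit 0) (p (nat_lit 0x68612) (nat_lit 0) (p (nat_lit 0x50592) (nat_lit 0) (p (nat_lit 0x40512) (nat_lit 0) (p (nat_lit 0x50312) (nat_lit 0) (p (nat_lit 0x38292) (nat_lit 0) (p (nat_lit 0x28212) (nat_lit 0) (p (nat_lit 0x38112) (nat_lit 0) (p (nat_lit 0x20092) (nat_lit 0) (p (nat_lit 0x10012) (nat_lit 0) pn))))))))))))))))))))))) :=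
  Cl.node (nat_lit 0xd1) (nat_lit 2) (by decide +kernel) (ClAll.succ (ClAll.succ ClAll.zero s277) n221)

def n263 : Cl (O (nat_lit 2)) (R (nat_lit 14353))
    (p (nat_lit 0xc9) (nat_lit 0) (p (nat_lit 0x109) (nat_lit 1) (p (nat_lit 0x101) (nat_lit 0) (p (nat_lit 0x119) (nat_lit 0) (p (nat_lit 0xc1) (nat_lit 0) (p (nat_lit 0x81) (nat_lit 1) (p (nat_lit 0x41) (nat_lit 1) (p (nat_lit 0x88090887069a) (nat_lit 0) (p (nat_lit 0x87870806861a) (nat_lit 0) (p (nat_lit 0x80000000070786058a) (nat_lit 0) (p (nat_lit 0x8787058502) (nat_lit 0) (p (nat_lit 0x8586850482) (nat_lit 0) (p (nat_lit 0x160014) (nat_lit 0) (p (nat_lit 0x160004) (nat_lit 0) (p (nat_lit 0x68612) (nat_lit 0) (p (nat_lit 0x50592) (nat_lit 0) (p (nat_lit 0x40512) (nat_lit 0) (p (nat_lit 0x50312) (nat_lit 0) (p (nat_lit 0x38292) (nat_lit 0) (p (nat_lit 0x28212) (nat_lit 0) (p (nat_lit 0x38112) (nat_lit 0) (p (nat_lit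 0x20092) (nat_lit 0) (p (nat_lit 0x10012) (nat_lit 0) pn))))))))))))))))))))))) :=
  Cl.node (nat_lit 0xd1) (nat_lit 2) (by decide +kernel) (ClAll.succ (ClAll.succ ClAll.zero s281) n222)

def n264 : Cl (O (nat_lit 2)) (R (nat_lit 14353))
    (p (nat_lit 0xd1) (nat_lit 0) (p (nat_lit 0xc9) (nat_lit 0) (p (nat_lit 0x101) (nat_lit 1) (p (nat_lit 0x119) (nat_lit 0) (p (nat_lit 0xc1) (nat_lit 0) (p (nat_lit 0x81) (nat_lit 1) (p (nat_lit 0x41) (nat_lit 1) (p (nat_lit 0x88090887069a) (nat_lit 0) (p (nat_lit 0x87870806861a) (nat_lit 0) (p (nat_lit 0x80000000070786058a) (nat_lit 0) (p (nat_lit 0x8787058502) (nat_lit 0) (p (nat_lit 0x8586850482) (nat_lit 0) (p (nat_lit 0x160014) (nat_lit 0) (p (nat_lit 0x160004) (nat_lit 0) (p (nat_lit 0x68612) (nat_lit 0) (p (nat_lit 0x50592) (nat_lit 0) (p (nat_lit 0x40512) (nat_lit 0) (p (nat_lit 0x50312) (nat_lit 0) (p (nat_lit 0x38292) (nat_lit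 0) (p (nat_lit 0x28212) (nat_lit 0) (p (nat_lit 0x38112) (nat_lit 0) (p (nat_lit 0x20092) (nat_lit 0) (p (nat_lit 0x10012) (nat_lit 0) pn))))))))))))))))))))))) :=
  Cl.node (nat_lit 0x20000c) (nat_lit 2) (by decide +kernel) (ClAll.succ (ClAll.succ ClAll.zero n223) s289)

def n265 : Cl (O (nat_lit 2)) (R (nat_lit 14353))
    (p (nat_lit 0xd1) (nat_lit 1) (p (nat_lit 0xc9) (nat_lit 0) (p (nat_lit 0x101) (nat_lit 1) (p (nat_lit 0x119) (nat_lit 0) (p (nat_lit 0xc1) (nat_lit 0) (p (nat_lit 0x81) (nat_lit 1) (p (nat_lit 0x41) (nat_lit 1) (p (nat_lit 0x88090887069a) (nat_lit 0) (p (nat_lit 0x87870806861a) (nat_lit 0) (p (nat_lit 0x80000000070786058a) (nat_lit 0) (p (nat_lit 0x8787058502) (nat_lit 0) (p (nat_lit 0x8586850482) (nat_lit 0) (p (nat_lit 0x160014) (nat_lit 0) (p (nat_lit 0x160004) (nat_lit 0) (p (nat_lit 0x68612) (nat_lit 0) (p (nat_lit 0x50592) (nat_lit 0) (p (nat_lit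 0x40512) (nat_lit 0) (p (nat_lit 0x50312) (nat_lit 0) (p (nat_lit 0x38292) (nat_lit 0) (p (nat_lit 0x28212) (nat_lit 0) (p (nat_lit 0x38112) (nat_lit 0) (p (nat_lit 0x20092) (nat_lit 0) (p (nat_lit 0x10012) (nat_lit 0) pn))))))))))))))))))))))) :=
  Cl.node (nat_lit 0x20000c) (nat_lit 2) (by decide +kernel) (ClAll.succ (ClAll.succ ClAll.zero n224) s303)

def n266 : Cl (O (nat_lit 2)) (R (nat_lit 14353))
    (p (nat_lit 0x111) (nat_lit 1) (p (nat_lit 0xd1) (nat_lit 1) (p (nat_lit 0xc9) (nat_lit 0) (p (nat_lit 0x119) (nat_lit 1) (p (nat_lit 0xc1) (nat_lit 0) (p (nat_lit 0x81) (nat_lit 1) (p (nat_lit 0x41) (nat_lit 1) (p (nat_lit 0x88090887069a) (nat_lit 0) (p (nat_lit 0x87870806861a) (nat_lit 0) (p (nat_lit 0x80000000070786058a) (nat_lit 0) (p (nat_lit 0x8787058502) (nat_lit 0) (p (nat_lit 0x8586850482) (nat_lit 0) (p (nat_lit 0x160014) (nat_lit 0) (p (nat_lit 0x160004) (nat_lit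 0) (p (nat_lit 0x68612) (nat_lit 0) (p (nat_lit 0x50592) (nat_lit 0) (p (nat_lit 0x40512) (nat_lit 0) (p (nat_lit 0x50312) (nat_lit 0) (p (nat_lit 0x38292) (nat_lit 0) (p (nat_lit 0x28212) (nat_lit 0) (p (nat_lit 0x38112) (nat_lit 0) (p (nat_lit 0x20092) (nat_lit 0) (p (nat_lit 0x10012) (nat_lit 0) pn))))))))))))))))))))))) :=
  Cl.node (nat_lit 0x20000c) (nat_lit 2) (by decide +kernel) (ClAll.succ (ClAll.succ ClAll.zero n225) s313)

def n267 : Cl (O (nat_lit 2)) (R (nat_lit 14353))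
    (p (nat_lit 0x111) (nat_lit 0) (p (nat_lit 0x109) (nat_lit 0) (p (nat_lit 0xc9) (nat_lit 1) (p (nat_lit 0x119) (nat_lit 1) (p (nat_lit 0xc1) (nat_lit 0) (p (nat_lit 0x81) (nat_lit 1) (p (nat_lit 0x41) (nat_lit 1) (p (nat_lit 0x88090887069a) (nat_lit 0) (p (nat_lit 0x87870806861a) (nat_lit 0) (p (nat_lit 0x80000000070786058a) (nat_lit 0) (p (nat_lit 0x8787058502) (nat_lit 0) (p (nat_lit 0x8586850482) (nat_lit 0) (p (nat_lit 0x160014) (nat_lit 0) (p (nat_lit 0x160004) (nat_lit 0) (p (nat_lit 0x68612) (nat_lit 0) (p (nat_lit 0x50592) (nat_lit 0) (p (nat_lit 0x40512) (nat_lit 0) (p (nat_lit 0x50312) (nat_lit 0) (p (nat_lit 0x38292) (nat_lit 0) (p (nat_lit 0x28212) (nat_lit 0) (p (nat_lit 0x38112) (nat_lit 0) (p (nat_lit 0x20092) (nat_lit 0) (p (nat_lit 0x10012) (nat_lit 0) pn))))))))))))))))))))))) :=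
  Cl.node (nat_lit 0x20000c) (nat_lit 2) (by decide +kernel) (ClAll.succ (ClAll.succ ClAll.zero n226) s319)

def n268 : Cl (O (nat_lit 2)) (R (nat_lit 14353))
    (p (nat_lit 0x111) (nat_lit 1) (p (nat_lit 0x109) (nat_lit 0) (p (nat_lit 0xc9) (nat_lit 1) (p (nat_lit 0x119) (nat_lit 1) (p (nat_lit 0xc1) (nat_lit 0) (p (nat_lit 0x81) (nat_lit 1) (p (nat_lit 0x41) (nat_lit 1) (p (nat_lit 0x88090887069a) (nat_lit 0) (p (nat_lit 0x87870806861a) (nat_lit 0) (p (nat_lit 0x80000000070786058a) (nat_lit 0) (p (nat_lit 0x8787058502) (nat_lit 0) (p (nat_lit 0x8586850482) (nat_lit 0) (p (nat_lit 0x160014) (nat_lit 0) (p (nat_lit 0x160004) (nat_lit 0) (p (nat_lit 0x68612) (nat_lit 0) (p (nat_lit 0x50592) (nat_lit 0) (p (nat_lit 0x40512) (nat_lit 0) (p (nat_lit 0x50312) (nat_lit 0) (p (nat_lit 0x38292) (nat_lit 0) (p (nat_lit 0x28212) (nat_lit 0) (p (nat_lit 0x38112) (nat_lit 0) (p (nat_lit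 0x20092) (nat_lit 0) (p (nat_lit 0x10012) (nat_lit 0) pn))))))))))))))))))))))) :=
  Cl.node (nat_lit 0x20000c) (nat_lit 2) (by decide +kernel) (ClAll.succ (ClAll.succ ClAll.zero n227) s329)

def n269 : Cl (O (nat_lit 2)) (R (nat_lit 14353))
    (p (nat_lit 0x109) (nat_lit 1) (p (nat_lit 0x101) (nat_lit 0) (p (nat_lit 0x119) (nat_lit 0) (p (nat_lit 0xd1) (nat_lit 0) (p (nat_lit 0x89) (nat_lit 0) (p (nat_lit 0x41) (nat_lit 0) (p (nat_lit 0x88090887069a) (nat_lit 0) (p (nat_lit 0x87870806861a) (nat_lit 0) (p (nat_lit 0x80000000070786058a) (nat_lit 0) (p (nat_lit 0x8787058502) (nat_lit 0) (p (nat_lit 0x8586850482) (nat_lit 0) (p (nat_lit 0x160014) (nat_lit 0) (p (nat_lit 0x160004) (nat_lit 0) (p (nat_lit 0x68612) (nat_lit 0) (p (nat_lit 0x50592) (nat_lit 0) (p (nat_lit 0x40512) (nat_lit 0) (p (nat_lit 0x50312) (nat_lit 0) (p (nat_lit 0x38292) (nat_lit 0) (p (nat_lit 0x28212)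 (nat_lit 0) (p (nat_lit 0x38112) (nat_lit 0) (p (nat_lit 0x20092) (nat_lit 0) (p (nat_lit 0x10012) (nat_lit 0) pn)))))))))))))))))))))) :=
  Cl.node (nat_lit 0xc9) (nat_lit 2) (by decide +kernel) (ClAll.succ (ClAll.succ ClAll.zero s1) n228)

def n270 : Cl (O (nat_lit 2)) (R (nat_lit 14353))
    (p (nat_lit 0x81) (nat_lit 0) (p (nat_lit 0x101) (nat_lit 1) (p (nat_lit 0x119) (nat_lit 0) (p (nat_lit 0xd1) (nat_lit 0) (p (nat_lit 0x89) (nat_lit 0) (p (nat_lit 0x41) (nat_lit 0) (p (nat_lit 0x88090887069a) (nat_lit 0) (p (nat_lit 0x87870806861a) (nat_lit 0) (p (nat_lit 0x80000000070786058a) (nat_lit 0) (p (nat_lit 0x8787058502) (nat_lit 0) (p (nat_lit 0x8586850482) (nat_lit 0) (p (nat_lit 0x160014) (nat_lit 0) (p (nat_lit 0x160004) (nat_lit 0) (p (nat_lit 0x68612) (nat_lit 0) (p (nat_lit 0x50592) (nat_lit 0) (p (nat_lit 0x40512) (nat_lit 0) (p (nat_lit 0x50312) (nat_lit 0) (p (nat_lit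 0x38292) (nat_lit 0) (p (nat_lit 0x28212) (nat_lit 0) (p (nat_lit 0x38112) (nat_lit 0) (p (nat_lit 0x20092) (nat_lit 0) (p (nat_lit 0x10012) (nat_lit 0) pn)))))))))))))))))))))) :=
  Cl.node (nat_lit 0xc9) (nat_lit 2) (by decide +kernel) (ClAll.succ (ClAll.succ ClAll.zero n229) n230)

def n271 : Cl (O (nat_lit 2)) (R (nat_lit 14353))
    (p (nat_lit 0x81) (nat_lit 1) (p (nat_lit 0x101) (nat_lit 1) (p (nat_lit 0x119) (nat_lit 0) (p (nat_lit 0xd1) (nat_lit 0) (p (nat_lit 0x89) (nat_lit 0) (p (nat_lit 0x41) (nat_lit 0) (p (nat_lit 0x88090887069a) (nat_lit 0) (p (nat_lit 0x87870806861a) (nat_lit 0) (p (nat_lit 0x80000000070786058a) (nat_lit 0) (p (nat_lit 0x8787058502) (nat_lit 0) (p (nat_lit 0x8586850482) (nat_lit 0) (p (nat_lit 0x160014) (nat_lit 0) (p (nat_lit 0x160004) (nat_lit 0) (p (nat_lit 0x68612) (nat_lit 0) (p (nat_lit 0x50592) (nat_lit 0) (p (nat_lit 0x40512) (nat_lit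 0) (p (nat_lit 0x50312) (nat_lit 0) (p (nat_lit 0x38292) (nat_lit 0) (p (nat_lit 0x28212) (nat_lit 0) (p (nat_lit 0x38112) (nat_lit 0) (p (nat_lit 0x20092) (nat_lit 0) (p (nat_lit 0x10012) (nat_lit 0) pn)))))))))))))))))))))) :=
  Cl.node (nat_lit 0xc1) (nat_lit 2) (by decide +kernel) (ClAll.succ (ClAll.succ ClAll.zero n231) s34)

def n272 : Cl (O (nat_lit 2)) (R (nat_lit 14353))
    (p (nat_lit 0xc9) (nat_lit 1) (p (nat_lit 0xc1) (nat_lit 0) (p (nat_lit 0x119) (nat_lit 1) (p (nat_lit 0xd1) (nat_lit 0) (p (nat_lit 0x89) (nat_lit 0) (p (nat_lit 0x41) (nat_lit 0) (p (nat_lit 0x88090887069a) (nat_lit 0) (p (nat_lit 0x87870806861a) (nat_lit 0) (p (nat_lit 0x80000000070786058a) (nat_lit 0) (p (nat_lit 0x8787058502) (nat_lit 0) (p (nat_lit 0x8586850482) (nat_lit 0) (p (nat_lit 0x160014) (nat_lit 0) (p (nat_lit 0x160004) (nat_lit 0) (p (nat_lit 0x68612) (nat_lit 0) (p (nat_lit 0x50592)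 (nat_lit 0) (p (nat_lit 0x40512) (nat_lit 0) (p (nat_lit 0x50312) (nat_lit 0) (p (nat_lit 0x38292) (nat_lit 0) (p (nat_lit 0x28212) (nat_lit 0) (p (nat_lit 0x38112) (nat_lit 0) (p (nat_lit 0x20092) (nat_lit 0) (p (nat_lit 0x10012) (nat_lit 0) pn)))))))))))))))))))))) :=
  Cl.node (nat_lit 0x109) (nat_lit 2) (by decide +kernel) (ClAll.succ (ClAll.succ ClAll.zero s36) n232)

def n273 : Cl (O (nat_lit 2)) (R (nat_lit 14353))
    (p (nat_lit 0x81) (nat_lit 0) (p (nat_lit 0xc1) (nat_lit 1) (p (nat_lit 0x119) (nat_lit 1) (p (nat_lit 0xd1) (nat_lit 0) (p (nat_lit 0x89) (nat_lit 0) (p (nat_lit 0x41) (nat_lit 0) (p (nat_lit 0x88090887069a) (nat_lit 0) (p (nat_lit 0x87870806861a) (nat_lit 0) (p (nat_lit 0x80000000070786058a) (nat_lit 0) (p (nat_lit 0x8787058502) (nat_lit 0) (p (nat_lit 0x8586850482) (nat_lit 0) (p (nat_lit 0x160014) (nat_lit 0) (p (nat_lit 0x160004) (nat_lit 0) (p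 (nat_lit 0x68612) (nat_lit 0) (p (nat_lit 0x50592) (nat_lit 0) (p (nat_lit 0x40512) (nat_lit 0) (p (nat_lit 0x50312) (nat_lit 0) (p (nat_lit 0x38292) (nat_lit 0) (p (nat_lit 0x28212) (nat_lit 0) (p (nat_lit 0x38112) (nat_lit 0) (p (nat_lit 0x20092) (nat_lit 0) (p (nat_lit 0x10012) (nat_lit 0) pn)))))))))))))))))))))) :=
  Cl.node (nat_lit 0x109) (nat_lit 2) (by decide +kernel) (ClAll.succ (ClAll.succ ClAll.zero s40) n233)

def n274 : Cl (O (nat_lit 2)) (R (nat_lit 14353))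
    (p (nat_lit 0x81) (nat_lit 1) (p (nat_lit 0xc1) (nat_lit 1) (p (nat_lit 0x119) (nat_lit 1) (p (nat_lit 0xd1) (nat_lit 0) (p (nat_lit 0x89) (nat_lit 0) (p (nat_lit 0x41) (nat_lit 0) (p (nat_lit 0x88090887069a) (nat_lit 0) (p (nat_lit 0x87870806861a) (nat_lit 0) (p (nat_lit 0x80000000070786058a) (nat_lit 0) (p (nat_lit 0x8787058502) (nat_lit 0) (p (nat_lit 0x8586850482) (nat_lit 0) (p (nat_lit 0x160014) (nat_lit 0) (p (nat_lit 0x160004) (nat_lit 0) (p (nat_lit 0x68612) (nat_lit 0) (p (nat_lit 0x50592) (nat_lit 0) (p (nat_lit 0x40512) (nat_lit 0) (p (nat_lit 0x50312) (nat_lit 0) (p (nat_lit 0x38292) (nat_lit 0) (p (nat_lit 0x28212) (nat_lit 0) (p (nat_lit 0x38112) (nat_lit 0) (p (nat_lit 0x20092) (nat_lit 0) (p (nat_lit 0x10012) (nat_lit 0) pn)))))))))))))))))))))) :=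
  Cl.node (nat_lit 0x101) (nat_lit 2) (by decide +kernel) (ClAll.succ (ClAll.succ ClAll.zero n234) s53)

def n275 : Cl (O (nat_lit 2)) (R (nat_lit 14353))
    (p (nat_lit 0x109) (nat_lit 1) (p (nat_lit 0x101) (nat_lit 0) (p (nat_lit 0x111) (nat_lit 0) (p (nat_lit 0xd1) (nat_lit 1) (p (nat_lit 0x89) (nat_lit 0) (p (nat_lit 0x41) (nat_lit 0) (p (nat_lit 0x88090887069a) (nat_lit 0) (p (nat_lit 0x87870806861a) (nat_lit 0) (p (nat_lit 0x80000000070786058a) (nat_lit 0) (p (nat_lit 0x8787058502) (nat_lit 0) (p (nat_lit 0x8586850482) (nat_lit 0) (p (nat_lit 0x160014) (nat_lit 0) (p (nat_lit 0x160004) (nat_lit 0) (p (nat_lit 0x68612) (nat_lit 0) (p (nat_lit 0x50592) (nat_lit 0) (p (nat_lit 0x40512) (nat_lit 0) (p (nat_lit 0x50312) (nat_lit 0) (p (nat_lit 0x38292) (nat_lit 0) (p (nat_lit 0x28212) (nat_lit 0) (p (nat_lit 0x38112) (nat_lit 0) (p (nat_lit 0x20092) (nat_lit 0) (p (nat_lit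 0x10012) (nat_lit 0) pn)))))))))))))))))))))) :=
  Cl.node (nat_lit 0x20000c) (nat_lit 2) (by decide +kernel) (ClAll.succ (ClAll.succ ClAll.zero n235) s59)

def n276 : Cl (O (nat_lit 2)) (R (nat_lit 14353))
    (p (nat_lit 0x81) (nat_lit 0) (p (nat_lit 0x101) (nat_lit 1) (p (nat_lit 0x111) (nat_lit 0) (p (nat_lit 0xd1) (nat_lit 1) (p (nat_lit 0x89) (nat_lit 0) (p (nat_lit 0x41) (nat_lit 0) (p (nat_lit 0x88090887069a) (nat_lit 0) (p (nat_lit 0x87870806861a) (nat_lit 0) (p (nat_lit 0x80000000070786058a) (nat_lit 0) (p (nat_lit 0x8787058502) (nat_lit 0) (p (nat_lit 0x8586850482) (nat_lit 0) (p (nat_lit 0x160014) (nat_lit 0) (p (nat_lit 0x160004) (nat_lit 0) (p (nat_lit 0x68612) (nat_lit 0) (p (nat_lit 0x50592) (nat_lit 0) (p (nat_lit 0x40512) (nat_lit 0) (p (nat_lit 0x50312) (nat_lit 0) (p (nat_lit 0x38292) (nat_lit 0) (p (nat_lit 0x28212) (nat_lit 0) (p (nat_lit 0x38112) (nat_lit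 0) (p (nat_lit 0x20092) (nat_lit 0) (p (nat_lit 0x10012) (nat_lit 0) pn)))))))))))))))))))))) :=
  Cl.node (nat_lit 0x20000c) (nat_lit 2) (by decide +kernel) (ClAll.succ (ClAll.succ ClAll.zero n236) s64)

def n277 : Cl (O (nat_lit 2)) (R (nat_lit 14353))
    (p (nat_lit 0x81) (nat_lit 1) (p (nat_lit 0x101) (nat_lit 1) (p (nat_lit 0x111) (nat_lit 0) (p (nat_lit 0xd1) (nat_lit 1) (p (nat_lit 0x89) (nat_lit 0) (p (nat_lit 0x41) (nat_lit 0) (p (nat_lit 0x88090887069a) (nat_lit 0) (p (nat_lit 0x87870806861a) (nat_lit 0) (p (nat_lit 0x80000000070786058a) (nat_lit 0) (p (nat_lit 0x8787058502) (nat_lit 0) (p (nat_lit 0x8586850482) (nat_lit 0) (p (nat_lit 0x160014) (nat_lit 0) (p (nat_lit 0x160004) (nat_lit 0) (p (nat_lit 0x68612) (nat_lit 0) (p (nat_lit 0x50592) (nat_lit 0) (p (nat_lit 0x40512) (nat_lit 0) (p (nat_lit 0x50312) (nat_lit 0) (p (nat_lit 0x38292) (nat_lit 0) (p (nat_lit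 0x28212) (nat_lit 0) (p (nat_lit 0x38112) (nat_lit 0) (p (nat_lit 0x20092) (nat_lit 0) (p (nat_lit 0x10012) (nat_lit 0) pn)))))))))))))))))))))) :=
  Cl.node (nat_lit 0xc1) (nat_lit 2) (by decide +kernel) (ClAll.succ (ClAll.succ ClAll.zero n237) s72)

def n278 : Cl (O (nat_lit 2)) (R (nat_lit 14353))
    (p (nat_lit 0xc1) (nat_lit 1) (p (nat_lit 0x81) (nat_lit 1) (p (nat_lit 0x111) (nat_lit 1) (p (nat_lit 0xd1) (nat_lit 1) (p (nat_lit 0x89) (nat_lit 0) (p (nat_lit 0x41) (nat_lit 0) (p (nat_lit 0x88090887069a) (nat_lit 0) (p (nat_lit 0x87870806861a) (nat_lit 0) (p (nat_lit 0x80000000070786058a) (nat_lit 0) (p (nat_lit 0x8787058502) (nat_lit 0) (p (nat_lit 0x8586850482) (nat_lit 0) (p (nat_lit 0x160014) (nat_lit 0) (p (nat_lit 0x160004) (nat_lit 0) (p (nat_lit 0x68612) (nat_lit 0) (p (nat_lit 0x50592) (nat_lit 0) (p (nat_lit 0x40512) (nat_lit 0) (p (nat_lit 0x50312) (nat_lit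 0) (p (nat_lit 0x38292) (nat_lit 0) (p (nat_lit 0x28212) (nat_lit 0) (p (nat_lit 0x38112) (nat_lit 0) (p (nat_lit 0x20092) (nat_lit 0) (p (nat_lit 0x10012) (nat_lit 0) pn)))))))))))))))))))))) :=
  Cl.node (nat_lit 0x101) (nat_lit 2) (by decide +kernel) (ClAll.succ (ClAll.succ ClAll.zero n238) s79)

def n279 : Cl (O (nat_lit 2)) (R (nat_lit 14353))
    (p (nat_lit 0x109) (nat_lit 0) (p (nat_lit 0x101) (nat_lit 0) (p (nat_lit 0x119) (nat_lit 0) (p (nat_lit 0xc9) (nat_lit 0) (p (nat_lit 0x89) (nat_lit 1) (p (nat_lit 0x41) (nat_lit 0) (p (nat_lit 0x88090887069a) (nat_lit 0) (p (nat_lit 0x87870806861a) (nat_lit 0) (p (nat_lit 0x80000000070786058a) (nat_lit 0) (p (nat_lit 0x8787058502) (nat_lit 0) (p (nat_lit 0x8586850482) (nat_lit 0) (p (nat_lit 0x160014) (nat_lit 0) (p (nat_lit 0x160004) (nat_lit 0) (p (nat_lit 0x68612) (nat_lit 0) (p (nat_lit 0x50592) (nat_lit 0) (p (nat_lit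 0x40512) (nat_lit 0) (p (nat_lit 0x50312) (nat_lit 0) (p (nat_lit 0x38292) (nat_lit 0) (p (nat_lit 0x28212) (nat_lit 0) (p (nat_lit 0x38112) (nat_lit 0) (p (nat_lit 0x20092) (nat_lit 0) (p (nat_lit 0x10012) (nat_lit 0) pn)))))))))))))))))))))) :=
  Cl.node (nat_lit 0x111) (nat_lit 2) (by decide +kernel) (ClAll.succ (ClAll.succ ClAll.zero s80) n239)

def n280 : Cl (O (nat_lit 2)) (R (nat_lit 14353))
    (p (nat_lit 0x109) (nat_lit 1) (p (nat_lit 0x101) (nat_lit 0) (p (nat_lit 0x119) (nat_lit 0) (p (nat_lit 0xc9) (nat_lit 0) (p (nat_lit 0x89) (nat_lit 1) (p (nat_lit 0x41) (nat_lit 0) (p (nat_lit 0x88090887069a) (nat_lit 0) (p (nat_lit 0x87870806861a) (nat_lit 0) (p (nat_lit 0x80000000070786058a) (nat_lit 0) (p (nat_lit 0x8787058502) (nat_lit 0) (p (nat_lit 0x8586850482) (nat_lit 0) (p (nat_lit 0x160014) (nat_lit 0) (p (nat_lit 0x160004) (nat_lit 0) (p (nat_lit 0x68612) (nat_lit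 0) (p (nat_lit 0x50592) (nat_lit 0) (p (nat_lit 0x40512) (nat_lit 0) (p (nat_lit 0x50312) (nat_lit 0) (p (nat_lit 0x38292) (nat_lit 0) (p (nat_lit 0x28212) (nat_lit 0) (p (nat_lit 0x38112) (nat_lit 0) (p (nat_lit 0x20092) (nat_lit 0) (p (nat_lit 0x10012) (nat_lit 0) pn)))))))))))))))))))))) :=
  Cl.node (nat_lit 0xd1) (nat_lit 2) (by decide +kernel) (ClAll.succ (ClAll.succ ClAll.zero n240) n241)

def n281 : Cl (O (nat_lit 2)) (R (nat_lit 14353))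
    (p (nat_lit 0xc1) (nat_lit 0) (p (nat_lit 0x101) (nat_lit 1) (p (nat_lit 0x119) (nat_lit 0) (p (nat_lit 0xc9) (nat_lit 0) (p (nat_lit 0x89) (nat_lit 1) (p (nat_lit 0x41) (nat_lit 0) (p (nat_lit 0x88090887069a) (nat_lit 0) (p (nat_lit 0x87870806861a) (nat_lit 0) (p (nat_lit 0x80000000070786058a) (nat_lit 0) (p (nat_lit 0x8787058502) (nat_lit 0) (p (nat_lit 0x8586850482) (nat_lit 0) (p (nat_lit 0x160014) (nat_lit 0) (p (nat_lit 0x160004) (nat_lit 0) (p (nat_lit 0x68612) (nat_lit 0) (p (nat_lit 0x50592) (nat_lit 0) (p (nat_lit 0x40512) (nat_lit 0) (p (nat_lit 0x50312) (nat_lit 0) (p (nat_lit 0x38292) (nat_lit 0) (p (nat_lit 0x28212) (nat_lit 0) (p (nat_lit 0x38112) (nat_lit 0) (p (nat_lit 0x20092) (nat_lit 0) (p (nat_lit 0x10012) (nat_lit 0) pn)))))))))))))))))))))) :=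
  Cl.node (nat_lit 0xd1) (nat_lit 2) (by decide +kernel) (ClAll.succ (ClAll.succ ClAll.zero n242) n243)

def n282 : Cl (O (nat_lit 2)) (R (nat_lit 14353))
    (p (nat_lit 0xd1) (nat_lit 1) (p (nat_lit 0xc1) (nat_lit 0) (p (nat_lit 0x119) (nat_lit 1) (p (nat_lit 0xc9) (nat_lit 0) (p (nat_lit 0x89) (nat_lit 1) (p (nat_lit 0x41) (nat_lit 0) (p (nat_lit 0x88090887069a) (nat_lit 0) (p (nat_lit 0x87870806861a) (nat_lit 0) (p (nat_lit 0x80000000070786058a) (nat_lit 0) (p (nat_lit 0x8787058502) (nat_lit 0) (p (nat_lit 0x8586850482) (nat_lit 0) (p (nat_lit 0x160014) (nat_lit 0) (p (nat_lit 0x160004) (nat_lit 0) (p (nat_lit 0x68612) (nat_lit 0) (p (nat_lit 0x50592) (nat_lit 0) (p (nat_lit 0x40512) (nat_lit 0) (p (nat_lit 0x50312) (nat_lit 0) (p (nat_lit 0x38292) (nat_lit 0) (p (nat_lit 0x28212) (nat_lit 0) (p (nat_lit 0x38112) (nat_lit 0) (p (nat_lit 0x20092) (nat_lit 0) (p (nat_lit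 0x10012) (nat_lit 0) pn)))))))))))))))))))))) :=
  Cl.node (nat_lit 0x111) (nat_lit 2) (by decide +kernel) (ClAll.succ (ClAll.succ ClAll.zero s136) n244)

def n283 : Cl (O (nat_lit 2)) (R (nat_lit 14353))
    (p (nat_lit 0x101) (nat_lit 0) (p (nat_lit 0xc1) (nat_lit 1) (p (nat_lit 0x119) (nat_lit 1) (p (nat_lit 0xc9) (nat_lit 0) (p (nat_lit 0x89) (nat_lit 1) (p (nat_lit 0x41) (nat_lit 0) (p (nat_lit 0x88090887069a) (nat_lit 0) (p (nat_lit 0x87870806861a) (nat_lit 0) (p (nat_lit 0x80000000070786058a) (nat_lit 0) (p (nat_lit 0x8787058502) (nat_lit 0) (p (nat_lit 0x8586850482) (nat_lit 0) (p (nat_lit 0x160014) (nat_lit 0) (p (nat_lit 0x160004) (nat_lit 0) (p (nat_lit 0x68612) (nat_lit 0) (p (nat_lit 0x50592) (nat_lit 0) (p (nat_lit 0x40512) (nat_lit 0) (p (nat_lit 0x50312) (nat_lit 0) (p (nat_lit 0x38292) (nat_lit 0) (p (nat_lit 0x28212) (nat_lit 0) (p (nat_lit 0x38112) (nat_lit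 0) (p (nat_lit 0x20092) (nat_lit 0) (p (nat_lit 0x10012) (nat_lit 0) pn)))))))))))))))))))))) :=
  Cl.node (nat_lit 0x111) (nat_lit 2) (by decide +kernel) (ClAll.succ (ClAll.succ ClAll.zero n245) n246)

def n284 : Cl (O (nat_lit 2)) (R (nat_lit 14353))
    (p (nat_lit 0x109) (nat_lit 1) (p (nat_lit 0x101) (nat_lit 0) (p (nat_lit 0x119) (nat_lit 0) (p (nat_lit 0xd1) (nat_lit 0) (p (nat_lit 0x81) (nat_lit 0) (p (nat_lit 0x41) (nat_lit 1) (p (nat_lit 0x88090887069a) (nat_lit 0) (p (nat_lit 0x87870806861a) (nat_lit 0) (p (nat_lit 0x80000000070786058a) (nat_lit 0) (p (nat_lit 0x8787058502) (nat_lit 0) (p (nat_lit 0x8586850482) (nat_lit 0) (p (nat_lit 0x160014) (nat_lit 0) (p (nat_lit 0x160004) (nat_lit 0) (p (nat_lit 0x68612) (nat_lit 0) (p (nat_lit 0x50592) (nat_lit 0) (p (nat_lit 0x40512) (nat_lit 0) (p (nat_lit 0x50312) (nat_lit 0) (p (nat_lit 0x38292) (nat_lit 0) (p (nat_lit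 0x28212) (nat_lit 0) (p (nat_lit 0x38112) (nat_lit 0) (p (nat_lit 0x20092) (nat_lit 0) (p (nat_lit 0x10012) (nat_lit 0) pn)))))))))))))))))))))) :=
  Cl.node (nat_lit 0x89) (nat_lit 2) (by decide +kernel) (ClAll.succ (ClAll.succ ClAll.zero n247) n248)

def n285 : Cl (O (nat_lit 2)) (R (nat_lit 14353))
    (p (nat_lit 0xc1) (nat_lit 0) (p (nat_lit 0x101) (nat_lit 1) (p (nat_lit 0x119) (nat_lit 0) (p (nat_lit 0xd1) (nat_lit 0) (p (nat_lit 0x81) (nat_lit 0) (p (nat_lit 0x41) (nat_lit 1) (p (nat_lit 0x88090887069a) (nat_lit 0) (p (nat_lit 0x87870806861a) (nat_lit 0) (p (nat_lit 0x80000000070786058a) (nat_lit 0) (p (nat_lit 0x8787058502) (nat_lit 0) (p (nat_lit 0x8586850482) (nat_lit 0) (p (nat_lit 0x160014) (nat_lit 0) (p (nat_lit 0x160004) (nat_lit 0) (p (nat_lit 0x68612) (nat_lit 0) (p (nat_lit 0x50592) (nat_lit 0) (p (nat_lit 0x40512) (nat_lit 0) (p (nat_lit 0x50312) (nat_lit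 0) (p (nat_lit 0x38292) (nat_lit 0) (p (nat_lit 0x28212) (nat_lit 0) (p (nat_lit 0x38112) (nat_lit 0) (p (nat_lit 0x20092) (nat_lit 0) (p (nat_lit 0x10012) (nat_lit 0) pn)))))))))))))))))))))) :=
  Cl.node (nat_lit 0x89) (nat_lit 2) (by decide +kernel) (ClAll.succ (ClAll.succ ClAll.zero n249) n250)

def n286 : Cl (O (nat_lit 2)) (R (nat_lit 14353))
    (p (nat_lit 0xc1) (nat_lit 1) (p (nat_lit 0x101) (nat_lit 1) (p (nat_lit 0x119) (nat_lit 0) (p (nat_lit 0xd1) (nat_lit 0) (p (nat_lit 0x81) (nat_lit 0) (p (nat_lit 0x41) (nat_lit 1) (p (nat_lit 0x88090887069a) (nat_lit 0) (p (nat_lit 0x87870806861a) (nat_lit 0) (p (nat_lit 0x80000000070786058a) (nat_lit 0) (p (nat_lit 0x8787058502) (nat_lit 0) (p (nat_lit 0x8586850482) (nat_lit 0) (p (nat_lit 0x160014) (nat_lit 0) (p (nat_lit 0x160004) (nat_lit 0) (p (nat_lit 0x68612) (nat_lit 0) (p (nat_lit 0x50592) (nat_lit 0) (p (nat_lit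 0x40512) (nat_lit 0) (p (nat_lit 0x50312) (nat_lit 0) (p (nat_lit 0x38292) (nat_lit 0) (p (nat_lit 0x28212) (nat_lit 0) (p (nat_lit 0x38112) (nat_lit 0) (p (nat_lit 0x20092) (nat_lit 0) (p (nat_lit 0x10012) (nat_lit 0) pn)))))))))))))))))))))) :=
  Cl.node (nat_lit 0x89) (nat_lit 2) (by decide +kernel) (ClAll.succ (ClAll.succ ClAll.zero n251) n252)

def n287 : Cl (O (nat_lit 2)) (R (nat_lit 14353))
    (p (nat_lit 0xc9) (nat_lit 1) (p (nat_lit 0xc1) (nat_lit 0) (p (nat_lit 0x119) (nat_lit 1) (p (nat_lit 0xd1) (nat_lit 0) (p (nat_lit 0x81) (nat_lit 0) (p (nat_lit 0x41) (nat_lit 1) (p (nat_lit 0x88090887069a) (nat_lit 0) (p (nat_lit 0x87870806861a) (nat_lit 0) (p (nat_lit 0x80000000070786058a) (nat_lit 0) (p (nat_lit 0x8787058502) (nat_lit 0) (p (nat_lit 0x8586850482) (nat_lit 0) (p (nat_lit 0x160014) (nat_lit 0) (p (nat_lit 0x160004) (nat_lit 0) (p (nat_lit 0x68612) (nat_lit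 0) (p (nat_lit 0x50592) (nat_lit 0) (p (nat_lit 0x40512) (nat_lit 0) (p (nat_lit 0x50312) (nat_lit 0) (p (nat_lit 0x38292) (nat_lit 0) (p (nat_lit 0x28212) (nat_lit 0) (p (nat_lit 0x38112) (nat_lit 0) (p (nat_lit 0x20092) (nat_lit 0) (p (nat_lit 0x10012) (nat_lit 0) pn)))))))))))))))))))))) :=
  Cl.node (nat_lit 0x89) (nat_lit 2) (by decide +kernel) (ClAll.succ (ClAll.succ ClAll.zero s203) n253)

def n288 : Cl (O (nat_lit 2)) (R (nat_lit 14353))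
    (p (nat_lit 0x101) (nat_lit 0) (p (nat_lit 0xc1) (nat_lit 1) (p (nat_lit 0x119) (nat_lit 1) (p (nat_lit 0xd1) (nat_lit 0) (p (nat_lit 0x81) (nat_lit 0) (p (nat_lit 0x41) (nat_lit 1) (p (nat_lit 0x88090887069a) (nat_lit 0) (p (nat_lit 0x87870806861a) (nat_lit 0) (p (nat_lit 0x80000000070786058a) (nat_lit 0) (p (nat_lit 0x8787058502) (nat_lit 0) (p (nat_lit 0x8586850482) (nat_lit 0) (p (nat_lit 0x160014) (nat_lit 0) (p (nat_lit 0x160004) (nat_lit 0) (p (nat_lit 0x68612) (nat_lit 0) (p (nat_lit 0x50592) (nat_lit 0) (p (nat_lit 0x40512) (nat_lit 0) (p (nat_lit 0x50312) (nat_lit 0) (p (nat_lit 0x38292) (nat_lit 0) (p (nat_lit 0x28212) (nat_lit 0) (p (nat_lit 0x38112) (nat_lit 0) (p (nat_lit 0x20092) (nat_lit 0) (p (nat_lit 0x10012) (nat_lit 0) pn)))))))))))))))))))))) :=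
  Cl.node (nat_lit 0x89) (nat_lit 2) (by decide +kernel) (ClAll.succ (ClAll.succ ClAll.zero s213) n254)

def n289 : Cl (O (nat_lit 2)) (R (nat_lit 14353))
    (p (nat_lit 0x101) (nat_lit 1) (p (nat_lit 0xc1) (nat_lit 1) (p (nat_lit 0x119) (nat_lit 1) (p (nat_lit 0xd1) (nat_lit 0) (p (nat_lit 0x81) (nat_lit 0) (p (nat_lit 0x41) (nat_lit 1) (p (nat_lit 0x88090887069a) (nat_lit 0) (p (nat_lit 0x87870806861a) (nat_lit 0) (p (nat_lit 0x80000000070786058a) (nat_lit 0) (p (nat_lit 0x8787058502) (nat_lit 0) (p (nat_lit 0x8586850482) (nat_lit 0) (p (nat_lit 0x160014) (nat_lit 0) (p (nat_lit 0x160004) (nat_lit 0) (p (nat_lit 0x68612) (nat_lit 0) (p (nat_lit 0x50592) (nat_lit 0) (p (nat_lit 0x40512) (nat_lit 0) (p (nat_lit 0x50312) (nat_lit 0) (p (nat_lit 0x38292) (nat_lit 0) (p (nat_lit 0x28212) (nat_lit 0) (p (nat_lit 0x38112) (nat_lit 0) (p (nat_lit 0x20092) (nat_lit 0) (p (nat_lit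 0x10012) (nat_lit 0) pn)))))))))))))))))))))) :=
  Cl.node (nat_lit 0x89) (nat_lit 2) (by decide +kernel) (ClAll.succ (ClAll.succ ClAll.zero n255) n256)

def n290 : Cl (O (nat_lit 2)) (R (nat_lit 14353))
    (p (nat_lit 0x109) (nat_lit 1) (p (nat_lit 0x101) (nat_lit 0) (p (nat_lit 0x111) (nat_lit 0) (p (nat_lit 0xd1) (nat_lit 1) (p (nat_lit 0x81) (nat_lit 0) (p (nat_lit 0x41) (nat_lit 1) (p (nat_lit 0x88090887069a) (nat_lit 0) (p (nat_lit 0x87870806861a) (nat_lit 0) (p (nat_lit 0x80000000070786058a) (nat_lit 0) (p (nat_lit 0x8787058502) (nat_lit 0) (p (nat_lit 0x8586850482) (nat_lit 0) (p (nat_lit 0x160014) (nat_lit 0) (p (nat_lit 0x160004) (nat_lit 0) (p (nat_lit 0x68612) (nat_lit 0) (p (nat_lit 0x50592) (nat_lit 0) (p (nat_lit 0x40512) (nat_lit 0) (p (nat_lit 0x50312) (nat_lit 0) (p (nat_lit 0x38292) (nat_lit 0) (p (nat_lit 0x28212) (nat_lit 0) (p (nat_lit 0x38112) (nat_lit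 0) (p (nat_lit 0x20092) (nat_lit 0) (p (nat_lit 0x10012) (nat_lit 0) pn)))))))))))))))))))))) :=
  Cl.node (nat_lit 0x89) (nat_lit 2) (by decide +kernel) (ClAll.succ (ClAll.succ ClAll.zero s237) n257)

def n291 : Cl (O (nat_lit 2)) (R (nat_lit 14353))
    (p (nat_lit 0x89) (nat_lit 0) (p (nat_lit 0x101) (nat_lit 1) (p (nat_lit 0x111) (nat_lit 0) (p (nat_lit 0xd1) (nat_lit 1) (p (nat_lit 0x81) (nat_lit 0) (p (nat_lit 0x41) (nat_lit 1) (p (nat_lit 0x88090887069a) (nat_lit 0) (p (nat_lit 0x87870806861a) (nat_lit 0) (p (nat_lit 0x80000000070786058a) (nat_lit 0) (p (nat_lit 0x8787058502) (nat_lit 0) (p (nat_lit 0x8586850482) (nat_lit 0) (p (nat_lit 0x160014) (nat_lit 0) (p (nat_lit 0x160004) (nat_lit 0) (p (nat_lit 0x68612) (nat_lit 0) (p (nat_lit 0x50592) (nat_lit 0) (p (nat_lit 0x40512) (nat_lit 0) (p (nat_lit 0x50312) (nat_lit 0) (p (nat_lit 0x38292) (nat_lit 0) (p (nat_lit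 0x28212) (nat_lit 0) (p (nat_lit 0x38112) (nat_lit 0) (p (nat_lit 0x20092) (nat_lit 0) (p (nat_lit 0x10012) (nat_lit 0) pn)))))))))))))))))))))) :=
  Cl.node (nat_lit 0x20000c) (nat_lit 2) (by decide +kernel) (ClAll.succ (ClAll.succ ClAll.zero n258) s252)

def n292 : Cl (O (nat_lit 2)) (R (nat_lit 14353))
    (p (nat_lit 0x89) (nat_lit 1) (p (nat_lit 0x101) (nat_lit 1) (p (nat_lit 0x111) (nat_lit 0) (p (nat_lit 0xd1) (nat_lit 1) (p (nat_lit 0x81) (nat_lit 0) (p (nat_lit 0x41) (nat_lit 1) (p (nat_lit 0x88090887069a) (nat_lit 0) (p (nat_lit 0x87870806861a) (nat_lit 0) (p (nat_lit 0x80000000070786058a) (nat_lit 0) (p (nat_lit 0x8787058502) (nat_lit 0) (p (nat_lit 0x8586850482) (nat_lit 0) (p (nat_lit 0x160014) (nat_lit 0) (p (nat_lit 0x160004) (nat_lit 0) (p (nat_lit 0x68612) (nat_lit 0) (p (nat_lit 0x50592) (nat_lit 0) (p (nat_lit 0x40512) (nat_lit 0) (p (nat_lit 0x50312) (nat_lit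 0) (p (nat_lit 0x38292) (nat_lit 0) (p (nat_lit 0x28212) (nat_lit 0) (p (nat_lit 0x38112) (nat_lit 0) (p (nat_lit 0x20092) (nat_lit 0) (p (nat_lit 0x10012) (nat_lit 0) pn)))))))))))))))))))))) :=
  Cl.node (nat_lit 0xc9) (nat_lit 2) (by decide +kernel) (ClAll.succ (ClAll.succ ClAll.zero n259) n260)

def n293 : Cl (O (nat_lit 2)) (R (nat_lit 14353))
    (p (nat_lit 0xc9) (nat_lit 1) (p (nat_lit 0x89) (nat_lit 1) (p (nat_lit 0x111) (nat_lit 1) (p (nat_lit 0xd1) (nat_lit 1) (p (nat_lit 0x81) (nat_lit 0) (p (nat_lit 0x41) (nat_lit 1) (p (nat_lit 0x88090887069a) (nat_lit 0) (p (nat_lit 0x87870806861a) (nat_lit 0) (p (nat_lit 0x80000000070786058a) (nat_lit 0) (p (nat_lit 0x8787058502) (nat_lit 0) (p (nat_lit 0x8586850482) (nat_lit 0) (p (nat_lit 0x160014) (nat_lit 0) (p (nat_lit 0x160004) (nat_lit 0) (p (nat_lit 0x68612) (nat_lit 0) (p (nat_lit 0x50592) (nat_lit 0) (p (nat_lit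 0x40512) (nat_lit 0) (p (nat_lit 0x50312) (nat_lit 0) (p (nat_lit 0x38292) (nat_lit 0) (p (nat_lit 0x28212) (nat_lit 0) (p (nat_lit 0x38112) (nat_lit 0) (p (nat_lit 0x20092) (nat_lit 0) (p (nat_lit 0x10012) (nat_lit 0) pn)))))))))))))))))))))) :=
  Cl.node (nat_lit 0x109) (nat_lit 2) (by decide +kernel) (ClAll.succ (ClAll.succ ClAll.zero n261) s275)

def n294 : Cl (O (nat_lit 2)) (R (nat_lit 14353))
    (p (nat_lit 0x109) (nat_lit 0) (p (nat_lit 0x101) (nat_lit 0) (p (nat_lit 0x119) (nat_lit 0) (p (nat_lit 0xc1) (nat_lit 0) (p (nat_lit 0x81) (nat_lit 1) (p (nat_lit 0x41) (nat_lit 1) (p (nat_lit 0x88090887069a) (nat_lit 0) (p (nat_lit 0x87870806861a) (nat_lit 0) (p (nat_lit 0x80000000070786058a) (nat_lit 0) (p (nat_lit 0x8787058502) (nat_lit 0) (p (nat_lit 0x8586850482) (nat_lit 0) (p (nat_lit 0x160014) (nat_lit 0) (p (nat_lit 0x160004) (nat_lit 0) (p (nat_lit 0x68612) (nat_lit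 0) (p (nat_lit 0x50592) (nat_lit 0) (p (nat_lit 0x40512) (nat_lit 0) (p (nat_lit 0x50312) (nat_lit 0) (p (nat_lit 0x38292) (nat_lit 0) (p (nat_lit 0x28212) (nat_lit 0) (p (nat_lit 0x38112) (nat_lit 0) (p (nat_lit 0x20092) (nat_lit 0) (p (nat_lit 0x10012) (nat_lit 0) pn)))))))))))))))))))))) :=
  Cl.node (nat_lit 0x111) (nat_lit 2) (by decide +kernel) (ClAll.succ (ClAll.succ ClAll.zero s276) n262)

def n295 : Cl (O (nat_lit 2)) (R (nat_lit 14353))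
    (p (nat_lit 0x109) (nat_lit 1) (p (nat_lit 0x101) (nat_lit 0) (p (nat_lit 0x119) (nat_lit 0) (p (nat_lit 0xc1) (nat_lit 0) (p (nat_lit 0x81) (nat_lit 1) (p (nat_lit 0x41) (nat_lit 1) (p (nat_lit 0x88090887069a) (nat_lit 0) (p (nat_lit 0x87870806861a) (nat_lit 0) (p (nat_lit 0x80000000070786058a) (nat_lit 0) (p (nat_lit 0x8787058502) (nat_lit 0) (p (nat_lit 0x8586850482) (nat_lit 0) (p (nat_lit 0x160014) (nat_lit 0) (p (nat_lit 0x160004) (nat_lit 0) (p (nat_lit 0x68612) (nat_lit 0) (p (nat_lit 0x50592) (nat_lit 0) (p (nat_lit 0x40512) (nat_lit 0) (p (nat_lit 0x50312) (nat_lit 0) (p (nat_lit 0x38292) (nat_lit 0) (p (nat_lit 0x28212) (nat_lit 0) (p (nat_lit 0x38112) (nat_lit 0) (p (nat_lit 0x20092) (nat_lit 0) (p (nat_lit 0x10012) (nat_lit 0) pn)))))))))))))))))))))) :=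
  Cl.node (nat_lit 0xc9) (nat_lit 2) (by decide +kernel) (ClAll.succ (ClAll.succ ClAll.zero n263) s285)

def n296 : Cl (O (nat_lit 2)) (R (nat_lit 14353))
    (p (nat_lit 0xc9) (nat_lit 0) (p (nat_lit 0x101) (nat_lit 1) (p (nat_lit 0x119) (nat_lit 0) (p (nat_lit 0xc1) (nat_lit 0) (p (nat_lit 0x81) (nat_lit 1) (p (nat_lit 0x41) (nat_lit 1) (p (nat_lit 0x88090887069a) (nat_lit 0) (p (nat_lit 0x87870806861a) (nat_lit 0) (p (nat_lit 0x80000000070786058a) (nat_lit 0) (p (nat_lit 0x8787058502) (nat_lit 0) (p (nat_lit 0x8586850482) (nat_lit 0) (p (nat_lit 0x160014) (nat_lit 0) (p (nat_lit 0x160004) (nat_lit 0) (p (nat_lit 0x68612) (nat_lit 0) (p (nat_lit 0x50592) (nat_lit 0) (p (nat_lit 0x40512) (nat_lit 0) (p (nat_lit 0x50312) (nat_lit 0) (p (nat_lit 0x38292) (nat_lit 0) (p (nat_lit 0x28212) (nat_lit 0) (p (nat_lit 0x38112) (nat_lit 0) (p (nat_lit 0x20092) (nat_lit 0) (p (nat_lit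 0x10012) (nat_lit 0) pn)))))))))))))))))))))) :=
  Cl.node (nat_lit 0xd1) (nat_lit 2) (by decide +kernel) (ClAll.succ (ClAll.succ ClAll.zero n264) n265)

def n297 : Cl (O (nat_lit 2)) (R (nat_lit 14353))
    (p (nat_lit 0xd1) (nat_lit 1) (p (nat_lit 0xc9) (nat_lit 0) (p (nat_lit 0x119) (nat_lit 1) (p (nat_lit 0xc1) (nat_lit 0) (p (nat_lit 0x81) (nat_lit 1) (p (nat_lit 0x41) (nat_lit 1) (p (nat_lit 0x88090887069a) (nat_lit 0) (p (nat_lit 0x87870806861a) (nat_lit 0) (p (nat_lit 0x80000000070786058a) (nat_lit 0) (p (nat_lit 0x8787058502) (nat_lit 0) (p (nat_lit 0x8586850482) (nat_lit 0) (p (nat_lit 0x160014) (nat_lit 0) (p (nat_lit 0x160004) (nat_lit 0) (p (nat_lit 0x68612) (nat_lit 0) (p (nat_lit 0x50592) (nat_lit 0) (p (nat_lit 0x40512) (nat_lit 0) (p (nat_lit 0x50312) (nat_lit 0) (p (nat_lit 0x38292) (nat_lit 0) (p (nat_lit 0x28212) (nat_lit 0) (p (nat_lit 0x38112) (nat_lit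 0) (p (nat_lit 0x20092) (nat_lit 0) (p (nat_lit 0x10012) (nat_lit 0) pn)))))))))))))))))))))) :=
  Cl.node (nat_lit 0x111) (nat_lit 2) (by decide +kernel) (ClAll.succ (ClAll.succ ClAll.zero s306) n266)

def n298 : Cl (O (nat_lit 2)) (R (nat_lit 14353))
    (p (nat_lit 0x109) (nat_lit 0) (p (nat_lit 0xc9) (nat_lit 1) (p (nat_lit 0x119) (nat_lit 1) (p (nat_lit 0xc1) (nat_lit 0) (p (nat_lit 0x81) (nat_lit 1) (p (nat_lit 0x41) (nat_lit 1) (p (nat_lit 0x88090887069a) (nat_lit 0) (p (nat_lit 0x87870806861a) (nat_lit 0) (p (nat_lit 0x80000000070786058a) (nat_lit 0) (p (nat_lit 0x8787058502) (nat_lit 0) (p (nat_lit 0x8586850482) (nat_lit 0) (p (nat_lit 0x160014) (nat_lit 0) (p (nat_lit 0x160004) (nat_lit 0) (p (nat_lit 0x68612) (nat_lit 0) (p (nat_lit 0x50592) (nat_lit 0) (p (nat_lit 0x40512) (nat_lit 0) (p (nat_lit 0x50312) (nat_lit 0) (p (nat_lit 0x38292) (nat_lit 0) (p (nat_lit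 0x28212) (nat_lit 0) (p (nat_lit 0x38112) (nat_lit 0) (p (nat_lit 0x20092) (nat_lit 0) (p (nat_lit 0x10012) (nat_lit 0) pn)))))))))))))))))))))) :=
  Cl.node (nat_lit 0x111) (nat_lit 2) (by decide +kernel) (ClAll.succ (ClAll.succ ClAll.zero n267) n268)

def n299 : Cl (O (nat_lit 2)) (R (nat_lit 14353))
    (p (nat_lit 0x101) (nat_lit 0) (p (nat_lit 0x119) (nat_lit 0) (p (nat_lit 0xd1) (nat_lit 0) (p (nat_lit 0x89) (nat_lit 0) (p (nat_lit 0x41) (nat_lit 0) (p (nat_lit 0x88090887069a) (nat_lit 0) (p (nat_lit 0x87870806861a) (nat_lit 0) (p (nat_lit 0x80000000070786058a) (nat_lit 0) (p (nat_lit 0x8787058502) (nat_lit 0) (p (nat_lit 0x8586850482) (nat_lit 0) (p (nat_lit 0x160014) (nat_lit 0) (p (nat_lit 0x160004) (nat_lit 0) (p (nat_lit 0x68612) (nat_lit 0) (p (nat_lit 0x50592) (nat_lit 0) (p (nat_lit 0x40512) (nat_lit 0) (p (nat_lit 0x50312) (nat_lit 0) (p (nat_lit 0x38292) (nat_lit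 0) (p (nat_lit 0x28212) (nat_lit 0) (p (nat_lit 0x38112) (nat_lit 0) (p (nat_lit 0x20092) (nat_lit 0) (p (nat_lit 0x10012) (nat_lit 0) pn))))))))))))))))))))) :=
  Cl.node (nat_lit 0x109) (nat_lit 2) (by decide +kernel) (ClAll.succ (ClAll.succ ClAll.zero s0) n269)

def n300 : Cl (O (nat_lit 2)) (R (nat_lit 14353))
    (p (nat_lit 0x101) (nat_lit 1) (p (nat_lit 0x119) (nat_lit 0) (p (nat_lit 0xd1) (nat_lit 0) (p (nat_lit 0x89) (nat_lit 0) (p (nat_lit 0x41) (nat_lit 0) (p (nat_lit 0x88090887069a) (nat_lit 0) (p (nat_lit 0x87870806861a) (nat_lit 0) (p (nat_lit 0x80000000070786058a) (nat_lit 0) (p (nat_lit 0x8787058502) (nat_lit 0) (p (nat_lit 0x8586850482) (nat_lit 0) (p (nat_lit 0x160014) (nat_lit 0) (p (nat_lit 0x160004) (nat_lit 0) (p (nat_lit 0x68612) (nat_lit 0) (p (nat_lit 0x50592) (nat_lit 0) (p (nat_lit 0x40512) (nat_lit 0) (p (nat_lit 0x50312) (nat_lit 0) (p (nat_lit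 0x38292) (nat_lit 0) (p (nat_lit 0x28212) (nat_lit 0) (p (nat_lit 0x38112) (nat_lit 0) (p (nat_lit 0x20092) (nat_lit 0) (p (nat_lit 0x10012) (nat_lit 0) pn))))))))))))))))))))) :=
  Cl.node (nat_lit 0x81) (nat_lit 2) (by decide +kernel) (ClAll.succ (ClAll.succ ClAll.zero n270) n271)

def n301 : Cl (O (nat_lit 2)) (R (nat_lit 14353))
    (p (nat_lit 0xc1) (nat_lit 0) (p (nat_lit 0x119) (nat_lit 1) (p (nat_lit 0xd1) (nat_lit 0) (p (nat_lit 0x89) (nat_lit 0) (p (nat_lit 0x41) (nat_lit 0) (p (nat_lit 0x88090887069a) (nat_lit 0) (p (nat_lit 0x87870806861a) (nat_lit 0) (p (nat_lit 0x80000000070786058a) (nat_lit 0) (p (nat_lit 0x8787058502) (nat_lit 0) (p (nat_lit 0x8586850482) (nat_lit 0) (p (nat_lit 0x160014) (nat_lit 0) (p (nat_lit 0x160004) (nat_lit 0) (p (nat_lit 0x68612) (nat_lit 0) (p (nat_lit 0x50592) (nat_lit 0) (p (nat_lit 0x40512) (nat_lit 0) (p (nat_lit 0x50312) (nat_lit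 0) (p (nat_lit 0x38292) (nat_lit 0) (p (nat_lit 0x28212) (nat_lit 0) (p (nat_lit 0x38112) (nat_lit 0) (p (nat_lit 0x20092) (nat_lit 0) (p (nat_lit 0x10012) (nat_lit 0) pn))))))))))))))))))))) :=
  Cl.node (nat_lit 0xc9) (nat_lit 2) (by decide +kernel) (ClAll.succ (ClAll.succ ClAll.zero s35) n272)

def n302 : Cl (O (nat_lit 2)) (R (nat_lit 14353))
    (p (nat_lit 0xc1) (nat_lit 1) (p (nat_lit 0x119) (nat_lit 1) (p (nat_lit 0xd1) (nat_lit 0) (p (nat_lit 0x89) (nat_lit 0) (p (nat_lit 0x41) (nat_lit 0) (p (nat_lit 0x88090887069a) (nat_lit 0) (p (nat_lit 0x87870806861a) (nat_lit 0) (p (nat_lit 0x80000000070786058a) (nat_lit 0) (p (nat_lit 0x8787058502) (nat_lit 0) (p (nat_lit 0x8586850482) (nat_lit 0) (p (nat_lit 0x160014) (nat_lit 0) (p (nat_lit 0x160004) (nat_lit 0) (p (nat_lit 0x68612) (nat_lit 0) (p (nat_lit 0x50592) (nat_lit 0) (p (nat_lit 0x40512) (nat_lit 0) (p (nat_lit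 0x50312) (nat_lit 0) (p (nat_lit 0x38292) (nat_lit 0) (p (nat_lit 0x28212) (nat_lit 0) (p (nat_lit 0x38112) (nat_lit 0) (p (nat_lit 0x20092) (nat_lit 0) (p (nat_lit 0x10012) (nat_lit 0) pn))))))))))))))))))))) :=
  Cl.node (nat_lit 0x81) (nat_lit 2) (by decide +kernel) (ClAll.succ (ClAll.succ ClAll.zero n273) n274)

def n303 : Cl (O (nat_lit 2)) (R (nat_lit 14353))
    (p (nat_lit 0x101) (nat_lit 0) (p (nat_lit 0x111) (nat_lit 0) (p (nat_lit 0xd1) (nat_lit 1) (p (nat_lit 0x89) (nat_lit 0) (p (nat_lit 0x41) (nat_lit 0) (p (nat_lit 0x88090887069a) (nat_lit 0) (p (nat_lit 0x87870806861a) (nat_lit 0) (p (nat_lit 0x80000000070786058a) (nat_lit 0) (p (nat_lit 0x8787058502) (nat_lit 0) (p (nat_lit 0x8586850482) (nat_lit 0) (p (nat_lit 0x160014) (nat_lit 0) (p (nat_lit 0x160004) (nat_lit 0) (p (nat_lit 0x68612) (nat_lit 0) (p (nat_lit 0x50592) (nat_lit 0) (p (nat_lit 0x40512) (nat_lit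 0) (p (nat_lit 0x50312) (nat_lit 0) (p (nat_lit 0x38292) (nat_lit 0) (p (nat_lit 0x28212) (nat_lit 0) (p (nat_lit 0x38112) (nat_lit 0) (p (nat_lit 0x20092) (nat_lit 0) (p (nat_lit 0x10012) (nat_lit 0) pn))))))))))))))))))))) :=
  Cl.node (nat_lit 0x109) (nat_lit 2) (by decide +kernel) (ClAll.succ (ClAll.succ ClAll.zero s54) n275)

def n304 : Cl (O (nat_lit 2)) (R (nat_lit 14353))
    (p (nat_lit 0x101) (nat_lit 1) (p (nat_lit 0x111) (nat_lit 0) (p (nat_lit 0xd1) (nat_lit 1) (p (nat_lit 0x89) (nat_lit 0) (p (nat_lit 0x41) (nat_lit 0) (p (nat_lit 0x88090887069a) (nat_lit 0) (p (nat_lit 0x87870806861a) (nat_lit 0) (p (nat_lit 0x80000000070786058a) (nat_lit 0) (p (nat_lit 0x8787058502) (nat_lit 0) (p (nat_lit 0x8586850482) (nat_lit 0) (p (nat_lit 0x160014) (nat_lit 0) (p (nat_lit 0x160004) (nat_lit 0) (p (nat_lit 0x68612) (nat_lit 0) (p (nat_lit 0x50592) (nat_lit 0) (p (nat_lit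 0x40512) (nat_lit 0) (p (nat_lit 0x50312) (nat_lit 0) (p (nat_lit 0x38292) (nat_lit 0) (p (nat_lit 0x28212) (nat_lit 0) (p (nat_lit 0x38112) (nat_lit 0) (p (nat_lit 0x20092) (nat_lit 0) (p (nat_lit 0x10012) (nat_lit 0) pn))))))))))))))))))))) :=
  Cl.node (nat_lit 0x81) (nat_lit 2) (by decide +kernel) (ClAll.succ (ClAll.succ ClAll.zero n276) n277)

def n305 : Cl (O (nat_lit 2)) (R (nat_lit 14353))
    (p (nat_lit 0x81) (nat_lit 1) (p (nat_lit 0x111) (nat_lit 1) (p (nat_lit 0xd1) (nat_lit 1) (p (nat_lit 0x89) (nat_lit 0) (p (nat_lit 0x41) (nat_lit 0) (p (nat_lit 0x88090887069a) (nat_lit 0) (p (nat_lit 0x87870806861a) (nat_lit 0) (p (nat_lit 0x80000000070786058a) (nat_lit 0) (p (nat_lit 0x8787058502) (nat_lit 0) (p (nat_lit 0x8586850482) (nat_lit 0) (p (nat_lit 0x160014) (nat_lit 0) (p (nat_lit 0x160004) (nat_lit 0) (p (nat_lit 0x68612) (nat_lit 0) (p (nat_lit 0x50592) (nat_lit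 0) (p (nat_lit 0x40512) (nat_lit 0) (p (nat_lit 0x50312) (nat_lit 0) (p (nat_lit 0x38292) (nat_lit 0) (p (nat_lit 0x28212) (nat_lit 0) (p (nat_lit 0x38112) (nat_lit 0) (p (nat_lit 0x20092) (nat_lit 0) (p (nat_lit 0x10012) (nat_lit 0) pn))))))))))))))))))))) :=
  Cl.node (nat_lit 0xc1) (nat_lit 2) (by decide +kernel) (ClAll.succ (ClAll.succ ClAll.zero s74) n278)

def n306 : Cl (O (nat_lit 2)) (R (nat_lit 14353))
    (p (nat_lit 0x101) (nat_lit 0) (p (nat_lit 0x119) (nat_lit 0) (p (nat_lit 0xc9) (nat_lit 0) (p (nat_lit 0x89) (nat_lit 1) (p (nat_lit 0x41) (nat_lit 0) (p (nat_lit 0x88090887069a) (nat_lit 0) (p (nat_lit 0x87870806861a) (nat_lit 0) (p (nat_lit 0x80000000070786058a) (nat_lit 0) (p (nat_lit 0x8787058502) (nat_lit 0) (p (nat_lit 0x8586850482) (nat_lit 0) (p (nat_lit 0x160014) (nat_lit 0) (p (nat_lit 0x160004) (nat_lit 0) (p (nat_lit 0x68612) (nat_lit 0) (p (nat_lit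 0x50592) (nat_lit 0) (p (nat_lit 0x40512) (nat_lit 0) (p (nat_lit 0x50312) (nat_lit 0) (p (nat_lit 0x38292) (nat_lit 0) (p (nat_lit 0x28212) (nat_lit 0) (p (nat_lit 0x38112) (nat_lit 0) (p (nat_lit 0x20092) (nat_lit 0) (p (nat_lit 0x10012) (nat_lit 0) pn))))))))))))))))))))) :=
  Cl.node (nat_lit 0x109) (nat_lit 2) (by decide +kernel) (ClAll.succ (ClAll.succ ClAll.zero n279) n280)

def n307 : Cl (O (nat_lit 2)) (R (nat_lit 14353))
    (p (nat_lit 0x101) (nat_lit 1) (p (nat_lit 0x119) (nat_lit 0) (p (nat_lit 0xc9) (nat_lit 0) (p (nat_lit 0x89) (nat_lit 1) (p (nat_lit 0x41) (nat_lit 0) (p (nat_lit 0x88090887069a) (nat_lit 0) (p (nat_lit 0x87870806861a) (nat_lit 0) (p (nat_lit 0x80000000070786058a) (nat_lit 0) (p (nat_lit 0x8787058502) (nat_lit 0) (p (nat_lit 0x8586850482) (nat_lit 0) (p (nat_lit 0x160014) (nat_lit 0) (p (nat_lit 0x160004) (nat_lit 0) (p (nat_lit 0x68612) (nat_lit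 0) (p (nat_lit 0x50592) (nat_lit 0) (p (nat_lit 0x40512) (nat_lit 0) (p (nat_lit 0x50312) (nat_lit 0) (p (nat_lit 0x38292) (nat_lit 0) (p (nat_lit 0x28212) (nat_lit 0) (p (nat_lit 0x38112) (nat_lit 0) (p (nat_lit 0x20092) (nat_lit 0) (p (nat_lit 0x10012) (nat_lit 0) pn))))))))))))))))))))) :=
  Cl.node (nat_lit 0xc1) (nat_lit 2) (by decide +kernel) (ClAll.succ (ClAll.succ ClAll.zero n281) s134)

def n308 : Cl (O (nat_lit 2)) (R (nat_lit 14353))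
    (p (nat_lit 0xc1) (nat_lit 0) (p (nat_lit 0x119) (nat_lit 1) (p (nat_lit 0xc9) (nat_lit 0) (p (nat_lit 0x89) (nat_lit 1) (p (nat_lit 0x41) (nat_lit 0) (p (nat_lit 0x88090887069a) (nat_lit 0) (p (nat_lit 0x87870806861a) (nat_lit 0) (p (nat_lit 0x80000000070786058a) (nat_lit 0) (p (nat_lit 0x8787058502) (nat_lit 0) (p (nat_lit 0x8586850482) (nat_lit 0) (p (nat_lit 0x160014) (nat_lit 0) (p (nat_lit 0x160004) (nat_lit 0) (p (nat_lit 0x68612) (nat_lit 0) (p (nat_lit 0x50592) (nat_lit 0) (p (nat_lit 0x40512) (nat_lit 0) (p (nat_lit 0x50312) (nat_lit 0) (p (nat_lit 0x38292) (nat_lit 0) (p (nat_lit 0x28212) (nat_lit 0) (p (nat_lit 0x38112) (nat_lit 0) (p (nat_lit 0x20092) (nat_lit 0) (p (nat_lit 0x10012) (nat_lit 0) pn))))))))))))))))))))) :=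
  Cl.node (nat_lit 0xd1) (nat_lit 2) (by decide +kernel) (ClAll.succ (ClAll.succ ClAll.zero s135) n282)

def n309 : Cl (O (nat_lit 2)) (R (nat_lit 14353))
    (p (nat_lit 0xc1) (nat_lit 1) (p (nat_lit 0x119) (nat_lit 1) (p (nat_lit 0xc9) (nat_lit 0) (p (nat_lit 0x89) (nat_lit 1) (p (nat_lit 0x41) (nat_lit 0) (p (nat_lit 0x88090887069a) (nat_lit 0) (p (nat_lit 0x87870806861a) (nat_lit 0) (p (nat_lit 0x80000000070786058a) (nat_lit 0) (p (nat_lit 0x8787058502) (nat_lit 0) (p (nat_lit 0x8586850482) (nat_lit 0) (p (nat_lit 0x160014) (nat_lit 0) (p (nat_lit 0x160004) (nat_lit 0) (p (nat_lit 0x68612) (nat_lit 0) (p (nat_lit 0x50592) (nat_lit 0) (p (nat_lit 0x40512) (nat_lit 0) (p (nat_lit 0x50312) (nat_lit 0) (p (nat_lit 0x38292) (nat_lit 0) (p (nat_lit 0x28212) (nat_lit 0) (p (nat_lit 0x38112) (nat_lit 0) (p (nat_lit 0x20092) (nat_lit 0) (p (nat_lit 0x10012) (nat_lit 0) pn)))))))))))))))))))))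 :=
  Cl.node (nat_lit 0x101) (nat_lit 2) (by decide +kernel) (ClAll.succ (ClAll.succ ClAll.zero n283) s153)

def n310 : Cl (O (nat_lit 2)) (R (nat_lit 14353))
    (p (nat_lit 0x101) (nat_lit 0) (p (nat_lit 0x109) (nat_lit 0) (p (nat_lit 0xc9) (nat_lit 1) (p (nat_lit 0x89) (nat_lit 1) (p (nat_lit 0x41) (nat_lit 0) (p (nat_lit 0x88090887069a) (nat_lit 0) (p (nat_lit 0x87870806861a) (nat_lit 0) (p (nat_lit 0x80000000070786058a) (nat_lit 0) (p (nat_lit 0x8787058502) (nat_lit 0) (p (nat_lit 0x8586850482) (nat_lit 0) (p (nat_lit 0x160014) (nat_lit 0) (p (nat_lit 0x160004) (nat_lit 0) (p (nat_lit 0x68612) (nat_lit 0) (p (nat_lit 0x50592) (nat_lit 0) (p (nat_lit 0x40512) (nat_lit 0) (p (nat_lit 0x50312) (nat_lit 0) (p (nat_lit 0x38292) (nat_lit 0) (p (nat_lit 0x28212) (nat_lit 0) (p (nat_lit 0x38112) (nat_lit 0) (p (nat_lit 0x20092) (nat_lit 0) (p (nat_lit 0x10012) (nat_lit 0) pn)))))))))))))))))))))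 :=
  Cl.node (nat_lit 0x111) (nat_lit 2) (by decide +kernel) (ClAll.succ (ClAll.succ ClAll.zero s154) s155)

def n311 : Cl (O (nat_lit 2)) (R (nat_lit 14353))
    (p (nat_lit 0x101) (nat_lit 0) (p (nat_lit 0x119) (nat_lit 0) (p (nat_lit 0xd1) (nat_lit 0) (p (nat_lit 0x81) (nat_lit 0) (p (nat_lit 0x41) (nat_lit 1) (p (nat_lit 0x88090887069a) (nat_lit 0) (p (nat_lit 0x87870806861a) (nat_lit 0) (p (nat_lit 0x80000000070786058a) (nat_lit 0) (p (nat_lit 0x8787058502) (nat_lit 0) (p (nat_lit 0x8586850482) (nat_lit 0) (p (nat_lit 0x160014) (nat_lit 0) (p (nat_lit 0x160004) (nat_lit 0) (p (nat_lit 0x68612) (nat_lit 0) (p (nat_lit 0x50592) (nat_lit 0) (p (nat_lit 0x40512) (nat_lit 0) (p (nat_lit 0x50312) (nat_lit 0) (p (nat_lit 0x38292) (nat_lit 0) (p (nat_lit 0x28212) (nat_lit 0) (p (nat_lit 0x38112) (nat_lit 0) (p (nat_lit 0x20092) (nat_lit 0) (p (nat_lit 0x10012) (nat_lit 0) pn)))))))))))))))))))))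 :=
  Cl.node (nat_lit 0x109) (nat_lit 2) (by decide +kernel) (ClAll.succ (ClAll.succ ClAll.zero s158) n284)

def n312 : Cl (O (nat_lit 2)) (R (nat_lit 14353))
    (p (nat_lit 0x101) (nat_lit 1) (p (nat_lit 0x119) (nat_lit 0) (p (nat_lit 0xd1) (nat_lit 0) (p (nat_lit 0x81) (nat_lit 0) (p (nat_lit 0x41) (nat_lit 1) (p (nat_lit 0x88090887069a) (nat_lit 0) (p (nat_lit 0x87870806861a) (nat_lit 0) (p (nat_lit 0x80000000070786058a) (nat_lit 0) (p (nat_lit 0x8787058502) (nat_lit 0) (p (nat_lit 0x8586850482) (nat_lit 0) (p (nat_lit 0x160014) (nat_lit 0) (p (nat_lit 0x160004) (nat_lit 0) (p (nat_lit 0x68612) (nat_lit 0) (p (nat_lit 0x50592) (nat_lit 0) (p (nat_lit 0x40512) (nat_lit 0) (p (nat_lit 0x50312) (nat_lit 0) (p (nat_lit 0x38292) (nat_lit 0) (p (nat_lit 0x28212) (nat_lit 0) (p (nat_lit 0x38112) (nat_lit 0) (p (nat_lit 0x20092) (nat_lit 0) (p (nat_lit 0x10012) (nat_lit 0) pn)))))))))))))))))))))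 :=
  Cl.node (nat_lit 0xc1) (nat_lit 2) (by decide +kernel) (ClAll.succ (ClAll.succ ClAll.zero n285) n286)

def n313 : Cl (O (nat_lit 2)) (R (nat_lit 14353))
    (p (nat_lit 0xc1) (nat_lit 0) (p (nat_lit 0x119) (nat_lit 1) (p (nat_lit 0xd1) (nat_lit 0) (p (nat_lit 0x81) (nat_lit 0) (p (nat_lit 0x41) (nat_lit 1) (p (nat_lit 0x88090887069a) (nat_lit 0) (p (nat_lit 0x87870806861a) (nat_lit 0) (p (nat_lit 0x80000000070786058a) (nat_lit 0) (p (nat_lit 0x8787058502) (nat_lit 0) (p (nat_lit 0x8586850482) (nat_lit 0) (p (nat_lit 0x160014) (nat_lit 0) (p (nat_lit 0x160004) (nat_lit 0) (p (nat_lit 0x68612) (nat_lit 0) (p (nat_lit 0x50592) (nat_lit 0) (p (nat_lit 0x40512) (nat_lit 0) (p (nat_lit 0x50312) (nat_lit 0) (p (nat_lit 0x38292) (nat_lit 0) (p (nat_lit 0x28212) (nat_lit 0) (p (nat_lit 0x38112) (nat_lit 0) (p (nat_lit 0x20092) (nat_lit 0) (p (nat_lit 0x10012) (nat_lit 0) pn)))))))))))))))))))))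 :=
  Cl.node (nat_lit 0xc9) (nat_lit 2) (by decide +kernel) (ClAll.succ (ClAll.succ ClAll.zero s202) n287)

def n314 : Cl (O (nat_lit 2)) (R (nat_lit 14353))
    (p (nat_lit 0xc1) (nat_lit 1) (p (nat_lit 0x119) (nat_lit 1) (p (nat_lit 0xd1) (nat_lit 0) (p (nat_lit 0x81) (nat_lit 0) (p (nat_lit 0x41) (nat_lit 1) (p (nat_lit 0x88090887069a) (nat_lit 0) (p (nat_lit 0x87870806861a) (nat_lit 0) (p (nat_lit 0x80000000070786058a) (nat_lit 0) (p (nat_lit 0x8787058502) (nat_lit 0) (p (nat_lit 0x8586850482) (nat_lit 0) (p (nat_lit 0x160014) (nat_lit 0) (p (nat_lit 0x160004) (nat_lit 0) (p (nat_lit 0x68612) (nat_lit 0) (p (nat_lit 0x50592) (nat_lit 0) (p (nat_lit 0x40512) (nat_lit 0) (p (nat_lit 0x50312) (nat_lit 0) (p (nat_lit 0x38292) (nat_lit 0) (p (nat_lit 0x28212) (nat_lit 0) (p (nat_lit 0x38112) (nat_lit 0) (p (nat_lit 0x20092) (nat_lit 0) (p (nat_lit 0x10012) (nat_lit 0) pn)))))))))))))))))))))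 :=
  Cl.node (nat_lit 0x101) (nat_lit 2) (by decide +kernel) (ClAll.succ (ClAll.succ ClAll.zero n288) n289)

def n315 : Cl (O (nat_lit 2)) (R (nat_lit 14353))
    (p (nat_lit 0x101) (nat_lit 0) (p (nat_lit 0x111) (nat_lit 0) (p (nat_lit 0xd1) (nat_lit 1) (p (nat_lit 0x81) (nat_lit 0) (p (nat_lit 0x41) (nat_lit 1) (p (nat_lit 0x88090887069a) (nat_lit 0) (p (nat_lit 0x87870806861a) (nat_lit 0) (p (nat_lit 0x80000000070786058a) (nat_lit 0) (p (nat_lit 0x8787058502) (nat_lit 0) (p (nat_lit 0x8586850482) (nat_lit 0) (p (nat_lit 0x160014) (nat_lit 0) (p (nat_lit 0x160004) (nat_lit 0) (p (nat_lit 0x68612) (nat_lit 0) (p (nat_lit 0x50592) (nat_lit 0) (p (nat_lit 0x40512) (nat_lit 0) (p (nat_lit 0x50312) (nat_lit 0) (p (nat_lit 0x38292) (nat_lit 0) (p (nat_lit 0x28212) (nat_lit 0) (p (nat_lit 0x38112) (nat_lit 0) (p (nat_lit 0x20092) (nat_lit 0) (p (nat_lit 0x10012) (nat_lit 0) pn)))))))))))))))))))))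 :=
  Cl.node (nat_lit 0x109) (nat_lit 2) (by decide +kernel) (ClAll.succ (ClAll.succ ClAll.zero s236) n290)

def n316 : Cl (O (nat_lit 2)) (R (nat_lit 14353))
    (p (nat_lit 0x101) (nat_lit 1) (p (nat_lit 0x111) (nat_lit 0) (p (nat_lit 0xd1) (nat_lit 1) (p (nat_lit 0x81) (nat_lit 0) (p (nat_lit 0x41) (nat_lit 1) (p (nat_lit 0x88090887069a) (nat_lit 0) (p (nat_lit 0x87870806861a) (nat_lit 0) (p (nat_lit 0x80000000070786058a) (nat_lit 0) (p (nat_lit 0x8787058502) (nat_lit 0) (p (nat_lit 0x8586850482) (nat_lit 0) (p (nat_lit 0x160014) (nat_lit 0) (p (nat_lit 0x160004) (nat_lit 0) (p (nat_lit 0x68612) (nat_lit 0) (p (nat_lit 0x50592) (nat_lit 0) (p (nat_lit 0x40512) (nat_lit 0) (p (nat_lit 0x50312) (nat_lit 0) (p (nat_lit 0x38292) (nat_lit 0) (p (nat_lit 0x28212) (nat_lit 0) (p (nat_lit 0x38112) (nat_lit 0) (p (nat_lit 0x20092) (nat_lit 0) (p (nat_lit 0x10012) (nat_lit 0) pn)))))))))))))))))))))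 :=
  Cl.node (nat_lit 0x89) (nat_lit 2) (by decide +kernel) (ClAll.succ (ClAll.succ ClAll.zero n291) n292)

def n317 : Cl (O (nat_lit 2)) (R (nat_lit 14353))
    (p (nat_lit 0x89) (nat_lit 1) (p (nat_lit 0x111) (nat_lit 1) (p (nat_lit 0xd1) (nat_lit 1) (p (nat_lit 0x81) (nat_lit 0) (p (nat_lit 0x41) (nat_lit 1) (p (nat_lit 0x88090887069a) (nat_lit 0) (p (nat_lit 0x87870806861a) (nat_lit 0) (p (nat_lit 0x80000000070786058a) (nat_lit 0) (p (nat_lit 0x8787058502) (nat_lit 0) (p (nat_lit 0x8586850482) (nat_lit 0) (p (nat_lit 0x160014) (nat_lit 0) (p (nat_lit 0x160004) (nat_lit 0) (p (nat_lit 0x68612) (nat_lit 0) (p (nat_lit 0x50592) (nat_lit 0) (p (nat_lit 0x40512) (nat_lit 0) (p (nat_lit 0x50312) (nat_lit 0) (p (nat_lit 0x38292) (nat_lit 0) (p (nat_lit 0x28212) (nat_lit 0) (p (nat_lit 0x38112) (nat_lit 0) (p (nat_lit 0x20092) (nat_lit 0) (p (nat_lit 0x10012) (nat_lit 0) pn)))))))))))))))))))))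 :=
  Cl.node (nat_lit 0xc9) (nat_lit 2) (by decide +kernel) (ClAll.succ (ClAll.succ ClAll.zero s269) n293)

def n318 : Cl (O (nat_lit 2)) (R (nat_lit 14353))
    (p (nat_lit 0x101) (nat_lit 0) (p (nat_lit 0x119) (nat_lit 0) (p (nat_lit 0xc1) (nat_lit 0) (p (nat_lit 0x81) (nat_lit 1) (p (nat_lit 0x41) (nat_lit 1) (p (nat_lit 0x88090887069a) (nat_lit 0) (p (nat_lit 0x87870806861a) (nat_lit 0) (p (nat_lit 0x80000000070786058a) (nat_lit 0) (p (nat_lit 0x8787058502) (nat_lit 0) (p (nat_lit 0x8586850482) (nat_lit 0) (p (nat_lit 0x160014) (nat_lit 0) (p (nat_lit 0x160004) (nat_lit 0) (p (nat_lit 0x68612) (nat_lit 0) (p (nat_lit 0x50592) (nat_lit 0) (p (nat_lit 0x40512) (nat_lit 0) (p (nat_lit 0x50312) (nat_lit 0) (p (nat_lit 0x38292) (nat_lit 0) (p (nat_lit 0x28212) (nat_lit 0) (p (nat_lit 0x38112) (nat_lit 0) (p (nat_lit 0x20092) (nat_lit 0) (p (nat_lit 0x10012) (nat_lit 0) pn)))))))))))))))))))))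 :=
  Cl.node (nat_lit 0x109) (nat_lit 2) (by decide +kernel) (ClAll.succ (ClAll.succ ClAll.zero n294) n295)

def n319 : Cl (O (nat_lit 2)) (R (nat_lit 14353))
    (p (nat_lit 0x101) (nat_lit 1) (p (nat_lit 0x119) (nat_lit 0) (p (nat_lit 0xc1) (nat_lit 0) (p (nat_lit 0x81) (nat_lit 1) (p (nat_lit 0x41) (nat_lit 1) (p (nat_lit 0x88090887069a) (nat_lit 0) (p (nat_lit 0x87870806861a) (nat_lit 0) (p (nat_lit 0x80000000070786058a) (nat_lit 0) (p (nat_lit 0x8787058502) (nat_lit 0) (p (nat_lit 0x8586850482) (nat_lit 0) (p (nat_lit 0x160014) (nat_lit 0) (p (nat_lit 0x160004) (nat_lit 0) (p (nat_lit 0x68612) (nat_lit 0) (p (nat_lit 0x50592) (nat_lit 0) (p (nat_lit 0x40512) (nat_lit 0) (p (nat_lit 0x50312) (nat_lit 0) (p (nat_lit 0x38292) (nat_lit 0) (p (nat_lit 0x28212) (nat_lit 0) (p (nat_lit 0x38112) (nat_lit 0) (p (nat_lit 0x20092) (nat_lit 0) (p (nat_lit 0x10012) (nat_lit 0) pn)))))))))))))))))))))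 :=
  Cl.node (nat_lit 0xc9) (nat_lit 2) (by decide +kernel) (ClAll.succ (ClAll.succ ClAll.zero n296) s304)

def n320 : Cl (O (nat_lit 2)) (R (nat_lit 14353))
    (p (nat_lit 0xc9) (nat_lit 0) (p (nat_lit 0x119) (nat_lit 1) (p (nat_lit 0xc1) (nat_lit 0) (p (nat_lit 0x81) (nat_lit 1) (p (nat_lit 0x41) (nat_lit 1) (p (nat_lit 0x88090887069a) (nat_lit 0) (p (nat_lit 0x87870806861a) (nat_lit 0) (p (nat_lit 0x80000000070786058a) (nat_lit 0) (p (nat_lit 0x8787058502) (nat_lit 0) (p (nat_lit 0x8586850482) (nat_lit 0) (p (nat_lit 0x160014) (nat_lit 0) (p (nat_lit 0x160004) (nat_lit 0) (p (nat_lit 0x68612) (nat_lit 0) (p (nat_lit 0x50592) (nat_lit 0) (p (nat_lit 0x40512) (nat_lit 0) (p (nat_lit 0x50312) (nat_lit 0) (p (nat_lit 0x38292) (nat_lit 0) (p (nat_lit 0x28212) (nat_lit 0) (p (nat_lit 0x38112) (nat_lit 0) (p (nat_lit 0x20092) (nat_lit 0) (p (nat_lit 0x10012) (nat_lit 0) pn)))))))))))))))))))))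 :=
  Cl.node (nat_lit 0xd1) (nat_lit 2) (by decide +kernel) (ClAll.succ (ClAll.succ ClAll.zero s305) n297)

def n321 : Cl (O (nat_lit 2)) (R (nat_lit 14353))
    (p (nat_lit 0xc9) (nat_lit 1) (p (nat_lit 0x119) (nat_lit 1) (p (nat_lit 0xc1) (nat_lit 0) (p (nat_lit 0x81) (nat_lit 1) (p (nat_lit 0x41) (nat_lit 1) (p (nat_lit 0x88090887069a) (nat_lit 0) (p (nat_lit 0x87870806861a) (nat_lit 0) (p (nat_lit 0x80000000070786058a) (nat_lit 0) (p (nat_lit 0x8787058502) (nat_lit 0) (p (nat_lit 0x8586850482) (nat_lit 0) (p (nat_lit 0x160014) (nat_lit 0) (p (nat_lit 0x160004) (nat_lit 0) (p (nat_lit 0x68612) (nat_lit 0) (p (nat_lit 0x50592) (nat_lit 0) (p (nat_lit 0x40512) (nat_lit 0) (p (nat_lit 0x50312) (nat_lit 0) (p (nat_lit 0x38292) (nat_lit 0) (p (nat_lit 0x28212) (nat_lit 0) (p (nat_lit 0x38112) (nat_lit 0) (p (nat_lit 0x20092) (nat_lit 0) (p (nat_lit 0x10012) (nat_lit 0) pn)))))))))))))))))))))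 :=
  Cl.node (nat_lit 0x109) (nat_lit 2) (by decide +kernel) (ClAll.succ (ClAll.succ ClAll.zero n298) s330)

def n322 : Cl (O (nat_lit 2)) (R (nat_lit 14353))
    (p (nat_lit 0x109) (nat_lit 0) (p (nat_lit 0x101) (nat_lit 0) (p (nat_lit 0xc1) (nat_lit 1) (p (nat_lit 0x81) (nat_lit 1) (p (nat_lit 0x41) (nat_lit 1) (p (nat_lit 0x88090887069a) (nat_lit 0) (p (nat_lit 0x87870806861a) (nat_lit 0) (p (nat_lit 0x80000000070786058a) (nat_lit 0) (p (nat_lit 0x8787058502) (nat_lit 0) (p (nat_lit 0x8586850482) (nat_lit 0) (p (nat_lit 0x160014) (nat_lit 0) (p (nat_lit 0x160004) (nat_lit 0) (p (nat_lit 0x68612) (nat_lit 0) (p (nat_lit 0x50592) (nat_lit 0) (p (nat_lit 0x40512) (nat_lit 0) (p (nat_lit 0x50312) (nat_lit 0) (p (nat_lit 0x38292) (nat_lit 0) (p (nat_lit 0x28212) (nat_lit 0) (p (nat_lit 0x38112) (nat_lit 0) (p (nat_lit 0x20092) (nat_lit 0) (p (nat_lit 0x10012) (nat_lit 0) pn)))))))))))))))))))))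 :=
  Cl.node (nat_lit 0x111) (nat_lit 2) (by decide +kernel) (ClAll.succ (ClAll.succ ClAll.zero s331) s332)

def n323 : Cl (O (nat_lit 2)) (R (nat_lit 14353))
    (p (nat_lit 0x119) (nat_lit 0) (p (nat_lit 0xd1) (nat_lit 0) (p (nat_lit 0x89) (nat_lit 0) (p (nat_lit 0x41) (nat_lit 0) (p (nat_lit 0x88090887069a) (nat_lit 0) (p (nat_lit 0x87870806861a) (nat_lit 0) (p (nat_lit 0x80000000070786058a) (nat_lit 0) (p (nat_lit 0x8787058502) (nat_lit 0) (p (nat_lit 0x8586850482) (nat_lit 0) (p (nat_lit 0x160014) (nat_lit 0) (p (nat_lit 0x160004) (nat_lit 0) (p (nat_lit 0x68612) (nat_lit 0) (p (nat_lit 0x50592) (nat_lit 0) (p (nat_lit 0x40512) (nat_lit 0) (p (nat_lit 0x50312) (nat_lit 0) (p (nat_lit 0x38292) (nat_lit 0) (p (nat_lit 0x28212) (nat_lit 0) (p (nat_lit 0x38112) (nat_lit 0) (p (nat_lit 0x20092) (nat_lit 0) (p (nat_lit 0x10012) (nat_lit 0) pn)))))))))))))))))))) :=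
  Cl.node (nat_lit 0x101) (nat_lit 2) (by decide +kernel) (ClAll.succ (ClAll.succ ClAll.zero n299) n300)

def n324 : Cl (O (nat_lit 2)) (R (nat_lit 14353))
    (p (nat_lit 0x119) (nat_lit 1) (p (nat_lit 0xd1) (nat_lit 0) (p (nat_lit 0x89) (nat_lit 0) (p (nat_lit 0x41) (nat_lit 0) (p (nat_lit 0x88090887069a) (nat_lit 0) (p (nat_lit 0x87870806861a) (nat_lit 0) (p (nat_lit 0x80000000070786058a) (nat_lit 0) (p (nat_lit 0x8787058502) (nat_lit 0) (p (nat_lit 0x8586850482) (nat_lit 0) (p (nat_lit 0x160014) (nat_lit 0) (p (nat_lit 0x160004) (nat_lit 0) (p (nat_lit 0x68612) (nat_lit 0) (p (nat_lit 0x50592) (nat_lit 0) (p (nat_lit 0x40512) (nat_lit 0) (p (nat_lit 0x50312) (nat_lit 0) (p (nat_lit 0x38292) (nat_lit 0) (p (nat_lit 0x28212) (nat_lit 0) (p (nat_lit 0x38112) (nat_lit 0) (p (nat_lit 0x20092) (nat_lit 0) (p (nat_lit 0x10012) (nat_lit 0) pn)))))))))))))))))))) :=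
  Cl.node (nat_lit 0xc1) (nat_lit 2) (by decide +kernel) (ClAll.succ (ClAll.succ ClAll.zero n301) n302)

def n325 : Cl (O (nat_lit 2)) (R (nat_lit 14353))
    (p (nat_lit 0x111) (nat_lit 0) (p (nat_lit 0xd1) (nat_lit 1) (p (nat_lit 0x89) (nat_lit 0) (p (nat_lit 0x41) (nat_lit 0) (p (nat_lit 0x88090887069a) (nat_lit 0) (p (nat_lit 0x87870806861a) (nat_lit 0) (p (nat_lit 0x80000000070786058a) (nat_lit 0) (p (nat_lit 0x8787058502) (nat_lit 0) (p (nat_lit 0x8586850482) (nat_lit 0) (p (nat_lit 0x160014) (nat_lit 0) (p (nat_lit 0x160004) (nat_lit 0) (p (nat_lit 0x68612) (nat_lit 0) (p (nat_lit 0x50592) (nat_lit 0) (p (nat_lit 0x40512) (nat_lit 0) (p (nat_lit 0x50312) (nat_lit 0) (p (nat_lit 0x38292) (nat_lit 0) (p (nat_lit 0x28212) (nat_lit 0) (p (nat_lit 0x38112) (nat_lit 0) (p (nat_lit 0x20092) (nat_lit 0) (p (nat_lit 0x10012) (nat_lit 0) pn)))))))))))))))))))) :=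
  Cl.node (nat_lit 0x101) (nat_lit 2) (by decide +kernel) (ClAll.succ (ClAll.succ ClAll.zero n303) n304)

def n326 : Cl (O (nat_lit 2)) (R (nat_lit 14353))
    (p (nat_lit 0x111) (nat_lit 1) (p (nat_lit 0xd1) (nat_lit 1) (p (nat_lit 0x89) (nat_lit 0) (p (nat_lit 0x41) (nat_lit 0) (p (nat_lit 0x88090887069a) (nat_lit 0) (p (nat_lit 0x87870806861a) (nat_lit 0) (p (nat_lit 0x80000000070786058a) (nat_lit 0) (p (nat_lit 0x8787058502) (nat_lit 0) (p (nat_lit 0x8586850482) (nat_lit 0) (p (nat_lit 0x160014) (nat_lit 0) (p (nat_lit 0x160004) (nat_lit 0) (p (nat_lit 0x68612) (nat_lit 0) (p (nat_lit 0x50592) (nat_lit 0) (p (nat_lit 0x40512) (nat_lit 0) (p (nat_lit 0x50312) (nat_lit 0) (p (nat_lit 0x38292) (nat_lit 0) (p (nat_lit 0x28212) (nat_lit 0) (p (nat_lit 0x38112) (nat_lit 0) (p (nat_lit 0x20092) (nat_lit 0) (p (nat_lit 0x10012) (nat_lit 0) pn)))))))))))))))))))) :=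
  Cl.node (nat_lit 0x81) (nat_lit 2) (by decide +kernel) (ClAll.succ (ClAll.succ ClAll.zero s73) n305)

def n327 : Cl (O (nat_lit 2)) (R (nat_lit 14353))
    (p (nat_lit 0x119) (nat_lit 0) (p (nat_lit 0xc9) (nat_lit 0) (p (nat_lit 0x89) (nat_lit 1) (p (nat_lit 0x41) (nat_lit 0) (p (nat_lit 0x88090887069a) (nat_lit 0) (p (nat_lit 0x87870806861a) (nat_lit 0) (p (nat_lit 0x80000000070786058a) (nat_lit 0) (p (nat_lit 0x8787058502) (nat_lit 0) (p (nat_lit 0x8586850482) (nat_lit 0) (p (nat_lit 0x160014) (nat_lit 0) (p (nat_lit 0x160004) (nat_lit 0) (p (nat_lit 0x68612) (nat_lit 0) (p (nat_lit 0x50592) (nat_lit 0) (p (nat_lit 0x40512) (nat_lit 0) (p (nat_lit 0x50312) (nat_lit 0) (p (nat_lit 0x38292) (nat_lit 0) (p (nat_lit 0x28212) (nat_lit 0) (p (nat_lit 0x38112) (nat_lit 0) (p (nat_lit 0x20092) (nat_lit 0) (p (nat_lit 0x10012) (nat_lit 0) pn)))))))))))))))))))) :=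
  Cl.node (nat_lit 0x101) (nat_lit 2) (by decide +kernel) (ClAll.succ (ClAll.succ ClAll.zero n306) n307)

def n328 : Cl (O (nat_lit 2)) (R (nat_lit 14353))
    (p (nat_lit 0x119) (nat_lit 1) (p (nat_lit 0xc9) (nat_lit 0) (p (nat_lit 0x89) (nat_lit 1) (p (nat_lit 0x41) (nat_lit 0) (p (nat_lit 0x88090887069a) (nat_lit 0) (p (nat_lit 0x87870806861a) (nat_lit 0) (p (nat_lit 0x80000000070786058a) (nat_lit 0) (p (nat_lit 0x8787058502) (nat_lit 0) (p (nat_lit 0x8586850482) (nat_lit 0) (p (nat_lit 0x160014) (nat_lit 0) (p (nat_lit 0x160004) (nat_lit 0) (p (nat_lit 0x68612) (nat_lit 0) (p (nat_lit 0x50592) (nat_lit 0) (p (nat_lit 0x40512) (nat_lit 0) (p (nat_lit 0x50312) (nat_lit 0) (p (nat_lit 0x38292) (nat_lit 0) (p (nat_lit 0x28212) (nat_lit 0) (p (nat_lit 0x38112) (nat_lit 0) (p (nat_lit 0x20092) (nat_lit 0) (p (nat_lit 0x10012) (nat_lit 0) pn)))))))))))))))))))) :=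
  Cl.node (nat_lit 0xc1) (nat_lit 2) (by decide +kernel) (ClAll.succ (ClAll.succ ClAll.zero n308) n309)

def n329 : Cl (O (nat_lit 2)) (R (nat_lit 14353))
    (p (nat_lit 0x109) (nat_lit 0) (p (nat_lit 0xc9) (nat_lit 1) (p (nat_lit 0x89) (nat_lit 1) (p (nat_lit 0x41) (nat_lit 0) (p (nat_lit 0x88090887069a) (nat_lit 0) (p (nat_lit 0x87870806861a) (nat_lit 0) (p (nat_lit 0x80000000070786058a) (nat_lit 0) (p (nat_lit 0x8787058502) (nat_lit 0) (p (nat_lit 0x8586850482) (nat_lit 0) (p (nat_lit 0x160014) (nat_lit 0) (p (nat_lit 0x160004) (nat_lit 0) (p (nat_lit 0x68612) (nat_lit 0) (p (nat_lit 0x50592) (nat_lit 0) (p (nat_lit 0x40512) (nat_lit 0) (p (nat_lit 0x50312) (nat_lit 0) (p (nat_lit 0x38292) (nat_lit 0) (p (nat_lit 0x28212) (nat_lit 0) (p (nat_lit 0x38112) (nat_lit 0) (p (nat_lit 0x20092) (nat_lit 0) (p (nat_lit 0x10012) (nat_lit 0) pn)))))))))))))))))))) :=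
  Cl.node (nat_lit 0x101) (nat_lit 2) (by decide +kernel) (ClAll.succ (ClAll.succ ClAll.zero n310) s156)

def n330 : Cl (O (nat_lit 2)) (R (nat_lit 14353))
    (p (nat_lit 0x119) (nat_lit 0) (p (nat_lit 0xd1) (nat_lit 0) (p (nat_lit 0x81) (nat_lit 0) (p (nat_lit 0x41) (nat_lit 1) (p (nat_lit 0x88090887069a) (nat_lit 0) (p (nat_lit 0x87870806861a) (nat_lit 0) (p (nat_lit 0x80000000070786058a) (nat_lit 0) (p (nat_lit 0x8787058502) (nat_lit 0) (p (nat_lit 0x8586850482) (nat_lit 0) (p (nat_lit 0x160014) (nat_lit 0) (p (nat_lit 0x160004) (nat_lit 0) (p (nat_lit 0x68612) (nat_lit 0) (p (nat_lit 0x50592) (nat_lit 0) (p (nat_lit 0x40512) (nat_lit 0) (p (nat_lit 0x50312) (nat_lit 0) (p (nat_lit 0x38292) (nat_lit 0) (p (nat_lit 0x28212) (nat_lit 0) (p (nat_lit 0x38112) (nat_lit 0) (p (nat_lit 0x20092) (nat_lit 0) (p (nat_lit 0x10012) (nat_lit 0) pn)))))))))))))))))))) :=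
  Cl.node (nat_lit 0x101) (nat_lit 2) (by decide +kernel) (ClAll.succ (ClAll.succ ClAll.zero n311) n312)

def n331 : Cl (O (nat_lit 2)) (R (nat_lit 14353))
    (p (nat_lit 0x119) (nat_lit 1) (p (nat_lit 0xd1) (nat_lit 0) (p (nat_lit 0x81) (nat_lit 0) (p (nat_lit 0x41) (nat_lit 1) (p (nat_lit 0x88090887069a) (nat_lit 0) (p (nat_lit 0x87870806861a) (nat_lit 0) (p (nat_lit 0x80000000070786058a) (nat_lit 0) (p (nat_lit 0x8787058502) (nat_lit 0) (p (nat_lit 0x8586850482) (nat_lit 0) (p (nat_lit 0x160014) (nat_lit 0) (p (nat_lit 0x160004) (nat_lit 0) (p (nat_lit 0x68612) (nat_lit 0) (p (nat_lit 0x50592) (nat_lit 0) (p (nat_lit 0x40512) (nat_lit 0) (p (nat_lit 0x50312) (nat_lit 0) (p (nat_lit 0x38292) (nat_lit 0) (p (nat_lit 0x28212) (nat_lit 0) (p (nat_lit 0x38112) (nat_lit 0) (p (nat_lit 0x20092) (nat_lit 0) (p (nat_lit 0x10012) (nat_lit 0) pn)))))))))))))))))))) :=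
  Cl.node (nat_lit 0xc1) (nat_lit 2) (by decide +kernel) (ClAll.succ (ClAll.succ ClAll.zero n313) n314)

def n332 : Cl (O (nat_lit 2)) (R (nat_lit 14353))
    (p (nat_lit 0x111) (nat_lit 0) (p (nat_lit 0xd1) (nat_lit 1) (p (nat_lit 0x81) (nat_lit 0) (p (nat_lit 0x41) (nat_lit 1) (p (nat_lit 0x88090887069a) (nat_lit 0) (p (nat_lit 0x87870806861a) (nat_lit 0) (p (nat_lit 0x80000000070786058a) (nat_lit 0) (p (nat_lit 0x8787058502) (nat_lit 0) (p (nat_lit 0x8586850482) (nat_lit 0) (p (nat_lit 0x160014) (nat_lit 0) (p (nat_lit 0x160004) (nat_lit 0) (p (nat_lit 0x68612) (nat_lit 0) (p (nat_lit 0x50592) (nat_lit 0) (p (nat_lit 0x40512) (nat_lit 0) (p (nat_lit 0x50312) (nat_lit 0) (p (nat_lit 0x38292) (nat_lit 0) (p (nat_lit 0x28212) (nat_lit 0) (p (nat_lit 0x38112) (nat_lit 0) (p (nat_lit 0x20092) (nat_lit 0) (p (nat_lit 0x10012) (nat_lit 0) pn)))))))))))))))))))) :=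
  Cl.node (nat_lit 0x101) (nat_lit 2) (by decide +kernel) (ClAll.succ (ClAll.succ ClAll.zero n315) n316)

def n333 : Cl (O (nat_lit 2)) (R (nat_lit 14353))
    (p (nat_lit 0x111) (nat_lit 1) (p (nat_lit 0xd1) (nat_lit 1) (p (nat_lit 0x81) (nat_lit 0) (p (nat_lit 0x41) (nat_lit 1) (p (nat_lit 0x88090887069a) (nat_lit 0) (p (nat_lit 0x87870806861a) (nat_lit 0) (p (nat_lit 0x80000000070786058a) (nat_lit 0) (p (nat_lit 0x8787058502) (nat_lit 0) (p (nat_lit 0x8586850482) (nat_lit 0) (p (nat_lit 0x160014) (nat_lit 0) (p (nat_lit 0x160004) (nat_lit 0) (p (nat_lit 0x68612) (nat_lit 0) (p (nat_lit 0x50592) (nat_lit 0) (p (nat_lit 0x40512) (nat_lit 0) (p (nat_lit 0x50312) (nat_lit 0) (p (nat_lit 0x38292) (nat_lit 0) (p (nat_lit 0x28212) (nat_lit 0) (p (nat_lit 0x38112) (nat_lit 0) (p (nat_lit 0x20092) (nat_lit 0) (p (nat_lit 0x10012) (nat_lit 0) pn)))))))))))))))))))) :=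
  Cl.node (nat_lit 0x89) (nat_lit 2) (by decide +kernel) (ClAll.succ (ClAll.succ ClAll.zero s268) n317)

def n334 : Cl (O (nat_lit 2)) (R (nat_lit 14353))
    (p (nat_lit 0x119) (nat_lit 0) (p (nat_lit 0xc1) (nat_lit 0) (p (nat_lit 0x81) (nat_lit 1) (p (nat_lit 0x41) (nat_lit 1) (p (nat_lit 0x88090887069a) (nat_lit 0) (p (nat_lit 0x87870806861a) (nat_lit 0) (p (nat_lit 0x80000000070786058a) (nat_lit 0) (p (nat_lit 0x8787058502) (nat_lit 0) (p (nat_lit 0x8586850482) (nat_lit 0) (p (nat_lit 0x160014) (nat_lit 0) (p (nat_lit 0x160004) (nat_lit 0) (p (nat_lit 0x68612) (nat_lit 0) (p (nat_lit 0x50592) (nat_lit 0) (p (nat_lit 0x40512) (nat_lit 0) (p (nat_lit 0x50312) (nat_lit 0) (p (nat_lit 0x38292) (nat_lit 0) (p (nat_lit 0x28212) (nat_lit 0) (p (nat_lit 0x38112) (nat_lit 0) (p (nat_lit 0x20092) (nat_lit 0) (p (nat_lit 0x10012) (nat_lit 0) pn)))))))))))))))))))) :=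
  Cl.node (nat_lit 0x101) (nat_lit 2) (by decide +kernel) (ClAll.succ (ClAll.succ ClAll.zero n318) n319)

def n335 : Cl (O (nat_lit 2)) (R (nat_lit 14353))
    (p (nat_lit 0x119) (nat_lit 1) (p (nat_lit 0xc1) (nat_lit 0) (p (nat_lit 0x81) (nat_lit 1) (p (nat_lit 0x41) (nat_lit 1) (p (nat_lit 0x88090887069a) (nat_lit 0) (p (nat_lit 0x87870806861a) (nat_lit 0) (p (nat_lit 0x80000000070786058a) (nat_lit 0) (p (nat_lit 0x8787058502) (nat_lit 0) (p (nat_lit 0x8586850482) (nat_lit 0) (p (nat_lit 0x160014) (nat_lit 0) (p (nat_lit 0x160004) (nat_lit 0) (p (nat_lit 0x68612) (nat_lit 0) (p (nat_lit 0x50592) (nat_lit 0) (p (nat_lit 0x40512) (nat_lit 0) (p (nat_lit 0x50312) (nat_lit 0) (p (nat_lit 0x38292) (nat_lit 0) (p (nat_lit 0x28212) (nat_lit 0) (p (nat_lit 0x38112) (nat_lit 0) (p (nat_lit 0x20092) (nat_lit 0) (p (nat_lit 0x10012) (nat_lit 0) pn)))))))))))))))))))) :=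
  Cl.node (nat_lit 0xc9) (nat_lit 2) (by decide +kernel) (ClAll.succ (ClAll.succ ClAll.zero n320) n321)

def n336 : Cl (O (nat_lit 2)) (R (nat_lit 14353))
    (p (nat_lit 0x101) (nat_lit 0) (p (nat_lit 0xc1) (nat_lit 1) (p (nat_lit 0x81) (nat_lit 1) (p (nat_lit 0x41) (nat_lit 1) (p (nat_lit 0x88090887069a) (nat_lit 0) (p (nat_lit 0x87870806861a) (nat_lit 0) (p (nat_lit 0x80000000070786058a) (nat_lit 0) (p (nat_lit 0x8787058502) (nat_lit 0) (p (nat_lit 0x8586850482) (nat_lit 0) (p (nat_lit 0x160014) (nat_lit 0) (p (nat_lit 0x160004) (nat_lit 0) (p (nat_lit 0x68612) (nat_lit 0) (p (nat_lit 0x50592) (nat_lit 0) (p (nat_lit 0x40512) (nat_lit 0) (p (nat_lit 0x50312) (nat_lit 0) (p (nat_lit 0x38292) (nat_lit 0) (p (nat_lit 0x28212) (nat_lit 0) (p (nat_lit 0x38112) (nat_lit 0) (p (nat_lit 0x20092) (nat_lit 0) (p (nat_lit 0x10012) (nat_lit 0) pn)))))))))))))))))))) :=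
  Cl.node (nat_lit 0x109) (nat_lit 2) (by decide +kernel) (ClAll.succ (ClAll.succ ClAll.zero n322) s333)

def n337 : Cl (O (nat_lit 2)) (R (nat_lit 14353))
    (p (nat_lit 0xd1) (nat_lit 0) (p (nat_lit 0x89) (nat_lit 0) (p (nat_lit 0x41) (nat_lit 0) (p (nat_lit 0x88090887069a) (nat_lit 0) (p (nat_lit 0x87870806861a) (nat_lit 0) (p (nat_lit 0x80000000070786058a) (nat_lit 0) (p (nat_lit 0x8787058502) (nat_lit 0) (p (nat_lit 0x8586850482) (nat_lit 0) (p (nat_lit 0x160014) (nat_lit 0) (p (nat_lit 0x160004) (nat_lit 0) (p (nat_lit 0x68612) (nat_lit 0) (p (nat_lit 0x50592) (nat_lit 0) (p (nat_lit 0x40512) (nat_lit 0) (p (nat_lit 0x50312) (nat_lit 0) (p (nat_lit 0x38292) (nat_lit 0) (p (nat_lit 0x28212) (nat_lit 0) (p (nat_lit 0x38112) (nat_lit 0) (p (nat_lit 0x20092) (nat_lit 0) (p (nat_lit 0x10012) (nat_lit 0) pn))))))))))))))))))) :=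
  Cl.node (nat_lit 0x119) (nat_lit 2) (by decide +kernel) (ClAll.succ (ClAll.succ ClAll.zero n323) n324)

def n338 : Cl (O (nat_lit 2)) (R (nat_lit 14353))
    (p (nat_lit 0xd1) (nat_lit 1) (p (nat_lit 0x89) (nat_lit 0) (p (nat_lit 0x41) (nat_lit 0) (p (nat_lit 0x88090887069a) (nat_lit 0) (p (nat_lit 0x87870806861a) (nat_lit 0) (p (nat_lit 0x80000000070786058a) (nat_lit 0) (p (nat_lit 0x8787058502) (nat_lit 0) (p (nat_lit 0x8586850482) (nat_lit 0) (p (nat_lit 0x160014) (nat_lit 0) (p (nat_lit 0x160004) (nat_lit 0) (p (nat_lit 0x68612) (nat_lit 0) (p (nat_lit 0x50592) (nat_lit 0) (p (nat_lit 0x40512) (nat_lit 0) (p (nat_lit 0x50312) (nat_lit 0) (p (nat_lit 0x38292) (nat_lit 0) (p (nat_lit 0x28212) (nat_lit 0) (p (nat_lit 0x38112) (nat_lit 0) (p (nat_lit 0x20092) (nat_lit 0) (p (nat_lit 0x10012) (nat_lit 0) pn))))))))))))))))))) :=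
  Cl.node (nat_lit 0x111) (nat_lit 2) (by decide +kernel) (ClAll.succ (ClAll.succ ClAll.zero n325) n326)

def n339 : Cl (O (nat_lit 2)) (R (nat_lit 14353))
    (p (nat_lit 0xc9) (nat_lit 0) (p (nat_lit 0x89) (nat_lit 1) (p (nat_lit 0x41) (nat_lit 0) (p (nat_lit 0x88090887069a) (nat_lit 0) (p (nat_lit 0x87870806861a) (nat_lit 0) (p (nat_lit 0x80000000070786058a) (nat_lit 0) (p (nat_lit 0x8787058502) (nat_lit 0) (p (nat_lit 0x8586850482) (nat_lit 0) (p (nat_lit 0x160014) (nat_lit 0) (p (nat_lit 0x160004) (nat_lit 0) (p (nat_lit 0x68612) (nat_lit 0) (p (nat_lit 0x50592) (nat_lit 0) (p (nat_lit 0x40512) (nat_lit 0) (p (nat_lit 0x50312) (nat_lit 0) (p (nat_lit 0x38292) (nat_lit 0) (p (nat_lit 0x28212) (nat_lit 0) (p (nat_lit 0x38112) (nat_lit 0) (p (nat_lit 0x20092) (nat_lit 0) (p (nat_lit 0x10012) (nat_lit 0) pn))))))))))))))))))) :=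
  Cl.node (nat_lit 0x119) (nat_lit 2) (by decide +kernel) (ClAll.succ (ClAll.succ ClAll.zero n327) n328)

def n340 : Cl (O (nat_lit 2)) (R (nat_lit 14353))
    (p (nat_lit 0xc9) (nat_lit 1) (p (nat_lit 0x89) (nat_lit 1) (p (nat_lit 0x41) (nat_lit 0) (p (nat_lit 0x88090887069a) (nat_lit 0) (p (nat_lit 0x87870806861a) (nat_lit 0) (p (nat_lit 0x80000000070786058a) (nat_lit 0) (p (nat_lit 0x8787058502) (nat_lit 0) (p (nat_lit 0x8586850482) (nat_lit 0) (p (nat_lit 0x160014) (nat_lit 0) (p (nat_lit 0x160004) (nat_lit 0) (p (nat_lit 0x68612) (nat_lit 0) (p (nat_lit 0x50592) (nat_lit 0) (p (nat_lit 0x40512) (nat_lit 0) (p (nat_lit 0x50312) (nat_lit 0) (p (nat_lit 0x38292) (nat_lit 0) (p (nat_lit 0x28212) (nat_lit 0) (p (nat_lit 0x38112) (nat_lit 0) (p (nat_lit 0x20092) (nat_lit 0) (p (nat_lit 0x10012) (nat_lit 0) pn))))))))))))))))))) :=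
  Cl.node (nat_lit 0x109) (nat_lit 2) (by decide +kernel) (ClAll.succ (ClAll.succ ClAll.zero n329) s157)

def n341 : Cl (O (nat_lit 2)) (R (nat_lit 14353))
    (p (nat_lit 0xd1) (nat_lit 0) (p (nat_lit 0x81) (nat_lit 0) (p (nat_lit 0x41) (nat_lit 1) (p (nat_lit 0x88090887069a) (nat_lit 0) (p (nat_lit 0x87870806861a) (nat_lit 0) (p (nat_lit 0x80000000070786058a) (nat_lit 0) (p (nat_lit 0x8787058502) (nat_lit 0) (p (nat_lit 0x8586850482) (nat_lit 0) (p (nat_lit 0x160014) (nat_lit 0) (p (nat_lit 0x160004) (nat_lit 0) (p (nat_lit 0x68612) (nat_lit 0) (p (nat_lit 0x50592) (nat_lit 0) (p (nat_lit 0x40512) (nat_lit 0) (p (nat_lit 0x50312) (nat_lit 0) (p (nat_lit 0x38292) (nat_lit 0) (p (nat_lit 0x28212) (nat_lit 0) (p (nat_lit 0x38112) (nat_lit 0) (p (nat_lit 0x20092) (nat_lit 0) (p (nat_lit 0x10012) (nat_lit 0) pn))))))))))))))))))) :=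
  Cl.node (nat_lit 0x119) (nat_lit 2) (by decide +kernel) (ClAll.succ (ClAll.succ ClAll.zero n330) n331)

def n342 : Cl (O (nat_lit 2)) (R (nat_lit 14353))
    (p (nat_lit 0xd1) (nat_lit 1) (p (nat_lit 0x81) (nat_lit 0) (p (nat_lit 0x41) (nat_lit 1) (p (nat_lit 0x88090887069a) (nat_lit 0) (p (nat_lit 0x87870806861a) (nat_lit 0) (p (nat_lit 0x80000000070786058a) (nat_lit 0) (p (nat_lit 0x8787058502) (nat_lit 0) (p (nat_lit 0x8586850482) (nat_lit 0) (p (nat_lit 0x160014) (nat_lit 0) (p (nat_lit 0x160004) (nat_lit 0) (p (nat_lit 0x68612) (nat_lit 0) (p (nat_lit 0x50592) (nat_lit 0) (p (nat_lit 0x40512) (nat_lit 0) (p (nat_lit 0x50312) (nat_lit 0) (p (nat_lit 0x38292) (nat_lit 0) (p (nat_lit 0x28212) (nat_lit 0) (p (nat_lit 0x38112) (nat_lit 0) (p (nat_lit 0x20092) (nat_lit 0) (p (nat_lit 0x10012) (nat_lit 0) pn))))))))))))))))))) :=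
  Cl.node (nat_lit 0x111) (nat_lit 2) (by decide +kernel) (ClAll.succ (ClAll.succ ClAll.zero n332) n333)

def n343 : Cl (O (nat_lit 2)) (R (nat_lit 14353))
    (p (nat_lit 0xc1) (nat_lit 0) (p (nat_lit 0x81) (nat_lit 1) (p (nat_lit 0x41) (nat_lit 1) (p (nat_lit 0x88090887069a) (nat_lit 0) (p (nat_lit 0x87870806861a) (nat_lit 0) (p (nat_lit 0x80000000070786058a) (nat_lit 0) (p (nat_lit 0x8787058502) (nat_lit 0) (p (nat_lit 0x8586850482) (nat_lit 0) (p (nat_lit 0x160014) (nat_lit 0) (p (nat_lit 0x160004) (nat_lit 0) (p (nat_lit 0x68612) (nat_lit 0) (p (nat_lit 0x50592) (nat_lit 0) (p (nat_lit 0x40512) (nat_lit 0) (p (nat_lit 0x50312) (nat_lit 0) (p (nat_lit 0x38292) (nat_lit 0) (p (nat_lit 0x28212) (nat_lit 0) (p (nat_lit 0x38112) (nat_lit 0) (p (nat_lit 0x20092) (nat_lit 0) (p (nat_lit 0x10012) (nat_lit 0) pn))))))))))))))))))) :=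
  Cl.node (nat_lit 0x119) (nat_lit 2) (by decide +kernel) (ClAll.succ (ClAll.succ ClAll.zero n334) n335)

def n344 : Cl (O (nat_lit 2)) (R (nat_lit 14353))
    (p (nat_lit 0xc1) (nat_lit 1) (p (nat_lit 0x81) (nat_lit 1) (p (nat_lit 0x41) (nat_lit 1) (p (nat_lit 0x88090887069a) (nat_lit 0) (p (nat_lit 0x87870806861a) (nat_lit 0) (p (nat_lit 0x80000000070786058a) (nat_lit 0) (p (nat_lit 0x8787058502) (nat_lit 0) (p (nat_lit 0x8586850482) (nat_lit 0) (p (nat_lit 0x160014) (nat_lit 0) (p (nat_lit 0x160004) (nat_lit 0) (p (nat_lit 0x68612) (nat_lit 0) (p (nat_lit 0x50592) (nat_lit 0) (p (nat_lit 0x40512) (nat_lit 0) (p (nat_lit 0x50312) (nat_lit 0) (p (nat_lit 0x38292) (nat_lit 0) (p (nat_lit 0x28212) (nat_lit 0) (p (nat_lit 0x38112) (nat_lit 0) (p (nat_lit 0x20092) (nat_lit 0) (p (nat_lit 0x10012) (nat_lit 0) pn))))))))))))))))))) :=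
  Cl.node (nat_lit 0x101) (nat_lit 2) (by decide +kernel) (ClAll.succ (ClAll.succ ClAll.zero n336) s334)

def n345 : Cl (O (nat_lit 2)) (R (nat_lit 14353))
    (p (nat_lit 0x89) (nat_lit 0) (p (nat_lit 0x41) (nat_lit 0) (p (nat_lit 0x88090887069a) (nat_lit 0) (p (nat_lit 0x87870806861a) (nat_lit 0) (p (nat_lit 0x80000000070786058a) (nat_lit 0) (p (nat_lit 0x8787058502) (nat_lit 0) (p (nat_lit 0x8586850482) (nat_lit 0) (p (nat_lit 0x160014) (nat_lit 0) (p (nat_lit 0x160004) (nat_lit 0) (p (nat_lit 0x68612) (nat_lit 0) (p (nat_lit 0x50592) (nat_lit 0) (p (nat_lit 0x40512) (nat_lit 0) (p (nat_lit 0x50312) (nat_lit 0) (p (nat_lit 0x38292) (nat_lit 0) (p (nat_lit 0x28212) (nat_lit 0) (p (nat_lit 0x38112) (nat_lit 0) (p (nat_lit 0x20092) (nat_lit 0) (p (nat_lit 0x10012) (nat_lit 0) pn)))))))))))))))))) :=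
  Cl.node (nat_lit 0xd1) (nat_lit 2) (by decide +kernel) (ClAll.succ (ClAll.succ ClAll.zero n337) n338)

def n346 : Cl (O (nat_lit 2)) (R (nat_lit 14353))
    (p (nat_lit 0x89) (nat_lit 1) (p (nat_lit 0x41) (nat_lit 0) (p (nat_lit 0x88090887069a) (nat_lit 0) (p (nat_lit 0x87870806861a) (nat_lit 0) (p (nat_lit 0x80000000070786058a) (nat_lit 0) (p (nat_lit 0x8787058502) (nat_lit 0) (p (nat_lit 0x8586850482) (nat_lit 0) (p (nat_lit 0x160014) (nat_lit 0) (p (nat_lit 0x160004) (nat_lit 0) (p (nat_lit 0x68612) (nat_lit 0) (p (nat_lit 0x50592) (nat_lit 0) (p (nat_lit 0x40512) (nat_lit 0) (p (nat_lit 0x50312) (nat_lit 0) (p (nat_lit 0x38292) (nat_lit 0) (p (nat_lit 0x28212) (nat_lit 0) (p (nat_lit 0x38112) (nat_lit 0) (p (nat_lit 0x20092) (nat_lit 0) (p (nat_lit 0x10012) (nat_lit 0) pn)))))))))))))))))) :=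
  Cl.node (nat_lit 0xc9) (nat_lit 2) (by decide +kernel) (ClAll.succ (ClAll.succ ClAll.zero n339) n340)

def n347 : Cl (O (nat_lit 2)) (R (nat_lit 14353))
    (p (nat_lit 0x81) (nat_lit 0) (p (nat_lit 0x41) (nat_lit 1) (p (nat_lit 0x88090887069a) (nat_lit 0) (p (nat_lit 0x87870806861a) (nat_lit 0) (p (nat_lit 0x80000000070786058a) (nat_lit 0) (p (nat_lit 0x8787058502) (nat_lit 0) (p (nat_lit 0x8586850482) (nat_lit 0) (p (nat_lit 0x160014) (nat_lit 0) (p (nat_lit 0x160004) (nat_lit 0) (p (nat_lit 0x68612) (nat_lit 0) (p (nat_lit 0x50592) (nat_lit 0) (p (nat_lit 0x40512) (nat_lit 0) (p (nat_lit 0x50312) (nat_lit 0) (p (nat_lit 0x38292) (nat_lit 0) (p (nat_lit 0x28212) (nat_lit 0) (p (nat_lit 0x38112) (nat_lit 0) (p (nat_lit 0x20092) (nat_lit 0) (p (nat_lit 0x10012) (nat_lit 0) pn)))))))))))))))))) :=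
  Cl.node (nat_lit 0xd1) (nat_lit 2) (by decide +kernel) (ClAll.succ (ClAll.succ ClAll.zero n341) n342)

def n348 : Cl (O (nat_lit 2)) (R (nat_lit 14353))
    (p (nat_lit 0x81) (nat_lit 1) (p (nat_lit 0x41) (nat_lit 1) (p (nat_lit 0x88090887069a) (nat_lit 0) (p (nat_lit 0x87870806861a) (nat_lit 0) (p (nat_lit 0x80000000070786058a) (nat_lit 0) (p (nat_lit 0x8787058502) (nat_lit 0) (p (nat_lit 0x8586850482) (nat_lit 0) (p (nat_lit 0x160014) (nat_lit 0) (p (nat_lit 0x160004) (nat_lit 0) (p (nat_lit 0x68612) (nat_lit 0) (p (nat_lit 0x50592) (nat_lit 0) (p (nat_lit 0x40512) (nat_lit 0) (p (nat_lit 0x50312) (nat_lit 0) (p (nat_lit 0x38292) (nat_lit 0) (p (nat_lit 0x28212) (nat_lit 0) (p (nat_lit 0x38112) (nat_lit 0) (p (nat_lit 0x20092) (nat_lit 0) (p (nat_lit 0x10012) (nat_lit 0) pn)))))))))))))))))) :=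
  Cl.node (nat_lit 0xc1) (nat_lit 2) (by decide +kernel) (ClAll.succ (ClAll.succ ClAll.zero n343) n344)

def n349 : Cl (O (nat_lit 2)) (R (nat_lit 14353))
    (p (nat_lit 0x41) (nat_lit 0) (p (nat_lit 0x88090887069a) (nat_lit 0) (p (nat_lit 0x87870806861a) (nat_lit 0) (p (nat_lit 0x80000000070786058a) (nat_lit 0) (p (nat_lit 0x8787058502) (nat_lit 0) (p (nat_lit 0x8586850482) (nat_lit 0) (p (nat_lit 0x160014) (nat_lit 0) (p (nat_lit 0x160004) (nat_lit 0) (p (nat_lit 0x68612) (nat_lit 0) (p (nat_lit 0x50592) (nat_lit 0) (p (nat_lit 0x40512) (nat_lit 0) (p (nat_lit 0x50312) (nat_lit 0) (p (nat_lit 0x38292) (nat_lit 0) (p (nat_lit 0x28212) (nat_lit 0) (p (nat_lit 0x38112) (nat_lit 0) (p (nat_lit 0x20092) (nat_lit 0) (p (nat_lit 0x10012) (nat_lit 0) pn))))))))))))))))) :=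
  Cl.node (nat_lit 0x89) (nat_lit 2) (by decide +kernel) (ClAll.succ (ClAll.succ ClAll.zero n345) n346)

def n350 : Cl (O (nat_lit 2)) (R (nat_lit 14353))
    (p (nat_lit 0x41) (nat_lit 1) (p (nat_lit 0x88090887069a) (nat_lit 0) (p (nat_lit 0x87870806861a) (nat_lit 0) (p (nat_lit 0x80000000070786058a) (nat_lit 0) (p (nat_lit 0x8787058502) (nat_lit 0) (p (nat_lit 0x8586850482) (nat_lit 0) (p (nat_lit 0x160014) (nat_lit 0) (p (nat_lit 0x160004) (nat_lit 0) (p (nat_lit 0x68612) (nat_lit 0) (p (nat_lit 0x50592) (nat_lit 0) (p (nat_lit 0x40512) (nat_lit 0) (p (nat_lit 0x50312) (nat_lit 0) (p (nat_lit 0x38292) (nat_lit 0) (p (nat_lit 0x28212) (nat_lit 0) (p (nat_lit 0x38112) (nat_lit 0) (p (nat_lit 0x20092) (nat_lit 0) (p (nat_lit 0x10012) (nat_lit 0) pn))))))))))))))))) :=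
  Cl.node (nat_lit 0x81) (nat_lit 2) (by decide +kernel) (ClAll.succ (ClAll.succ ClAll.zero n347) n348)

def n351 : Cl (O (nat_lit 2)) (R (nat_lit 14353))
    (p (nat_lit 0x88090887069a) (nat_lit 0) (p (nat_lit 0x87870806861a) (nat_lit 0) (p (nat_lit 0x80000000070786058a) (nat_lit 0) (p (nat_lit 0x8787058502) (nat_lit 0) (p (nat_lit 0x8586850482) (nat_lit 0) (p (nat_lit 0x160014) (nat_lit 0) (p (nat_lit 0x160004) (nat_lit 0) (p (nat_lit 0x68612) (nat_lit 0) (p (nat_lit 0x50592) (nat_lit 0) (p (nat_lit 0x40512) (nat_lit 0) (p (nat_lit 0x50312) (nat_lit 0) (p (nat_lit 0x38292) (nat_lit 0) (p (nat_lit 0x28212) (nat_lit 0) (p (nat_lit 0x38112) (nat_lit 0) (p (nat_lit 0x20092) (nat_lit 0) (p (nat_lit 0x10012) (nat_lit 0) pn)))))))))))))))) :=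
  Cl.node (nat_lit 0x41) (nat_lit 2) (by decide +kernel) (ClAll.succ (ClAll.succ ClAll.zero n349) n350)

def n352 : Cl (O (nat_lit 2)) (R (nat_lit 14353))
    (p (nat_lit 0x87870806861a) (nat_lit 0) (p (nat_lit 0x80000000070786058a) (nat_lit 0) (p (nat_lit 0x8787058502) (nat_lit 0) (p (nat_lit 0x8586850482) (nat_lit 0) (p (nat_lit 0x160014) (nat_lit 0) (p (nat_lit 0x160004) (nat_lit 0) (p (nat_lit 0x68612) (nat_lit 0) (p (nat_lit 0x50592) (nat_lit 0) (p (nat_lit 0x40512) (nat_lit 0) (p (nat_lit 0x50312) (nat_lit 0) (p (nat_lit 0x38292) (nat_lit 0) (p (nat_lit 0x28212) (nat_lit 0) (p (nat_lit 0x38112) (nat_lit 0) (p (nat_lit 0x20092) (nat_lit 0) (p (nat_lit 0x10012) (nat_lit 0) pn))))))))))))))) :=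
  Cl.node (nat_lit 0x88090887069a) (nat_lit 1) (by decide +kernel) (ClAll.succ ClAll.zero n351)

def n353 : Cl (O (nat_lit 2)) (R (nat_lit 14353))
    (p (nat_lit 0x80000000070786058a) (nat_lit 0) (p (nat_lit 0x8787058502) (nat_lit 0) (p (nat_lit 0x8586850482) (nat_lit 0) (p (nat_lit 0x160014) (nat_lit 0) (p (nat_lit 0x160004) (nat_lit 0) (p (nat_lit 0x68612) (nat_lit 0) (p (nat_lit 0x50592) (nat_lit 0) (p (nat_lit 0x40512) (nat_lit 0) (p (nat_lit 0x50312) (nat_lit 0) (p (nat_lit 0x38292) (nat_lit 0) (p (nat_lit 0x28212) (nat_lit 0) (p (nat_lit 0x38112) (nat_lit 0) (p (nat_lit 0x20092) (nat_lit 0) (p (nat_lit 0x10012) (nat_lit 0) pn)))))))))))))) :=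
  Cl.node (nat_lit 0x87870806861a) (nat_lit 1) (by decide +kernel) (ClAll.succ ClAll.zero n352)

def n354 : Cl (O (nat_lit 2)) (R (nat_lit 14353))
    (p (nat_lit 0x8787058502) (nat_lit 0) (p (nat_lit 0x8586850482) (nat_lit 0) (p (nat_lit 0x160014) (nat_lit 0) (p (nat_lit 0x160004) (nat_lit 0) (p (nat_lit 0x68612) (nat_lit 0) (p (nat_lit 0x50592) (nat_lit 0) (p (nat_lit 0x40512) (nat_lit 0) (p (nat_lit 0x50312) (nat_lit 0) (p (nat_lit 0x38292) (nat_lit 0) (p (nat_lit 0x28212) (nat_lit 0) (p (nat_lit 0x38112) (nat_lit 0) (p (nat_lit 0x20092) (nat_lit 0) (p (nat_lit 0x10012) (nat_lit 0) pn))))))))))))) :=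
  Cl.node (nat_lit 0x80000000070786058a) (nat_lit 1) (by decide +kernel) (ClAll.succ ClAll.zero n353)

def n355 : Cl (O (nat_lit 2)) (R (nat_lit 14353))
    (p (nat_lit 0x8586850482) (nat_lit 0) (p (nat_lit 0x160014) (nat_lit 0) (p (nat_lit 0x160004) (nat_lit 0) (p (nat_lit 0x68612) (nat_lit 0) (p (nat_lit 0x50592) (nat_lit 0) (p (nat_lit 0x40512) (nat_lit 0) (p (nat_lit 0x50312) (nat_lit 0) (p (nat_lit 0x38292) (nat_lit 0) (p (nat_lit 0x28212) (nat_lit 0) (p (nat_lit 0x38112) (nat_lit 0) (p (nat_lit 0x20092) (nat_lit 0) (p (nat_lit 0x10012) (nat_lit 0) pn)))))))))))) :=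
  Cl.node (nat_lit 0x8787058502) (nat_lit 1) (by decide +kernel) (ClAll.succ ClAll.zero n354)

def n356 : Cl (O (nat_lit 2)) (R (nat_lit 14353))
    (p (nat_lit 0x160014) (nat_lit 0) (p (nat_lit 0x160004) (nat_lit 0) (p (nat_lit 0x68612) (nat_lit 0) (p (nat_lit 0x50592) (nat_lit 0) (p (nat_lit 0x40512) (nat_lit 0) (p (nat_lit 0x50312) (nat_lit 0) (p (nat_lit 0x38292) (nat_lit 0) (p (nat_lit 0x28212) (nat_lit 0) (p (nat_lit 0x38112) (nat_lit 0) (p (nat_lit 0x20092) (nat_lit 0) (p (nat_lit 0x10012) (nat_lit 0) pn))))))))))) :=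
  Cl.node (nat_lit 0x8586850482) (nat_lit 1) (by decide +kernel) (ClAll.succ ClAll.zero n355)

def n357 : Cl (O (nat_lit 2)) (R (nat_lit 14353))
    (p (nat_lit 0x160004) (nat_lit 0) (p (nat_lit 0x68612) (nat_lit 0) (p (nat_lit 0x50592) (nat_lit 0) (p (nat_lit 0x40512) (nat_lit 0) (p (nat_lit 0x50312) (nat_lit 0) (p (nat_lit 0x38292) (nat_lit 0) (p (nat_lit 0x28212) (nat_lit 0) (p (nat_lit 0x38112) (nat_lit 0) (p (nat_lit 0x20092) (nat_lit 0) (p (nat_lit 0x10012) (nat_lit 0) pn)))))))))) :=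
  Cl.node (nat_lit 0x160014) (nat_lit 2) (by decide +kernel) (ClAll.succ (ClAll.succ ClAll.zero n356) s335)

def n358 : Cl (O (nat_lit 2)) (R (nat_lit 14353))
    (p (nat_lit 0x68612) (nat_lit 0) (p (nat_lit 0x50592) (nat_lit 0) (p (nat_lit 0x40512) (nat_lit 0) (p (nat_lit 0x50312) (nat_lit 0) (p (nat_lit 0x38292) (nat_lit 0) (p (nat_lit 0x28212) (nat_lit 0) (p (nat_lit 0x38112) (nat_lit 0) (p (nat_lit 0x20092) (nat_lit 0) (p (nat_lit 0x10012) (nat_lit 0) pn))))))))) :=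
  Cl.node (nat_lit 0x160004) (nat_lit 2) (by decide +kernel) (ClAll.succ (ClAll.succ ClAll.zero n357) s336)

def n359 : Cl (O (nat_lit 2)) (R (nat_lit 14353))
    (p (nat_lit 0x50592) (nat_lit 0) (p (nat_lit 0x40512) (nat_lit 0) (p (nat_lit 0x50312) (nat_lit 0) (p (nat_lit 0x38292) (nat_lit 0) (p (nat_lit 0x28212) (nat_lit 0) (p (nat_lit 0x38112) (nat_lit 0) (p (nat_lit 0x20092) (nat_lit 0) (p (nat_lit 0x10012) (nat_lit 0) pn)))))))) :=
  Cl.node (nat_lit 0x68612) (nat_lit 1) (by decide +kernel) (ClAll.succ ClAll.zero n358)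

def n360 : Cl (O (nat_lit 2)) (R (nat_lit 14353))
    (p (nat_lit 0x40512) (nat_lit 0) (p (nat_lit 0x50312) (nat_lit 0) (p (nat_lit 0x38292) (nat_lit 0) (p (nat_lit 0x28212) (nat_lit 0) (p (nat_lit 0x38112) (nat_lit 0) (p (nat_lit 0x20092) (nat_lit 0) (p (nat_lit 0x10012) (nat_lit 0) pn))))))) :=
  Cl.node (nat_lit 0x50592) (nat_lit 1) (by decide +kernel) (ClAll.succ ClAll.zero n359)

def n361 : Cl (O (nat_lit 2)) (R (nat_lit 14353))
    (p (nat_lit 0x50312) (nat_lit 0) (p (nat_lit 0x38292) (nat_lit 0) (p (nat_lit 0x28212) (nat_lit 0) (p (nat_lit 0x38112) (nat_lit 0) (p (nat_lit 0x20092) (nat_lit 0) (p (nat_lit 0x10012) (nat_lit 0) pn)))))) :=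
  Cl.node (nat_lit 0x40512) (nat_lit 1) (by decide +kernel) (ClAll.succ ClAll.zero n360)

def n362 : Cl (O (nat_lit 2)) (R (nat_lit 14353))
    (p (nat_lit 0x38292) (nat_lit 0) (p (nat_lit 0x28212) (nat_lit 0) (p (nat_lit 0x38112) (nat_lit 0) (p (nat_lit 0x20092) (nat_lit 0) (p (nat_lit 0x10012) (nat_lit 0) pn))))) :=
  Cl.node (nat_lit 0x50312) (nat_lit 1) (by decide +kernel) (ClAll.succ ClAll.zero n361)

def n363 : Cl (O (nat_lit 2)) (R (nat_lit 14353))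
    (p (nat_lit 0x28212) (nat_lit 0) (p (nat_lit 0x38112) (nat_lit 0) (p (nat_lit 0x20092) (nat_lit 0) (p (nat_lit 0x10012) (nat_lit 0) pn)))) :=
  Cl.node (nat_lit 0x38292) (nat_lit 1) (by decide +kernel) (ClAll.succ ClAll.zero n362)

def n364 : Cl (O (nat_lit 2)) (R (nat_lit 14353))
    (p (nat_lit 0x38112) (nat_lit 0) (p (nat_lit 0x20092) (nat_lit 0) (p (nat_lit 0x10012) (nat_lit 0) pn))) :=
  Cl.node (nat_lit 0x28212) (nat_lit 1) (by decide +kernel) (ClAll.succ ClAll.zero n363)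

def n365 : Cl (O (nat_lit 2)) (R (nat_lit 14353))
    (p (nat_lit 0x20092) (nat_lit 0) (p (nat_lit 0x10012) (nat_lit 0) pn)) :=
  Cl.node (nat_lit 0x38112) (nat_lit 1) (by decide +kernel) (ClAll.succ ClAll.zero n364)

def n366 : Cl (O (nat_lit 2)) (R (nat_lit 14353))
    (p (nat_lit 0x10012) (nat_lit 0) pn) :=
  Cl.node (nat_lit 0x20092) (nat_lit 1) (by decide +kernel) (ClAll.succ ClAll.zero n365)

def n367 : Cl (O (nat_lit 2)) (R (nat_lit 14353))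
    pn :=
  Cl.node (nat_lit 0x10012) (nat_lit 1) (by decide +kernel) (ClAll.succ ClAll.zero n366)

theorem top : Cl (O (nat_lit 2)) (R (nat_lit 14353)) pn := n367

end Pool.Agent.Gen.F5.X12CD3Cm2
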